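import Pool.Agent.Work.MP_157c12_gt.RA.Stmts
import Pool.Agent.Work.MP_157c12_gt.Rot.GStmts

/-! Bundle of small proof modules (one section per former module). -/

section

section

/-!
# Rotational hypersurfaces of finite type: item VRed
-/

open Finset

namespace Pool.Agent.Work.MP_157c12_gt.RA

namespace ItemVRed

variable {K : Type} [Field K] [Algebra ℂ K]

/-- Exchange. -/
theorem exch (u e x : K) (he : Alg1 u e) (hx : Alg1 u x) (ht : Transcendental ℂ e) :
    IsAlgebraic (Algebra.adjoin ℂ ({e} : Set K)) x := by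
  have hcl : ∀ (s : Set K) (a : K), a ∈ (AlgebraicIndependent.matroid ℂ K).closure s ↔
      IsAlgebraic (Algebra.adjoin ℂ s) a := by
    intro s a
    rw [AlgebraicIndependent.matroid_closure_eq, SetLike.mem_coe,
      Subalgebra.mem_algebraicClosure]
  have he1 : e ∈ (AlgebraicIndependent.matroid ℂ K).closure {u} :=
    (hcl _ _).2 (IntermediateField.isAlgebraic_adjoin_iff.1 he)
  have hx1 : x ∈ (AlgebraicIndependent.matroid ℂ K).closure {u} :=
    (hcl _ _).2 (IntermediateField.isAlgebraic_adjoin_iff.1 hx)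
  have he0 : e ∉ (AlgebraicIndependent.matroid ℂ K).closure ∅ := by
    intro h
    rw [hcl, Algebra.adjoin_empty] at h
    apply ht
    obtain ⟨p, hp0, hp⟩ := h
    obtain ⟨q, rfl⟩ := Polynomial.map_surjective (algebraMap ℂ (⊥ : Subalgebra ℂ K)) (by
      rintro ⟨y, hy⟩
      obtain ⟨z, hz⟩ := Algebra.mem_bot.1 hy
      exact ⟨z, Subtype.ext hz⟩) p
    refine ⟨q, ?_, ?_⟩
    · rintro rfl
      exact hp0 (Polynomial.map_zero _)
    · rw [Polynomial.aeval_map_algebraMap] at hp
      exact hp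
  have hu1 : u ∈ (AlgebraicIndependent.matroid ℂ K).closure (insert e ∅) := by
    refine Matroid.mem_closure_insert he0 ?_
    simpa using he1
  rw [← hcl]
  have h1 : ({u} : Set K) ⊆ (AlgebraicIndependent.matroid ℂ K).closure {e} := by
    rintro y rfl
    simpa using hu1
  have h2 := (AlgebraicIndependent.matroid ℂ K).closure_subset_closure h1
  rw [Matroid.closure_closure] at h2
  exact h2 hx1

/-- The polynomial relation. -/
theorem relation (e x : K) (h : IsAlgebraic (Algebra.adjoin ℂ ({e} : Set K)) x) (he : e ≠ 0) :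
    ∃ Q : Polynomial (Polynomial ℂ), (∃ i, (Q.coeff i).coeff 0 ≠ 0) ∧
      Q.eval₂ (Polynomial.aeval e : Polynomial ℂ →ₐ[ℂ] K).toRingHom x = 0 := by
  obtain ⟨p, hp0, hp⟩ := h
  have hmem : ∀ r : Polynomial ℂ, Polynomial.aeval e r ∈ Algebra.adjoin ℂ ({e} : Set K) := by
    intro r
    exact Polynomial.aeval_mem_adjoin_singleton ℂ e
  let φ : Polynomial ℂ →+* Algebra.adjoin ℂ ({e} : Set K) :=
    ((Polynomial.aeval e : Polynomial ℂ →ₐ[ℂ] K).codRestrict _ hmem).toRingHom
  have hφ : Function.Surjective φ := by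
    rintro ⟨y, hy⟩
    rw [Algebra.adjoin_singleton_eq_range_aeval] at hy
    obtain ⟨r, hr⟩ := hy
    exact ⟨r, Subtype.ext hr⟩
  obtain ⟨Q, rfl⟩ := Polynomial.map_surjective φ hφ p
  have hQ0 : Q ≠ 0 := by
    rintro rfl
    exact hp0 (Polynomial.map_zero _)
  have hQ : Q.eval₂ (Polynomial.aeval e : Polynomial ℂ →ₐ[ℂ] K).toRingHom x = 0 := by
    rw [Polynomial.aeval_def, Polynomial.eval₂_map] at hp
    exact hp
  obtain ⟨n, Q', hQ', hQe⟩ := WfDvdMonoid.max_power_factor hQ0
    (Polynomial.prime_C_iff.2 (Polynomial.prime_X (R := ℂ))).irreducible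
  refine ⟨Q', ?_, ?_⟩
  · rw [Polynomial.C_dvd_iff_dvd_coeff] at hQ'
    push Not at hQ'
    obtain ⟨i, hi⟩ := hQ'
    exact ⟨i, fun h0 => hi (Polynomial.X_dvd_iff.2 h0)⟩
  · rw [hQe, Polynomial.eval₂_mul, Polynomial.eval₂_pow, Polynomial.eval₂_C] at hQ
    have e1 : (Polynomial.aeval e : Polynomial ℂ →ₐ[ℂ] K).toRingHom Polynomial.X = e :=
      Polynomial.aeval_X e
    rw [e1] at hQ
    exact (mul_eq_zero.1 hQ).resolve_left (pow_ne_zero _ he)

end ItemVRed

open ItemVRed in
theorem vRed : VRed := by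
  intro K _ _ u e x he hx ht
  have he0 : e ≠ 0 := by
    rintro rfl
    exact ht isAlgebraic_zero
  obtain ⟨Q, ⟨i0, hi0⟩, hQ⟩ := relation e x (exch u e x he hx ht) he0
  set N := Q.natDegree + 1 with hN
  set M := (range N).sup (fun i => (Q.coeff i).natDegree) + 1 with hM
  have hsup : ∀ a : ℕ × ℕ, (Q.coeff a.1).coeff a.2 ≠ 0 → a ∈ range N ×ˢ range M := by
    rintro ⟨i, j⟩ h
    have h1 : i < N := by
      by_contra hcon
      have : Q.coeff i = 0 := Polynomial.coeff_eq_zero_of_natDegree_lt (by omega)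
      exact h (by rw [this, Polynomial.coeff_zero])
    have h2 : j < M := by
      have h3 : j ≤ (Q.coeff i).natDegree := Polynomial.le_natDegree_of_ne_zero h
      have h4 : (Q.coeff i).natDegree ≤ (range N).sup (fun i => (Q.coeff i).natDegree) :=
        Finset.le_sup (f := fun i => (Q.coeff i).natDegree) (mem_range.2 h1)
      omega
    exact mem_product.2 ⟨mem_range.2 h1, mem_range.2 h2⟩
  refine ⟨Finsupp.onFinset (range N ×ˢ range M) (fun a => (Q.coeff a.1).coeff a.2) hsup,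
    ⟨i0, hi0⟩, ?_⟩
  rw [Finsupp.onFinset_sum _ (fun a => by rw [map_zero, zero_mul]), Finset.sum_product]
  rw [Polynomial.eval₂_eq_sum_range] at hQ
  rw [← hQ]
  refine Finset.sum_congr rfl (fun i hi => ?_)
  have h3 : (Q.coeff i).natDegree < M := by
    have h4 : (Q.coeff i).natDegree ≤ (range N).sup (fun i => (Q.coeff i).natDegree) :=
      Finset.le_sup (f := fun i => (Q.coeff i).natDegree) hi
    omega
  have e1 : (Polynomial.aeval e : Polynomial ℂ →ₐ[ℂ] K).toRingHom (Q.coeff i) =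
      ∑ j ∈ range M, (Q.coeff i).coeff j • e ^ j := Polynomial.aeval_eq_sum_range' h3 e
  rw [e1, Finset.sum_mul]
  refine Finset.sum_congr rfl (fun j _ => ?_)
  rw [Algebra.smul_def]
  ring

end Pool.Agent.Work.MP_157c12_gt.RA

end

section

/-!
# Two elements on different sides of the unit circle
-/

set_option autoImplicit false

open Finset

namespace Pool.Agent.Work.MP_157c12_gt.RA

namespace ItemVUnit

theorem key {K : Type} [Field K] [Algebra ℂ K] (V : ValuationSubring K)
    (hV : ∀ z : ℂ, algebraMap ℂ K z ∈ V) (z : ℂ) (hz : z ≠ 0) :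
    V.valuation (algebraMap ℂ K z) = 1 := by
  have h1 : V.valuation (algebraMap ℂ K z) ≤ 1 := (V.valuation_le_one_iff _).2 (hV z)
  have h2 : V.valuation (algebraMap ℂ K z⁻¹) ≤ 1 := (V.valuation_le_one_iff _).2 (hV z⁻¹)
  have h3 : V.valuation (algebraMap ℂ K z) * V.valuation (algebraMap ℂ K z⁻¹) = 1 := by
    rw [← map_mul, ← map_mul, mul_inv_cancel₀ hz, map_one, map_one]
  refine le_antisymm h1 ?_
  by_contra hlt
  rw [not_le] at hlt
  have h4 : V.valuation (algebraMap ℂ K z) * V.valuation (algebraMap ℂ K z⁻¹) ≤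
      V.valuation (algebraMap ℂ K z) * 1 := mul_le_mul_right h2 _
  rw [h3, mul_one] at h4
  exact absurd hlt (not_lt.2 h4)

/-- comparing two monomials -/
theorem cmp {K : Type} [Field K] (V : ValuationSubring K) (e x : K) (he0 : e ≠ 0)
    (he : V.valuation e < 1) (hx : 1 < V.valuation x) (i j i' j' : ℕ) (hi : i < i')
    (heq : V.valuation (x ^ i * e ^ j) = V.valuation (x ^ i' * e ^ j')) :
    ∃ a b : ℕ, 0 < a ∧ 0 < b ∧ V.valuation (e ^ a * x ^ b) = 1 := by
  have hx0 : x ≠ 0 := by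
    rintro rfl
    rw [map_zero] at hx
    exact absurd hx (not_lt.2 zero_le_one)
  have hve : (0 : V.ValueGroup) < V.valuation e := by
    rw [zero_lt_iff]
    exact (Valuation.ne_zero_iff _).2 he0
  have hj : j < j' := by
    by_contra hjj
    rw [not_lt] at hjj
    have h1 : V.valuation (x ^ i * e ^ j) < V.valuation (x ^ i' * e ^ j') := by
      rw [map_mul, map_mul, map_pow, map_pow, map_pow, map_pow]
      calc V.valuation x ^ i * V.valuation e ^ j ≤ V.valuation x ^ i * V.valuation e ^ j' :=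
            mul_le_mul_right (pow_le_pow_of_le_one hve.le he.le hjj) _
        _ < V.valuation x ^ i' * V.valuation e ^ j' :=
            mul_lt_mul_of_pos_right (pow_lt_pow_right₀ hx hi) (pow_pos hve _)
    exact absurd heq h1.ne
  refine ⟨j' - j, i' - i, by omega, by omega, ?_⟩
  have h2 : x ^ i' * e ^ j' = (x ^ i * e ^ j) * (e ^ (j' - j) * x ^ (i' - i)) := by
    have e1 : x ^ i' = x ^ i * x ^ (i' - i) := by rw [← pow_add]; congr 1; omega
    have e2 : e ^ j' = e ^ j * e ^ (j' - j) := by rw [← pow_add]; congr 1; omega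
    rw [e1, e2]; ring
  rw [h2, map_mul] at heq
  have h3 : V.valuation (x ^ i * e ^ j) ≠ 0 :=
    (Valuation.ne_zero_iff _).2 (mul_ne_zero (pow_ne_zero _ hx0) (pow_ne_zero _ he0))
  have h4 : V.valuation (x ^ i * e ^ j) * 1 =
      V.valuation (x ^ i * e ^ j) * V.valuation (e ^ (j' - j) * x ^ (i' - i)) := by
    rw [mul_one]; exact heq
  exact (mul_left_cancel₀ h3 h4).symm

end ItemVUnit

open ItemVUnit

theorem vUnit : VUnit := by
  intro K _ _ V hV e x he0 he hx hR
  obtain ⟨h, ⟨i0, hi0⟩, hsum⟩ := hR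
  have hve : V.valuation e < 1 := V.mem_nonunits_iff.1 he
  have hvx : 1 < V.valuation x := by
    rw [← not_le, V.valuation_le_one_iff]
    exact hx
  have hx0 : x ≠ 0 := by
    rintro rfl
    exact hx V.zero_mem
  have hmon : ∀ p ∈ h.support, V.valuation (algebraMap ℂ K (h p) * (x ^ p.1 * e ^ p.2)) =
      V.valuation (x ^ p.1 * e ^ p.2) := by
    intro p hp
    rw [map_mul, key V hV _ (Finsupp.mem_support_iff.1 hp), one_mul]
  have hne : h.support.Nonempty := ⟨(i0, 0), Finsupp.mem_support_iff.2 hi0⟩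
  -- two terms of the same valuation
  have hex : ∃ p ∈ h.support, ∃ q ∈ h.support, p ≠ q ∧
      V.valuation (x ^ p.1 * e ^ p.2) = V.valuation (x ^ q.1 * e ^ q.2) := by
    by_contra hcon
    push Not at hcon
    obtain ⟨p, hp, hmax⟩ := Finset.exists_max_image h.support
      (fun p => V.valuation (x ^ p.1 * e ^ p.2)) hne
    have hp0 : V.valuation (x ^ p.1 * e ^ p.2) ≠ 0 :=
      (Valuation.ne_zero_iff _).2 (mul_ne_zero (pow_ne_zero _ hx0) (pow_ne_zero _ he0))
    have hlt : V.valuation (∑ q ∈ h.support.erase p,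
        algebraMap ℂ K (h q) * (x ^ q.1 * e ^ q.2)) < V.valuation (x ^ p.1 * e ^ p.2) := by
      refine Valuation.map_sum_lt _ hp0 fun q hq => ?_
      have hq' := Finset.mem_of_mem_erase hq
      rw [hmon q hq']
      exact lt_of_le_of_ne (hmax q hq')
        (fun h' => hcon p hp q hq' (Finset.ne_of_mem_erase hq).symm h'.symm)
    have hs : algebraMap ℂ K (h p) * (x ^ p.1 * e ^ p.2) +
        ∑ q ∈ h.support.erase p, algebraMap ℂ K (h q) * (x ^ q.1 * e ^ q.2) = 0 := by
      rw [Finset.add_sum_erase _ (fun q => algebraMap ℂ K (h q) * (x ^ q.1 * e ^ q.2)) hp]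
      exact hsum
    have h5 : V.valuation (algebraMap ℂ K (h p) * (x ^ p.1 * e ^ p.2)) =
        V.valuation (∑ q ∈ h.support.erase p, algebraMap ℂ K (h q) * (x ^ q.1 * e ^ q.2)) := by
      rw [eq_neg_of_add_eq_zero_left hs, Valuation.map_neg]
    rw [hmon p hp] at h5
    exact absurd h5 hlt.ne'
  obtain ⟨p, hp, q, hq, hpq, hval⟩ := hex
  have hfin : ∃ a b : ℕ, 0 < a ∧ 0 < b ∧ V.valuation (e ^ a * x ^ b) = 1 := by
    rcases lt_trichotomy p.1 q.1 with h1 | h1 | h1
    · exact cmp V e x he0 hve hvx p.1 p.2 q.1 q.2 h1 hval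
    · exfalso
      rw [h1, map_mul, map_mul] at hval
      have h2 : V.valuation (x ^ q.1) ≠ 0 := (Valuation.ne_zero_iff _).2 (pow_ne_zero _ hx0)
      have h3 := mul_left_cancel₀ h2 hval
      have hve0 : (0 : V.ValueGroup) < V.valuation e := by
        rw [zero_lt_iff]
        exact (Valuation.ne_zero_iff _).2 he0
      have h4 : p.2 = q.2 := by
        rw [map_pow, map_pow] at h3
        exact (pow_right_strictAnti₀ hve0 hve).injective h3
      exact hpq (Prod.ext h1 h4)
    · exact cmp V e x he0 hve hvx q.1 q.2 p.1 p.2 h1 hval.symm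
  obtain ⟨a, b, ha, hb, hab⟩ := hfin
  refine ⟨a, b, ha, hb, (V.valuation_le_one_iff _).1 hab.le, (V.valuation_le_one_iff _).1 ?_⟩
  rw [map_inv₀, hab, inv_one]

end Pool.Agent.Work.MP_157c12_gt.RA

end

section

/-!
# Derivatives of bounded elements at a small place
-/

set_option autoImplicit false

open Finset

namespace Pool.Agent.Work.MP_157c12_gt.RA

namespace ItemVCon

/-- the derivative of an algebraic element vanishes -/
theorem D_alg {A : Type} [CommRing A] [IsDomain A] [Algebra ℂ A] (D : Derivation ℂ A A) {x : A}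
    (hx : IsAlgebraic ℂ x) : D x = 0 := by
  have hi : IsIntegral ℂ x := hx.isIntegral
  have h0 : Polynomial.aeval x (minpoly ℂ x) = 0 := minpoly.aeval ℂ x
  have hs : (minpoly ℂ x).Separable := (minpoly.irreducible hi).separable
  have h1 := D.map_aeval (minpoly ℂ x) x
  rw [h0, map_zero, smul_eq_mul] at h1
  rcases mul_eq_zero.1 h1.symm with h2 | h2
  · exact absurd h2 (hs.aeval_derivative_ne_zero h0)
  · exact h2

/-- a linear differential equation with initial value zero -/
theorem ode {k : Type} [Field k] [CharZero k] (y a : PowerSeries k)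
    (h0 : PowerSeries.constantCoeff y = 0) (h : PowerSeries.derivative k y = a * y) : y = 0 := by
  ext n
  rw [map_zero]
  induction n using Nat.strong_induction_on with
  | _ n ih =>
    rcases n with _ | n
    · rw [PowerSeries.coeff_zero_eq_constantCoeff_apply]
      exact h0
    · have h1 := congrArg (PowerSeries.coeff n) h
      rw [PowerSeries.coeff_mul] at h1
      rw [Finset.sum_eq_zero] at h1
      · rw [PowerSeries.coeff_derivative] at h1
        rcases mul_eq_zero.1 h1 with h2 | h2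
        · exact h2
        · exfalso
          have : ((n : k) + 1) ≠ 0 := by exact_mod_cast Nat.succ_ne_zero n
          exact this h2
      · intro p hp
        have h3 : p.2 ≤ n := by
          have := Finset.HasAntidiagonal.mem_antidiagonal.1 hp
          omega
        rw [ih p.2 (by omega), mul_zero]

end ItemVCon

open ItemVCon

theorem vCon (h : STay) : VCon := by
  intro K _ _ V hV B δ hBV hδ e he hev l hl hel x hx hR
  obtain ⟨r, ⟨i0, hi0⟩, hsum⟩ := hR
  -- the residue field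
  let ι : ℂ →+* V := (algebraMap ℂ K).codRestrict V.toSubring (fun z => hV z)
  let _ : Algebra ℂ (IsLocalRing.ResidueField V) :=
    ((IsLocalRing.residue V).comp ι).toAlgebra
  have : CharZero (IsLocalRing.ResidueField V) :=
    charZero_of_injective_algebraMap (algebraMap ℂ (IsLocalRing.ResidueField V)).injective
  let qV : B →+* V := B.val.toRingHom.codRestrict V.toSubring (fun b => hBV b b.2)
  let q : B →ₐ[ℂ] IsLocalRing.ResidueField V :=
    { (IsLocalRing.residue V).comp qV with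
      commutes' := fun z => by
        have : qV (algebraMap ℂ B z) = ι z := Subtype.ext rfl
        show (IsLocalRing.residue V) (qV (algebraMap ℂ B z)) =
          (IsLocalRing.residue V) (ι z)
        rw [this] }
  have hq : ∀ b : B, q b = IsLocalRing.residue V ⟨b, hBV b b.2⟩ := fun b => rfl
  have hq0 : ∀ b : B, q b = 0 ↔ (b : K) ∈ V.nonunits := by
    intro b
    rw [hq, IsLocalRing.residue_eq_zero_iff]
    exact (ValuationSubring.coe_mem_nonunits_iff (A := V) (a := ⟨(b : K), hBV b b.2⟩)).symm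
  -- the restricted derivation
  let DB : Derivation ℂ B B := Derivation.mk'
    { toFun := fun b => ⟨δ b, hδ b b.2⟩
      map_add' := fun a b => Subtype.ext (by simp)
      map_smul' := fun z b => Subtype.ext (by simp) }
    (fun a b => Subtype.ext (by simp))
  have hDB : ∀ b : B, ((DB b : B) : K) = δ b := fun b => rfl
  obtain ⟨T, hT, hTq⟩ := h ℂ B (IsLocalRing.ResidueField V) DB q
  -- `T e = 0`
  have hTe : T ⟨e, he⟩ = 0 := by
    refine ode _ (T ⟨l, hl⟩) ?_ ?_
    · rw [hTq, hq0]; exact hev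
    · rw [← hT, ← map_mul]
      congr 1
      exact Subtype.ext hel
  -- the relation
  have hrel : r.sum (fun ij c => algebraMap ℂ B c * ((⟨x, hx⟩ : B) ^ ij.1 * (⟨e, he⟩ : B) ^ ij.2))
      = 0 := by
    apply Subtype.ext
    rw [Finsupp.sum, AddSubmonoidClass.coe_finsetSum]
    rw [Finsupp.sum] at hsum
    simpa using hsum
  have hTrel : r.sum (fun ij c => algebraMap ℂ (PowerSeries (IsLocalRing.ResidueField V)) c *
      (T ⟨x, hx⟩ ^ ij.1 * (0 : PowerSeries (IsLocalRing.ResidueField V)) ^ ij.2)) = 0 := by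
    have h1 := congrArg T hrel
    rw [map_zero, Finsupp.sum, map_sum] at h1
    rw [Finsupp.sum]
    refine Eq.trans (Finset.sum_congr rfl fun p _ => ?_) h1
    rw [map_mul, map_mul, map_pow, map_pow, hTe, AlgHom.commutes]
  have halg : IsAlgebraic ℂ (T ⟨x, hx⟩) := by
    refine ⟨∑ p ∈ r.support, if p.2 = 0 then Polynomial.monomial p.1 (r p) else 0, ?_, ?_⟩
    · intro h0
      have h1 := congrArg (fun P => Polynomial.coeff P i0) h0
      simp only [Polynomial.finsetSum_coeff, Polynomial.coeff_zero] at h1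
      rw [Finset.sum_eq_single (i0, 0)] at h1
      · simp at h1
        exact hi0 h1
      · intro p _ hp
        by_cases hp2 : p.2 = 0
        · have hp1 : p.1 ≠ i0 := fun h' => hp (Prod.ext h' hp2)
          rw [if_pos hp2, Polynomial.coeff_monomial, if_neg hp1]
        · rw [if_neg hp2, Polynomial.coeff_zero]
      · intro hns
        exact absurd (Finsupp.mem_support_iff.2 hi0) hns
    · rw [map_sum, ← hTrel, Finsupp.sum]
      refine Finset.sum_congr rfl fun p _ => ?_
      by_cases hp2 : p.2 = 0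
      · rw [if_pos hp2, hp2, pow_zero, mul_one, Polynomial.aeval_monomial]
      · rw [if_neg hp2, zero_pow hp2, mul_zero, mul_zero, map_zero]
  have hder : PowerSeries.derivative (IsLocalRing.ResidueField V) (T ⟨x, hx⟩) = 0 :=
    D_alg ((PowerSeries.derivative (IsLocalRing.ResidueField V)).restrictScalars ℂ) halg
  have h7 : q (DB ⟨x, hx⟩) = 0 := by
    rw [← hTq, hT, hder, map_zero]
  exact (hq0 _).1 h7

end Pool.Agent.Work.MP_157c12_gt.RA

end

section

/-!
# Rotational hypersurfaces of finite type, algebraic part: bounded heights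
-/

open Finset

namespace Pool.Agent.Work.MP_157c12_gt.RA

namespace ItemVG

variable {K : Type} [Field K] [Algebra ℂ K]

theorem nu_mul {V : ValuationSubring K} {x y : K} (hx : x ∈ V.nonunits) (hy : y ∈ V) :
    x * y ∈ V.nonunits := by
  rw [ValuationSubring.mem_nonunits_iff] at hx ⊢
  rw [map_mul]
  exact mul_lt_one_of_lt_of_le hx ((V.valuation_le_one_iff y).2 hy)

/-- the valuation ring as a subalgebra -/
def vsub (V : ValuationSubring K) (hV : ∀ z : ℂ, algebraMap ℂ K z ∈ V) : Subalgebra ℂ K where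
  carrier := V
  mul_mem' := fun ha hb => V.mul_mem _ _ ha hb
  one_mem' := V.one_mem
  add_mem' := fun ha hb => V.add_mem _ _ ha hb
  zero_mem' := V.zero_mem
  algebraMap_mem' := hV

theorem deriv_stable (δ : Derivation ℂ K K) (s : Set K)
    (h : ∀ x ∈ s, δ x ∈ Algebra.adjoin ℂ s) :
    ∀ x ∈ Algebra.adjoin ℂ s, δ x ∈ Algebra.adjoin ℂ s := by
  intro x hx
  induction hx using Algebra.adjoin_induction with
  | mem x hx => exact h x hx
  | algebraMap r => rw [Derivation.map_algebraMap]; exact Subalgebra.zero_mem _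
  | add x y hx hy h1 h2 => rw [map_add]; exact Subalgebra.add_mem _ h1 h2
  | mul x y hx hy h1 h2 =>
    rw [Derivation.leibniz, smul_eq_mul, smul_eq_mul]
    exact Subalgebra.add_mem _ (Subalgebra.mul_mem _ hx h2) (Subalgebra.mul_mem _ hy h1)

theorem pow_deriv (δ : Derivation ℂ K K) (x w : K) (h : δ x = w * x) (a : ℕ) :
    δ (x ^ a) = (a * w) * x ^ a := by
  induction a with
  | zero => simp
  | succ a ih =>
    rw [pow_succ, Derivation.leibniz, smul_eq_mul, smul_eq_mul, ih, h]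
    push_cast
    ring

end ItemVG

open ItemVG in
theorem vG (h1 : VRed) (h2 : VUnit) (h3 : VCon) : VG := by
  intro K _ _ V hV B δ hB hδ u f G om ta hf0 hfB hfn homB homi hom0 htaB hδf hδG hAf hAG htr
  by_contra hG
  have hG0 : G ≠ 0 := by
    rintro rfl
    exact hG V.zero_mem
  have hGi : G⁻¹ ∈ V := (V.mem_or_inv_mem G).resolve_left hG
  have hRl : Rl f G := h1 K u f G hAf hAG htr
  obtain ⟨a, b, ha, hb, hE, hEi⟩ := h2 K V hV f G hf0 hfn hG hRl
  set E : K := f ^ a * G ^ b with hEdef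
  have hE0 : E ≠ 0 := mul_ne_zero (pow_ne_zero _ hf0) (pow_ne_zero _ hG0)
  -- the derivative of `E`
  have hδG' : δ G = (ta * f * G⁻¹) * G := by
    rw [hδG, mul_assoc (ta * f), inv_mul_cancel₀ hG0, mul_one]
  have hδE : δ E = ((a : K) * om + b * (ta * f * G⁻¹)) * E := by
    rw [hEdef, Derivation.leibniz, smul_eq_mul, smul_eq_mul, pow_deriv δ f om hδf,
      pow_deriv δ G _ hδG']
    ring
  have hδGi : δ G⁻¹ = -(ta * f * (G⁻¹ * G⁻¹)) := by
    rw [Derivation.leibniz_inv, hδG, smul_eq_mul]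
    ring
  set s : Set K := (B : Set K) ∪ {G⁻¹, E} with hs
  have hsub : ∀ x ∈ B, x ∈ Algebra.adjoin ℂ s := fun x hx =>
    Algebra.subset_adjoin (Or.inl hx)
  have hGs : G⁻¹ ∈ Algebra.adjoin ℂ s := Algebra.subset_adjoin (Or.inr (Or.inl rfl))
  have hEs : E ∈ Algebra.adjoin ℂ s := Algebra.subset_adjoin (Or.inr (Or.inr rfl))
  have hst : ∀ x ∈ Algebra.adjoin ℂ s, δ x ∈ Algebra.adjoin ℂ s := by
    apply deriv_stable
    rintro x (hx | hx | hx)
    · exact hsub _ (hδ x hx)
    · rw [hx, hδGi]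
      exact Subalgebra.neg_mem _ (Subalgebra.mul_mem _ (Subalgebra.mul_mem _ (hsub _ htaB)
        (hsub _ hfB)) (Subalgebra.mul_mem _ hGs hGs))
    · have hx' : x = E := hx
      rw [hx', hδE]
      refine Subalgebra.mul_mem _ (Subalgebra.add_mem _ ?_ ?_) hEs
      · exact Subalgebra.mul_mem _ (Subalgebra.natCast_mem _ _) (hsub _ homB)
      · exact Subalgebra.mul_mem _ (Subalgebra.natCast_mem _ _)
          (Subalgebra.mul_mem _ (Subalgebra.mul_mem _ (hsub _ htaB) (hsub _ hfB)) hGs)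
  have hVs : ∀ x ∈ Algebra.adjoin ℂ s, x ∈ V := by
    have : Algebra.adjoin ℂ s ≤ vsub V hV := by
      rw [Algebra.adjoin_le_iff]
      rintro x (hx | hx | hx)
      · exact hB x hx
      · rw [hx]
        exact hGi
      · rw [hx]
        exact hE
    exact fun x hx => this hx
  have hAE : Alg1 u E := (hAf.pow a).mul (hAG.pow b)
  have hRE : Rl f E := h1 K u f E hAf hAE htr
  have hcon := h3 K V hV (Algebra.adjoin ℂ s) δ hVs hst f (hsub _ hfB) hfn om (hsub _ homB) hδf
    E hEs hRE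
  rw [hδE] at hcon
  have hc2 := nu_mul hcon hEi
  rw [mul_assoc, mul_inv_cancel₀ hE0, mul_one] at hc2
  have hc3 : (b : K) * (ta * f * G⁻¹) ∈ V.nonunits := by
    have : (b : K) * (ta * f * G⁻¹) = f * ((b : K) * (ta * G⁻¹)) := by ring
    rw [this]
    refine nu_mul hfn (V.mul_mem _ _ ?_ (V.mul_mem _ _ (hB _ htaB) hGi))
    have := hV (b : ℂ)
    rwa [map_natCast] at this
  have hc4 : (a : K) * om ∈ V.nonunits := by
    have := V.nonunits.sub_mem hc2 hc3
    rwa [add_sub_cancel_right] at this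
  have ha0 : (a : K) ≠ 0 := by
    have h5 : algebraMap ℂ K (a : ℂ) ≠ 0 := by
      rw [Ne, FaithfulSMul.algebraMap_eq_zero_iff ℂ K]
      exact_mod_cast ha.ne'
    rwa [map_natCast] at h5
  have hai : ((a : K))⁻¹ ∈ V := by
    have := hV ((a : ℂ)⁻¹)
    rwa [map_inv₀, map_natCast] at this
  have hc5 := nu_mul (nu_mul hc4 hai) homi
  have h6 : (a : K) * om * (a : K)⁻¹ * om⁻¹ = 1 := by
    field_simp
  rw [h6, ValuationSubring.mem_nonunits_iff, map_one] at hc5
  exact lt_irrefl _ hc5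

end Pool.Agent.Work.MP_157c12_gt.RA

end

section

/-!
# Rotational hypersurfaces of finite type, algebraic part: elements of all valuation rings
-/

set_option autoImplicit false

open Finset

namespace Pool.Agent.Work.MP_157c12_gt.RA

namespace ItemVI

variable {K : Type} [Field K] [Algebra ℂ K]

theorem closure_eq : Subring.closure (Set.range (algebraMap ℂ K)) = (algebraMap ℂ K).range := by
  have h : Set.range (algebraMap ℂ K) = ((algebraMap ℂ K).range : Set K) := by
    ext y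
    simp
  rw [h, Subring.closure_eq]

theorem isIntegral_of_range {x : K}
    (h : IsIntegral (Subring.closure (Set.range (algebraMap ℂ K))) x) : IsIntegral ℂ x := by
  obtain ⟨p, hp, hpx⟩ := h
  have hq : p.map (algebraMap (Subring.closure (Set.range (algebraMap ℂ K))) K) ∈
      Polynomial.lifts (algebraMap ℂ K) := by
    rw [Polynomial.lifts_iff_coeff_lifts]
    intro n
    rw [Polynomial.coeff_map]
    have h1 : ((p.coeff n : Subring.closure (Set.range (algebraMap ℂ K))) : K) ∈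
        (algebraMap ℂ K).range := (closure_eq (K := K)).le (p.coeff n).2
    exact RingHom.mem_range.1 h1
  obtain ⟨q, h1, -, h2⟩ := Polynomial.lifts_and_natDegree_eq_and_monic hq (hp.map _)
  refine ⟨q, h2, ?_⟩
  rw [Polynomial.eval₂_eq_eval_map, h1, ← Polynomial.eval₂_eq_eval_map]
  exact hpx

end ItemVI

theorem vI : VI := by
  intro K _ _ D x hx
  have h1 : x ∈ (⨅ V : {V : ValuationSubring K // Set.range (algebraMap ℂ K) ⊆ V.toSubring},
      V.1.toSubring) := by
    rw [Subring.mem_iInf]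
    intro V
    exact hx V.1 fun z => V.2 ⟨z, rfl⟩
  rw [iInf_valuationSubring_superset] at h1
  have h2 : IsIntegral ℂ x := ItemVI.isIntegral_of_range h1
  have h3 : (minpoly ℂ x).degree = 1 :=
    IsAlgClosed.degree_eq_one_of_irreducible ℂ (minpoly.irreducible h2)
  obtain ⟨z, rfl⟩ := minpoly.mem_range_of_degree_eq_one ℂ x h3
  exact D.map_algebraMap z

end Pool.Agent.Work.MP_157c12_gt.RA

end

section

/-!
# Transcendence of the profile
-/

set_option autoImplicit false

open Finset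

namespace Pool.Agent.Work.MP_157c12_gt.RA

namespace ItemVTr

theorem D_alg {K : Type} [Field K] [Algebra ℂ K] (D : Derivation ℂ K K) {x : K}
    (hx : IsAlgebraic ℂ x) : D x = 0 := by
  have hi : IsIntegral ℂ x := hx.isIntegral
  have h0 : Polynomial.aeval x (minpoly ℂ x) = 0 := minpoly.aeval ℂ x
  have hs : (minpoly ℂ x).Separable := (minpoly.irreducible hi).separable
  have h1 := D.map_aeval (minpoly ℂ x) x
  rw [h0, map_zero, smul_eq_mul] at h1
  rcases mul_eq_zero.1 h1.symm with h2 | h2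
  · exact absurd h2 (hs.aeval_derivative_ne_zero h0)
  · exact h2

theorem alg_of_int {K : Type} [Field K] [Algebra ℂ K] {u x : K}
    (hx : IsIntegral (Algebra.adjoin ℂ ({u} : Set K)) x) : Alg1 u x := by
  have hle : Algebra.adjoin ℂ ({u} : Set K) ≤
      (IntermediateField.adjoin ℂ ({u} : Set K)).toSubalgebra :=
    IntermediateField.algebra_adjoin_le_adjoin ℂ ({u} : Set K)
  obtain ⟨p, hp, hx⟩ := hx
  refine IsIntegral.isAlgebraic ⟨p.map (Subalgebra.inclusion hle).toRingHom, hp.map _, ?_⟩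
  rw [Polynomial.eval₂_map]
  exact hx

end ItemVTr

open ItemVTr

theorem vTr : VTr := by
  intro K _ _ D n k c u γ f G ρ σ ζ η h
  have hgen : ∀ i, Alg1 u (gen k 1 u γ (f ^ 2) ρ σ ζ η i) := fun i => alg_of_int (h.int i)
  set F := IntermediateField.adjoin ℂ ({u} : Set K) with hF
  have hmem : ∀ y : K, y ∈ algebraicClosure F K ↔ IsAlgebraic F y := fun y =>
    mem_algebraicClosure_iff
  have hf2 : Alg1 u (f ^ 2) := hgen (Sum.inl 3)
  have hf : Alg1 u f := IsAlgebraic.of_pow two_pos hf2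
  have hP0 : f ^ 2 ≠ 0 := pow_ne_zero 2 h.f0
  have hζ : ∀ l, 1 ≤ l → l ≤ k → ζ l ∈ algebraicClosure F K := by
    intro l hl1 hlk
    have h1 := hgen (Sum.inr (2, ⟨l - 1, by omega⟩))
    have h2 : gen k 1 u γ (f ^ 2) ρ σ ζ η (Sum.inr (2, ⟨l - 1, by omega⟩)) = ζ l := by
      show ζ ((l - 1) + 1) = ζ l
      congr 1
      omega
    rw [h2] at h1
    exact (hmem _).2 h1
  have hC : ∀ z : ℂ, algebraMap ℂ K z ∈ algebraicClosure F K := by
    intro z
    have : algebraMap ℂ K z = algebraMap F K (algebraMap ℂ F z) := rfl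
    rw [this]
    exact (algebraicClosure F K).algebraMap_mem _
  have hfP : f ^ 2 ∈ algebraicClosure F K := (hmem _).2 hf2
  have hζ0 : ζ 0 ∈ algebraicClosure F K := by
    have h1 := h.rζ
    obtain ⟨k', rfl⟩ : ∃ k', k = k' + 1 := ⟨k - 1, by have := h.k1; omega⟩
    rw [Finset.sum_range_succ'] at h1
    have h3 : algebraMap ℂ K (c 0) * (f ^ 2) ^ (k' + 1 - 0) * ζ 0 = ζ (k' + 1) -
        ∑ l ∈ range k', algebraMap ℂ K (c (l + 1)) * (f ^ 2) ^ (k' + 1 - (l + 1)) * ζ (l + 1) := by
      rw [h1]; ring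
    have h4 : algebraMap ℂ K (c 0) * (f ^ 2) ^ (k' + 1 - 0) * ζ 0 ∈ algebraicClosure F K := by
      rw [h3]
      refine sub_mem (hζ _ (by omega) le_rfl) (sum_mem fun l hl => ?_)
      have hl' := Finset.mem_range.1 hl
      exact mul_mem (mul_mem (hC _) (pow_mem hfP _)) (hζ _ (by omega) (by omega))
    have h5 : algebraMap ℂ K (c 0) * (f ^ 2) ^ (k' + 1 - 0) ≠ 0 := by
      refine mul_ne_zero ?_ (pow_ne_zero _ hP0)
      rw [Ne, map_eq_zero]
      exact h.c0
    have h6 : ζ 0 = (algebraMap ℂ K (c 0) * (f ^ 2) ^ (k' + 1 - 0))⁻¹ *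
        (algebraMap ℂ K (c 0) * (f ^ 2) ^ (k' + 1 - 0) * ζ 0) := by
      rw [inv_mul_cancel_left₀ h5]
    rw [h6]
    exact mul_mem (inv_mem (mul_mem (hC _) (pow_mem hfP _))) h4
  have hG : Alg1 u G := by
    rw [← h.zG]
    exact (hmem _).1 (mul_mem ((hmem _).2 hf) hζ0)
  have hu : Transcendental ℂ u := by
    intro hu
    have hint : IsIntegral ℂ u := hu.isIntegral
    haveI : Algebra.IsAlgebraic ℂ F := IntermediateField.isAlgebraic_adjoin_simple hint
    have hf' : IsAlgebraic ℂ f := IsAlgebraic.restrictScalars ℂ hf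
    have hG' : IsAlgebraic ℂ G := IsAlgebraic.restrictScalars ℂ hG
    have h1 := D_alg D hf'
    have h2 := D_alg D hG'
    rw [h.df] at h1
    rw [h.dG] at h2
    have h3 : u = 0 := (mul_eq_zero.1 h1).resolve_right h.f0
    have h4 : γ = 0 := (mul_eq_zero.1 h2).resolve_right h.f0
    have h5 := h.sys.ab
    rw [h3, h4] at h5
    norm_num at h5
  refine ⟨hu, ?_, hf, hG, hgen⟩
  intro hf'
  have h1 := D_alg D hf'
  rw [h.df] at h1
  have h3 : u = 0 := (mul_eq_zero.1 h1).resolve_right h.f0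
  rw [h3] at hu
  exact hu isAlgebraic_zero

end Pool.Agent.Work.MP_157c12_gt.RA

end

section

open Finset

namespace Pool.Agent.Work.MP_157c12_gt.RA

namespace ItemVA

lemma mem_of_int {K : Type} [Field K] [Algebra ℂ K] (V : ValuationSubring K)
    (hV : ∀ z : ℂ, algebraMap ℂ K z ∈ V) (u : K) (hu : u ∈ V) (x : K)
    (hx : IsIntegral (Algebra.adjoin ℂ ({u} : Set K)) x) : x ∈ V := by
  let VS : Subalgebra ℂ K := { V.toSubring with algebraMap_mem' := hV }
  have hle : Algebra.adjoin ℂ ({u} : Set K) ≤ VS := by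
    rw [Algebra.adjoin_le_iff]
    rintro y rfl
    exact hu
  have hmem : ∀ s : Algebra.adjoin ℂ ({u} : Set K), (algebraMap _ K s) ∈ V := fun s => hle s.2
  let ψ : Algebra.adjoin ℂ ({u} : Set K) →+* V :=
    (algebraMap (Algebra.adjoin ℂ ({u} : Set K)) K).codRestrict V hmem
  obtain ⟨p, hp, hpx⟩ := hx
  have hint : IsIntegral V x := by
    refine ⟨p.map ψ, hp.map ψ, ?_⟩
    rw [Polynomial.eval₂_map]
    exact hpx
  obtain ⟨y, hy⟩ := IsIntegrallyClosed.isIntegral_iff.1 hint
  rw [← hy]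
  exact y.2

end ItemVA

open ItemVA in
theorem vA : VA := by
  intro K _ _ D n k c u γ f G ρ σ ζ η hP V hV hu
  have hgen : ∀ i, gen k 1 u γ (f ^ 2) ρ σ ζ η i ∈ V := fun i =>
    mem_of_int V hV u hu _ (hP.int i)
  have hf2 : f ^ 2 ∈ V := by
    have := hgen (Sum.inl 3)
    simpa [gen] using this
  have hf : f ∈ V := by
    rcases V.mem_or_inv_mem f with h | h
    · exact h
    · have h2 : f = f ^ 2 * f⁻¹ := by
        rw [pow_two, mul_assoc, mul_inv_cancel₀ hP.f0, mul_one]
      rw [h2]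
      exact V.mul_mem _ _ hf2 h
  refine ⟨hf, ?_⟩
  intro hn
  have hfi : f⁻¹ ∈ V := by
    rw [← V.valuation_le_one_iff, map_inv₀]
    rw [V.mem_nonunits_iff, not_lt] at hn
    exact inv_le_one_of_one_le₀ hn
  have hζ : ∀ l, 1 ≤ l → l ≤ k → ζ l ∈ V := by
    intro l h1 h2
    have := hgen (Sum.inr (2, ⟨l - 1, by omega⟩))
    have e : gen k 1 u γ (f ^ 2) ρ σ ζ η (Sum.inr (2, ⟨l - 1, by omega⟩)) = ζ l := by
      simp only [gen, Sum.elim_inr]
      show ζ (l - 1 + 1) = ζ l
      rw [Nat.sub_add_cancel h1]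
    rwa [e] at this
  have hr := hP.rζ
  obtain ⟨k', rfl⟩ : ∃ k', k = k' + 1 := ⟨k - 1, by have := hP.k1; omega⟩
  rw [Finset.sum_range_succ'] at hr
  have hsum : ∑ l ∈ range k', algebraMap ℂ K (c (l + 1)) * (f ^ 2) ^ (k' + 1 - (l + 1)) * ζ (l + 1)
      ∈ V := by
    refine sum_mem fun l hl => ?_
    rw [mem_range] at hl
    exact V.mul_mem _ _ (V.mul_mem _ _ (hV _) (pow_mem hf2 _)) (hζ _ (by omega) (by omega))
  have h0 : algebraMap ℂ K (c 0) * (f ^ 2) ^ (k' + 1 - 0) * ζ 0 ∈ V := by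
    have e : algebraMap ℂ K (c 0) * (f ^ 2) ^ (k' + 1 - 0) * ζ 0 = ζ (k' + 1) -
        ∑ l ∈ range k', algebraMap ℂ K (c (l + 1)) * (f ^ 2) ^ (k' + 1 - (l + 1)) * ζ (l + 1) := by
      rw [hr]
      ring
    rw [e]
    exact sub_mem (hζ _ (by omega) le_rfl) hsum
  have hζ0 : ζ 0 ∈ V := by
    have e : ζ 0 = algebraMap ℂ K (c 0)⁻¹ * ((f⁻¹) ^ (2 * (k' + 1)) *
        (algebraMap ℂ K (c 0) * (f ^ 2) ^ (k' + 1 - 0) * ζ 0)) := by
      have hc : algebraMap ℂ K (c 0) ≠ 0 := by
        rw [Ne, map_eq_zero]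
        exact hP.c0
      have hf0 := hP.f0
      rw [map_inv₀, Nat.sub_zero, ← pow_mul, inv_pow]
      have hp : f ^ (2 * (k' + 1)) ≠ 0 := pow_ne_zero _ hf0
      field_simp
    rw [e]
    exact V.mul_mem _ _ (hV _) (V.mul_mem _ _ (pow_mem hfi _) h0)
  rw [← hP.zG]
  exact V.mul_mem _ _ hf hζ0

end Pool.Agent.Work.MP_157c12_gt.RA

end

section

/-!
# Places with `|u| ≤ 1`, `|f| < 1`
-/

open Finset

namespace Pool.Agent.Work.MP_157c12_gt.RA

namespace ItemVB

variable {K : Type} [Field K] (V : ValuationSubring K)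

lemma nu_iff (x : K) : x ∈ V.nonunits ↔ V.valuation x < 1 := V.mem_nonunits_iff

lemma nu_add {x y : K} (hx : x ∈ V.nonunits) (hy : y ∈ V.nonunits) : x + y ∈ V.nonunits := by
  rw [nu_iff] at *
  exact V.valuation.map_add_lt hx hy

lemma nu_neg {x : K} (hx : x ∈ V.nonunits) : -x ∈ V.nonunits := by
  rw [nu_iff] at *
  rwa [Valuation.map_neg]

lemma nu_sub {x y : K} (hx : x ∈ V.nonunits) (hy : y ∈ V.nonunits) : x - y ∈ V.nonunits := by
  rw [sub_eq_add_neg]
  exact nu_add V hx (nu_neg V hy)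

lemma nu_mul {x y : K} (hx : x ∈ V) (hy : y ∈ V.nonunits) : x * y ∈ V.nonunits := by
  rw [nu_iff] at *
  rw [map_mul]
  have h1 : V.valuation x ≤ 1 := (V.valuation_le_one_iff x).2 hx
  calc V.valuation x * V.valuation y ≤ 1 * V.valuation y := mul_le_mul_left h1 _
    _ = V.valuation y := one_mul _
    _ < 1 := hy

lemma nu_zero : (0 : K) ∈ V.nonunits := by
  rw [nu_iff, map_zero]
  exact zero_lt_one

lemma nu_mem {x : K} (hx : x ∈ V.nonunits) : x ∈ V := by
  rw [nu_iff] at hx
  exact (V.valuation_le_one_iff x).1 hx.le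

lemma nu_sum {ι : Type} (s : Finset ι) (g : ι → K) (h : ∀ i ∈ s, g i ∈ V.nonunits) :
    ∑ i ∈ s, g i ∈ V.nonunits := by
  classical
  induction s using Finset.induction_on with
  | empty => simp [nu_zero V]
  | insert a s ha ih =>
    rw [Finset.sum_insert ha]
    exact nu_add V (h a (Finset.mem_insert_self a s))
      (ih fun i hi => h i (Finset.mem_insert_of_mem hi))

lemma int_mem [Algebra ℂ K] (S : Subalgebra ℂ K) (hS : ∀ b ∈ S, b ∈ V) (x : K) (hx : IsIntegral S x) :
    x ∈ V := by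
  let i : S →+* V := {
    toFun := fun s => ⟨s.1, hS s.1 s.2⟩
    map_one' := rfl
    map_mul' := fun _ _ => rfl
    map_zero' := rfl
    map_add' := fun _ _ => rfl }
  obtain ⟨p, hp, hpx⟩ := hx
  have hx' : IsIntegral V x := by
    refine ⟨p.map i, hp.map i, ?_⟩
    rw [Polynomial.eval₂_map]
    exact hpx
  obtain ⟨y, hy⟩ := IsIntegrallyClosed.isIntegral_iff.1 hx'
  rw [← hy]
  exact y.2

end ItemVB

open ItemVB in
theorem vB (h1 : VRed) (h2 : VCon) (h3 : VG) (h4 : VTr) (h5 : SAdj) : VB := by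
  intro K _ _ D n k c u γ f G ρ σ ζ η p V hC hu hf
  obtain ⟨tu, tf, af, aG, ag⟩ := h4 K D n k c u γ f G ρ σ ζ η p
  obtain ⟨-, -, hadj⟩ := h5 K D n k c 1 u γ (f ^ 2) ρ σ ζ η p.k1 p.sys
  have hVu : ∀ b ∈ Algebra.adjoin ℂ ({u} : Set K), b ∈ V := by
    intro b hb
    induction hb using Algebra.adjoin_induction with
    | mem x hx => rw [Set.mem_singleton_iff.1 hx]; exact hu
    | algebraMap r => exact hC r
    | add x y _ _ hx hy => exact V.add_mem _ _ hx hy
    | mul x y _ _ hx hy => exact V.mul_mem _ _ hx hy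
  have hgV : ∀ i, gen k 1 u γ (f ^ 2) ρ σ ζ η i ∈ V := fun i => int_mem V _ hVu _ (p.int i)
  have hfV : f ∈ V := nu_mem V hf
  let S : Set K := Set.range (gen k 1 u γ (f ^ 2) ρ σ ζ η) ∪ {f}
  let B : Subalgebra ℂ K := Algebra.adjoin ℂ S
  have hgB : ∀ i, gen k 1 u γ (f ^ 2) ρ σ ζ η i ∈ B := fun i =>
    Algebra.subset_adjoin (Or.inl ⟨i, rfl⟩)
  have hfB : f ∈ B := Algebra.subset_adjoin (Or.inr rfl)
  have huB : u ∈ B := hgB (Sum.inl 1)
  have hγB : γ ∈ B := hgB (Sum.inl 2)
  have hBV : ∀ b ∈ B, b ∈ V := by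
    intro b hb
    induction hb using Algebra.adjoin_induction with
    | mem x hx =>
      rcases hx with ⟨i, rfl⟩ | hx
      · exact hgV i
      · rw [Set.mem_singleton_iff.1 hx]; exact hfV
    | algebraMap r => exact hC r
    | add x y _ _ hx hy => exact V.add_mem _ _ hx hy
    | mul x y _ _ hx hy => exact V.mul_mem _ _ hx hy
  have hsub : Algebra.adjoin ℂ (Set.range (gen k 1 u γ (f ^ 2) ρ σ ζ η)) ≤ B :=
    Algebra.adjoin_mono Set.subset_union_left
  have hBD : ∀ b ∈ B, D b ∈ B := by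
    intro b hb
    induction hb using Algebra.adjoin_induction with
    | mem x hx =>
      rcases hx with ⟨i, rfl⟩ | hx
      · exact hsub (hadj _ (Algebra.subset_adjoin ⟨i, rfl⟩))
      · rw [Set.mem_singleton_iff.1 hx, p.df]
        exact B.mul_mem huB hfB
    | algebraMap r =>
      rw [Derivation.map_algebraMap]
      exact B.zero_mem
    | add x y _ _ hx hy =>
      rw [map_add]
      exact B.add_mem hx hy
    | mul x y hx' hy' hx hy =>
      rw [Derivation.leibniz, smul_eq_mul, smul_eq_mul]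
      exact B.add_mem (B.mul_mem hx' hy) (B.mul_mem hy' hx)
  have hcon : ∀ i, D (gen k 1 u γ (f ^ 2) ρ σ ζ η i) ∈ V.nonunits := fun i =>
    h2 K V hC B D hBV hBD f hfB hf u huB p.df _ (hgB i) (h1 K u f _ af (ag i) tf)
  have gρ : ∀ j (_ : 1 ≤ j) (_ : j ≤ k), ∃ i, gen k 1 u γ (f ^ 2) ρ σ ζ η i = ρ j := by
    intro j hj hjk
    refine ⟨Sum.inr (0, ⟨j - 1, by omega⟩), ?_⟩
    simp only [gen, Sum.elim_inr]
    have : j - 1 + 1 = j := by omega
    simp [this]
  have gσ : ∀ j (_ : 1 ≤ j) (_ : j ≤ k), ∃ i, gen k 1 u γ (f ^ 2) ρ σ ζ η i = σ j := by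
    intro j hj hjk
    refine ⟨Sum.inr (1, ⟨j - 1, by omega⟩), ?_⟩
    simp only [gen, Sum.elim_inr]
    have : j - 1 + 1 = j := by omega
    simp [this]
  have hρV : ∀ j, 1 ≤ j → j ≤ k → ρ j ∈ V := by
    intro j hj hjk
    obtain ⟨i, hi⟩ := gρ j hj hjk
    rw [← hi]; exact hgV i
  have hσV : ∀ j, 1 ≤ j → j ≤ k → σ j ∈ V := by
    intro j hj hjk
    obtain ⟨i, hi⟩ := gσ j hj hjk
    rw [← hi]; exact hgV i
  have hDρ : ∀ j, 1 ≤ j → j ≤ k → D (ρ j) ∈ V.nonunits := by
    intro j hj hjk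
    obtain ⟨i, hi⟩ := gρ j hj hjk
    rw [← hi]; exact hcon i
  have hDσ : ∀ j, 1 ≤ j → j ≤ k → D (σ j) ∈ V.nonunits := by
    intro j hj hjk
    obtain ⟨i, hi⟩ := gσ j hj hjk
    rw [← hi]; exact hcon i
  have hNV : ∀ m : ℕ, (m : K) ∈ V := by
    intro m
    have := hC (m : ℂ)
    rwa [map_natCast] at this
  have h1V : (1 : K) ∈ V := V.one_mem
  have hun : u ∉ V.nonunits := by
    intro hun
    have hσm : ∀ j, 1 ≤ j → j ≤ k → σ j ∈ V.nonunits := by
      intro j hj hjk
      have e : σ j = D (ρ j) - ((2 * (j : K) - 1) * ρ j) * u := by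
        rw [p.sys.dρ j hj hjk]; ring
      rw [e]
      refine nu_sub V (hDρ j hj hjk) (nu_mul V (V.mul_mem _ _ ?_ (hρV j hj hjk)) hun)
      exact sub_mem (V.mul_mem _ _ (hNV 2) (hNV j)) h1V
    have hρm : ∀ j, 1 ≤ j → j ≤ k → ρ j - (-((n : K) - 1)) ^ j ∈ V.nonunits := by
      intro j hj
      induction j, hj using Nat.le_induction with
      | base =>
        intro _
        have e : ρ 1 - (-((n : K) - 1)) ^ 1 = D u + ((n : K) - 1) * u * u := by
          rw [p.sys.du]; ring
        rw [e]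
        refine nu_add V (hcon (Sum.inl 1)) (nu_mul V (V.mul_mem _ _ ?_ hu) hun)
        exact sub_mem (hNV n) h1V
      | succ j hj ih =>
        intro hjk
        have hjk' : j ≤ k := by omega
        have e : ρ (j + 1) - (-((n : K) - 1)) ^ (j + 1) =
            D (σ j) - (2 * (j : K) + 1 - n) * u * σ j
              - ((n : K) - 1) * (ρ j - (-((n : K) - 1)) ^ j) := by
          rw [p.sys.dσ j hj hjk']; ring
        rw [e]
        have hn1 : (n : K) - 1 ∈ V := sub_mem (hNV n) h1V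
        refine nu_sub V (nu_sub V (hDσ j hj hjk') (nu_mul V (V.mul_mem _ _ ?_ hu)
          (hσm j hj hjk'))) (nu_mul V hn1 (ih hjk'))
        exact sub_mem (V.add_mem _ _ (V.mul_mem _ _ (hNV 2) (hNV j)) h1V) (hNV n)
    have hρk : ρ k ∈ V.nonunits := by
      rw [p.sys.rρ]
      refine nu_sum V _ _ fun l hl => ?_
      have hl' : l < k := Finset.mem_range.1 hl
      have hρl : ρ l ∈ V := by
        rcases Nat.eq_zero_or_pos l with h0 | h0
        · rw [h0, p.sys.r0]; exact h1V
        · exact hρV l h0 hl'.le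
      have e : algebraMap ℂ K (c l) * (f ^ 2) ^ (k - l) * ρ l =
          (algebraMap ℂ K (c l) * ρ l * (f * (f ^ 2) ^ (k - l - 1))) * f := by
        obtain ⟨d, hd⟩ : ∃ d, k - l = d + 1 := ⟨k - l - 1, by omega⟩
        rw [hd, Nat.add_sub_cancel]; ring
      rw [e]
      refine nu_mul V (V.mul_mem _ _ (V.mul_mem _ _ (hC _) hρl)
        (V.mul_mem _ _ hfV ?_)) hf
      exact pow_mem (pow_mem hfV 2) _
    have hpow : (-((n : K) - 1)) ^ k ∈ V.nonunits := by
      have e : (-((n : K) - 1)) ^ k = ρ k - (ρ k - (-((n : K) - 1)) ^ k) := by ring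
      rw [e]
      exact nu_sub V hρk (hρm k p.k1 le_rfl)
    have hz : (-((n : ℂ) - 1)) ^ k ≠ 0 := by
      apply pow_ne_zero
      rw [neg_ne_zero, sub_ne_zero]
      have := p.n2
      have h' : n ≠ 1 := by omega
      exact_mod_cast h'
    have hinv := nu_mul V (hC (((-((n : ℂ) - 1)) ^ k)⁻¹)) hpow
    have e : algebraMap ℂ K (((-((n : ℂ) - 1)) ^ k)⁻¹) * (-((n : K) - 1)) ^ k = 1 := by
      have : (-((n : K) - 1)) ^ k = algebraMap ℂ K ((-((n : ℂ) - 1)) ^ k) := by
        simp
      rw [this, ← map_mul, inv_mul_cancel₀ hz, map_one]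
    rw [e, nu_iff, map_one] at hinv
    exact lt_irrefl _ hinv
  have hu0 : u ≠ 0 := by
    intro h0
    exact hun (by rw [h0]; exact nu_zero V)
  have huinv : u⁻¹ ∈ V := by
    rw [nu_iff, not_lt] at hun
    rw [← V.valuation_le_one_iff, map_inv₀]
    exact inv_le_one_of_one_le₀ hun
  exact h3 K V hC B D hBV hBD u f G u γ p.f0 hfB hf huB huinv hu0 hγB p.df p.dG af aG tf

end Pool.Agent.Work.MP_157c12_gt.RA

end

section

/-!
# Item VE: the differential ring at a place with `1 < |u|`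
-/

open Finset

namespace Pool.Agent.Work.MP_157c12_gt.RA

namespace ItemVE

variable {K : Type} [Field K] [Algebra ℂ K]

/-- a valuation subring containing the constants, as a subalgebra -/
def vc (V : ValuationSubring K) (hV : ∀ z : ℂ, algebraMap ℂ K z ∈ V) : Subalgebra ℂ K :=
  { V.toSubring with algebraMap_mem' := hV }

lemma mem_vc {V : ValuationSubring K} {hV : ∀ z : ℂ, algebraMap ℂ K z ∈ V} {x : K} :
    x ∈ vc V hV ↔ x ∈ V := Iff.rfl

lemma mem_of_integral {V : ValuationSubring K} (hV : ∀ z : ℂ, algebraMap ℂ K z ∈ V) {t x : K}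
    (ht : t ∈ V) (hx : IsIntegral (Algebra.adjoin ℂ ({t} : Set K)) x) : x ∈ V := by
  have hle : Algebra.adjoin ℂ ({t} : Set K) ≤ vc V hV := by
    apply Algebra.adjoin_le
    intro y hy
    rw [Set.mem_singleton_iff] at hy
    rw [hy]
    exact ht
  let φ : Algebra.adjoin ℂ ({t} : Set K) →+* V :=
    { toFun := fun a => ⟨a.1, hle a.2⟩
      map_one' := rfl
      map_mul' := fun _ _ => rfl
      map_zero' := rfl
      map_add' := fun _ _ => rfl }
  have h1 : IsIntegral V ((RingHom.id K) x) :=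
    IsIntegral.map_of_comp_eq φ (RingHom.id K) (by ext a; rfl) hx
  obtain ⟨y, hy⟩ := IsIntegrallyClosed.isIntegral_iff.mp h1
  have : x = (y : K) := hy.symm
  rw [this]
  exact y.2

/-- closure of the adjoined algebra under `u⁻¹ D` -/
lemma closed_adjoin (D : Derivation ℂ K K) (s : Set K) (w : K)
    (h : ∀ x ∈ s, w * D x ∈ Algebra.adjoin ℂ s) :
    ∀ b ∈ Algebra.adjoin ℂ s, w * D b ∈ Algebra.adjoin ℂ s := by
  intro b hb
  induction hb using Algebra.adjoin_induction with
  | mem x hx => exact h x hx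
  | algebraMap r =>
    rw [Derivation.map_algebraMap, mul_zero]
    exact Subalgebra.zero_mem _
  | add x y hx hy h1 h2 =>
    rw [map_add, mul_add]
    exact Subalgebra.add_mem _ h1 h2
  | mul x y hx hy h1 h2 =>
    have : w * D (x * y) = x * (w * D y) + y * (w * D x) := by
      rw [Derivation.leibniz]
      simp only [smul_eq_mul]
      ring
    rw [this]
    exact Subalgebra.add_mem _ (Subalgebra.mul_mem _ hx h2) (Subalgebra.mul_mem _ hy h1)

lemma alg1_base (u : K) : Alg1 u u := by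
  have h : u ∈ IntermediateField.adjoin ℂ ({u} : Set K) :=
    IntermediateField.subset_adjoin ℂ _ (Set.mem_singleton u)
  exact isAlgebraic_algebraMap (⟨u, h⟩ : IntermediateField.adjoin ℂ ({u} : Set K))

lemma alg1_const (u : K) (r : ℂ) : Alg1 u (algebraMap ℂ K r) := by
  have h : algebraMap ℂ K r ∈ IntermediateField.adjoin ℂ ({u} : Set K) :=
    IntermediateField.algebraMap_mem _ r
  exact isAlgebraic_algebraMap (⟨_, h⟩ : IntermediateField.adjoin ℂ ({u} : Set K))

lemma alg1_div {u x y : K} (hx : Alg1 u x) (hy : Alg1 u y) : Alg1 u (x / y) := by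
  rw [div_eq_mul_inv]
  exact IsAlgebraic.mul hx (IsAlgebraic.inv hy)

lemma alg1_adjoin {u : K} (s : Set K) (h : ∀ x ∈ s, Alg1 u x) :
    ∀ b ∈ Algebra.adjoin ℂ s, Alg1 u b := by
  intro b hb
  induction hb using Algebra.adjoin_induction with
  | mem x hx => exact h x hx
  | algebraMap r => exact alg1_const u r
  | add x y hx hy h1 h2 => exact IsAlgebraic.add h1 h2
  | mul x y hx hy h1 h2 => exact IsAlgebraic.mul h1 h2

lemma D_inv (D : Derivation ℂ K K) {u : K} (hu : u ≠ 0) : D u⁻¹ = -(D u / u ^ 2) := by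
  have h1 : D (u * u⁻¹) = 0 := by
    rw [mul_inv_cancel₀ hu]
    exact D.map_one_eq_zero
  rw [Derivation.leibniz] at h1
  simp only [smul_eq_mul] at h1
  field_simp
  field_simp at h1
  linear_combination h1

lemma D_div (D : Derivation ℂ K K) {u : K} (hu : u ≠ 0) (g : K) (w : ℕ) :
    u⁻¹ * D (g / u ^ w) = D g / u ^ (w + 1) - (w : K) * (g / u ^ w) * (D u / u ^ 2) := by
  have h2 : D (u⁻¹ ^ w) = -((w : K) * (u⁻¹ ^ w * u⁻¹ * D u)) := by
    rcases w with _ | w
    · simp
    · rw [Derivation.leibniz_pow, D_inv D hu]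
      simp only [smul_eq_mul, nsmul_eq_mul, Nat.add_sub_cancel]
      rw [pow_succ u⁻¹ w, show D u / u ^ 2 = u⁻¹ * u⁻¹ * D u by field_simp]
      ring
  rw [div_eq_mul_inv g, ← inv_pow, Derivation.leibniz, h2]
  simp only [smul_eq_mul]
  rw [inv_pow, pow_succ]
  field_simp
  ring

end ItemVE

open ItemVE

theorem vE (h1 : VTr) : VE := by
  intro K _ _ D n k c u γ f G ρ σ ζ η hP V hV hu
  obtain ⟨-, -, hAf, -, hAg⟩ := h1 K D n k c u γ f G ρ σ ζ η hP
  have hu0 : u ≠ 0 := fun h => hu (by rw [h]; exact V.zero_mem)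
  have hui : u⁻¹ ∈ V := (V.mem_or_inv_mem u).resolve_left hu
  set y : Fin 4 ⊕ (Fin 4 × Fin k) → K := fun i => gen k 1 u γ (f ^ 2) ρ σ ζ η i / u ^ wgt k i
    with hy
  have hyV : ∀ i, y i ∈ V := fun i => mem_of_integral hV hui (hP.int' hu0 i)
  have hP2 : f ^ 2 / u ^ 2 ∈ V := hyV (Sum.inl 3)
  have hfu : f / u ∈ V := by
    rcases V.mem_or_inv_mem (f / u) with h | h
    · exact h
    · have : f / u = f ^ 2 / u ^ 2 * (f / u)⁻¹ := by
        have hf := hP.f0
        field_simp
      rw [this]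
      exact V.mul_mem _ _ hP2 h
  refine ⟨hfu, ?_⟩
  set s : Set K := Set.range y ∪ {u⁻¹, f / u} with hs
  set B := Algebra.adjoin ℂ s with hB
  have hyB : ∀ i, y i ∈ B := fun i => Algebra.subset_adjoin (Or.inl ⟨i, rfl⟩)
  have huB : u⁻¹ ∈ B := Algebra.subset_adjoin (Or.inr (by simp))
  have hfB : f / u ∈ B := Algebra.subset_adjoin (Or.inr (by simp))
  have hnat : ∀ m : ℕ, (m : K) ∈ B := fun m => natCast_mem B m
  have hρ : ∀ j, 1 ≤ j → j ≤ k → ρ j / u ^ (2 * j) ∈ B := by
    intro j hj hjk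
    obtain ⟨p, rfl⟩ := Nat.exists_eq_add_of_le' hj
    exact hyB (Sum.inr (0, ⟨p, by omega⟩))
  have hσ : ∀ j, 1 ≤ j → j ≤ k → σ j / u ^ (2 * j + 1) ∈ B := by
    intro j hj hjk
    obtain ⟨p, rfl⟩ := Nat.exists_eq_add_of_le' hj
    exact hyB (Sum.inr (1, ⟨p, by omega⟩))
  have hζ : ∀ j, 1 ≤ j → j ≤ k → ζ j / u ^ (2 * j) ∈ B := by
    intro j hj hjk
    obtain ⟨p, rfl⟩ := Nat.exists_eq_add_of_le' hj
    exact hyB (Sum.inr (2, ⟨p, by omega⟩))
  have hη : ∀ j, 1 ≤ j → j ≤ k → η j / u ^ (2 * j + 1) ∈ B := by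
    intro j hj hjk
    obtain ⟨p, rfl⟩ := Nat.exists_eq_add_of_le' hj
    exact hyB (Sum.inr (3, ⟨p, by omega⟩))
  have hPB : f ^ 2 / u ^ 2 ∈ B := hyB (Sum.inl 3)
  have hγ : γ / u ∈ B := by
    have := hyB (Sum.inl 2)
    have e : y (Sum.inl 2) = γ / u ^ 1 := rfl
    rw [e, pow_one] at this
    exact this
  have hu2 : (1 : K) / u ^ 2 ∈ B := by
    have : (1 : K) / u ^ 2 = u⁻¹ * u⁻¹ := by field_simp
    rw [this]
    exact Subalgebra.mul_mem _ huB huB
  have hn1 : ((n : K) - 1) ∈ B := Subalgebra.sub_mem _ (hnat n) (Subalgebra.one_mem _)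
  have hsum : ∀ X : ℕ → K, (∀ j, 1 ≤ j → j ≤ k → X j / u ^ (2 * j) ∈ B) →
      X (k + 1) = ∑ l ∈ range k, algebraMap ℂ K (c l) * (f ^ 2) ^ (k - l) * X (l + 1) →
      X (k + 1) / u ^ (2 * (k + 1)) ∈ B := by
    intro X hX hk
    rw [hk, Finset.sum_div]
    refine Subalgebra.sum_mem _ fun l hl => ?_
    rw [Finset.mem_range] at hl
    have e : algebraMap ℂ K (c l) * (f ^ 2) ^ (k - l) * X (l + 1) / u ^ (2 * (k + 1)) =
        algebraMap ℂ K (c l) * (f ^ 2 / u ^ 2) ^ (k - l) * (X (l + 1) / u ^ (2 * (l + 1))) := by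
      have e1 : u ^ (2 * (k + 1)) = (u ^ 2) ^ (k - l) * u ^ (2 * (l + 1)) := by
        rw [← pow_mul, ← pow_add]
        congr 1
        omega
      rw [e1, div_pow]
      field_simp
    rw [e]
    exact Subalgebra.mul_mem _ (Subalgebra.mul_mem _ (Subalgebra.algebraMap_mem _ _)
      (Subalgebra.pow_mem _ hPB _)) (hX (l + 1) (by omega) (by omega))
  have hρ' : ∀ j, 1 ≤ j → j ≤ k + 1 → ρ j / u ^ (2 * j) ∈ B := by
    intro j hj hjk
    rcases Nat.lt_or_ge k j with h | h
    · have : j = k + 1 := by omega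
      subst this
      exact hsum ρ hρ hP.sys.rρ'
    · exact hρ j hj h
  have hζ' : ∀ j, 1 ≤ j → j ≤ k + 1 → ζ j / u ^ (2 * j) ∈ B := by
    intro j hj hjk
    rcases Nat.lt_or_ge k j with h | h
    · have : j = k + 1 := by omega
      subst this
      exact hsum ζ hζ hP.sys.rζ'
    · exact hζ j hj h
  have hl : D u / u ^ 2 ∈ B := by
    have e : D u / u ^ 2 = ((n : K) - 1) * (1 / u ^ 2) + ρ 1 / u ^ (2 * 1) - ((n : K) - 1) := by
      rw [hP.sys.du, mul_one, mul_one]
      field_simp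
    rw [e]
    exact Subalgebra.sub_mem _ (Subalgebra.add_mem _ (Subalgebra.mul_mem _ hn1 hu2)
      (hρ 1 le_rfl hP.k1)) hn1
  -- the derivative of the variables
  have hD : ∀ i, D (gen k 1 u γ (f ^ 2) ρ σ ζ η i) / u ^ (wgt k i + 1) ∈ B := by
    rintro (i | ⟨a, p⟩)
    · fin_cases i
      · show D (1 : K) / u ^ 3 ∈ B
        rw [D.map_one_eq_zero, zero_div]
        exact Subalgebra.zero_mem _
      · exact hl
      · show D γ / u ^ 2 ∈ B
        have e : D γ / u ^ 2 = ζ 1 / u ^ (2 * 1) - ((n : K) - 1) * (γ / u) := by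
          rw [hP.sys.dγ, mul_one]
          field_simp
        rw [e]
        exact Subalgebra.sub_mem _ (hζ 1 le_rfl hP.k1) (Subalgebra.mul_mem _ hn1 hγ)
      · show D (f ^ 2) / u ^ 3 ∈ B
        have e : D (f ^ 2) / u ^ 3 = 2 * (f ^ 2 / u ^ 2) := by
          rw [hP.sys.dP]
          field_simp
        rw [e]
        exact Subalgebra.mul_mem _ (by exact_mod_cast hnat 2) hPB
    · have hj1 : 1 ≤ (p : ℕ) + 1 := by omega
      have hj2 : (p : ℕ) + 1 ≤ k := p.2
      set j : ℕ := (p : ℕ) + 1 with hj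
      have c1 : (2 * (j : K) - 1) ∈ B := Subalgebra.sub_mem _
        (Subalgebra.mul_mem _ (by exact_mod_cast hnat 2) (hnat j)) (Subalgebra.one_mem _)
      have c2 : (2 * (j : K) + 1 - n) ∈ B := Subalgebra.sub_mem _ (Subalgebra.add_mem _
        (Subalgebra.mul_mem _ (by exact_mod_cast hnat 2) (hnat j)) (Subalgebra.one_mem _)) (hnat n)
      fin_cases a
      · show D (ρ j) / u ^ (2 * j + 1) ∈ B
        have e : D (ρ j) / u ^ (2 * j + 1) = (2 * (j : K) - 1) * (ρ j / u ^ (2 * j)) +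
            σ j / u ^ (2 * j + 1) := by
          rw [hP.sys.dρ j hj1 hj2, pow_succ]
          field_simp
        rw [e]
        exact Subalgebra.add_mem _ (Subalgebra.mul_mem _ c1 (hρ j hj1 hj2)) (hσ j hj1 hj2)
      · show D (σ j) / u ^ (2 * j + 1 + 1) ∈ B
        have e : D (σ j) / u ^ (2 * j + 1 + 1) = (2 * (j : K) + 1 - n) * (σ j / u ^ (2 * j + 1)) +
            ((n : K) - 1) * ((1 / u ^ 2) * (ρ j / u ^ (2 * j))) +
            ρ (j + 1) / u ^ (2 * (j + 1)) := by
          rw [hP.sys.dσ j hj1 hj2, show 2 * (j + 1) = 2 * j + 1 + 1 by ring, pow_succ, pow_succ]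
          field_simp
        rw [e]
        exact Subalgebra.add_mem _ (Subalgebra.add_mem _ (Subalgebra.mul_mem _ c2 (hσ j hj1 hj2))
          (Subalgebra.mul_mem _ hn1 (Subalgebra.mul_mem _ hu2 (hρ j hj1 hj2))))
          (hρ' (j + 1) (by omega) (by omega))
      · show D (ζ j) / u ^ (2 * j + 1) ∈ B
        have e : D (ζ j) / u ^ (2 * j + 1) = (2 * (j : K) - 1) * (ζ j / u ^ (2 * j)) +
            η j / u ^ (2 * j + 1) := by
          rw [hP.sys.dζ j hj1 hj2, pow_succ]
          field_simp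
        rw [e]
        exact Subalgebra.add_mem _ (Subalgebra.mul_mem _ c1 (hζ j hj1 hj2)) (hη j hj1 hj2)
      · show D (η j) / u ^ (2 * j + 1 + 1) ∈ B
        have e : D (η j) / u ^ (2 * j + 1 + 1) = (2 * (j : K) + 1 - n) * (η j / u ^ (2 * j + 1)) +
            ζ (j + 1) / u ^ (2 * (j + 1)) := by
          rw [hP.sys.dη j hj1 hj2, show 2 * (j + 1) = 2 * j + 1 + 1 by ring, pow_succ, pow_succ]
          field_simp
        rw [e]
        exact Subalgebra.add_mem _ (Subalgebra.mul_mem _ c2 (hη j hj1 hj2))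
          (hζ' (j + 1) (by omega) (by omega))
  refine ⟨B, ?_, ?_, ?_, huB, hfB, hyB, hl⟩
  · have hle : B ≤ vc V hV := by
      apply Algebra.adjoin_le
      rintro x (⟨i, rfl⟩ | hx)
      · exact hyV i
      · rcases hx with rfl | hx
        · exact hui
        · rw [Set.mem_singleton_iff] at hx
          rw [hx]
          exact hfu
    exact fun b hb => hle hb
  · apply closed_adjoin D s u⁻¹
    rintro x (⟨i, rfl⟩ | hx)
    · show u⁻¹ * D (gen k 1 u γ (f ^ 2) ρ σ ζ η i / u ^ wgt k i) ∈ B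
      rw [D_div D hu0]
      exact Subalgebra.sub_mem _ (hD i) (Subalgebra.mul_mem _ (Subalgebra.mul_mem _ (hnat _)
        (hyB i)) hl)
    · rcases hx with rfl | hx
      · rw [D_inv D hu0, mul_neg]
        exact Subalgebra.neg_mem _ (Subalgebra.mul_mem _ huB hl)
      · rw [Set.mem_singleton_iff] at hx
        have e := D_div D hu0 f 1
        rw [pow_one, hP.df] at e
        rw [hx, e]
        have e2 : u * f / u ^ (1 + 1) = f / u := by
          rw [pow_succ, pow_one]
          field_simp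
        rw [e2, Nat.cast_one, one_mul]
        exact Subalgebra.sub_mem _ hfB (Subalgebra.mul_mem _ hfB hl)
  · apply alg1_adjoin
    rintro x (⟨i, rfl⟩ | hx)
    · exact alg1_div (hAg i) (IsAlgebraic.pow (alg1_base u) _)
    · rcases hx with rfl | hx
      · exact IsAlgebraic.inv (alg1_base u)
      · rw [Set.mem_singleton_iff] at hx
        rw [hx]
        exact alg1_div hAf (alg1_base u)

end Pool.Agent.Work.MP_157c12_gt.RA

end

end

section

section

/-!
# NE1: coordinates of a patch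
-/

open TopologicalSpace
open scoped Manifold ContDiff

namespace Pool.Agent.Work.MP_157c12_gt.Rot

open Pool.Agent.Work.MP_157c12_gt

section NE1

variable {n m : ℕ} {O : Opens (E n)}

lemma NE1_pd_smooth {f : E n → ℝ} (hf : ContDiffOn ℝ ∞ f O) (i : Fin n) :
    ContDiffOn ℝ ∞ (pd i f) O := by
  have h := hf.fderiv_of_isOpen O.isOpen (m := ∞) (by simp)
  exact h.clm_apply contDiffOn_const

lemma NE1_gram_smooth {X : E n → E m} (h : ∀ a, ContDiffOn ℝ ∞ (fun q => X q a) O)
    (i j : Fin n) : ContDiffOn ℝ ∞ (fun p => gram X p i j) O := by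
  have : (fun p => gram X p i j) =
      fun p => ∑ a, pd i (fun q => X q a) p * pd j (fun q => X q a) p := rfl
  rw [this]
  exact ContDiffOn.sum fun a _ => (NE1_pd_smooth (h a) i).mul (NE1_pd_smooth (h a) j)

lemma NE1_det_smooth {A : E n → Matrix (Fin n) (Fin n) ℝ}
    (h : ∀ i j, ContDiffOn ℝ ∞ (fun p => A p i j) O) :
    ContDiffOn ℝ ∞ (fun p => (A p).det) O := by
  simp only [Matrix.det_apply]
  refine ContDiffOn.sum fun σ _ => ?_
  exact (contDiffOn_prod fun i _ => h (σ i) i).const_smul (Equiv.Perm.sign σ)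

lemma NE1_inv_smooth {A : E n → Matrix (Fin n) (Fin n) ℝ}
    (h : ∀ i j, ContDiffOn ℝ ∞ (fun p => A p i j) O) (hd : ∀ p ∈ O, (A p).det ≠ 0)
    (i j : Fin n) : ContDiffOn ℝ ∞ (fun p => (A p)⁻¹ i j) O := by
  have e : (fun p => (A p)⁻¹ i j) =
      fun p => ((A p).det)⁻¹ * ((A p).updateRow j (Pi.single i 1)).det := by
    funext p
    rw [Matrix.inv_def, Matrix.smul_apply, Ring.inverse_eq_inv', Matrix.adjugate_apply,
      smul_eq_mul]
  rw [e]
  refine ((NE1_det_smooth h).inv hd).mul (NE1_det_smooth ?_)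
  intro k l
  by_cases hk : k = j
  · subst hk
    simp only [Matrix.updateRow_self]
    exact contDiffOn_const
  · simp only [Matrix.updateRow_ne hk]
    exact h k l

lemma NE1_sum_ev {ι : Type*} (s : Finset ι) (f : ι → Sm O) {p : E n} (hp : p ∈ O) :
    ev (∑ i ∈ s, f i) p = ∑ i ∈ s, ev (f i) p := by
  rw [← evH_apply hp, map_sum]
  exact Finset.sum_congr rfl fun i _ => evH_apply hp _

lemma NE1_det_ev (M : Matrix (Fin n) (Fin n) (Sm O)) (A : Matrix (Fin n) (Fin n) ℝ) {p : E n}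
    (hp : p ∈ O) (h : ∀ i j, ev (M i j) p = A i j) : ev M.det p = A.det := by
  have e : (evH hp).mapMatrix M = A := by
    ext i j
    rw [AlgHom.mapMatrix_apply, Matrix.map_apply, evH_apply, h]
  rw [← evH_apply hp, AlgHom.map_det, e]

lemma NE1_dS {f : E n → ℝ} {g : Sm O} (h : ∀ p ∈ O, ev g p = f p) {p : E n} (hp : p ∈ O)
    (i : Fin n) : ev (dS O i g) p = pd i f p := by
  rw [dS_ev _ _ hp]
  have h1 : ev g =ᶠ[nhds p] f := Filter.eventually_of_mem (O.isOpen.mem_nhds hp) fun q hq => h q hq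
  rw [h1.fderiv_eq]
  rfl

end NE1

/-- coordinates of a patch -/
theorem pr_NE1 : NE1 := by
  intro n m O X hX
  have hg : ∀ i j, ContDiffOn ℝ ∞ (fun p => gram X p i j) O := NE1_gram_smooth hX.smooth
  have hd : ContDiffOn ℝ ∞ (fun p => (gram X p).det) O := NE1_det_smooth hg
  have hne : ∀ p ∈ O, (gram X p).det ≠ 0 := fun p hp => (hX.imm p hp).ne'
  have hs : ContDiffOn ℝ ∞ (fun p => √(gram X p).det) O := hd.sqrt hne
  have hsne : ∀ p ∈ O, √(gram X p).det ≠ 0 := fun p hp => (Real.sqrt_pos.mpr (hX.imm p hp)).ne'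
  have hi : ∀ i j, ContDiffOn ℝ ∞ (fun p => (gram X p)⁻¹ i j) O := NE1_inv_smooth hg hne
  have hx : ∀ a, ∀ p ∈ O, ev (mk (fun q => X q a) (hX.smooth a) : Sm O) p = X p a :=
    fun a p hp => mk_ev _ _ hp
  have hgm : ∀ p ∈ O, ∀ i j, ev (gm (dS O) (fun a => mk (fun q => X q a) (hX.smooth a)) i j) p =
      gram X p i j := by
    intro p hp i j
    show ev (∑ a, dS O i (mk (fun q => X q a) (hX.smooth a)) *
      dS O j (mk (fun q => X q a) (hX.smooth a))) p = _
    rw [NE1_sum_ev _ _ hp]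
    refine Finset.sum_congr rfl fun a _ => ?_
    rw [mul_ev _ _ hp, NE1_dS (hx a) hp, NE1_dS (hx a) hp]
  refine ⟨fun a => mk (fun q => X q a) (hX.smooth a),
    Matrix.of fun i j => mk (fun p => (gram X p)⁻¹ i j) (hi i j),
    mk (fun p => √(gram X p).det) hs, mk (fun p => (√(gram X p).det)⁻¹) (hs.inv hsne), hx, ?_, ?_,
    ?_, ?_⟩
  · ext1 i j
    apply ext_ev
    intro p hp
    rw [Matrix.mul_apply, NE1_sum_ev _ _ hp]
    have e : ∑ k, ev (gm (dS O) (fun a => mk (fun q => X q a) (hX.smooth a)) i k *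
        (Matrix.of fun i j => mk (fun p => (gram X p)⁻¹ i j) (hi i j) :
          Matrix (Fin n) (Fin n) (Sm O)) k j) p = (gram X p * (gram X p)⁻¹) i j := by
      rw [Matrix.mul_apply]
      refine Finset.sum_congr rfl fun k _ => ?_
      rw [mul_ev _ _ hp, hgm p hp, Matrix.of_apply, mk_ev _ _ hp]
    rw [e, Matrix.mul_nonsing_inv _ (hne p hp).isUnit, Matrix.one_apply, Matrix.one_apply]
    split_ifs
    · rw [one_ev hp]
    · rw [zero_ev hp]
  · apply ext_ev
    intro p hp
    rw [sq, mul_ev _ _ hp, mk_ev _ _ hp, NE1_det_ev _ (gram X p) hp (hgm p hp)]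
    exact Real.mul_self_sqrt (hX.imm p hp).le
  · apply ext_ev
    intro p hp
    rw [mul_ev _ _ hp, mk_ev _ _ hp, mk_ev _ _ hp, one_ev hp, mul_inv_cancel₀ (hsne p hp)]
  · intro f g hfg p hp
    rw [lapC, mul_ev _ _ hp, mk_ev _ _ hp, NE1_sum_ev _ _ hp, lap]
    congr 1
    refine Finset.sum_congr rfl fun i _ => ?_
    refine (NE1_dS ?_ hp i).symm
    intro q hq
    rw [mul_ev _ _ hq, mk_ev _ _ hq, NE1_sum_ev _ _ hq]
    congr 1
    refine Finset.sum_congr rfl fun j _ => ?_
    rw [mul_ev _ _ hq, Matrix.of_apply, mk_ev _ _ hq, NE1_dS hfg hq]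

end Pool.Agent.Work.MP_157c12_gt.Rot

end

section

/-!
# Rotational hypersurfaces of finite type, item NE2: unit normal near a point
-/

set_option autoImplicit false

open TopologicalSpace Finset
open scoped Manifold ContDiff Matrix

namespace Pool.Agent.Work.MP_157c12_gt.Rot

open Pool.Agent.Work.MP_157c12_gt

/-- a symmetric idempotent matrix of trace one has rank one -/
theorem NE2_rank {m : ℕ} (P : Matrix (Fin m) (Fin m) ℝ) (hs : Pᵀ = P) (hi : P * P = P)
    (ht : P.trace = 1) (a b c : Fin m) : P a b * P a c = P b c * P a a := by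
  have hsy : ∀ b c, P b c = P c b := fun b c => by
    have h := congrFun (congrFun hs b) c
    rw [Matrix.transpose_apply] at h
    exact h.symm
  have hii : ∀ b c, ∑ d, P b d * P d c = P b c := fun b c => by
    have h := congrFun (congrFun hi b) c
    rwa [Matrix.mul_apply] at h
  have e1 : ∀ b, ∑ c, P b c * P a c = P a b := fun b => by
    rw [hsy a b, ← hii b a]
    exact sum_congr rfl fun c _ => by rw [hsy a c]
  have e2 : ∑ b, P a b * P a b = P a a := e1 a
  have e3 : ∑ b, ∑ c, P b c * P b c = 1 := by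
    rw [← ht, Matrix.trace]
    refine sum_congr rfl fun b _ => ?_
    rw [Matrix.diag_apply, ← hii b b]
    exact sum_congr rfl fun c _ => by rw [hsy c b]
  have key : ∑ b, ∑ c, (P a b * P a c - P b c * P a a) ^ 2 = 0 := by
    have h1 : ∀ b, ∑ c, (P a b * P a c - P b c * P a a) ^ 2 =
        P a a ^ 2 * (∑ c, P b c * P b c) - P a a * (P a b * P a b) := by
      intro b
      have h2 : ∀ c, (P a b * P a c - P b c * P a a) ^ 2 =
          P a b * P a b * (P a c * P a c) - 2 * P a b * P a a * (P b c * P a c)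
            + P a a ^ 2 * (P b c * P b c) := fun c => by ring
      simp only [h2]
      rw [sum_add_distrib, sum_sub_distrib, ← mul_sum, ← mul_sum, ← mul_sum, e2, e1]
      ring
    simp only [h1]
    rw [sum_sub_distrib, ← mul_sum, ← mul_sum, e3, e2]
    ring
  have h3 := (sum_eq_zero_iff_of_nonneg
    (fun b _ => sum_nonneg fun c _ => sq_nonneg (P a b * P a c - P b c * P a a))).1 key b
      (mem_univ b)
  have h4 := (sum_eq_zero_iff_of_nonneg
    (fun c _ => sq_nonneg (P a b * P a c - P b c * P a a))).1 h3 c (mem_univ c)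
  exact sub_eq_zero.1 (pow_eq_zero_iff (two_ne_zero) |>.1 h4)

/-- the projection to the normal space -/
theorem NE2_proj {n m : ℕ} (J : Matrix (Fin n) (Fin m) ℝ) (G : Matrix (Fin n) (Fin n) ℝ)
    (h : J * Jᵀ * G = 1) : (1 - Jᵀ * G * J)ᵀ = 1 - Jᵀ * G * J ∧
      (1 - Jᵀ * G * J) * (1 - Jᵀ * G * J) = 1 - Jᵀ * G * J ∧
      (1 - Jᵀ * G * J).trace = (m : ℝ) - n := by
  have h' : G * (J * Jᵀ) = 1 := mul_eq_one_comm.1 h
  have hsym : Gᵀ = G := by
    have h1 : Gᵀ * (J * Jᵀ) = 1 := by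
      have h2 := congrArg Matrix.transpose h
      rw [Matrix.transpose_mul, Matrix.transpose_mul, Matrix.transpose_transpose,
        Matrix.transpose_one] at h2
      exact h2
    calc Gᵀ = Gᵀ * (J * Jᵀ * G) := by rw [h, mul_one]
      _ = (Gᵀ * (J * Jᵀ)) * G := by rw [mul_assoc]
      _ = G := by rw [h1, one_mul]
  refine ⟨?_, ?_, ?_⟩
  · rw [Matrix.transpose_sub, Matrix.transpose_one, Matrix.transpose_mul, Matrix.transpose_mul,
      Matrix.transpose_transpose, hsym, ← Matrix.mul_assoc]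
  · have h3 : (Jᵀ * G * J) * (Jᵀ * G * J) = Jᵀ * G * J := by
      calc (Jᵀ * G * J) * (Jᵀ * G * J) = Jᵀ * (G * (J * Jᵀ)) * G * J := by
            simp only [Matrix.mul_assoc]
        _ = Jᵀ * G * J := by rw [h', Matrix.mul_one]
    rw [sub_mul, mul_sub, mul_sub, h3]
    simp
  · rw [Matrix.trace_sub, Matrix.trace_one, Matrix.trace_mul_cycle, h, Matrix.trace_one]
    simp

section

variable {n m : ℕ} {W : Opens (E n)}

/-- the differential of `x` at `q` -/
noncomputable def NE2_J (x : Fin m → Sm W) (q : E n) : Matrix (Fin n) (Fin m) ℝ :=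
  Matrix.of fun i a => ev (dS W i (x a)) q

/-- the inverse matrix at `q` -/
noncomputable def NE2_G (Gi : Matrix (Fin n) (Fin n) (Sm W)) (q : E n) :
    Matrix (Fin n) (Fin n) ℝ := Matrix.of fun i j => ev (Gi i j) q

theorem NE2_inv (x : Fin m → Sm W) (Gi : Matrix (Fin n) (Fin n) (Sm W))
    (h : gm (dS W) x * Gi = 1) {q : E n} (hq : q ∈ W) :
    NE2_J x q * (NE2_J x q)ᵀ * NE2_G Gi q = 1 := by
  ext i j
  have h1 := congrArg (evH hq) (congrFun (congrFun h i) j)
  rw [Matrix.mul_apply, map_sum, Matrix.one_apply, apply_ite (evH hq), map_one, map_zero] at h1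
  rw [Matrix.mul_apply, Matrix.one_apply, ← h1]
  refine sum_congr rfl fun k _ => ?_
  rw [map_mul, evH_apply hq (Gi k j), Matrix.mul_apply]
  congr 1
  show _ = evH hq (∑ a, dS W i (x a) * dS W k (x a))
  rw [map_sum]
  refine sum_congr rfl fun a _ => ?_
  rw [map_mul, evH_apply, evH_apply]
  rfl

theorem NE2_sum {R : Type} [CommRing R] [Algebra ℝ R] {ι : Type} (s : Finset ι)
    (D : ι → Derivation ℝ R R) (f : R) : (∑ i ∈ s, D i) f = ∑ i ∈ s, D i f := by
  have h := congrFun (map_sum (Derivation.coeFnAddMonoidHom (R := ℝ) (A := R) (M := R)) D s) f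
  rw [Finset.sum_apply] at h
  exact h

theorem NE2_nb (x : Fin m → Sm W) (Gi : Matrix (Fin n) (Fin n) (Sm W)) (a b : Fin m) {q : E n}
    (hq : q ∈ W) : ev (nb (dS W) x Gi a (x b)) q =
      ((NE2_J x q)ᵀ * NE2_G Gi q * NE2_J x q) a b := by
  have h1 : nb (dS W) x Gi a (x b) = ∑ i, ∑ j, Gi i j * dS W i (x a) * dS W j (x b) := by
    unfold nb
    rw [NE2_sum]
    refine sum_congr rfl fun i _ => ?_
    rw [NE2_sum]
    rfl
  rw [h1, ← evH_apply hq, map_sum, Matrix.mul_apply]
  have h2 : ∀ j, ((NE2_J x q)ᵀ * NE2_G Gi q) a j = ∑ i, ev (dS W i (x a)) q * ev (Gi i j) q :=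
    fun j => by
      rw [Matrix.mul_apply]
      rfl
  simp only [h2, sum_mul, map_sum, map_mul, evH_apply]
  rw [sum_comm]
  refine sum_congr rfl fun j _ => sum_congr rfl fun i _ => ?_
  show _ = ev (dS W i (x a)) q * ev (Gi i j) q * ev (dS W j (x b)) q
  ring

theorem NE2_Jeq (x : Fin m → Sm W) (X : E n → E m) (h : ∀ a, ∀ q ∈ W, ev (x a) q = X q a)
    {q : E n} (hq : q ∈ W) : NE2_J x q = Matrix.of fun i a =>
      fderiv ℝ (fun p => X p a) q (eb i) := by
  ext i a
  show ev (dS W i (x a)) q = fderiv ℝ (fun p => X p a) q (eb i)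
  rw [dS_ev _ _ hq]
  have h1 : ev (x a) =ᶠ[nhds q] fun p => X p a :=
    Filter.eventually_of_mem (W.isOpen.mem_nhds hq) fun p hp => h a p hp
  rw [h1.fderiv_eq]

end

/-- independence of the open set -/
theorem NE2_indep {n m : ℕ} {W V : Opens (E n)} (X : E n → E m) (x : Fin m → Sm W)
    (Gi : Matrix (Fin n) (Fin n) (Sm W)) (hx : ∀ a, ∀ q ∈ W, ev (x a) q = X q a)
    (h : gm (dS W) x * Gi = 1) (x' : Fin m → Sm V)
    (Gi' : Matrix (Fin n) (Fin n) (Sm V)) (hx' : ∀ a, ∀ q ∈ V, ev (x' a) q = X q a)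
    (h' : gm (dS V) x' * Gi' = 1) (a b : Fin m) {q : E n} (hq : q ∈ W) (hq' : q ∈ V) :
    ev (nb (dS V) x' Gi' a (x' b)) q = ev (nb (dS W) x Gi a (x b)) q := by
  rw [NE2_nb x Gi a b hq, NE2_nb x' Gi' a b hq']
  have h1 : NE2_J x q = NE2_J x' q := by
    rw [NE2_Jeq x X hx hq, NE2_Jeq x' X hx' hq']
  have h2 := NE2_inv x Gi h hq
  have h3 := NE2_inv x' Gi' h' hq'
  rw [← h1] at h3
  have h4 : NE2_G Gi q = NE2_G Gi' q := by
    have h5 := mul_eq_one_comm.1 h2
    calc NE2_G Gi q = NE2_G Gi q * (NE2_J x q * (NE2_J x q)ᵀ * NE2_G Gi' q) := by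
          rw [h3, mul_one]
      _ = (NE2_G Gi q * (NE2_J x q * (NE2_J x q)ᵀ)) * NE2_G Gi' q := by rw [mul_assoc]
      _ = NE2_G Gi' q := by rw [h5, one_mul]
  rw [h1, h4]

theorem pr_NE2 (hNE1 : NE1) : NE2 := by
  intro n O X hX p hp
  obtain ⟨x, Gi, -, -, hx, hGi, -, -, -⟩ := hNE1 n (n + 1) O X hX
  -- the projection
  have hP : ∀ q ∈ O, ∃ P : Matrix (Fin (n + 1)) (Fin (n + 1)) ℝ, Pᵀ = P ∧ P * P = P ∧
      P.trace = 1 ∧ ∀ a b, P a b = (if a = b then 1 else 0) - ev (nb (dS O) x Gi a (x b)) q := by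
    intro q hq
    obtain ⟨h1, h2, h3⟩ := NE2_proj _ _ (NE2_inv x Gi hGi hq)
    refine ⟨_, h1, h2, ?_, fun a b => ?_⟩
    · rw [h3]
      push_cast
      ring
    · rw [Matrix.sub_apply, Matrix.one_apply, NE2_nb x Gi a b hq]
  -- a positive diagonal entry
  obtain ⟨a, ha⟩ : ∃ a, 0 < 1 - ev (nb (dS O) x Gi a (x a)) p := by
    obtain ⟨P, -, -, h3, h4⟩ := hP p hp
    by_contra hcon
    push Not at hcon
    have h5 : P.trace ≤ 0 := by
      rw [Matrix.trace]
      refine sum_nonpos fun a _ => ?_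
      rw [Matrix.diag_apply, h4 a a, if_pos rfl]
      exact hcon a
    rw [h3] at h5
    linarith
  have hcont : ContinuousOn (fun q => 1 - ev (nb (dS O) x Gi a (x a)) q) O :=
    continuousOn_const.sub (smooth_ev _).continuousOn
  have hopen := hcont.isOpen_inter_preimage O.isOpen (isOpen_Ioi (a := (0 : ℝ)))
  refine ⟨⟨_, hopen⟩, fun q hq => hq.1, ⟨hp, ha⟩, ?_⟩
  intro V hV x' Gi' hx' hGi'
  have hVO : ∀ q ∈ V, q ∈ O := fun q hq => (hV hq).1
  have hVp : ∀ q ∈ V, 0 < 1 - ev (nb (dS O) x Gi a (x a)) q := fun q hq => (hV hq).2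
  -- the functions `P a b`
  have hsm : ∀ b, ContDiffOn ℝ ∞ (fun q => (if a = b then (1 : ℝ) else 0) -
      ev (nb (dS O) x Gi a (x b)) q) V := fun b =>
    contDiffOn_const.sub ((smooth_ev _).mono hVO)
  have hsq : ContDiffOn ℝ ∞ (fun q => √(1 - ev (nb (dS O) x Gi a (x a)) q)) V := by
    refine ContDiffOn.sqrt ?_ fun q hq => (hVp q hq).ne'
    exact contDiffOn_const.sub ((smooth_ev _).mono hVO)
  have hN : ∀ b, ContDiffOn ℝ ∞ (fun q => ((if a = b then (1 : ℝ) else 0) -
      ev (nb (dS O) x Gi a (x b)) q) / √(1 - ev (nb (dS O) x Gi a (x a)) q)) V := fun b =>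
    (hsm b).div hsq fun q hq => (Real.sqrt_pos.2 (hVp q hq)).ne'
  -- products
  have hmul : ∀ b c, ∀ q ∈ V, ev (mk _ (hN b) * mk _ (hN c)) q =
      (if b = c then 1 else 0) - ev (nb (dS O) x Gi b (x c)) q := by
    intro b c q hq
    rw [mul_ev _ _ hq, mk_ev _ _ hq, mk_ev _ _ hq]
    obtain ⟨P, h1, h2, h3, h4⟩ := hP q (hVO q hq)
    have hpos := hVp q hq
    have haa : P a a = 1 - ev (nb (dS O) x Gi a (x a)) q := by rw [h4 a a, if_pos rfl]
    rw [← h4 a b, ← h4 a c, ← h4 b c, ← haa, div_mul_div_comm, Real.mul_self_sqrt (by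
      rw [haa]; exact hpos.le), div_eq_iff (by rw [haa]; exact hpos.ne')]
    exact NE2_rank P h1 h2 h3 a b c
  refine ⟨fun b => mk _ (hN b), ?_, ?_⟩
  · apply ext_ev
    intro q hq
    rw [one_ev hq, ← evH_apply hq, map_sum]
    obtain ⟨P, h1, h2, h3, h4⟩ := hP q (hVO q hq)
    refine Eq.trans ?_ h3
    rw [Matrix.trace]
    refine sum_congr rfl fun b _ => ?_
    rw [evH_apply, sq, hmul b b q hq, Matrix.diag_apply, h4 b b]
  · intro b c
    apply ext_ev
    intro q hq
    rw [hmul b c q hq, sub_ev _ _ hq,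
      NE2_indep X x Gi hx hGi x' Gi' hx' hGi' b c (hVO q hq) hq]
    congr 1
    split_ifs
    · rw [one_ev hq]
    · rw [zero_ev hq]

end Pool.Agent.Work.MP_157c12_gt.Rot

end

section

/-! Item RE: a rotational patch off the axis. -/

set_option autoImplicit false

open TopologicalSpace Finset
open scoped Manifold ContDiff

namespace Pool.Agent.Work.MP_157c12_gt.Rot

open Pool.Agent.Work.MP_157c12_gt

lemma RE_sum_eb {n : ℕ} (u : E n) : u = ∑ i, u i • (eb i : E n) := by
  ext j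
  simp [eb, Finset.sum_apply, Pi.single_apply]

lemma RE_cs {R : Type} [CommRing R] {m : ℕ} (N w e : Fin m → R) (c s : R)
    (hN : ∀ a, N a = -s * w a + c * e a) (h1 : ∑ a, w a ^ 2 = 1) (h2 : ∑ a, w a * e a = 0)
    (h3 : ∑ a, e a ^ 2 = 1) (h4 : ∑ a, N a ^ 2 = 1) : c ^ 2 + s ^ 2 = 1 := by
  have h8 : ∑ a, N a ^ 2 = s ^ 2 * ∑ a, w a ^ 2 - 2 * s * c * ∑ a, w a * e a +
      c ^ 2 * ∑ a, e a ^ 2 := by
    rw [Finset.mul_sum, Finset.mul_sum, Finset.mul_sum, ← Finset.sum_sub_distrib,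
      ← Finset.sum_add_distrib]
    exact Finset.sum_congr rfl fun a _ => by rw [hN a]; ring
  rw [h4, h1, h2, h3] at h8
  rw [h8]; ring

lemma RE_point {m : ℕ} (N w v e : Fin m → ℝ) (c s : ℝ)
    (he : ∑ a, e a ^ 2 = 1) (hw1 : ∑ a, w a ^ 2 = 1) (hwe : ∑ a, w a * e a = 0)
    (hc : c = ∑ a, N a * e a) (hs : s = -∑ a, N a * w a)
    (hv : ∀ a, v a = N a + s * w a - c * e a) :
    ∑ a, v a * e a = 0 ∧ ∑ a, v a * w a = 0 ∧ ∑ a, v a ^ 2 = ∑ a, N a * v a := by
  have h1 : ∑ a, v a * e a = 0 := by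
    have : ∑ a, v a * e a = ∑ a, N a * e a + s * ∑ a, w a * e a - c * ∑ a, e a ^ 2 := by
      rw [Finset.mul_sum, Finset.mul_sum, ← Finset.sum_add_distrib, ← Finset.sum_sub_distrib]
      exact Finset.sum_congr rfl fun a _ => by rw [hv a]; ring
    rw [this, hwe, he, ← hc]; ring
  have h2 : ∑ a, v a * w a = 0 := by
    have : ∑ a, v a * w a = ∑ a, N a * w a + s * ∑ a, w a ^ 2 - c * ∑ a, w a * e a := by
      rw [Finset.mul_sum, Finset.mul_sum, ← Finset.sum_add_distrib, ← Finset.sum_sub_distrib]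
      exact Finset.sum_congr rfl fun a _ => by rw [hv a]; ring
    rw [this, hwe, hw1]; rw [hs]; ring
  refine ⟨h1, h2, ?_⟩
  have : ∑ a, v a ^ 2 = ∑ a, N a * v a + s * ∑ a, v a * w a - c * ∑ a, v a * e a := by
    rw [Finset.mul_sum, Finset.mul_sum, ← Finset.sum_add_distrib, ← Finset.sum_sub_distrib]
    exact Finset.sum_congr rfl fun a _ => by
      have := hv a
      have h3 : v a ^ 2 = v a * (N a + s * w a - c * e a) := by rw [← this]; ring
      rw [h3]; ring
  rw [this, h1, h2]; ring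

theorem pr_RE : RE := by
  intro n V X o e hP he hoe hTan hoff D x N hx hH hN
  have he1 : ∑ a, (e a) ^ 2 = 1 := by
    have := EuclideanSpace.real_norm_sq_eq e
    rw [he] at this
    linarith [this]
  have hoe1 : ∑ a, o a * e a = 0 := by
    have h := hoe
    rw [PiLp.inner_apply] at h
    rw [← h]
    refine Finset.sum_congr rfl fun a _ => ?_
    simp [mul_comm]
  let A := algebraMap ℝ (Sm V)
  let z : Sm V := ∑ b, x b * A (e b)
  let y : Fin (n + 1) → Sm V := fun b => x b - A (o b) - z * A (e b)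
  let ρ : Sm V := ∑ b, y b ^ 2
  have hev : ∀ {q : E n} (hq : q ∈ V) (f : Sm V), ev f q = evH hq f := fun hq f =>
    (evH_apply hq f).symm
  have hA : ∀ {q : E n} (hq : q ∈ V) (t : ℝ), evH hq (A t) = t := fun hq t => by
    rw [evH_apply]; exact algebraMap_ev t hq
  have hρ : ∀ q (hq : q ∈ V), ev ρ q = ∑ b, (evH hq (y b)) ^ 2 := by
    intro q hq
    rw [hev hq]
    simp only [ρ, map_sum, map_pow]
  have hρpos : ∀ q ∈ V, 0 < ev ρ q := by
    intro q hq
    rw [hρ q hq]
    have h0 : 0 ≤ ∑ b, (evH hq (y b)) ^ 2 := Finset.sum_nonneg fun b _ => sq_nonneg _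
    rcases h0.lt_or_eq with h | h
    · exact h
    · exfalso
      have h2 := (Finset.sum_eq_zero_iff_of_nonneg (fun b _ => sq_nonneg _)).1 h.symm
      apply hoff q hq (evH hq z)
      ext b
      have h3 : evH hq (y b) = 0 := by
        have := h2 b (Finset.mem_univ b)
        exact pow_eq_zero_iff (two_ne_zero) |>.1 this
      simp only [y, map_sub, map_mul, hA] at h3
      rw [← hev hq (x b), hx b q hq] at h3
      simp only [PiLp.add_apply, PiLp.smul_apply, smul_eq_mul]
      linarith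
  have hsm : ContDiffOn ℝ ∞ (fun p => Real.sqrt (ev ρ p)) V :=
    (smooth_ev ρ).sqrt fun p hp => (hρpos p hp).ne'
  have hsq : ∀ p ∈ V, Real.sqrt (ev ρ p) ≠ 0 := fun p hp => (Real.sqrt_pos.2 (hρpos p hp)).ne'
  let r : Sm V := mk (fun p => Real.sqrt (ev ρ p)) hsm
  let ri : Sm V := mk (fun p => (Real.sqrt (ev ρ p))⁻¹) (hsm.inv hsq)
  have hri : r * ri = 1 := by
    apply ext_ev
    intro p hp
    rw [mul_ev _ _ hp, mk_ev _ _ hp, mk_ev _ _ hp, one_ev hp, mul_inv_cancel₀ (hsq p hp)]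
  have hrr : r * r = ρ := by
    apply ext_ev
    intro p hp
    rw [mul_ev _ _ hp, mk_ev _ _ hp, Real.mul_self_sqrt (hρpos p hp).le]
  let w : Fin (n + 1) → Sm V := fun b => ri * y b
  let c : Sm V := ∑ b, N b * A (e b)
  let s : Sm V := -∑ b, N b * w b
  have hAe : ∑ b, A (e b) ^ 2 = 1 := by
    have := congrArg A he1
    simpa only [map_sum, map_pow, map_one] using this
  have hAoe : ∑ b, A (o b) * A (e b) = 0 := by
    have := congrArg A hoe1
    simpa only [map_sum, map_mul, map_zero] using this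
  have hw1 : ∑ a, w a ^ 2 = 1 := by
    have : ∑ a, w a ^ 2 = ri ^ 2 * ρ := by
      simp only [w, ρ]
      rw [Finset.mul_sum]
      exact Finset.sum_congr rfl fun a _ => by ring
    rw [this, ← hrr]
    calc ri ^ 2 * (r * r) = (r * ri) * (r * ri) := by ring
      _ = 1 := by rw [hri]; ring
  have hwe : ∑ a, w a * A (e a) = 0 := by
    have : ∑ a, w a * A (e a) = ri * (∑ b, x b * A (e b) - ∑ b, A (o b) * A (e b)
        - z * ∑ b, A (e b) ^ 2) := by
      rw [Finset.mul_sum, ← Finset.sum_sub_distrib, ← Finset.sum_sub_distrib, Finset.mul_sum]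
      exact Finset.sum_congr rfl fun a _ => by simp only [w, y]; ring
    rw [this, hAe, hAoe]
    show ri * (z - 0 - z * 1) = 0
    ring
  have hxw : ∀ a, x a = A (o a) + z * A (e a) + r * w a := by
    intro a
    have : r * w a = y a := by
      simp only [w]
      rw [← mul_assoc, hri, one_mul]
    rw [this]
    simp only [y]
    ring
  have hNN : ∀ a, N a = -s * w a + c * A (e a) := by
    have key : ∀ q ∈ V, ∀ a, ev (N a) q = ev (-s * w a + c * A (e a)) q := by
      intro q hq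
      have hwq : ∑ a, (evH hq (w a)) ^ 2 = 1 := by
        have := congrArg (evH hq) hw1
        simpa only [map_sum, map_pow, map_one] using this
      have hweq : ∑ a, evH hq (w a) * e a = 0 := by
        have := congrArg (evH hq) hwe
        simpa only [map_sum, map_mul, map_zero, hA] using this
      have hcq : evH hq c = ∑ a, evH hq (N a) * e a := by
        simp only [c, map_sum, map_mul, hA]
      have hsq' : evH hq s = -∑ a, evH hq (N a) * evH hq (w a) := by
        simp only [s, map_neg, map_sum, map_mul]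
      let v : E (n + 1) := WithLp.toLp 2 fun a =>
        evH hq (N a) + evH hq s * evH hq (w a) - evH hq c * e a
      have hv : ∀ a, v a = evH hq (N a) + evH hq s * evH hq (w a) - evH hq c * e a := fun a => rfl
      obtain ⟨h1, h2, h3⟩ := RE_point (fun a => evH hq (N a)) (fun a => evH hq (w a)) (fun a => v a)
        (fun a => e a) (evH hq c) (evH hq s)
        he1 hwq hweq hcq hsq' hv
      have hve : inner ℝ v e = 0 := by
        rw [PiLp.inner_apply]
        rw [← h1]
        refine Finset.sum_congr rfl fun a _ => ?_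
        simp [mul_comm]
      have hXq : ∀ a, X q a - o a = evH hq z * e a + evH hq r * evH hq (w a) := by
        intro a
        have h4 := congrArg (evH hq) (hxw a)
        simp only [map_add, map_mul, hA] at h4
        rw [← hev hq (x a), hx a q hq] at h4
        linarith
      have hvX : inner ℝ v (X q - o) = 0 := by
        rw [PiLp.inner_apply]
        have : ∑ a, inner ℝ (v a) ((X q - o) a) = evH hq z * ∑ a, v a * e a +
            evH hq r * ∑ a, v a * evH hq (w a) := by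
          rw [Finset.mul_sum, Finset.mul_sum, ← Finset.sum_add_distrib]
          refine Finset.sum_congr rfl fun a _ => ?_
          have h5 : (X q - o) a = X q a - o a := rfl
          rw [h5, hXq a]
          simp only [RCLike.inner_apply, conj_trivial]
          ring
        rw [this, h1, h2]
        ring
      obtain ⟨u, hu⟩ := hTan q hq (hoff q hq) v hve hvX
      have hfd : ∀ a, fderiv ℝ (fun q => X q a) q = fderiv ℝ (ev (x a)) q := by
        intro a
        apply Filter.EventuallyEq.fderiv_eq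
        exact Filter.eventually_of_mem (V.isOpen.mem_nhds hq) fun p hp => (hx a p hp).symm
      have hNv : ∑ a, evH hq (N a) * v a = 0 := by
        have h6 : ∀ a, v a = ∑ i, u i * evH hq (dS V i (x a)) := by
          intro a
          rw [← hu a, hfd a]
          conv_lhs => rw [RE_sum_eb u]
          rw [map_sum]
          refine Finset.sum_congr rfl fun i _ => ?_
          rw [map_smul, smul_eq_mul, ← hev hq, dS_ev i (x a) hq]
        calc ∑ a, evH hq (N a) * v a
            = ∑ a, ∑ i, u i * (evH hq (N a) * evH hq (dS V i (x a))) := by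
              refine Finset.sum_congr rfl fun a _ => ?_
              rw [h6 a, Finset.mul_sum]
              exact Finset.sum_congr rfl fun i _ => by ring
          _ = ∑ i, ∑ a, u i * (evH hq (N a) * evH hq (dS V i (x a))) := Finset.sum_comm
          _ = ∑ i, u i * evH hq (∑ a, N a * dS V i (x a)) := by
              refine Finset.sum_congr rfl fun i _ => ?_
              rw [map_sum, Finset.mul_sum]
              exact Finset.sum_congr rfl fun a _ => by rw [map_mul]
          _ = 0 := by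
              refine Finset.sum_eq_zero fun i _ => ?_
              rw [hN i, map_zero, mul_zero]
      have hv0 : ∑ a, v a ^ 2 = 0 := by rw [h3]; exact hNv
      intro a
      have h7 : v a = 0 := by
        have := (Finset.sum_eq_zero_iff_of_nonneg (fun b _ => sq_nonneg (v b))).1 hv0 a
          (Finset.mem_univ a)
        exact pow_eq_zero_iff (two_ne_zero) |>.1 this
      rw [hv a] at h7
      rw [hev hq, hev hq]
      simp only [map_add, map_mul, map_neg, hA]
      linarith
    intro a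
    exact ext_ev fun q hq => key q hq a
  have hcs : c ^ 2 + s ^ 2 = 1 := RE_cs N w (fun a => A (e a)) c s hNN hw1 hwe hAe hH.norm
  exact ⟨r, ri, c, s, w, ⟨hH, he1, hoe1, hri, hw1, hwe, hxw, hcs, hNN⟩⟩

end Pool.Agent.Work.MP_157c12_gt.Rot

end

section

/-!
# Item GLo: the local theorem for rotational hypersurfaces
-/

open TopologicalSpace Finset
open scoped Manifold ContDiff

namespace Pool.Agent.Work.MP_157c12_gt.Rot

open Pool.Agent.Work.MP_157c12_gt

/-- the axis is closed -/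
lemma GLo_axis_closed {n : ℕ} (o e : E n) (he : ‖e‖ = 1) :
    IsClosed {y : E n | ∃ t : ℝ, y = o + t • e} := by
  have h : {y : E n | ∃ t : ℝ, y = o + t • e} =
      {y : E n | y = o + (inner ℝ e (y - o) : ℝ) • e} := by
    ext y
    constructor
    · rintro ⟨t, rfl⟩
      show o + t • e = o + (inner ℝ e (o + t • e - o) : ℝ) • e
      rw [add_sub_cancel_left, inner_smul_right, real_inner_self_eq_norm_sq, he]
      simp
    · intro hy
      exact ⟨_, hy⟩
  rw [h]
  refine isClosed_eq continuous_id ?_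
  fun_prop

lemma GLo_cont {n m : ℕ} {O : Opens (E n)} {X : E n → E m} (h : PatchN O X) :
    ContinuousOn X O := by
  have h1 : ContinuousOn (fun q => (fun a => X q a : Fin m → ℝ)) O :=
    continuousOn_pi.2 fun a => (h.smooth a).continuousOn
  exact (EuclideanSpace.equiv (Fin m) ℝ).symm.continuous.comp_continuousOn h1

/-- the part of a patch off the axis -/
lemma GLo_open {n m : ℕ} {O : Opens (E n)} {X : E n → E m} (h : PatchN O X) (o e : E m)
    (he : ‖e‖ = 1) (U : Opens (E n)) (hU : U ≤ O) :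
    IsOpen {q : E n | q ∈ U ∧ ∀ t : ℝ, X q ≠ o + t • e} := by
  have h1 : ContinuousOn X U := (GLo_cont h).mono hU
  have h2 := h1.isOpen_inter_preimage U.isOpen (GLo_axis_closed o e he).isOpen_compl
  convert h2 using 1
  ext q
  simp only [Set.mem_ofPred_eq, Set.mem_inter_iff, SetLike.mem_coe, Set.mem_preimage,
    Set.mem_compl_iff, not_exists, ne_eq]

/-- the iterated Laplace operators -/
lemma GLo_iter {n m : ℕ} {V : Opens (E n)} {X : E n → E m} {L : Sm V → Sm V}
    (hlap : ∀ (f : E n → ℝ) (g : Sm V), (∀ p ∈ V, ev g p = f p) → ∀ p ∈ V, lap X f p = ev (L g) p)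
    (f : E n → ℝ) (g : Sm V) (hg : ∀ p ∈ V, ev g p = f p) (j : ℕ) :
    ∀ q ∈ V, ev (L^[j] g) q = ((lap X)^[j] f) q := by
  induction j with
  | zero => exact hg
  | succ j ih =>
    intro q hq
    rw [Function.iterate_succ_apply', Function.iterate_succ_apply']
    exact (hlap _ _ ih q hq).symm

theorem pr_GLo (hNE1 : NE1) (hNE2 : NE2) (hLD : LD) (hHY : HY) (hRE : RE) (hGA : GA) :
    GLoc := by
  intro n k al O X o e hn hk h0 hak hP he hoe hT hFT p hp hax
  obtain ⟨U, hUO, hpU, hU⟩ := hNE2 n O X hP p hp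
  obtain ⟨V, hVc⟩ : ∃ V : Opens (E n), (V : Set (E n)) =
      {q : E n | q ∈ U ∧ ∀ t : ℝ, X q ≠ o + t • e} :=
    ⟨⟨_, GLo_open hP o e he U hUO⟩, rfl⟩
  have hVm : ∀ q, q ∈ V ↔ q ∈ U ∧ ∀ t : ℝ, X q ≠ o + t • e := by
    intro q
    rw [← SetLike.mem_coe, hVc]
    rfl
  have hVU : V ≤ U := fun q hq => ((hVm q).1 hq).1
  have hVO : V ≤ O := fun q hq => hUO (hVU hq)
  have hpV : p ∈ V := (hVm p).2 ⟨hpU, hax⟩
  have hPV : PatchN V X := ⟨fun a => (hP.smooth a).mono hVO, fun q hq => hP.imm q (hVO hq)⟩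
  obtain ⟨x, Gi, W, Wi, hx, hG, hW, hWi, hlap⟩ := hNE1 n (n + 1) V X hPV
  obtain ⟨N, hN1, hN2⟩ := hU V hVU x Gi hx hG
  obtain ⟨hHyp, hNd, hdd⟩ := hHY (Sm V) n (n + 1) (dS V) x N Gi (dS_comm V) hG hN1 hN2
  obtain ⟨r, ri, c, s, w, hRot⟩ := hRE n V X o e hPV he hoe
    (fun q hq => hT q (hVO hq)) (fun q hq => ((hVm q).1 hq).2) (nb (dS V) x Gi) x N hx hHyp hNd
  have hL : lapD (nb (dS V) x Gi) = lapC (dS V) Gi W Wi := by
    funext f
    exact hLD (Sm V) n (n + 1) (dS V) x Gi W Wi (dS_comm V) hG hW hWi f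
  have hFT' : ∀ a, ∑ l ∈ range (k + 1), algebraMap ℝ (Sm V) (al l) *
      (lapD (nb (dS V) x Gi))^[k - l] (x a) = 0 := by
    intro a
    rw [hL]
    apply ext_ev
    intro q hq
    rw [zero_ev hq, ← evH_apply hq, map_sum, ← hFT q (hVO hq) a]
    refine Finset.sum_congr rfl fun l _ => ?_
    rw [map_mul, evH_apply, evH_apply, algebraMap_ev _ hq,
      GLo_iter hlap (fun q => X q a) (x a) (hx a) (k - l) q hq]
  obtain ⟨ho, hD⟩ := hGA (Sm V) (evH hpV) n k al (nb (dS V) x Gi) x N (fun a => o a)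
    (fun a => e a) r ri c s w hn hk h0 hak hRot hFT'
  refine ⟨by
    ext a
    exact ho a, ?_⟩
  have heq : (fun q => ‖X q‖ ^ 2) =ᶠ[nhds p] ev (∑ b, x b ^ 2) := by
    refine Filter.eventually_of_mem (V.isOpen.mem_nhds hpV) fun q hq => ?_
    show ‖X q‖ ^ 2 = ev (∑ b, x b ^ 2) q
    rw [EuclideanSpace.real_norm_sq_eq, ← evH_apply hq, map_sum]
    refine Finset.sum_congr rfl fun b _ => ?_
    rw [map_pow, evH_apply, hx b q hq]
  rw [heq.fderiv_eq]
  apply ContinuousLinearMap.coe_injective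
  apply (EuclideanSpace.basisFun (Fin n) ℝ).toBasis.ext
  intro i
  rw [OrthonormalBasis.coe_toBasis, EuclideanSpace.basisFun_apply]
  show fderiv ℝ (ev (∑ b, x b ^ 2)) p (eb i) = 0
  rw [← dS_ev i _ hpV, hdd i, ← evH_apply hpV, map_sum]
  refine Finset.sum_eq_zero fun a _ => ?_
  rw [map_mul, hD a, mul_zero]

end Pool.Agent.Work.MP_157c12_gt.Rot

end

section

/-!
# MI: the image has no interior points
-/

open TopologicalSpace Finset
open scoped Manifold ContDiff Topology

namespace Pool.Agent.Work.MP_157c12_gt.Rot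

open Pool.Agent.Work.MP_157c12_gt

lemma MI_piece {n m : ℕ} {M : Type} [TopologicalSpace M] [ChartedSpace (E n) M]
    [IsManifold 𝓘(ℝ, E n) ∞ M] (x : M → E m) (hx : SmoothImmersion (V := E n) x) (p : M) :
    dimH (x '' (chartAt (E n) p).source) ≤ n := by
  set φ := chartAt (E n) p with hφ
  have h1 : ContMDiffOn 𝓘(ℝ, E n) 𝓘(ℝ, E m) ∞ (x ∘ φ.symm) φ.target := by
    refine hx.1.comp_contMDiffOn ?_
    exact contMDiffOn_chart_symm
  have h2 : ContDiffOn ℝ ∞ (x ∘ φ.symm) φ.target := contMDiffOn_iff_contDiffOn.mp h1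
  have h3 : x '' φ.source = (x ∘ φ.symm) '' φ.target := by
    rw [Set.image_comp, φ.symm_image_target_eq_source]
  rw [h3]
  refine (dimH_image_le_of_locally_lipschitzOn ?_).trans ?_
  · intro q hq
    have h4 : ContDiffAt ℝ ∞ (x ∘ φ.symm) q := h2.contDiffAt (φ.open_target.mem_nhds hq)
    obtain ⟨K, t, ht, hL⟩ := (h4.of_le (m := 1) (by exact_mod_cast le_top)).exists_lipschitzOnWith
    exact ⟨K, t, mem_nhdsWithin_of_mem_nhds ht, hL⟩
  · refine (dimH_mono (Set.subset_univ _)).trans ?_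
    rw [Real.dimH_univ_eq_finrank]
    simp

theorem pr_MI : MI := by
  intro n M _ _ _ _ x hx
  by_contra hne
  have hne' : (interior (Set.range x)).Nonempty := Set.nonempty_iff_ne_empty.mpr hne
  have h1 := Real.dimH_of_nonempty_interior hne'
  obtain ⟨t, ht⟩ := CompactSpace.elim_nhds_subcover (fun p : M => (chartAt (E n) p).source)
    (fun p => (chartAt (E n) p).open_source.mem_nhds (mem_chart_source (E n) p))
  have h2 : Set.range x ⊆ ⋃ p ∈ t, x '' (chartAt (E n) p).source := by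
    rintro _ ⟨q, rfl⟩
    have : q ∈ ⋃ p ∈ t, (chartAt (E n) p).source := by
      rw [ht]; trivial
    simp only [Set.mem_iUnion] at this ⊢
    obtain ⟨p, hp, hq⟩ := this
    exact ⟨p, hp, q, hq, rfl⟩
  have h3 : dimH (Set.range x) ≤ n := by
    refine (dimH_mono h2).trans ?_
    have h4 : dimH (⋃ p ∈ t, x '' (chartAt (E n) p).source)
        = ⨆ p ∈ t, dimH (x '' (chartAt (E n) p).source) := by
      have := dimH_bUnion (s := (t : Set M)) t.countable_toSet
        (fun p => x '' (chartAt (E n) p).source)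
      simpa using this
    rw [h4]
    exact iSup₂_le fun p _ => MI_piece x hx p
  rw [h1] at h3
  have h5 : ((n + 1 : ℕ) : ENNReal) ≤ (n : ℕ) := by simpa using h3
  have h6 : n + 1 ≤ n := by exact_mod_cast h5
  omega

end Pool.Agent.Work.MP_157c12_gt.Rot

end

section

/-!
# Rotational hypersurfaces, item MD: the points off the axis are dense
-/

open TopologicalSpace
open scoped Manifold ContDiff

namespace Pool.Agent.Work.MP_157c12_gt.Rot

open Pool.Agent.Work.MP_157c12_gt

/-- an immersed point all of whose neighbours are on a line -/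
lemma MD_aux {n : ℕ} {M : Type} [TopologicalSpace M] [ChartedSpace (E n) M]
    [IsManifold 𝓘(ℝ, E n) ∞ M] (x : M → E (n + 1)) (hn : 2 ≤ n)
    (hx : SmoothImmersion (V := E n) x) (o e : E (n + 1)) (p : M)
    (h : ∀ᶠ q in nhds p, ∃ t : ℝ, x q = o + t • e) : False := by
  have hd : MDifferentiableAt 𝓘(ℝ, E n) 𝓘(ℝ, E (n + 1)) x p :=
    (hx.1 p).mdifferentiableAt (by simp)
  have hL := hd.hasMFDerivAt
  set L : E n →L[ℝ] E (n + 1) := mfderiv 𝓘(ℝ, E n) 𝓘(ℝ, E (n + 1)) x p with hLdef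
  have hinj : Function.Injective L := hx.2 p
  have hrange : ∀ u : E n, L u ∈ Submodule.span ℝ {e} := by
    intro u
    rw [← Submodule.orthogonal_orthogonal (Submodule.span ℝ {e}), Submodule.mem_orthogonal]
    intro v hv
    rw [Submodule.mem_orthogonal_singleton_iff_inner_left] at hv
    have h2 : HasMFDerivAt 𝓘(ℝ, E (n + 1)) 𝓘(ℝ, ℝ) (innerSL ℝ v) (x p) (innerSL ℝ v) :=
      (innerSL ℝ v).hasMFDerivAt
    have h3 := h2.comp p hL
    have h4 : (innerSL ℝ v ∘ x) =ᶠ[nhds p] fun _ => inner ℝ v o := by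
      filter_upwards [h] with q hq
      obtain ⟨t, ht⟩ := hq
      simp [ht, inner_add_right, inner_smul_right, hv]
    have h5 : HasMFDerivAt 𝓘(ℝ, E n) 𝓘(ℝ, ℝ) (innerSL ℝ v ∘ x) p
        (0 : E n →L[ℝ] ℝ) :=
      (hasMFDerivAt_const (inner ℝ v o) p).congr_of_eventuallyEq h4
    have h6 := hasMFDerivAt_unique h3 h5
    have h7 : ((innerSL ℝ v).comp L) u = (0 : E n →L[ℝ] ℝ) u := by
      have := congrArg (fun T : E n →L[ℝ] ℝ => T u) h6
      exact this
    simpa using h7
  have h8 : Module.finrank ℝ (E n) ≤ Module.finrank ℝ (Submodule.span ℝ {e}) := by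
    refine LinearMap.finrank_le_finrank_of_injective
      (f := L.toLinearMap.codRestrict (Submodule.span ℝ {e}) hrange) ?_
    intro a b hab
    apply hinj
    exact congrArg Subtype.val hab
  have h9 : Module.finrank ℝ (Submodule.span ℝ {e}) ≤ 1 := by
    have := finrank_span_le_card (R := ℝ) ({e} : Set (E (n + 1)))
    simpa using this
  rw [finrank_euclideanSpace_fin] at h8
  omega

theorem pr_MD : MD := by
  intro n M _ _ _ x hn hx o e
  rw [dense_iff_inter_open]
  intro U hU ⟨p, hp⟩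
  by_contra hne
  refine MD_aux x hn hx o e p ?_
  filter_upwards [hU.mem_nhds hp] with q hq
  by_contra hq2
  push Not at hq2
  exact hne ⟨q, hq, hq2⟩

end Pool.Agent.Work.MP_157c12_gt.Rot

end

end
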