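import Pool.Agent.Work.MP_157c12_gt.GDefs

/-! Bundle of small proof modules (one section per former module). -/

section

/-!
# Statements of the geometric part
-/

open MvPolynomial TopologicalSpace
open scoped Manifold ContDiff

namespace Pool.Agent.Work.MP_157c12_gt

/-- null coordinates of a real vector -/
noncomputable def nv (v : E 3) : Fin 3 → ℂ :=
  ![(v 0 : ℂ) + Complex.I * (v 1 : ℂ), (v 0 : ℂ) - Complex.I * (v 1 : ℂ), (v 2 : ℂ)]

/-- a real polynomial in null coordinates -/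
noncomputable def nullP (P : MvPolynomial (Fin 3) ℝ) : P3 :=
  aeval ![C (1 / 2) * ((X 0 : P3) + X 1), C (-Complex.I / 2) * ((X 0 : P3) - X 1), X 2]
    (MvPolynomial.map (algebraMap ℝ ℂ) P)

/-- an immersed patch -/
structure Patch {n m : ℕ} (O : Opens (E n)) (X : E n → E m) : Prop where
  smooth : ∀ a, ContDiffOn ℝ ∞ (fun q => X q a) O
  imm : ∀ p ∈ O, 0 < (gram X p).det

/-- `x` is the position vector in null coordinates -/
def IsNull {O : Opens (E 2)} (X : E 2 → E 3) (x : Fin 3 → RO O) : Prop :=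
  ∀ p ∈ O, ∀ a, evO (x a) p = nv (X p) a

/-- `p(Δ) x = 0` on every open subset of `O` -/
def FTO (p : Polynomial ℂ) (O : Opens (E 2)) (X : E 2 → E 3) : Prop :=
  ∀ (U : Opens (E 2)), U ≤ O → ∀ (x : Fin 3 → RO U) (di : RO U), IsNull X x →
    detN (dO U 0) (dO U 1) x * di = 1 → FT p (dO U 0) (dO U 1) x di

/-! ### local statements -/

/-- null coordinates, existence, metric -/
def GS1 : Prop := ∀ (O : Opens (E 2)) (X : E 2 → E 3), Patch O X →
  (∃ x : Fin 3 → RO O, IsNull X x) ∧ ∀ x : Fin 3 → RO O, IsNull X x →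
    (∀ p ∈ O, ∀ i j, evO (nd (dO O i) (dO O j) x) p = (gram X p i j : ℂ)) ∧
    (∀ p ∈ O, evO (detN (dO O 0) (dO O 1) x) p = ((gram X p).det : ℂ)) ∧
    ∃ di : RO O, detN (dO O 0) (dO O 1) x * di = 1

/-- the Laplace operator -/
def GS2 : Prop := ∀ (O : Opens (E 2)) (X : E 2 → E 3), Patch O X → ∀ (x : Fin 3 → RO O)
  (di : RO O), IsNull X x → detN (dO O 0) (dO O 1) x * di = 1 →
  ∀ (f : E 2 → ℝ) (g : RO O), ContDiffOn ℝ ∞ f O → (∀ p ∈ O, evO g p = (f p : ℂ)) →
  ∀ p ∈ O, evO (lapF (dO O 0) (dO O 1) x di g) p = (lap X f p : ℂ)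

/-- finite type patches -/
def GS3 : Prop := ∀ (O : Opens (E 2)) (X : E 2 → E 3), Patch O X → ∀ (k : ℕ)
  (y : Fin k → E 2 → E 3) (l : Fin k → ℝ), (∀ i a, ContDiffOn ℝ ∞ (fun q => y i q a) O) →
  (∀ p ∈ O, X p = ∑ i, y i p) → (∀ i a, ∀ p ∈ O, lap X (fun q => y i q a) p = l i * y i p a) →
  FTO (∏ i, (Polynomial.X - Polynomial.C (l i : ℂ))) O X

/-- an irreducible polynomial vanishing on a patch divides every polynomial vanishing on it -/
def GS4 : Prop := ∀ (O : Opens (E 2)) (X : E 2 → E 3), Patch O X → (O : Set (E 2)).Nonempty →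
  ∀ F W : P3, Irreducible F → (∀ p ∈ O, eval (nv (X p)) F = 0) →
  (∀ p ∈ O, eval (nv (X p)) W = 0) → F ∣ W

/-- an irreducible factor vanishes on an open subset -/
def GS5 : Prop := ∀ (O : Opens (E 2)) (X : E 2 → E 3), Patch O X → (O : Set (E 2)).Nonempty →
  ∀ N : P3, N ≠ 0 → (∀ p ∈ O, eval (nv (X p)) N = 0) →
  ∃ U : Opens (E 2), U ≤ O ∧ (U : Set (E 2)).Nonempty ∧ ∃ F : P3, Irreducible F ∧ F ∣ N ∧
    ∀ p ∈ U, eval (nv (X p)) F = 0

/-- nondegeneracy -/
def GS6 : Prop := ∀ (O : Opens (E 2)) (X : E 2 → E 3), Patch O X → (O : Set (E 2)).Nonempty →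
  ∀ F : P3, Irreducible F → (∀ p ∈ O, eval (nv (X p)) F = 0) → ¬ F ∣ QN F

/-- the polynomial of a patch of finite type is good -/
def GS7 : Prop := ∀ (O : Opens (E 2)) (X : E 2 → E 3), Patch O X → (O : Set (E 2)).Nonempty →
  ∀ (F : P3) (p : Polynomial ℂ), Irreducible F → (∀ q ∈ O, eval (nv (X q)) F = 0) →
  p.coeff 0 ≠ 0 → FTO p O X → Good p F

/-- the local theorem -/
def GS8 : Prop := ∀ (O : Opens (E 2)) (X : E 2 → E 3), Patch O X → (O : Set (E 2)).Nonempty →
  ∀ (N : P3) (p : Polynomial ℂ), N ≠ 0 → (∀ q ∈ O, eval (nv (X q)) N = 0) →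
  p.coeff 0 ≠ 0 → FTO p O X → ∃ U : Opens (E 2), U ≤ O ∧ (U : Set (E 2)).Nonempty ∧
    ∃ κ : ℂ, (quad - C κ) ∣ N ∧ ∀ q ∈ U, eval (nv (X q)) (quad - C κ) = 0

/-- null coordinates of real polynomials -/
def GS9 : Prop := (∀ (P : MvPolynomial (Fin 3) ℝ) (v : E 3),
    eval (nv v) (nullP P) = ((eval (fun a => v a) P : ℝ) : ℂ)) ∧
  (∀ P : MvPolynomial (Fin 3) ℝ, P ≠ 0 → nullP P ≠ 0) ∧
  (∀ (v : E 3) (κ : ℂ), eval (nv v) (quad - C κ) = ((‖v‖ ^ 2 : ℝ) : ℂ) - κ) ∧
  ∀ N : P3, N ≠ 0 → {κ : ℂ | (quad - C κ) ∣ N}.Finite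

/-! ### the strong maximum principle -/

/-- expansion of the Laplace operator -/
def GH1 : Prop := ∀ (n m : ℕ) (O : Opens (E n)) (X : E n → E m), Patch O X →
  (∀ i j, ContinuousOn (fun p => (gram X p)⁻¹ i j) O) ∧ (∀ p ∈ O, ((gram X p)⁻¹).PosDef) ∧
  ∃ b : E n → Fin n → ℝ, (∀ i, ContinuousOn (fun p => b p i) O) ∧
    ∀ u : E n → ℝ, ContDiffOn ℝ ∞ u O → ∀ p ∈ O, lap X u p =
      ∑ i, ∑ j, (gram X p)⁻¹ i j * pd i (fun q => pd j u q) p + ∑ i, b p i * pd i u p

/-- strong maximum principle for elliptic operators -/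
def GH2 : Prop := ∀ (n : ℕ) (O : Opens (E n)) (A : E n → Matrix (Fin n) (Fin n) ℝ)
  (b : E n → Fin n → ℝ) (u : E n → ℝ), (∀ i j, ContinuousOn (fun p => A p i j) O) →
  (∀ p ∈ O, (A p).PosDef) → (∀ i, ContinuousOn (fun p => b p i) O) → ContDiffOn ℝ ∞ u O →
  (∀ p ∈ O, 0 ≤ ∑ i, ∑ j, A p i j * pd i (fun q => pd j u q) p + ∑ i, b p i * pd i u p) →
  ∀ p0 ∈ O, (∀ p ∈ O, u p ≤ u p0) → ∀ᶠ p in nhds p0, u p = u p0

/-! ### statements on the manifold -/

/-- charts give patches -/
def GM1 : Prop := ∀ (n m : ℕ) (M : Type) [TopologicalSpace M] [ChartedSpace (E n) M]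
  [IsManifold 𝓘(ℝ, E n) ∞ M] (x : M → E m), ContMDiff 𝓘(ℝ, E n) 𝓘(ℝ, E m) ∞ x →
  (∀ p, Function.Injective (mfderiv 𝓘(ℝ, E n) 𝓘(ℝ, E m) x p)) →
  ∀ φ ∈ atlas (E n) M, Patch ⟨φ.target, φ.open_target⟩ (fun q => x (φ.symm q))

/-- smooth functions in charts -/
def GM2 : Prop := ∀ (n m : ℕ) (M : Type) [TopologicalSpace M] [ChartedSpace (E n) M]
  [IsManifold 𝓘(ℝ, E n) ∞ M] (y : M → E m), ContMDiff 𝓘(ℝ, E n) 𝓘(ℝ, E m) ∞ y →
  ∀ φ ∈ atlas (E n) M, ∀ a, ContDiffOn ℝ ∞ (fun q => y (φ.symm q) a) φ.target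

/-- there are no harmonic functions -/
def GM3 : Prop := ∀ (n m : ℕ) (M : Type) [TopologicalSpace M] [ChartedSpace (E n) M]
  [IsManifold 𝓘(ℝ, E n) ∞ M] [CompactSpace M] [ConnectedSpace M] (x : M → E m),
  ContMDiff 𝓘(ℝ, E n) 𝓘(ℝ, E m) ∞ x →
  (∀ p, Function.Injective (mfderiv 𝓘(ℝ, E n) 𝓘(ℝ, E m) x p)) →
  ∀ (y : M → E m) (a : Fin m), ContMDiff 𝓘(ℝ, E n) 𝓘(ℝ, E m) ∞ y →
  LapEq (n := n) x (fun p => y p a) 0 → ∀ p q, y p a = y q a

/-- immersed compact surfaces in a sphere -/
def GM4 : Prop := ∀ (M : Type) [TopologicalSpace M] [ChartedSpace (E 2) M]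
  [IsManifold 𝓘(ℝ, E 2) ∞ M] [CompactSpace M] [ConnectedSpace M] (x : M → E 3),
  ContMDiff 𝓘(ℝ, E 2) 𝓘(ℝ, E 3) ∞ x →
  (∀ p, Function.Injective (mfderiv 𝓘(ℝ, E 2) 𝓘(ℝ, E 3) x p)) →
  ∀ κ : ℝ, (∀ p, ‖x p‖ ^ 2 = κ) → ∃ r : ℝ, 0 < r ∧ Set.range x = Metric.sphere 0 r

/-- the theorem for `c = 0` -/
def GM5 : Prop := ∀ (M : Type) [TopologicalSpace M] [ChartedSpace (E 2) M]
  [IsManifold 𝓘(ℝ, E 2) ∞ M] [CompactSpace M] [ConnectedSpace M] (x : M → E 3),
  ContMDiff 𝓘(ℝ, E 2) 𝓘(ℝ, E 3) ∞ x →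
  (∀ p, Function.Injective (mfderiv 𝓘(ℝ, E 2) 𝓘(ℝ, E 3) x p)) →
  ∀ (k : ℕ) (y : Fin k → M → E 3) (l : Fin k → ℝ),
    (∀ i, ContMDiff 𝓘(ℝ, E 2) 𝓘(ℝ, E 3) ∞ (y i)) → (∀ i, ∃ p q, y i p ≠ y i q) →
    (∀ p, x p = ∑ i, y i p) → (∀ i a, LapEq (n := 2) x (fun p => y i p a) (l i)) →
    ∀ P : MvPolynomial (Fin 3) ℝ, P ≠ 0 → (∀ p, eval (fun a => x p a) P = 0) →
    ∃ r : ℝ, 0 < r ∧ Set.range x = Metric.sphere 0 r

/-- the main theorem -/
def GMain : Prop := ∀ (M : Type) [TopologicalSpace M] [ChartedSpace (E 2) M]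
  [IsManifold 𝓘(ℝ, E 2) ∞ M] [CompactSpace M] [ConnectedSpace M] (x : M → E 3),
  ContMDiff 𝓘(ℝ, E 2) 𝓘(ℝ, E 3) ∞ x →
  (∀ p, Function.Injective (mfderiv 𝓘(ℝ, E 2) 𝓘(ℝ, E 3) x p)) → FiniteType (n := 2) x →
  (∃ P : MvPolynomial (Fin 3) ℝ, P ≠ 0 ∧ ∀ p, eval (fun a => x p a) P = 0) →
  ∃ (c : E 3) (r : ℝ), 0 < r ∧ Set.range x = Metric.sphere c r

end Pool.Agent.Work.MP_157c12_gt

end

section

/-!
# GH1: expansion of the Laplace operator of a patch
-/

open TopologicalSpace
open scoped Manifold ContDiff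

namespace Pool.Agent.Work.MP_157c12_gt

namespace ItemGH1

variable {n m : ℕ} {O : Opens (E n)}

lemma pd_smooth {f : E n → ℝ} (hf : ContDiffOn ℝ ∞ f O) (i : Fin n) :
    ContDiffOn ℝ ∞ (pd i f) O := by
  have h := hf.fderiv_of_isOpen O.isOpen (m := ∞) (by simp)
  exact h.clm_apply contDiffOn_const

lemma pd_mul {f g : E n → ℝ} {p : E n} (hf : DifferentiableAt ℝ f p)
    (hg : DifferentiableAt ℝ g p) (i : Fin n) :
    pd i (fun q => f q * g q) p = pd i f p * g p + f p * pd i g p := by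
  unfold pd
  rw [fderiv_fun_mul hf hg]
  simp only [ContinuousLinearMap.add_apply, ContinuousLinearMap.smul_apply, smul_eq_mul]
  ring

lemma pd_sum {ι : Type*} (s : Finset ι) {f : ι → E n → ℝ} {p : E n}
    (hf : ∀ j ∈ s, DifferentiableAt ℝ (f j) p) (i : Fin n) :
    pd i (fun q => ∑ j ∈ s, f j q) p = ∑ j ∈ s, pd i (f j) p := by
  unfold pd
  rw [fderiv_fun_sum hf, ContinuousLinearMap.sum_apply]

lemma gram_smooth {X : E n → E m} (h : ∀ a, ContDiffOn ℝ ∞ (fun q => X q a) O) (i j : Fin n) :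
    ContDiffOn ℝ ∞ (fun p => gram X p i j) O := by
  have : (fun p => gram X p i j) =
      fun p => ∑ a, pd i (fun q => X q a) p * pd j (fun q => X q a) p := rfl
  rw [this]
  exact ContDiffOn.sum fun a _ => (pd_smooth (h a) i).mul (pd_smooth (h a) j)

lemma det_smooth {A : E n → Matrix (Fin n) (Fin n) ℝ}
    (h : ∀ i j, ContDiffOn ℝ ∞ (fun p => A p i j) O) :
    ContDiffOn ℝ ∞ (fun p => (A p).det) O := by
  simp only [Matrix.det_apply]
  refine ContDiffOn.sum fun σ _ => ?_
  exact (contDiffOn_prod fun i _ => h (σ i) i).const_smul (Equiv.Perm.sign σ)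

lemma inv_smooth {A : E n → Matrix (Fin n) (Fin n) ℝ}
    (h : ∀ i j, ContDiffOn ℝ ∞ (fun p => A p i j) O) (hd : ∀ p ∈ O, (A p).det ≠ 0)
    (i j : Fin n) : ContDiffOn ℝ ∞ (fun p => (A p)⁻¹ i j) O := by
  have e : (fun p => (A p)⁻¹ i j) =
      fun p => ((A p).det)⁻¹ * ((A p).updateRow j (Pi.single i 1)).det := by
    funext p
    rw [Matrix.inv_def, Matrix.smul_apply, Ring.inverse_eq_inv', Matrix.adjugate_apply,
      smul_eq_mul]
  rw [e]
  refine ((det_smooth h).inv hd).mul (det_smooth ?_)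
  intro k l
  by_cases hk : k = j
  · subst hk
    simp only [Matrix.updateRow_self]
    exact contDiffOn_const
  · simp only [Matrix.updateRow_ne hk]
    exact h k l

lemma gram_posDef {X : E n → E m} {p : E n} (hd : 0 < (gram X p).det) : (gram X p).PosDef := by
  have h : (gram X p).PosSemidef := by
    have e : gram X p = (Matrix.of fun (a : Fin m) (i : Fin n) => pd i (fun q => X q a) p).conjTranspose *
        (Matrix.of fun (a : Fin m) (i : Fin n) => pd i (fun q => X q a) p) := by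
      ext i j
      rw [Matrix.mul_apply]
      simp [gram, Matrix.conjTranspose_apply]
    rw [e]
    exact Matrix.posSemidef_conjTranspose_mul_self _
  rw [h.posDef_iff_isUnit, Matrix.isUnit_iff_isUnit_det]
  exact hd.ne'.isUnit

end ItemGH1

open ItemGH1 in
theorem gh1 : GH1 := by
  intro n m O X hX
  have hg : ∀ i j, ContDiffOn ℝ ∞ (fun p => gram X p i j) O := gram_smooth hX.smooth
  have hd : ContDiffOn ℝ ∞ (fun p => (gram X p).det) O := det_smooth hg
  have hne : ∀ p ∈ O, (gram X p).det ≠ 0 := fun p hp => (hX.imm p hp).ne'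
  have hs : ContDiffOn ℝ ∞ (fun p => √(gram X p).det) O := hd.sqrt hne
  have hsne : ∀ p ∈ O, √(gram X p).det ≠ 0 := fun p hp => (Real.sqrt_pos.mpr (hX.imm p hp)).ne'
  have hi : ∀ i j, ContDiffOn ℝ ∞ (fun p => (gram X p)⁻¹ i j) O := inv_smooth hg hne
  refine ⟨fun i j => (hi i j).continuousOn, fun p hp => (gram_posDef (hX.imm p hp)).inv,
    fun p j => (√(gram X p).det)⁻¹ * ∑ i, pd i (fun q => √(gram X q).det * (gram X q)⁻¹ i j) p,
    ?_, ?_⟩
  · intro j
    refine ((hs.inv hsne).continuousOn).mul ?_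
    exact (ContDiffOn.sum fun i _ => pd_smooth (hs.mul (hi i j)) i).continuousOn
  · intro u hu p hp
    have hO : (O : Set (E n)) ∈ nhds p := O.isOpen.mem_nhds hp
    have dA : ∀ {f : E n → ℝ}, ContDiffOn ℝ ∞ f O → DifferentiableAt ℝ f p := fun hf =>
      (hf.contDiffAt hO).differentiableAt (by simp)
    have key : ∀ i, pd i (fun q => √(gram X q).det * ∑ j, (gram X q)⁻¹ i j * pd j u q) p =
        ∑ j, (pd i (fun q => √(gram X q).det * (gram X q)⁻¹ i j) p * pd j u p +
          √(gram X p).det * (gram X p)⁻¹ i j * pd i (fun q => pd j u q) p) := by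
      intro i
      have e : (fun q => √(gram X q).det * ∑ j, (gram X q)⁻¹ i j * pd j u q) =
          fun q => ∑ j, (√(gram X q).det * (gram X q)⁻¹ i j) * pd j u q := by
        funext q
        rw [Finset.mul_sum]
        exact Finset.sum_congr rfl fun j _ => by ring
      rw [e, pd_sum (f := fun j q => (√(gram X q).det * (gram X q)⁻¹ i j) * pd j u q)
        Finset.univ (fun j _ => (dA (hs.mul (hi i j))).mul (dA (pd_smooth hu j)))]
      exact Finset.sum_congr rfl fun j _ =>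
        pd_mul (f := fun q => √(gram X q).det * (gram X q)⁻¹ i j) (g := pd j u)
          (dA (hs.mul (hi i j))) (dA (pd_smooth hu j)) i
    have hsp := hsne p hp
    rw [lap, Finset.sum_congr rfl fun i _ => key i]
    simp only [Finset.sum_add_distrib, mul_add]
    rw [add_comm]
    congr 1
    · rw [Finset.mul_sum]
      refine Finset.sum_congr rfl fun i _ => ?_
      rw [Finset.mul_sum]
      refine Finset.sum_congr rfl fun j _ => ?_
      field_simp
    · rw [Finset.sum_comm, Finset.mul_sum]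
      refine Finset.sum_congr rfl fun j _ => ?_
      rw [mul_assoc, Finset.sum_mul]

end Pool.Agent.Work.MP_157c12_gt

end

section

/-!
# GH2: the strong maximum principle of E. Hopf
-/

open TopologicalSpace
open scoped Manifold ContDiff RealInnerProductSpace

namespace Pool.Agent.Work.MP_157c12_gt

namespace ItemGH2

variable {n : ℕ}

lemma pd_contDiffAt (u : E n → ℝ) (p : E n) (m : WithTop ℕ∞) (j : Fin n)
    (h : ContDiffAt ℝ (m + 1) u p) : ContDiffAt ℝ m (fun q => pd j u q) p :=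
  (h.fderiv_right le_rfl).clm_apply contDiffAt_const

lemma fderiv_eq_sum (u : E n → ℝ) (p ξ : E n) :
    fderiv ℝ u p ξ = ∑ j, ξ j * pd j u p := by
  unfold pd
  have h := (EuclideanSpace.basisFun (Fin n) ℝ).sum_repr ξ
  simp only [EuclideanSpace.basisFun_repr, EuclideanSpace.basisFun_apply] at h
  conv_lhs => rw [← h, map_sum]
  refine Finset.sum_congr rfl fun j _ => ?_
  rw [map_smul, smul_eq_mul]

/-- the second derivative in a direction is nonpositive at a local maximum -/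
lemma second_dir (v : E n → ℝ) (p ξ : E n) (hv : ContDiffAt ℝ 2 v p) (hm : IsLocalMax v p) :
    ∑ i, ∑ j, ξ i * ξ j * pd i (fun q => pd j v q) p ≤ 0 := by
  have hg : Continuous (fun t : ℝ => p + t • ξ) := by fun_prop
  have hd : ∀ t : ℝ, HasDerivAt (fun t : ℝ => p + t • ξ) ξ t := by
    intro t
    simpa using ((hasDerivAt_id t).smul_const ξ).const_add p
  have hz : p + (0 : ℝ) • ξ = p := by simp
  let f : ℝ → ℝ := fun t => v (p + t • ξ)
  -- differentiability near p
  have hev : ∀ᶠ q in nhds p, DifferentiableAt ℝ v q := by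
    filter_upwards [hv.eventually (by simp)] with q hq
    exact hq.differentiableAt (by simp)
  have hev2 : ∀ᶠ t in nhds (0 : ℝ), DifferentiableAt ℝ v (p + t • ξ) := by
    have := hg.tendsto 0
    rw [hz] at this
    exact this.eventually hev
  have h1 : deriv f =ᶠ[nhds 0] fun t => ∑ j, ξ j * pd j v (p + t • ξ) := by
    filter_upwards [hev2] with t ht
    rw [← fderiv_eq_sum]
    exact (ht.hasFDerivAt.comp_hasDerivAt t (hd t)).deriv
  have h2 : deriv (deriv f) 0 = ∑ i, ∑ j, ξ i * ξ j * pd i (fun q => pd j v q) p := by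
    rw [h1.deriv_eq]
    have h3 : ∀ j, HasDerivAt (fun t : ℝ => pd j v (p + t • ξ))
        (∑ i, ξ i * pd i (fun q => pd j v q) p) 0 := by
      intro j
      rw [← fderiv_eq_sum]
      have h4 : DifferentiableAt ℝ (fun q => pd j v q) (p + (0 : ℝ) • ξ) := by
        rw [hz]
        exact (pd_contDiffAt v p 1 j (hv.of_le (by norm_num))).differentiableAt (by simp)
      have h5 := h4.hasFDerivAt.comp_hasDerivAt (0 : ℝ) (hd 0)
      rw [hz] at h5
      exact h5
    have h6 : HasDerivAt (fun t : ℝ => ∑ j, ξ j * pd j v (p + t • ξ))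
        (∑ j, ξ j * ∑ i, ξ i * pd i (fun q => pd j v q) p) 0 :=
      HasDerivAt.fun_sum fun j _ => (h3 j).const_mul (ξ j)
    rw [h6.deriv, Finset.sum_comm]
    refine Finset.sum_congr rfl fun j _ => ?_
    rw [Finset.mul_sum]
    refine Finset.sum_congr rfl fun i _ => ?_
    ring
  rw [← h2]
  by_contra hpos
  push Not at hpos
  have hfm : IsLocalMax f 0 := by
    have h7 := hg.tendsto 0
    rw [hz] at h7
    have h8 : ∀ᶠ t in nhds (0 : ℝ), v (p + t • ξ) ≤ v p := h7.eventually hm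
    filter_upwards [h8] with t ht
    show v (p + t • ξ) ≤ v (p + (0 : ℝ) • ξ)
    rwa [hz]
  have hfc : ContinuousAt f 0 := by
    have h8 : ContinuousAt v (p + (0 : ℝ) • ξ) := by
      rw [hz]
      exact hv.continuousAt
    exact ContinuousAt.comp (g := v) h8 hg.continuousAt
  have hmin := isLocalMin_of_deriv_deriv_pos hpos hfm.deriv_eq_zero hfc
  have hcst : f =ᶠ[nhds 0] fun _ => f 0 := by
    filter_upwards [hfm, hmin] with t ht1 ht2
    exact le_antisymm ht1 ht2
  have h9 : deriv f =ᶠ[nhds 0] fun _ => 0 := by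
    have := hcst.deriv
    simpa using this
  have h10 : deriv (deriv f) 0 = 0 := by
    rw [h9.deriv_eq]
    simp
  rw [h10] at hpos
  exact lt_irrefl _ hpos

/-- the elliptic operator is nonpositive at a local maximum -/
lemma ell_nonpos (v : E n → ℝ) (p : E n) (A : Matrix (Fin n) (Fin n) ℝ) (b : Fin n → ℝ)
    (hA : A.PosDef) (hv : ContDiffAt ℝ 2 v p) (hm : IsLocalMax v p) :
    ∑ i, ∑ j, A i j * pd i (fun q => pd j v q) p + ∑ i, b i * pd i v p ≤ 0 := by
  have h0 : ∀ i, pd i v p = 0 := by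
    intro i
    unfold pd
    rw [hm.fderiv_eq_zero]
    rfl
  obtain ⟨m, w, hw⟩ := Matrix.posSemidef_iff_eq_sum_vecMulVec.mp hA.posSemidef
  have h1 : ∀ i j, A i j = ∑ k, w k i * w k j := by
    intro i j
    rw [hw, Matrix.sum_apply]
    rfl
  have h2 : ∑ i, b i * pd i v p = 0 := Finset.sum_eq_zero fun i _ => by rw [h0, mul_zero]
  rw [h2, add_zero]
  have h3 : ∑ i, ∑ j, A i j * pd i (fun q => pd j v q) p =
      ∑ k, ∑ i, ∑ j, w k i * w k j * pd i (fun q => pd j v q) p := by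
    simp only [h1, Finset.sum_mul]
    rw [Finset.sum_comm]
    simp only [fun j => Finset.sum_comm (s := (Finset.univ : Finset (Fin n)))
      (t := (Finset.univ : Finset (Fin m)))
      (f := fun i k => w k i * w k j * pd i (fun q => pd j v q) p)]
    rw [Finset.sum_comm]
    refine Finset.sum_congr rfl fun k _ => ?_
    rw [Finset.sum_comm]
  rw [h3]
  refine Finset.sum_nonpos fun k _ => ?_
  have := second_dir v p (WithLp.toLp 2 (w k)) hv hm
  simpa using this

/-! ### the barrier -/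

/-- `exp (-α |p - q|²)` -/
noncomputable def bar (α : ℝ) (q p : E n) : ℝ := Real.exp (-α * ‖p - q‖ ^ 2)

lemma bar_contDiff (α : ℝ) (q : E n) (m : WithTop ℕ∞) : ContDiff ℝ m (bar α q) := by
  unfold bar
  exact (contDiff_const.mul ((contDiff_id.sub contDiff_const).norm_sq ℝ)).exp

lemma bar_fderiv (α : ℝ) (q p ξ : E n) :
    fderiv ℝ (bar α q) p ξ = -(2 * α) * ⟪p - q, ξ⟫ * bar α q p := by
  have h1 : HasFDerivAt (fun p : E n => ‖p - q‖ ^ 2)
      (2 • (innerSL ℝ (p - q)).comp (ContinuousLinearMap.id ℝ (E n))) p :=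
    ((hasFDerivAt_id p).sub_const q).norm_sq
  have h2 := (h1.const_mul (-α)).exp
  have h3 : fderiv ℝ (bar α q) p = _ := h2.fderiv
  rw [h3]
  simp only [smul_apply, ContinuousLinearMap.comp_id, smul_eq_mul, nsmul_eq_mul, bar]
  rw [innerSL_apply_apply]
  push_cast
  ring

lemma bar_pd (α : ℝ) (q p : E n) (j : Fin n) :
    pd j (bar α q) p = -(2 * α) * (p j - q j) * bar α q p := by
  unfold pd
  rw [bar_fderiv, EuclideanSpace.inner_single_right]
  simp

lemma bar_pd_pd (α : ℝ) (q p : E n) (i j : Fin n) :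
    pd i (fun x => pd j (bar α q) x) p =
      (4 * α ^ 2 * ((p i - q i) * (p j - q j)) - 2 * α * (if i = j then 1 else 0)) *
        bar α q p := by
  have h1 : (fun x => pd j (bar α q) x) = fun x : E n => (-(2 * α) * (x j - q j)) * bar α q x := by
    ext x
    rw [bar_pd]
  rw [h1]
  have h2 : HasFDerivAt (fun x : E n => -(2 * α) * (x j - q j))
      (-(2 * α) • (EuclideanSpace.proj j : E n →L[ℝ] ℝ)) p :=
    ((EuclideanSpace.proj (𝕜 := ℝ) j).hasFDerivAt.sub_const (q j)).const_mul (-(2 * α))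
  have h3 : HasFDerivAt (bar α q) (fderiv ℝ (bar α q) p) p :=
    (((bar_contDiff α q 1).differentiable (by simp)) p).hasFDerivAt
  have h4 := (h2.mul h3).fderiv
  unfold pd
  have h5 : fderiv ℝ (fun x : E n => (-(2 * α) * (x j - q j)) * bar α q x) p = _ := h4
  rw [h5]
  simp only [add_apply, smul_apply, smul_eq_mul]
  have h6 : fderiv ℝ (bar α q) p (EuclideanSpace.single i 1) =
      -(2 * α) * (p i - q i) * bar α q p := bar_pd α q p i
  have h7 : (EuclideanSpace.proj j : E n →L[ℝ] ℝ) (EuclideanSpace.single i 1) =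
      if i = j then 1 else 0 := by
    show (EuclideanSpace.single i (1 : ℝ)) j = _
    by_cases hij : i = j
    · subst hij
      simp
    · simp [hij, Ne.symm hij]
  rw [h6, h7]
  ring

/-- the operator applied to the barrier -/
lemma bar_ell (α : ℝ) (q p : E n) (A : Matrix (Fin n) (Fin n) ℝ) (b : Fin n → ℝ) :
    ∑ i, ∑ j, A i j * pd i (fun x => pd j (bar α q) x) p + ∑ i, b i * pd i (bar α q) p =
      (4 * α ^ 2 * (∑ i, ∑ j, A i j * ((p i - q i) * (p j - q j))) -
        2 * α * (∑ i, A i i + ∑ i, b i * (p i - q i))) * bar α q p := by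
  have h1 : ∀ i, ∑ j, A i j * pd i (fun x => pd j (bar α q) x) p =
      4 * α ^ 2 * bar α q p * (∑ j, A i j * ((p i - q i) * (p j - q j))) -
        2 * α * bar α q p * A i i := by
    intro i
    have h2 : ∀ j, A i j * pd i (fun x => pd j (bar α q) x) p =
        4 * α ^ 2 * bar α q p * (A i j * ((p i - q i) * (p j - q j))) -
          (if i = j then 2 * α * bar α q p * A i j else 0) := by
      intro j
      rw [bar_pd_pd]
      by_cases hij : i = j
      · rw [if_pos hij, if_pos hij]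
        ring
      · rw [if_neg hij, if_neg hij]
        ring
    simp only [h2]
    rw [Finset.sum_sub_distrib, ← Finset.mul_sum, Finset.sum_ite_eq]
    simp
  rw [Finset.sum_congr rfl fun i _ => h1 i]
  simp only [bar_pd]
  rw [Finset.sum_sub_distrib, ← Finset.mul_sum, ← Finset.mul_sum]
  have h3 : ∑ i, b i * (-(2 * α) * (p i - q i) * bar α q p) =
      -(2 * α) * bar α q p * ∑ i, b i * (p i - q i) := by
    rw [Finset.mul_sum]
    refine Finset.sum_congr rfl fun i _ => ?_
    ring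
  rw [h3]
  ring

/-- partial derivatives of `u + ε bar` -/
lemma pd_add_bar (u : E n → ℝ) (α ε : ℝ) (q p : E n) (hu : DifferentiableAt ℝ u p) (j : Fin n) :
    pd j (fun x => u x + ε * bar α q x) p = pd j u p + ε * pd j (bar α q) p := by
  unfold pd
  have h1 : DifferentiableAt ℝ (bar α q) p :=
    ((bar_contDiff α q 1).differentiable (by simp)) p
  have h2 := (hu.hasFDerivAt.add (h1.hasFDerivAt.const_mul ε)).fderiv
  have h3 : fderiv ℝ (fun x => u x + ε * bar α q x) p = _ := h2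
  rw [h3]
  rfl

lemma pd_pd_add_bar (u : E n → ℝ) (α ε : ℝ) (q p : E n) (hu : ContDiffAt ℝ 2 u p)
    (i j : Fin n) :
    pd i (fun y => pd j (fun x => u x + ε * bar α q x) y) p =
      pd i (fun y => pd j u y) p + ε * pd i (fun y => pd j (bar α q) y) p := by
  have h0 : (fun y => pd j (fun x => u x + ε * bar α q x) y) =ᶠ[nhds p]
      fun y => pd j u y + ε * pd j (bar α q) y := by
    filter_upwards [hu.eventually (by simp)] with y hy
    exact pd_add_bar u α ε q y (hy.differentiableAt (by simp)) j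
  unfold pd at *
  rw [h0.fderiv_eq]
  have h1 : DifferentiableAt ℝ (fun y => fderiv ℝ u y (EuclideanSpace.single j 1)) p :=
    (pd_contDiffAt u p 1 j (hu.of_le (by norm_num))).differentiableAt (by simp)
  have h2 : DifferentiableAt ℝ (fun y => fderiv ℝ (bar α q) y (EuclideanSpace.single j 1)) p :=
    (pd_contDiffAt (bar α q) p 1 j ((bar_contDiff α q _).contDiffAt)).differentiableAt (by simp)
  have h3 := (h1.hasFDerivAt.add (h2.hasFDerivAt.const_mul ε)).fderiv
  have h4 : fderiv ℝ (fun y => fderiv ℝ u y (EuclideanSpace.single j 1) +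
    ε * fderiv ℝ (bar α q) y (EuclideanSpace.single j 1)) p = _ := h3
  rw [h4]
  rfl

lemma ell_add_bar (u : E n → ℝ) (α ε : ℝ) (q p : E n) (hu : ContDiffAt ℝ 2 u p)
    (A : Matrix (Fin n) (Fin n) ℝ) (b : Fin n → ℝ) :
    ∑ i, ∑ j, A i j * pd i (fun y => pd j (fun x => u x + ε * bar α q x) y) p +
        ∑ i, b i * pd i (fun x => u x + ε * bar α q x) p =
      (∑ i, ∑ j, A i j * pd i (fun y => pd j u y) p + ∑ i, b i * pd i u p) +
        ε * (∑ i, ∑ j, A i j * pd i (fun y => pd j (bar α q) y) p +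
          ∑ i, b i * pd i (bar α q) p) := by
  simp only [pd_pd_add_bar u α ε q p hu, pd_add_bar u α ε q p (hu.differentiableAt (by simp)),
    mul_add, Finset.sum_add_distrib, Finset.mul_sum]
  have e1 : ∀ x y z : ℝ, x * (y * z) = y * (x * z) := fun x y z => by ring
  simp only [e1 ε]
  ring

/-- geometry of the two balls -/
lemma two_balls (q1 z p : E n) :
    dist p q1 ^ 2 + dist p z ^ 2 = 2 * dist p (midpoint ℝ q1 z) ^ 2 + dist z q1 ^ 2 / 2 := by
  have h1 := parallelogram_law_with_norm ℝ (p - midpoint ℝ q1 z)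
    ((1 / 2 : ℝ) • (z - q1))
  have h2 : midpoint ℝ q1 z = (1 / 2 : ℝ) • (q1 + z) := by
    rw [midpoint_eq_smul_add]
    norm_num
  have h3 : p - midpoint ℝ q1 z + (1 / 2 : ℝ) • (z - q1) = p - q1 := by
    rw [h2]
    module
  have h4 : p - midpoint ℝ q1 z - (1 / 2 : ℝ) • (z - q1) = p - z := by
    rw [h2]
    module
  rw [h3, h4, norm_smul] at h1
  rw [dist_eq_norm, dist_eq_norm, dist_eq_norm, dist_eq_norm]
  norm_num at h1
  nlinarith [h1]

/-- uniform choice of `α` -/
lemma choose_alpha (O : Set (E n)) (A : E n → Matrix (Fin n) (Fin n) ℝ) (b : E n → Fin n → ℝ)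
    (hA : ∀ i j, ContinuousOn (fun p => A p i j) O) (hAp : ∀ p ∈ O, (A p).PosDef)
    (hb : ∀ i, ContinuousOn (fun p => b p i) O) (C : Set (E n)) (hC : IsCompact C) (hCO : C ⊆ O)
    (q : E n) (hq : q ∉ C) :
    ∃ α : ℝ, 0 < α ∧ ∀ p ∈ C,
      0 < ∑ i, ∑ j, A p i j * pd i (fun x => pd j (bar α q) x) p +
        ∑ i, b p i * pd i (bar α q) p := by
  rcases C.eq_empty_or_nonempty with rfl | hne
  · exact ⟨1, one_pos, fun p hp => absurd hp (Set.notMem_empty p)⟩
  have hcoord : ∀ i, Continuous (fun p : E n => p i - q i) := fun i => by fun_prop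
  have c1 : ContinuousOn (fun p => ∑ i, ∑ j, A p i j * ((p i - q i) * (p j - q j))) C :=
    continuousOn_finsetSum _ fun i _ => continuousOn_finsetSum _ fun j _ =>
      ((hA i j).mono hCO).mul ((hcoord i).mul (hcoord j)).continuousOn
  have c2 : ContinuousOn (fun p => ∑ i, A p i i + ∑ i, b p i * (p i - q i)) C :=
    (continuousOn_finsetSum _ fun i _ => (hA i i).mono hCO).add
      (continuousOn_finsetSum _ fun i _ => ((hb i).mono hCO).mul (hcoord i).continuousOn)
  obtain ⟨pm, hpm, hmin⟩ := hC.exists_isMinOn hne c1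
  obtain ⟨pM, hpM, hmax⟩ := hC.exists_isMaxOn hne c2
  have hpos : 0 < ∑ i, ∑ j, A pm i j * ((pm i - q i) * (pm j - q j)) := by
    have h1 : (WithLp.ofLp (pm - q)) ≠ 0 := by
      intro h0
      have h2 : pm - q = 0 := by
        ext i
        exact congrFun h0 i
      rw [sub_eq_zero] at h2
      exact hq (h2 ▸ hpm)
    have h2 := (hAp pm (hCO hpm)).dotProduct_mulVec_pos h1
    have h3 : star (WithLp.ofLp (pm - q)) ⬝ᵥ (A pm).mulVec (WithLp.ofLp (pm - q)) =
        ∑ i, ∑ j, A pm i j * ((pm i - q i) * (pm j - q j)) := by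
      simp only [dotProduct, Matrix.mulVec, Finset.mul_sum]
      refine Finset.sum_congr rfl fun i _ => Finset.sum_congr rfl fun j _ => ?_
      simp
      ring
    rwa [h3] at h2
  generalize hlam : ∑ i, ∑ j, A pm i j * ((pm i - q i) * (pm j - q j)) = lam at hpos
  generalize hLam : ∑ i, A pM i i + ∑ i, b pM i * (pM i - q i) = Lam
  have ha : 0 < max 1 (Lam / lam) := lt_max_of_lt_left one_pos
  refine ⟨max 1 (Lam / lam), ha, fun p hp => ?_⟩
  rw [bar_ell]
  refine mul_pos ?_ (Real.exp_pos _)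
  have h1 : lam ≤ ∑ i, ∑ j, A p i j * ((p i - q i) * (p j - q j)) := by
    rw [← hlam]
    exact hmin hp
  have h2 : ∑ i, A p i i + ∑ i, b p i * (p i - q i) ≤ Lam := by
    rw [← hLam]
    exact hmax hp
  have h3 : Lam ≤ max 1 (Lam / lam) * lam := by
    have := le_max_right 1 (Lam / lam)
    calc Lam = Lam / lam * lam := by field_simp
      _ ≤ _ := mul_le_mul_of_nonneg_right this hpos.le
  generalize max 1 (Lam / lam) = α at *
  have h4 : 4 * α ^ 2 * lam ≤ 4 * α ^ 2 * ∑ i, ∑ j, A p i j * ((p i - q i) * (p j - q j)) :=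
    mul_le_mul_of_nonneg_left h1 (by positivity)
  have h5 : 2 * α * (∑ i, A p i i + ∑ i, b p i * (p i - q i)) ≤ 2 * α * (α * lam) :=
    mul_le_mul_of_nonneg_left (h2.trans h3) (by positivity)
  have h6 : 0 < α * α * lam := by positivity
  nlinarith

end ItemGH2

open ItemGH2 Metric in
theorem gh2 : GH2 := by
  intro n O A b u hA hAp hb hu hL p0 hp0 hmax
  by_contra hne
  have hO : IsOpen (O : Set (E n)) := O.isOpen
  have huc : ContinuousOn u O := hu.continuousOn
  have hu2 : ∀ p ∈ O, ContDiffAt ℝ 2 u p := fun p hp =>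
    (hu.contDiffAt (hO.mem_nhds hp)).of_le ENat.LEInfty.out
  -- a closed ball in `O`
  obtain ⟨R0, hR0, hR0O⟩ := Metric.isOpen_iff.mp hO p0 hp0
  have hRO : closedBall p0 (R0 / 2) ⊆ (O : Set (E n)) :=
    (closedBall_subset_ball (by linarith)).trans hR0O
  have hR : 0 < R0 / 4 := by linarith
  obtain ⟨R, hRdef⟩ : ∃ R, R = R0 / 4 := ⟨_, rfl⟩
  have hRO' : closedBall p0 (2 * R) ⊆ (O : Set (E n)) := by
    rw [hRdef]
    have : 2 * (R0 / 4) = R0 / 2 := by ring
    rwa [this]
  rw [← hRdef] at hR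
  obtain ⟨q1, hq1, hq1u⟩ : ∃ q1 ∈ ball p0 (R / 2), u q1 ≠ u p0 := by
    by_contra hcon
    push Not at hcon
    exact hne (Filter.mem_of_superset (ball_mem_nhds p0 (half_pos hR)) hcon)
  -- the nearest point of the contact set
  have hKc : IsCompact (closedBall p0 R ∩ u ⁻¹' {u p0}) := by
    refine (isCompact_closedBall p0 R).of_isClosed_subset ?_ Set.inter_subset_left
    exact (huc.mono ((closedBall_subset_closedBall (by linarith)).trans hRO')).preimage_isClosed_of_isClosed
      isClosed_closedBall isClosed_singleton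
  obtain ⟨z, hzK, hzmin⟩ := hKc.exists_isMinOn ⟨p0, mem_closedBall_self hR.le, rfl⟩
    (f := fun p => dist p q1) (continuous_id.dist continuous_const).continuousOn
  have hzu : u z = u p0 := hzK.2
  obtain ⟨d, hd⟩ : ∃ d, d = dist z q1 := ⟨_, rfl⟩
  have hd0 : 0 < d := by
    rw [hd]
    refine dist_pos.mpr fun h => hq1u ?_
    rw [← h, hzu]
  have hdR : d < R / 2 := by
    rw [hd]
    refine lt_of_le_of_lt (hzmin ⟨mem_closedBall_self hR.le, rfl⟩) ?_
    show dist p0 q1 < R / 2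
    rw [dist_comm]
    exact hq1
  have hball : ∀ p, dist p q1 < d → u p < u p0 := by
    intro p hp
    have h1 : dist p p0 < R := by
      have := dist_triangle p q1 p0
      have h2 : dist q1 p0 < R / 2 := hq1
      linarith
    have h2 : p ∈ (O : Set (E n)) := hRO' (closedBall_subset_closedBall (by linarith)
      (mem_closedBall.mpr h1.le))
    refine lt_of_le_of_ne (hmax p h2) fun h3 => ?_
    have h4 : dist z q1 ≤ dist p q1 := hzmin ⟨mem_closedBall.mpr h1.le, h3⟩
    rw [← hd] at h4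
    exact absurd hp (not_lt.mpr h4)
  have hzp0 : dist z p0 < R := by
    have := dist_triangle z q1 p0
    have h2 : dist q1 p0 < R / 2 := hq1
    rw [← hd] at this
    linarith
  have hzO : z ∈ (O : Set (E n)) := hRO' (closedBall_subset_closedBall (by linarith)
      (mem_closedBall.mpr hzp0.le))
  -- the inner ball
  obtain ⟨q, hq⟩ : ∃ q, q = midpoint ℝ q1 z := ⟨_, rfl⟩
  have hqz : dist z q = d / 2 := by
    rw [hq, dist_comm, dist_midpoint_right, ← dist_comm z q1, ← hd]
    norm_num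
    ring
  have htb : ∀ p, dist p q1 ^ 2 + dist p z ^ 2 = 2 * dist p q ^ 2 + d ^ 2 / 2 := by
    intro p
    rw [hq, hd]
    exact two_balls q1 z p
  have hin : ∀ p, dist p q ≤ d / 2 → p ≠ z → u p < u p0 := by
    intro p hp hpz
    refine hball p ?_
    have h1 := htb p
    have h2 : 0 < dist p z := dist_pos.mpr hpz
    have h3 : dist p q ^ 2 ≤ (d / 2) ^ 2 := pow_le_pow_left₀ dist_nonneg hp 2
    refine lt_of_pow_lt_pow_left₀ 2 hd0.le ?_
    nlinarith
  -- the compact set around `z`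
  have hCO : closedBall z (d / 4) ⊆ (O : Set (E n)) := by
    refine fun p hp => hRO' (mem_closedBall.mpr ?_)
    have h1 : dist p z ≤ d / 4 := hp
    have h2 := dist_triangle p z p0
    linarith
  have hqC : q ∉ closedBall z (d / 4) := by
    intro h
    have h1 : dist q z ≤ d / 4 := h
    rw [dist_comm, hqz] at h1
    linarith
  obtain ⟨α, hα, hbar⟩ := choose_alpha O A b hA hAp hb (closedBall z (d / 4))
    (isCompact_closedBall _ _) hCO q hqC
  -- the region
  have hSc : IsCompact (sphere z (d / 4) ∩ closedBall q (d / 2)) :=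
    (isCompact_sphere _ _).inter_right isClosed_closedBall
  have hSO : sphere z (d / 4) ∩ closedBall q (d / 2) ⊆ (O : Set (E n)) := fun p hp =>
    hCO (sphere_subset_closedBall hp.1)
  obtain ⟨δ, hδ, hSδ⟩ : ∃ δ > 0, ∀ p ∈ sphere z (d / 4) ∩ closedBall q (d / 2),
      u p ≤ u p0 - δ := by
    rcases (sphere z (d / 4) ∩ closedBall q (d / 2)).eq_empty_or_nonempty with h0 | h0
    · exact ⟨1, one_pos, fun p hp => by rw [h0] at hp; exact absurd hp (Set.notMem_empty p)⟩
    · obtain ⟨y, hy, hymax⟩ := hSc.exists_isMaxOn h0 (huc.mono hSO)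
      have hyz : y ≠ z := by
        intro h
        have h1 : dist y z = d / 4 := hy.1
        rw [h, dist_self] at h1
        linarith
      have h2 := hin y hy.2 hyz
      refine ⟨u p0 - u y, by linarith, fun p hp => ?_⟩
      have h3 : u p ≤ u y := hymax hp
      linarith
  -- the comparison function
  have hbq : ∀ p, bar α q p ≤ 1 := by
    intro p
    unfold bar
    rw [Real.exp_le_one_iff]
    have : 0 ≤ α * ‖p - q‖ ^ 2 := by positivity
    linarith
  obtain ⟨ε, hε, hεδ⟩ : ∃ ε > 0, ε < δ := ⟨δ / 2, by linarith, by linarith⟩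
  obtain ⟨κ, hκ⟩ : ∃ κ, κ = bar α q z := ⟨_, rfl⟩
  have hκ0 : 0 < κ := by
    rw [hκ]
    exact Real.exp_pos _
  have hsph : ∀ p, dist p q = d / 2 → bar α q p = κ := by
    intro p hp
    rw [hκ]
    unfold bar
    rw [← dist_eq_norm, ← dist_eq_norm, hp, hqz]
  let v : E n → ℝ := fun p => u p + ε * bar α q p
  have hvz : v z = u p0 + ε * κ := by
    show u z + ε * bar α q z = _
    rw [hzu, hκ]
  have hWc : IsCompact (closedBall z (d / 4) ∩ closedBall q (d / 2)) :=
    (isCompact_closedBall _ _).inter_right isClosed_closedBall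
  have hvc : ContinuousOn v O := huc.add (continuousOn_const.mul
    (bar_contDiff α q 1).continuous.continuousOn)
  have hzW : z ∈ closedBall z (d / 4) ∩ closedBall q (d / 2) :=
    ⟨mem_closedBall_self (by linarith), mem_closedBall.mpr hqz.le⟩
  obtain ⟨y, hyW, hymax⟩ := hWc.exists_isMaxOn ⟨z, hzW⟩
    (hvc.mono fun p hp => hCO hp.1)
  have hyO : y ∈ (O : Set (E n)) := hCO hyW.1
  have hvy : v y ≤ v z := by
    by_contra hcon
    push Not at hcon
    have hy1 : dist y z < d / 4 := by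
      refine lt_of_le_of_ne hyW.1 fun h => ?_
      have h1 := hSδ y ⟨h, hyW.2⟩
      have h2 : v y ≤ u p0 - δ + ε * 1 := add_le_add h1 (mul_le_mul_of_nonneg_left (hbq y) hε.le)
      rw [hvz] at hcon
      have h3 : 0 < ε * κ := mul_pos hε hκ0
      linarith
    have hy2 : dist y q < d / 2 := by
      refine lt_of_le_of_ne hyW.2 fun h => ?_
      have h1 := hsph y h
      have h2 : v y = u y + ε * κ := by
        show u y + ε * bar α q y = _
        rw [h1]
      rw [hvz, h2] at hcon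
      have h3 := hmax y hyO
      linarith
    have hloc : IsLocalMax v y := by
      have h1 : ball z (d / 4) ∩ ball q (d / 2) ∈ nhds y :=
        (isOpen_ball.inter isOpen_ball).mem_nhds ⟨hy1, hy2⟩
      filter_upwards [h1] with p hp
      exact hymax ⟨ball_subset_closedBall hp.1, ball_subset_closedBall hp.2⟩
    have hv2 : ContDiffAt ℝ 2 v y := (hu2 y hyO).add
      (contDiffAt_const.mul (bar_contDiff α q 2).contDiffAt)
    have h1 := ell_nonpos v y (A y) (b y) (hAp y hyO) hv2 hloc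
    have h2 := ell_add_bar u α ε q y (hu2 y hyO) (A y) (b y)
    have h3 := hL y hyO
    have h4 := mul_pos hε (hbar y hyW.1)
    have h5 : ∑ i, ∑ j, A y i j * pd i (fun y => pd j v y) y + ∑ i, b y i * pd i v y = _ := h2
    rw [h5] at h1
    linarith
  -- the derivative at `z`
  have hdz : fderiv ℝ u z = 0 := by
    have h1 : IsLocalMax u z := by
      filter_upwards [hO.mem_nhds hzO] with p hp
      rw [hzu]
      exact hmax p hp
    exact h1.fderiv_eq_zero
  have hder : HasDerivAt (fun t : ℝ => v (z + t • (q - z))) (ε * (2 * α * (d / 2) ^ 2 * κ)) 0 := by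
    have hl : HasDerivAt (fun t : ℝ => z + t • (q - z)) (q - z) 0 := by
      simpa using ((hasDerivAt_id (0 : ℝ)).smul_const (q - z)).const_add z
    have hz0 : z + (0 : ℝ) • (q - z) = z := by simp
    have h1 : HasFDerivAt u (0 : E n →L[ℝ] ℝ) (z + (0 : ℝ) • (q - z)) := by
      rw [hz0, ← hdz]
      exact ((hu2 z hzO).differentiableAt (by simp)).hasFDerivAt
    have h2 : HasFDerivAt (bar α q) (fderiv ℝ (bar α q) z) (z + (0 : ℝ) • (q - z)) := by
      rw [hz0]
      exact (((bar_contDiff α q 1).differentiable (by simp)) z).hasFDerivAt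
    have h3 := (h1.comp_hasDerivAt (0 : ℝ) hl).add ((h2.comp_hasDerivAt (0 : ℝ) hl).const_mul ε)
    refine h3.congr_deriv ?_
    rw [bar_fderiv, ← hκ]
    have h4 : ⟪z - q, q - z⟫ = -(d / 2) ^ 2 := by
      have h5 : q - z = -(z - q) := by abel
      rw [h5, inner_neg_right, real_inner_self_eq_norm_sq, ← dist_eq_norm, hqz]
    rw [h4]
    simp
  have hpos : 0 < ε * (2 * α * (d / 2) ^ 2 * κ) := by positivity
  have hsl := (hasDerivAt_iff_tendsto_slope.mp hder).mono_left
    (nhdsWithin_mono (0 : ℝ) (show Set.Ioi (0 : ℝ) ⊆ {0}ᶜ from fun t ht => ne_of_gt ht))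
  have hev : ∀ᶠ t in nhdsWithin (0 : ℝ) (Set.Ioi 0), 0 < slope (fun t : ℝ =>
      v (z + t • (q - z))) 0 t := hsl.eventually (lt_mem_nhds hpos)
  have hev2 : ∀ᶠ t in nhdsWithin (0 : ℝ) (Set.Ioi 0), t < 1 / 2 :=
    nhdsWithin_le_nhds (gt_mem_nhds (by norm_num))
  obtain ⟨t, ht1, ht2, ht3⟩ := (hev.and (hev2.and self_mem_nhdsWithin)).exists
  have ht0 : (0 : ℝ) < t := ht3
  rw [slope_def_field, sub_zero] at ht1
  have h1 : 0 < v (z + t • (q - z)) - v (z + (0 : ℝ) • (q - z)) := by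
    have h2 := mul_pos ht1 ht0
    rwa [div_mul_cancel₀ _ ht0.ne'] at h2
  rw [zero_smul, add_zero] at h1
  have hqz' : ‖q - z‖ = d / 2 := by
    rw [← dist_eq_norm, dist_comm, hqz]
  have h3 : z + t • (q - z) ∈ closedBall z (d / 4) ∩ closedBall q (d / 2) := by
    constructor
    · rw [mem_closedBall, dist_eq_norm, add_sub_cancel_left, norm_smul, hqz',
        Real.norm_of_nonneg ht0.le]
      nlinarith
    · have h4 : z + t • (q - z) - q = (1 - t) • (z - q) := by module
      rw [mem_closedBall, dist_eq_norm, h4, norm_smul, ← dist_eq_norm z q, hqz,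
        Real.norm_of_nonneg (by linarith)]
      nlinarith
  have h5 : v (z + t • (q - z)) ≤ v y := hymax h3
  linarith

end Pool.Agent.Work.MP_157c12_gt

end

section

/-!
# Item GM1: charts give patches
-/

set_option autoImplicit false

open MvPolynomial TopologicalSpace
open scoped Manifold ContDiff

namespace Pool.Agent.Work.MP_157c12_gt

namespace ItemGM1

/-- components of the derivative -/
lemma fderiv_comp {n m : ℕ} {X : E n → E m} {p : E n}
    (h : ∀ a, DifferentiableAt ℝ (fun q => X q a) p) (v : E n) (a : Fin m) :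
    fderiv ℝ X p v a = fderiv ℝ (fun q => X q a) p v := by
  have hX : DifferentiableAt ℝ X p := (differentiableAt_euclidean (𝕜 := ℝ)).mpr h
  have h1 : HasFDerivAt (fun q => X q a)
      ((EuclideanSpace.proj a : E m →L[ℝ] ℝ).comp (fderiv ℝ X p)) p :=
    (EuclideanSpace.proj a : E m →L[ℝ] ℝ).hasFDerivAt.comp p hX.hasFDerivAt
  rw [h1.fderiv]
  rfl

/-- the Gram determinant of an injective derivative is positive -/
lemma gram_pos {n m : ℕ} {X : E n → E m} {p : E n}
    (h : ∀ a, DifferentiableAt ℝ (fun q => X q a) p)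
    (hinj : Function.Injective (fderiv ℝ X p)) : 0 < (gram X p).det := by
  set J : Matrix (Fin m) (Fin n) ℝ := Matrix.of fun a i => pd i (fun q => X q a) p with hJ
  have hg : gram X p = J.conjTranspose * J := by
    ext i j
    simp only [gram, Matrix.of_apply, Matrix.mul_apply, Matrix.conjTranspose_apply, hJ,
      star_trivial]
  have hmul : ∀ v : Fin n → ℝ, ∀ a, J.mulVec v a = fderiv ℝ X p (WithLp.toLp 2 v) a := by
    intro v a
    rw [fderiv_comp h]
    have hv : (WithLp.toLp 2 v : E n) = ∑ i, v i • EuclideanSpace.single i (1 : ℝ) := by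
      ext k
      simp [Finset.sum_apply, Pi.single_apply]
    rw [hv, map_sum]
    simp only [map_smul, smul_eq_mul, Matrix.mulVec, dotProduct, hJ, Matrix.of_apply, pd]
    exact Finset.sum_congr rfl fun i _ => mul_comm _ _
  have hJinj : Function.Injective J.mulVec := by
    intro v w hvw
    have h1 : fderiv ℝ X p (WithLp.toLp 2 v) = fderiv ℝ X p (WithLp.toLp 2 w) := by
      ext a
      rw [← hmul, ← hmul, hvw]
    have h2 := hinj h1
    exact congrArg WithLp.ofLp h2
  rw [hg]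
  exact (Matrix.PosDef.conjTranspose_mul_self J hJinj).det_pos

end ItemGM1

open ItemGM1

/-- charts give patches -/
theorem gm1 (h : GM2) : GM1 := by
  intro n m M _ _ _ x hx hinj φ hφ
  have hsm := h n m M x hx φ hφ
  refine ⟨hsm, fun p hp => ?_⟩
  have hp' : p ∈ φ.target := hp
  have hdiff : ∀ a, DifferentiableAt ℝ (fun q => x (φ.symm q) a) p := fun a =>
    ((hsm a).contDiffAt (φ.open_target.mem_nhds hp')).differentiableAt (by simp)
  refine gram_pos hdiff ?_
  have hMD : φ.MDifferentiable 𝓘(ℝ, E n) 𝓘(ℝ, E n) := mdifferentiable_of_mem_atlas hφ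
  have h1 : Function.Injective (mfderiv 𝓘(ℝ, E n) 𝓘(ℝ, E n) φ.symm p) :=
    hMD.symm.mfderiv_injective hp'
  have h2 : MDifferentiableAt 𝓘(ℝ, E n) 𝓘(ℝ, E m) x (φ.symm p) :=
    hx.mdifferentiableAt (by simp)
  have h3 : MDifferentiableAt 𝓘(ℝ, E n) 𝓘(ℝ, E n) φ.symm p := hMD.symm.mdifferentiableAt hp'
  have h4 : mfderiv 𝓘(ℝ, E n) 𝓘(ℝ, E m) (x ∘ φ.symm) p =
      (mfderiv 𝓘(ℝ, E n) 𝓘(ℝ, E m) x (φ.symm p)).comp (mfderiv 𝓘(ℝ, E n) 𝓘(ℝ, E n) φ.symm p) :=
    mfderiv_comp p h2 h3
  have h5 : Function.Injective (mfderiv 𝓘(ℝ, E n) 𝓘(ℝ, E m) (x ∘ φ.symm) p) := by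
    rw [h4]
    exact (hinj _).comp h1
  rw [mfderiv_eq_fderiv] at h5
  exact h5

end Pool.Agent.Work.MP_157c12_gt

end

section

/-!
# GM2: smooth functions in charts
-/

open scoped Manifold ContDiff

namespace Pool.Agent.Work.MP_157c12_gt

theorem gm2 : GM2 := by
  intro n m M _ _ _ y hy φ hφ a
  have h1 : ContMDiffOn 𝓘(ℝ, E n) 𝓘(ℝ, E n) ∞ φ.symm φ.target :=
    contMDiffOn_symm_of_mem_maximalAtlas (IsManifold.subset_maximalAtlas hφ)
  have h2 : ContMDiffOn 𝓘(ℝ, E n) 𝓘(ℝ, E m) ∞ (fun q => y (φ.symm q)) φ.target :=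
    hy.comp_contMDiffOn h1
  have h3 : ContDiffOn ℝ ∞ (fun q => y (φ.symm q)) φ.target :=
    contMDiffOn_iff_contDiffOn.mp h2
  exact (EuclideanSpace.proj (𝕜 := ℝ) a : E m →L[ℝ] ℝ).contDiff.comp_contDiffOn h3

end Pool.Agent.Work.MP_157c12_gt

end

section

/-!
# Item GM3: there are no harmonic functions on compact connected manifolds
-/

set_option autoImplicit false

open MvPolynomial TopologicalSpace
open scoped Manifold ContDiff

namespace Pool.Agent.Work.MP_157c12_gt

/-- there are no harmonic functions -/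
theorem gm3 (h1 : GH1) (h2 : GH2) (m1 : GM1) (m2 : GM2) : GM3 := by
  intro n m M _ _ _ _ _ x hx hinj y a hy hlap
  have hf : Continuous (fun p => y p a) :=
    (EuclideanSpace.proj a : E m →L[ℝ] ℝ).continuous.comp hy.continuous
  obtain ⟨m0, -, hmax⟩ := isCompact_univ.exists_isMaxOn Set.univ_nonempty hf.continuousOn
  have hmax' : ∀ p, y p a ≤ y m0 a := fun p => hmax (Set.mem_univ p)
  have hopen : IsOpen {p | y p a = y m0 a} := by
    rw [isOpen_iff_mem_nhds]
    intro q hq
    have hq' : y q a = y m0 a := hq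
    have hφ : chartAt (E n) q ∈ atlas (E n) M := chart_mem_atlas _ _
    set φ := chartAt (E n) q with hφdef
    have hsrc : q ∈ φ.source := mem_chart_source _ _
    have htgt : φ q ∈ φ.target := φ.map_source hsrc
    have hpatch := m1 n m M x hx hinj φ hφ
    obtain ⟨hA, hPos, b, hb, hexp⟩ := h1 n m ⟨φ.target, φ.open_target⟩ _ hpatch
    have hu : ContDiffOn ℝ ∞ (fun z => y (φ.symm z) a) φ.target := m2 n m M y hy φ hφ a
    have h3 := h2 n ⟨φ.target, φ.open_target⟩ _ b (fun z => y (φ.symm z) a) hA hPos hb hu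
      (by
        intro p hp
        rw [← hexp _ hu p hp, hlap φ hφ p hp, zero_mul])
      (φ q) htgt (by
        intro p _
        show y (φ.symm p) a ≤ y (φ.symm (φ q)) a
        rw [φ.left_inv hsrc, hq']
        exact hmax' _)
    have h4 : ∀ᶠ p in nhds q, y (φ.symm (φ p)) a = y (φ.symm (φ q)) a :=
      (φ.continuousAt hsrc).eventually h3
    filter_upwards [h4, φ.open_source.mem_nhds hsrc] with p hp hps
    rw [φ.left_inv hps, φ.left_inv hsrc, hq'] at hp
    exact hp
  have hclopen : IsClopen {p | y p a = y m0 a} := ⟨isClosed_eq hf continuous_const, hopen⟩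
  have huniv := hclopen.eq_univ ⟨m0, rfl⟩
  intro p q
  have hp : p ∈ {p | y p a = y m0 a} := by
    rw [huniv]
    exact Set.mem_univ p
  have hq : q ∈ {p | y p a = y m0 a} := by
    rw [huniv]
    exact Set.mem_univ q
  exact hp.trans hq.symm

end Pool.Agent.Work.MP_157c12_gt

end

section

/-!
# The main theorem for a general centre
-/

open MvPolynomial TopologicalSpace
open scoped Manifold ContDiff

namespace Pool.Agent.Work.MP_157c12_gt

namespace ItemGMain

lemma pd_sub_const {n : ℕ} (i : Fin n) (f : E n → ℝ) (c : ℝ) (p : E n) :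
    pd i (fun q => f q - c) p = pd i f p := by
  rw [pd, pd, fderiv_sub_const]

lemma gram_sub {n m : ℕ} (X : E n → E m) (c : E m) (p : E n) :
    gram (fun q => X q - c) p = gram X p := by
  ext i j
  simp only [gram, Matrix.of_apply]
  apply Finset.sum_congr rfl
  intro a _
  have h : ∀ k : Fin n, pd k (fun q => (X q - c) a) p = pd k (fun q => X q a) p := fun k =>
    pd_sub_const k (fun q => X q a) (c a) p
  rw [h, h]

lemma lap_sub {n m : ℕ} (X : E n → E m) (c : E m) (f : E n → ℝ) (p : E n) :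
    lap (fun q => X q - c) f p = lap X f p := by
  simp only [lap, gram_sub]

/-- `P (c + X)` -/
noncomputable def shP (c : E 3) (P : MvPolynomial (Fin 3) ℝ) : MvPolynomial (Fin 3) ℝ :=
  aeval (fun a => (X a : MvPolynomial (Fin 3) ℝ) + C (c a)) P

lemma eval_shP (c : E 3) (P : MvPolynomial (Fin 3) ℝ) (v : Fin 3 → ℝ) :
    eval v (shP c P) = eval (fun a => v a + c a) P := by
  have h : (aeval v).comp (aeval (fun a => (X a : MvPolynomial (Fin 3) ℝ) + C (c a))) =
      (aeval (fun a => v a + c a) : MvPolynomial (Fin 3) ℝ →ₐ[ℝ] ℝ) := by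
    ext a
    simp
  have h2 := AlgHom.congr_fun h P
  rw [AlgHom.comp_apply] at h2
  rw [shP, ← coe_aeval_eq_eval, ← coe_aeval_eq_eval]
  exact h2

end ItemGMain

open ItemGMain

theorem gmain (h5 : GM5) : GMain := by
  intro M _ _ _ _ _ x hx himm hft hP
  obtain ⟨c, k, y, l, hy, hyn, hsum, hlap⟩ := hft
  obtain ⟨P, hP0, hPx⟩ := hP
  have hx' : ContMDiff 𝓘(ℝ, E 2) 𝓘(ℝ, E 3) ∞ (fun p => x p - c) := hx.sub contMDiff_const
  have hder : ∀ p, mfderiv 𝓘(ℝ, E 2) 𝓘(ℝ, E 3) (fun p => x p - c) p =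
      mfderiv 𝓘(ℝ, E 2) 𝓘(ℝ, E 3) x p := by
    intro p
    have h1 : MDifferentiableAt 𝓘(ℝ, E 2) 𝓘(ℝ, E 3) x p := hx.mdifferentiableAt (by simp)
    have h2 := mfderiv_sub h1 (mdifferentiableAt_const (c := c))
    rw [mfderiv_const] at h2
    refine h2.trans ?_
    exact sub_zero (G := E 2 →L[ℝ] E 3) _
  obtain ⟨r, hr, hrange⟩ := h5 M (fun p => x p - c) hx' (by
      intro p
      rw [hder]
      exact himm p) k y l hy hyn (by
      intro p
      show x p - c = _
      rw [hsum p]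
      abel) (by
      intro i a φ hφ p hp
      have h := hlap i a φ hφ p hp
      rw [← h]
      exact lap_sub (fun q => x (φ.symm q)) c _ p) (shP c P) (by
      intro h0
      apply hP0
      apply MvPolynomial.funext
      intro v
      have h1 := eval_shP c P (fun a => v a - c a)
      rw [h0, map_zero] at h1
      rw [map_zero, h1]
      simp) (by
      intro p
      rw [eval_shP]
      have := hPx p
      convert this using 3
      ext a
      show (x p - c) a + c a = x p a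
      rw [PiLp.sub_apply]
      ring)
  refine ⟨c, r, hr, ?_⟩
  ext z
  constructor
  · rintro ⟨p, rfl⟩
    have : x p - c ∈ Metric.sphere (0 : E 3) r := by
      rw [← hrange]
      exact ⟨p, rfl⟩
    rw [mem_sphere_iff_norm] at this ⊢
    simpa using this
  · intro hz
    have : z - c ∈ Set.range (fun p => x p - c) := by
      rw [hrange, mem_sphere_iff_norm]
      rw [mem_sphere_iff_norm] at hz
      simpa using hz
    obtain ⟨p, hp⟩ := this
    exact ⟨p, sub_left_injective hp⟩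

end Pool.Agent.Work.MP_157c12_gt

end
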