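import Pool.Agent.Work.MP_157c12_gt.Stmts

/-! Bundle of small proof modules (one section per former module). -/

section

/-!
# Item A1: `p(Δ) x = 0` is given by polynomials in `x`
-/

set_option autoImplicit false

open MvPolynomial

namespace Pool.Agent.Work.MP_157c12_gt.ItemA1

section

variable {R : Type} [CommRing R] [Algebra ℂ R] (D1 D2 : Derivation ℂ R R) (x : Fin 3 → R) (di : R)

theorem lap_mul (f g : R) : lapF D1 D2 x di (f * g) =
    f * lapF D1 D2 x di g + g * lapF D1 D2 x di f + 2 * gam D1 D2 x di f g := by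
  simp only [lapF, gam, Derivation.leibniz, smul_eq_mul, map_add, map_sub]
  ring

theorem gam_mul (f g k : R) : gam D1 D2 x di (f * g) k =
    f * gam D1 D2 x di g k + g * gam D1 D2 x di f k := by
  simp only [gam, Derivation.leibniz, smul_eq_mul]
  ring

theorem gam_comm (f g : R) : gam D1 D2 x di f g = gam D1 D2 x di g f := by
  simp only [gam]
  ring

theorem lap_one : lapF D1 D2 x di 1 = 0 := by
  simp only [lapF, Derivation.map_one_eq_zero, mul_zero, sub_zero, map_zero, add_zero]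

theorem gam_one (f : R) : gam D1 D2 x di 1 f = 0 := by
  simp only [gam, Derivation.map_one_eq_zero, mul_zero, zero_mul, sub_zero, add_zero]

variable {D1 D2 x di}

/-- inner product with the inverse -/
theorem gam_inv {q Qi : R} (hq : q * Qi = 1) (f : R) :
    gam D1 D2 x di Qi f = -(Qi ^ 2 * gam D1 D2 x di q f) := by
  have h1 : q * gam D1 D2 x di Qi f + Qi * gam D1 D2 x di q f = 0 := by
    rw [← gam_mul, hq, gam_one]
  linear_combination Qi * h1 - gam D1 D2 x di Qi f * hq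

theorem lap_inv {q Qi : R} (hq : q * Qi = 1) : lapF D1 D2 x di Qi =
    -(Qi ^ 2 * lapF D1 D2 x di q) + 2 * Qi ^ 3 * gam D1 D2 x di q q := by
  have h1 : q * lapF D1 D2 x di Qi + Qi * lapF D1 D2 x di q + 2 * gam D1 D2 x di q Qi = 0 := by
    rw [← lap_mul, hq, lap_one]
  have h2 := gam_inv (D1 := D1) (D2 := D2) (x := x) (di := di) hq q
  rw [gam_comm] at h2
  linear_combination Qi * h1 - lapF D1 D2 x di Qi * hq - 2 * Qi * h2

theorem gam_pow {q Qi : R} (hq : q * Qi = 1) (f : R) (j : ℕ) :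
    gam D1 D2 x di (Qi ^ j) f = -(j * Qi ^ (j + 1) * gam D1 D2 x di q f) := by
  induction j with
  | zero => simp [gam_one]
  | succ j ih =>
    rw [pow_succ Qi j, gam_mul, ih, gam_inv hq]
    push_cast
    ring

theorem lap_pow {q Qi G L : R} (hq : q * Qi = 1) (hG : gam D1 D2 x di q q = Qi * G)
    (hL : lapF D1 D2 x di q = Qi ^ 2 * L) (j : ℕ) :
    lapF D1 D2 x di (Qi ^ j) = Qi ^ (j + 3) * ((j * (j + 1) : ℕ) * G - j * L) := by
  induction j with
  | zero => simp [lap_one]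
  | succ j ih =>
    rw [pow_succ Qi j, lap_mul, ih, gam_pow hq, lap_inv hq, gam_comm D1 D2 x di q Qi, gam_inv hq,
      hG, hL]
    push_cast
    ring

end

/-- the operator on numerators -/
noncomputable def LJ (F : P3) (j : ℕ) (W : P3) : P3 :=
  W * (((j * (j + 1) : ℕ) : P3) * GN F (QN F) (QN F) - (j : P3) * LN F (QN F)) +
    QN F * (LN F W - 2 * (j : P3) * GN F W (QN F))

/-- the numerators of the iterates -/
noncomputable def ZK (F : P3) (a : Fin 3) : ℕ → P3
  | 0 => X a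
  | k + 1 => LJ F (3 * k) (ZK F a k)

theorem lap_LJ (h : SA1a) (F : P3) {R : Type} [CommRing R] [Algebra ℂ R]
    {D1 D2 : Derivation ℂ R R} {x : Fin 3 → R} {di Qi : R} (hc : ∀ r, D1 (D2 r) = D2 (D1 r))
    (hF : aeval x F = 0) (hd : detN D1 D2 x * di = 1) (hQ : aeval x (QN F) * Qi = 1)
    (j : ℕ) (W : P3) :
    lapF D1 D2 x di (aeval x W * Qi ^ j) = aeval x (LJ F j W) * Qi ^ (j + 3) := by
  obtain ⟨h1, h2⟩ := h F W (QN F) R D1 D2 x di Qi hc hF hd hQ
  obtain ⟨h3, h4⟩ := h F (QN F) (QN F) R D1 D2 x di Qi hc hF hd hQ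
  rw [lap_mul, lap_pow hQ h4 h3, h1, gam_comm, gam_pow hQ, gam_comm, h2]
  simp only [LJ, map_add, map_mul, map_sub, map_natCast, map_ofNat]
  linear_combination (-(aeval x (LN F W)) * Qi ^ (j + 2) +
    2 * j * Qi ^ (j + 2) * aeval x (GN F W (QN F))) * hQ

theorem iter (h : SA1a) (F : P3) {R : Type} [CommRing R] [Algebra ℂ R]
    {D1 D2 : Derivation ℂ R R} {x : Fin 3 → R} {di Qi : R} (hc : ∀ r, D1 (D2 r) = D2 (D1 r))
    (hF : aeval x F = 0) (hd : detN D1 D2 x * di = 1) (hQ : aeval x (QN F) * Qi = 1)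
    (a : Fin 3) (k : ℕ) :
    ((lapL D1 D2 x di) ^ k) (x a) = aeval x (ZK F a k) * Qi ^ (3 * k) := by
  induction k with
  | zero => simp [ZK]
  | succ k ih =>
    rw [pow_succ', Module.End.mul_apply, ih]
    show lapF D1 D2 x di _ = _
    rw [lap_LJ h F hc hF hd hQ]
    rfl

/-- the polynomials -/
noncomputable def ZP (F : P3) (p : Polynomial ℂ) (a : Fin 3) : P3 :=
  ∑ k ∈ Finset.range (p.natDegree + 1), C (p.coeff k) * ZK F a k * QN F ^ (3 * (p.natDegree - k))

theorem main (h : SA1a) (F : P3) (p : Polynomial ℂ) {R : Type} [CommRing R] [Algebra ℂ R]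
    {D1 D2 : Derivation ℂ R R} {x : Fin 3 → R} {di Qi : R} (hc : ∀ r, D1 (D2 r) = D2 (D1 r))
    (hF : aeval x F = 0) (hd : detN D1 D2 x * di = 1) (hQ : aeval x (QN F) * Qi = 1)
    (a : Fin 3) :
    aeval x (ZP F p a) = aeval x (QN F) ^ (3 * p.natDegree) *
      (Polynomial.aeval (lapL D1 D2 x di) p : R →ₗ[ℂ] R) (x a) := by
  rw [Polynomial.aeval_eq_sum_range, LinearMap.sum_apply, Finset.mul_sum]
  unfold ZP
  rw [map_sum]
  refine Finset.sum_congr rfl fun k hk => ?_
  have hk' : k ≤ p.natDegree := Nat.lt_succ_iff.mp (Finset.mem_range.mp hk)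
  rw [LinearMap.smul_apply, iter h F hc hF hd hQ]
  have e1 : 3 * p.natDegree = 3 * (p.natDegree - k) + 3 * k := by omega
  have e2 : aeval x (QN F) ^ (3 * k) * Qi ^ (3 * k) = 1 := by
    rw [← mul_pow, hQ, one_pow]
  rw [e1, pow_add, map_mul, map_mul, map_pow, Algebra.smul_def, MvPolynomial.aeval_C]
  linear_combination -(algebraMap ℂ R (p.coeff k) * aeval x (ZK F a k) *
    aeval x (QN F) ^ (3 * (p.natDegree - k))) * e2

end Pool.Agent.Work.MP_157c12_gt.ItemA1

namespace Pool.Agent.Work.MP_157c12_gt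

theorem a1 (h : SA1a) : SA1 := by
  intro F p
  refine ⟨ItemA1.ZP F p, ?_⟩
  intro R _ _ D1 D2 x di Qi hc hF hd hQ
  have hm := ItemA1.main h F p hc hF hd hQ
  constructor
  · intro hft a
    rw [hm a, hft a, mul_zero]
  · intro hz a
    have h1 := hm a
    rw [hz a] at h1
    have e2 : aeval x (QN F) ^ (3 * p.natDegree) * Qi ^ (3 * p.natDegree) = 1 := by
      rw [← mul_pow, hQ, one_pow]
    linear_combination -(Qi ^ (3 * p.natDegree)) * h1 -
      ((Polynomial.aeval (lapL D1 D2 x di) p : R →ₗ[ℂ] R) (x a)) * e2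

end Pool.Agent.Work.MP_157c12_gt

end

section

/-!
# The Laplace operator on restrictions of polynomials
-/

open MvPolynomial

namespace Pool.Agent.Work.MP_157c12_gt

namespace ItemA1a

variable {R : Type} [CommRing R] [Algebra ℂ R]

theorem two_half : (2 : R) * algebraMap ℂ R (1 / 2) = 1 := by
  have h : (2 : R) = algebraMap ℂ R 2 := (map_ofNat (algebraMap ℂ R) 2).symm
  rw [h, ← map_mul]
  norm_num

theorem chain (D : Derivation ℂ R R) (x : Fin 3 → R) (W : P3) :
    D (aeval x W) = aeval x (pderiv 0 W) * D (x 0) + aeval x (pderiv 1 W) * D (x 1)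
      + aeval x (pderiv 2 W) * D (x 2) := by
  induction W using MvPolynomial.induction_on with
  | C a => simp
  | add p q hp hq =>
    simp only [map_add, hp, hq]
    ring
  | mul_X p i hp =>
    rw [map_mul, aeval_X, D.leibniz, hp]
    simp only [Derivation.leibniz, pderiv_X, smul_eq_mul, map_add, map_mul, aeval_X]
    fin_cases i <;> simp <;> ring

/-- the inner products of the coordinates -/
noncomputable def Gm (D1 D2 : Derivation ℂ R R) (x : Fin 3 → R) (di : R) (a b : Fin 3) : R :=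
  gam D1 D2 x di (x a) (x b)

theorem gam_aeval (D1 D2 : Derivation ℂ R R) (x : Fin 3 → R) (di : R) (W V : P3) :
    gam D1 D2 x di (aeval x W) (aeval x V) =
      ∑ a, ∑ b, aeval x (pderiv a W) * aeval x (pderiv b V) * Gm D1 D2 x di a b := by
  simp only [Gm, gam, Fin.sum_univ_three, chain D1 x W, chain D1 x V, chain D2 x W, chain D2 x V]
  ring

theorem lap_aeval (D1 D2 : Derivation ℂ R R) (x : Fin 3 → R) (di : R) (W : P3) :
    lapF D1 D2 x di (aeval x W) =
      (∑ a, ∑ b, aeval x (pderiv a (pderiv b W)) * Gm D1 D2 x di a b)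
        + ∑ a, aeval x (pderiv a W) * lapF D1 D2 x di (x a) := by
  simp only [Gm, gam, lapF, Fin.sum_univ_three, chain D1 x W, chain D2 x W, map_add, map_sub,
    Derivation.leibniz, smul_eq_mul, chain D1 x (pderiv _ W), chain D2 x (pderiv _ W)]
  ring

omit [Algebra ℂ R] in
/-- a vector orthogonal to two others is parallel to their cross product -/
theorem par {F0 F1 F2 A0 A1 A2 B0 B1 B2 : R} (hA : F0 * A0 + F1 * A1 + F2 * A2 = 0)
    (hB : F0 * B0 + F1 * B1 + F2 * B2 = 0) :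
    F0 * (A2 * B0 - A0 * B2) = F1 * (A1 * B2 - A2 * B1) ∧
      F1 * (A0 * B1 - A1 * B0) = F2 * (A2 * B0 - A0 * B2) ∧
      F2 * (A1 * B2 - A2 * B1) = F0 * (A0 * B1 - A1 * B0) := by
  refine ⟨?_, ?_, ?_⟩
  · linear_combination A2 * hB - B2 * hA
  · linear_combination A0 * hB - B0 * hA
  · linear_combination A1 * hB - B1 * hA

omit [Algebra ℂ R] in
/-- `F` is a multiple of the cross product -/
theorem par2 {F0 F1 F2 A0 A1 A2 B0 B1 B2 n0 n1 n2 dt di q : R}
    (e0 : n0 = A1 * B2 - A2 * B1) (e1 : n1 = A2 * B0 - A0 * B2) (e2 : n2 = A0 * B1 - A1 * B0)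
    (hn : 4 * (n0 * n1) + n2 ^ 2 = -4 * dt) (hd : dt * di = 1) (hq : 4 * q = 1)
    (hA : F0 * A0 + F1 * A1 + F2 * A2 = 0) (hB : F0 * B0 + F1 * B1 + F2 * B2 = 0) :
    ∃ lam : R, F0 = lam * n0 ∧ F1 = lam * n1 ∧ F2 = lam * n2 := by
  obtain ⟨h1, h2, h3⟩ := par hA hB
  rw [← e0, ← e1] at h1
  rw [← e1, ← e2] at h2
  rw [← e0, ← e2] at h3
  refine ⟨-(2 * F0 * n1 + 2 * F1 * n0 + F2 * n2) * di * q, ?_, ?_, ?_⟩
  · linear_combination (-F0) * hq - (4 * q * F0) * hd + (F0 * di * q) * hn -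
      (2 * di * q * n0) * h1 + (di * q * n2) * h3
  · linear_combination (-F1) * hq - (4 * q * F1) * hd + (F1 * di * q) * hn +
      (2 * di * q * n1) * h1 - (di * q * n2) * h2
  · linear_combination (-F2) * hq - (4 * q * F2) * hd + (F2 * di * q) * hn -
      (2 * di * q * n1) * h3 + (2 * di * q * n0) * h2

/-- the matrix of the ambient quadratic form on covectors -/
def Mm (a b : Fin 3) : R :=
  match a, b with
  | 0, 1 => 2
  | 1, 0 => 2
  | 2, 2 => 1
  | _, _ => 0

/-- the cross product with a raised index -/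
def mm (A B : Fin 3 → R) : Fin 3 → R :=
  ![2 * (A 2 * B 0 - A 0 * B 2), 2 * (A 1 * B 2 - A 2 * B 1), A 0 * B 1 - A 1 * B 0]

omit [Algebra ℂ R] in
theorem key (A B : Fin 3 → R) {E f G : R} (hE : E = A 0 * A 1 + A 2 * A 2)
    (hG : G = B 0 * B 1 + B 2 * B 2) (hf : 2 * f = A 0 * B 1 + A 1 * B 0 + 2 * (A 2 * B 2))
    (a b : Fin 3) :
    4 * (G * A a * A b - f * (A a * B b + B a * A b) + E * B a * B b) =
      4 * (E * G - f ^ 2) * Mm a b + mm A B a * mm A B b := by
  subst hE hG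
  fin_cases a <;> fin_cases b <;> simp [Mm, mm]
  · linear_combination (- 2 * (A 0 * B 0 + B 0 * A 0)) * hf
  · linear_combination (2 * (2 * f + (A 0 * B 1 + A 1 * B 0 + 2 * (A 2 * B 2)))
      - 2 * (A 0 * B 1 + B 0 * A 1)) * hf
  · linear_combination (- 2 * (A 0 * B 2 + B 0 * A 2)) * hf
  · linear_combination (2 * (2 * f + (A 0 * B 1 + A 1 * B 0 + 2 * (A 2 * B 2)))
      - 2 * (A 1 * B 0 + B 1 * A 0)) * hf
  · linear_combination (- 2 * (A 1 * B 1 + B 1 * A 1)) * hf
  · linear_combination (- 2 * (A 1 * B 2 + B 1 * A 2)) * hf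
  · linear_combination (- 2 * (A 2 * B 0 + B 2 * A 0)) * hf
  · linear_combination (- 2 * (A 2 * B 1 + B 2 * A 1)) * hf
  · linear_combination ((2 * f + (A 0 * B 1 + A 1 * B 0 + 2 * (A 2 * B 2)))
      - 2 * (A 2 * B 2 + B 2 * A 2)) * hf

theorem nd_self (D : Derivation ℂ R R) (x : Fin 3 → R) :
    nd D D x = D (x 0) * D (x 1) + D (x 2) * D (x 2) := by
  have h := two_half (R := R)
  unfold nd
  linear_combination (D (x 0) * D (x 1)) * h

theorem nd_two (D D' : Derivation ℂ R R) (x : Fin 3 → R) :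
    2 * nd D D' x = D (x 0) * D' (x 1) + D (x 1) * D' (x 0) + 2 * (D (x 2) * D' (x 2)) := by
  have h := two_half (R := R)
  unfold nd
  linear_combination (D (x 0) * D' (x 1) + D (x 1) * D' (x 0)) * h

/-- the data attached to a point of `F = 0` -/
theorem data (F : P3) (D1 D2 : Derivation ℂ R R) (x : Fin 3 → R) (di : R)
    (hF : aeval x F = 0) (hd : detN D1 D2 x * di = 1) :
    ∃ lam : R, (∀ a, aeval x (fs F a) = lam * mm (fun a => D1 (x a)) (fun a => D2 (x a)) a) ∧
      aeval x (QN F) = -4 * lam ^ 2 * detN D1 D2 x := by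
  have hA := chain D1 x F
  have hB := chain D2 x F
  rw [hF, map_zero] at hA hB
  have hE := nd_self D1 x
  have hG := nd_self D2 x
  have hf := nd_two D1 D2 x
  have h2 := two_half (R := R)
  have hn : 4 * ((D1 (x 1) * D2 (x 2) - D1 (x 2) * D2 (x 1)) *
      (D1 (x 2) * D2 (x 0) - D1 (x 0) * D2 (x 2))) +
      (D1 (x 0) * D2 (x 1) - D1 (x 1) * D2 (x 0)) ^ 2 = -4 * detN D1 D2 x := by
    unfold detN
    rw [hE, hG]
    linear_combination (- (2 * nd D1 D2 x + (D1 (x 0) * D2 (x 1) + D1 (x 1) * D2 (x 0)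
      + 2 * (D1 (x 2) * D2 (x 2))))) * hf
  have hq : 4 * (algebraMap ℂ R (1 / 2) * algebraMap ℂ R (1 / 2)) = 1 := by
    linear_combination (2 * algebraMap ℂ R (1 / 2) + 1) * h2
  obtain ⟨lam, l0, l1, l2⟩ := par2 rfl rfl rfl hn hd hq hA.symm hB.symm
  refine ⟨lam, ?_, ?_⟩
  · intro a
    fin_cases a
    · simp [fs, mm, l1]
      ring
    · simp [fs, mm, l0]
      ring
    · simp [fs, mm, l2]
  · simp only [QN, map_add, map_mul, map_pow, map_ofNat, l0, l1, l2]
    linear_combination lam ^ 2 * hn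

theorem Gm_eq (F : P3) (D1 D2 : Derivation ℂ R R) (x : Fin 3 → R) (di Qi : R)
    (hF : aeval x F = 0) (hd : detN D1 D2 x * di = 1) (hQ : aeval x (QN F) * Qi = 1)
    (a b : Fin 3) :
    Gm D1 D2 x di a b = Mm a b - aeval x (fs F a) * aeval x (fs F b) * Qi := by
  obtain ⟨lam, hl, hq⟩ := data F D1 D2 x di hF hd
  have hk := key (fun a => D1 (x a)) (fun a => D2 (x a)) (nd_self D1 x) (nd_self D2 x)
    (nd_two D1 D2 x) a b
  rw [hl a, hl b]
  rw [hq] at hQ
  have h2 := two_half (R := R)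
  set q := algebraMap ℂ R (1 / 2) * algebraMap ℂ R (1 / 2) with hqd
  have hq : 4 * q = 1 := by
    rw [hqd]
    linear_combination (2 * algebraMap ℂ R (1 / 2) + 1) * h2
  have hl2 : lam ^ 2 * Qi = - q * di := by
    linear_combination (- q * di) * hQ - (lam ^ 2 * Qi) * hq - (4 * q * lam ^ 2 * Qi) * hd
  unfold detN at hd
  simp only [Gm, gam]
  set m1 := mm (fun a => D1 (x a)) (fun a => D2 (x a)) a
  set m2 := mm (fun a => D1 (x a)) (fun a => D2 (x a)) b
  linear_combination (q * di) * hk - (di * (nd D2 D2 x * D1 (x a) * D1 (x b) -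
    nd D1 D2 x * (D1 (x a) * D2 (x b) + D2 (x a) * D1 (x b)) +
    nd D1 D1 x * D2 (x a) * D2 (x b))) * hq + (4 * q * Mm a b) * hd + Mm a b * hq
    + (m1 * m2) * hl2

omit [Algebra ℂ R] in
theorem perp_alg {A B P C T L : Fin 3 → R} {E f G E1 E2 f1 f2 G1 d1 d2 di h : R}
    (hL : ∀ a, L a = di * ((G1 * A a + G * P a - f1 * B a - f * C a) +
      (E2 * B a + E * T a - f2 * A a - f * C a)) -
      h * di ^ 2 * (d1 * (G * A a - f * B a) + d2 * (E * B a - f * A a)))
    (hAA : A 0 * A 1 + A 2 * A 2 = E)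
    (hAB : A 0 * B 1 + A 1 * B 0 + 2 * (A 2 * B 2) = 2 * f)
    (h1 : P 0 * A 1 + P 1 * A 0 + 2 * (P 2 * A 2) = E1)
    (h2 : T 0 * A 1 + T 1 * A 0 + 2 * (T 2 * A 2) = 2 * f2 - G1)
    (h3 : C 0 * A 1 + C 1 * A 0 + 2 * (C 2 * A 2) = E2)
    (hd1 : d1 = E * G1 + G * E1 - 2 * f * f1) (hd : (E * G - f ^ 2) * di = 1)
    (hh : 2 * h = 1) :
    L 0 * A 1 + L 1 * A 0 + 2 * (L 2 * A 2) = 0 := by
  rw [hL 0, hL 1, hL 2]
  linear_combination (2 * (di * (G1 - f2) - h * di ^ 2 * (d1 * G - d2 * f))) * hAA +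
    (di * (E2 - f1) - h * di ^ 2 * (d2 * E - d1 * f)) * hAB + (di * G) * h1 + (di * E) * h2
    - (2 * f * di) * h3 - di * hd1 - (di * d1) * hd - (di ^ 2 * (E * G - f ^ 2) * d1) * hh

theorem perp (D1 D2 : Derivation ℂ R R) (x : Fin 3 → R) (di : R)
    (hc : ∀ r, D1 (D2 r) = D2 (D1 r)) (hd : detN D1 D2 x * di = 1) :
    (lapF D1 D2 x di (x 0) * D1 (x 1) + lapF D1 D2 x di (x 1) * D1 (x 0) +
      2 * (lapF D1 D2 x di (x 2) * D1 (x 2)) = 0) ∧
    (lapF D1 D2 x di (x 0) * D2 (x 1) + lapF D1 D2 x di (x 1) * D2 (x 0) +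
      2 * (lapF D1 D2 x di (x 2) * D2 (x 2)) = 0) := by
  have hE := nd_self D1 x
  have hG := nd_self D2 x
  have hf := nd_two D1 D2 x
  have h2 := two_half (R := R)
  have e1 : D1 (D1 (x 0)) * D1 (x 1) + D1 (D1 (x 1)) * D1 (x 0) +
      2 * (D1 (D1 (x 2)) * D1 (x 2)) = D1 (nd D1 D1 x) := by
    rw [hE]
    simp only [map_add, Derivation.leibniz, smul_eq_mul]
    ring
  have e2 : D2 (D1 (x 0)) * D1 (x 1) + D2 (D1 (x 1)) * D1 (x 0) +
      2 * (D2 (D1 (x 2)) * D1 (x 2)) = D2 (nd D1 D1 x) := by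
    rw [hE]
    simp only [map_add, Derivation.leibniz, smul_eq_mul]
    ring
  have g1 : D2 (D1 (x 0)) * D2 (x 1) + D2 (D1 (x 1)) * D2 (x 0) +
      2 * (D2 (D1 (x 2)) * D2 (x 2)) = D1 (nd D2 D2 x) := by
    rw [hG]
    simp only [map_add, Derivation.leibniz, smul_eq_mul, hc]
    ring
  have g2 : D2 (D2 (x 0)) * D2 (x 1) + D2 (D2 (x 1)) * D2 (x 0) +
      2 * (D2 (D2 (x 2)) * D2 (x 2)) = D2 (nd D2 D2 x) := by
    rw [hG]
    simp only [map_add, Derivation.leibniz, smul_eq_mul]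
    ring
  have f1 : 2 * D1 (nd D1 D2 x) = D1 (D1 (x 0)) * D2 (x 1) + D1 (D1 (x 1)) * D2 (x 0) +
      2 * (D1 (D1 (x 2)) * D2 (x 2)) + D2 (nd D1 D1 x) := by
    have h := congrArg D1 hf
    have ha : D1 (2 * nd D1 D2 x) = 2 * D1 (nd D1 D2 x) := by
      rw [two_mul, two_mul, map_add]
    rw [ha] at h
    rw [h, ← e2, two_mul (D1 (x 2) * D2 (x 2))]
    simp only [map_add, Derivation.leibniz, smul_eq_mul, hc]
    ring
  have f2 : 2 * D2 (nd D1 D2 x) = D2 (D2 (x 0)) * D1 (x 1) + D2 (D2 (x 1)) * D1 (x 0) +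
      2 * (D2 (D2 (x 2)) * D1 (x 2)) + D1 (nd D2 D2 x) := by
    have h := congrArg D2 hf
    have ha : D2 (2 * nd D1 D2 x) = 2 * D2 (nd D1 D2 x) := by
      rw [two_mul, two_mul, map_add]
    rw [ha] at h
    rw [h, ← g1, two_mul (D1 (x 2) * D2 (x 2))]
    simp only [map_add, Derivation.leibniz, smul_eq_mul]
    ring
  have dd : ∀ D : Derivation ℂ R R, D (detN D1 D2 x) = nd D1 D1 x * D (nd D2 D2 x) +
      nd D2 D2 x * D (nd D1 D1 x) - 2 * nd D1 D2 x * D (nd D1 D2 x) := by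
    intro D
    unfold detN
    rw [map_sub, pow_two]
    simp only [Derivation.leibniz, smul_eq_mul]
    ring
  have hL : ∀ a, lapF D1 D2 x di (x a) =
      di * ((D1 (nd D2 D2 x) * D1 (x a) + nd D2 D2 x * D1 (D1 (x a)) -
        D1 (nd D1 D2 x) * D2 (x a) - nd D1 D2 x * D2 (D1 (x a))) +
      (D2 (nd D1 D1 x) * D2 (x a) + nd D1 D1 x * D2 (D2 (x a)) -
        D2 (nd D1 D2 x) * D1 (x a) - nd D1 D2 x * D2 (D1 (x a)))) -
      algebraMap ℂ R (1 / 2) * di ^ 2 * (D1 (detN D1 D2 x) * (nd D2 D2 x * D1 (x a) -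
        nd D1 D2 x * D2 (x a)) + D2 (detN D1 D2 x) * (nd D1 D1 x * D2 (x a) -
        nd D1 D2 x * D1 (x a))) := by
    intro a
    unfold lapF
    simp only [map_sub, Derivation.leibniz, smul_eq_mul, hc]
    ring
  constructor
  · exact perp_alg (A := fun a => D1 (x a)) (B := fun a => D2 (x a))
      (P := fun a => D1 (D1 (x a))) (C := fun a => D2 (D1 (x a))) (T := fun a => D2 (D2 (x a)))
      (L := fun a => lapF D1 D2 x di (x a)) hL hE.symm hf.symm e1
      (by linear_combination - f2) e2 (dd D1) hd h2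
  · refine perp_alg (A := fun a => D2 (x a)) (B := fun a => D1 (x a)) (E := nd D2 D2 x)
      (f := nd D1 D2 x) (G := nd D1 D1 x)
      (P := fun a => D2 (D2 (x a))) (C := fun a => D2 (D1 (x a))) (T := fun a => D1 (D1 (x a)))
      (E1 := D2 (nd D2 D2 x)) (E2 := D1 (nd D2 D2 x)) (f1 := D2 (nd D1 D2 x))
      (f2 := D1 (nd D1 D2 x)) (G1 := D2 (nd D1 D1 x)) (d1 := D2 (detN D1 D2 x))
      (d2 := D1 (detN D1 D2 x)) (di := di)
      (L := fun a => lapF D1 D2 x di (x a)) (fun a => (hL a).trans (by ring)) hG.symm ?_ g2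
      ?_ g1 ?_ ?_ h2
    · linear_combination - hf
    · linear_combination - f1
    · rw [dd D2]
      ring
    · unfold detN at hd
      linear_combination hd

theorem lap_coord (F : P3) (D1 D2 : Derivation ℂ R R) (x : Fin 3 → R) (di : R)
    (hc : ∀ r, D1 (D2 r) = D2 (D1 r)) (hF : aeval x F = 0) (hd : detN D1 D2 x * di = 1)
    (a : Fin 3) :
    aeval x (QN F) * lapF D1 D2 x di (x a) = - (aeval x (fs F a) *
      ∑ b, ∑ c, aeval x (pderiv b (pderiv c F)) * Gm D1 D2 x di b c) := by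
  obtain ⟨hA, hB⟩ := perp D1 D2 x di hc hd
  obtain ⟨lam, hl, -⟩ := data F D1 D2 x di hF hd
  have h2 := two_half (R := R)
  have hz : lapF D1 D2 x di (0 : R) = 0 := by simp [lapF]
  have hs := lap_aeval D1 D2 x di F
  rw [hF, hz, Fin.sum_univ_three (fun a => aeval x (pderiv a F) * lapF D1 D2 x di (x a))] at hs
  set SF := ∑ b, ∑ c, aeval x (pderiv b (pderiv c F)) * Gm D1 D2 x di b c with hS
  have l0 := hl 0
  have l1 := hl 1
  have l2 := hl 2
  simp only [fs, mm, Matrix.cons_val_zero, Matrix.cons_val_one, Matrix.cons_val, map_mul,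
    map_ofNat] at l0 l1 l2
  set L0 := lapF D1 D2 x di (x 0) with hL0
  set L1 := lapF D1 D2 x di (x 1) with hL1
  set L2 := lapF D1 D2 x di (x 2) with hL2
  obtain ⟨p1, p2, p3⟩ := par (F0 := L1) (F1 := L0) (F2 := 2 * L2) (A0 := D1 (x 0))
    (A1 := D1 (x 1)) (A2 := D1 (x 2)) (B0 := D2 (x 0)) (B1 := D2 (x 1)) (B2 := D2 (x 2))
    (by linear_combination hA) (by linear_combination hB)
  set F0 := aeval x (pderiv 0 F) with hF0
  set F1 := aeval x (pderiv 1 F) with hF1
  set F2 := aeval x (pderiv 2 F) with hF2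
  set h := algebraMap ℂ R (1 / 2) with hh
  set n0 := D1 (x 1) * D2 (x 2) - D1 (x 2) * D2 (x 1) with hn0
  set n1 := D1 (x 2) * D2 (x 0) - D1 (x 0) * D2 (x 2) with hn1
  set n2 := D1 (x 0) * D2 (x 1) - D1 (x 1) * D2 (x 0) with hn2
  have m1 : F1 = lam * n1 := by linear_combination h * l0 + (lam * n1 - F1) * h2
  have m0 : F0 = lam * n0 := by linear_combination h * l1 + (lam * n0 - F0) * h2
  have q1 : L1 * F1 = L0 * F0 := by linear_combination lam * p1 + L1 * m1 - L0 * m0
  have q2 : L0 * F2 = 2 * L2 * F1 := by linear_combination lam * p2 + L0 * l2 - 2 * L2 * m1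
  have q3 : 2 * L2 * F0 = L1 * F2 := by linear_combination lam * p3 + 2 * L2 * m0 - L1 * l2
  have hQ : aeval x (QN F) = 4 * (F0 * F1) + F2 ^ 2 := by
    simp [QN, hF0, hF1, hF2]
  rw [hQ]
  fin_cases a
  · have e : fs F 0 = 2 * pderiv 1 F := rfl
    simp only [e, map_mul, map_ofNat, Fin.zero_eta]
    linear_combination (- 2 * F1) * hs - 2 * F1 * q1 + F2 * q2
  · have e : fs F 1 = 2 * pderiv 0 F := rfl
    simp only [e, map_mul, map_ofNat, Fin.mk_one]
    linear_combination (- 2 * F0) * hs + 2 * F0 * q1 - F2 * q3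
  · have e : fs F 2 = pderiv 2 F := rfl
    simp only [e, Fin.reduceFinMk]
    linear_combination (- F2) * hs - F0 * q2 + F1 * q3

end ItemA1a

namespace ItemA1a

variable {R : Type} [CommRing R] [Algebra ℂ R]

theorem pd_comm (a b : Fin 3) (W : P3) : pderiv a (pderiv b W) = pderiv b (pderiv a W) := by
  induction W using MvPolynomial.induction_on with
  | C c => simp
  | add p q hp hq => simp only [map_add, hp, hq]
  | mul_X p i hp =>
    simp only [Derivation.leibniz, pderiv_X, smul_eq_mul, map_add, hp]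
    have h1 : pderiv a ((Pi.single b 1 : Fin 3 → P3) i) = 0 := by
      by_cases h : b = i
      · subst h
        simp
      · rw [Pi.single_eq_of_ne (Ne.symm h)]
        simp
    have h2 : pderiv b ((Pi.single a 1 : Fin 3 → P3) i) = 0 := by
      by_cases h : a = i
      · subst h
        simp
      · rw [Pi.single_eq_of_ne (Ne.symm h)]
        simp
    rw [h1, h2]
    ring

theorem trace_eq (F : P3) (D1 D2 : Derivation ℂ R R) (x : Fin 3 → R) (di Qi : R)
    (hF : aeval x F = 0) (hd : detN D1 D2 x * di = 1) (hQ : aeval x (QN F) * Qi = 1)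
    (W : P3) :
    ∑ a, ∑ b, aeval x (pderiv a (pderiv b W)) * Gm D1 D2 x di a b =
      aeval x (lap0 W) - Qi * aeval x (hes F W) := by
  have hM := Gm_eq F D1 D2 x di Qi hF hd hQ
  simp only [hM, Fin.sum_univ_three, lap0, hes, map_add, map_mul, map_ofNat, Mm,
    pd_comm 1 0 W]
  ring

omit [Algebra ℂ R] in
theorem final1 {l Q Qi TW TF a b c d g : R} (hQ : Q * Qi = 1) (hq : Q * l = Q * TW - g * TF)
    (hW : TW = a - Qi * b) (hF : TF = c - Qi * d) :
    l = Qi ^ 2 * (Q * (Q * a - b) - g * (Q * c - d)) := by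
  linear_combination (- l - Qi * Q * a + Qi * g * c) * hQ + Qi * hq + Qi * Q * hW - Qi * g * hF

end ItemA1a

open ItemA1a in
/-- the Laplace operator on restrictions of polynomials -/
theorem a1a : SA1a := by
  intro F W V R _ _ D1 D2 x di Qi hc hF hd hQ
  have hM := Gm_eq F D1 D2 x di Qi hF hd hQ
  constructor
  · have hw := lap_aeval D1 D2 x di W
    have h0 := lap_coord F D1 D2 x di hc hF hd 0
    have h1 := lap_coord F D1 D2 x di hc hF hd 1
    have h2 := lap_coord F D1 D2 x di hc hF hd 2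
    have hW := trace_eq F D1 D2 x di Qi hF hd hQ W
    have hFF := trace_eq F D1 D2 x di Qi hF hd hQ F
    rw [Fin.sum_univ_three (fun a => aeval x (pderiv a W) * lapF D1 D2 x di (x a))] at hw
    have hg : aeval x (dg F W) = aeval x (pderiv 0 W) * aeval x (fs F 0) +
        aeval x (pderiv 1 W) * aeval x (fs F 1) + aeval x (pderiv 2 W) * aeval x (fs F 2) := by
      simp only [dg, Fin.sum_univ_three, map_add, map_mul]
    have hL : aeval x (LN F W) = aeval x (QN F) * (aeval x (QN F) * aeval x (lap0 W) -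
        aeval x (hes F W)) - aeval x (dg F W) * (aeval x (QN F) * aeval x (lap0 F) -
        aeval x (hes F F)) := by
      simp only [LN, map_sub, map_mul]
    rw [hL]
    refine final1 hQ ?_ hW hFF
    rw [hw, hg]
    linear_combination aeval x (pderiv 0 W) * h0 + aeval x (pderiv 1 W) * h1 +
      aeval x (pderiv 2 W) * h2
  · rw [gam_aeval]
    have hG : aeval x (GN F W V) = aeval x (QN F) * (2 * (aeval x (pderiv 0 W) *
        aeval x (pderiv 1 V) + aeval x (pderiv 1 W) * aeval x (pderiv 0 V)) +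
        aeval x (pderiv 2 W) * aeval x (pderiv 2 V)) -
        (aeval x (pderiv 0 W) * aeval x (fs F 0) + aeval x (pderiv 1 W) * aeval x (fs F 1) +
          aeval x (pderiv 2 W) * aeval x (fs F 2)) * (aeval x (pderiv 0 V) * aeval x (fs F 0) +
          aeval x (pderiv 1 V) * aeval x (fs F 1) + aeval x (pderiv 2 V) * aeval x (fs F 2)) := by
      simp only [GN, dg, Fin.sum_univ_three, map_add, map_mul, map_sub, map_ofNat]
    rw [hG]
    simp only [hM, Fin.sum_univ_three, Mm]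
    linear_combination (- (2 * (aeval x (pderiv 0 W) *
        aeval x (pderiv 1 V) + aeval x (pderiv 1 W) * aeval x (pderiv 0 V)) +
        aeval x (pderiv 2 W) * aeval x (pderiv 2 V))) * hQ

end Pool.Agent.Work.MP_157c12_gt

end

section

open MvPolynomial

namespace Pool.Agent.Work.MP_157c12_gt

namespace ItemA2

/-- Bezout with cleared denominators over a UFD. -/
theorem bezout {R : Type} [CommRing R] [IsDomain R] [UniqueFactorizationMonoid R]
    (f w : Polynomial R) (hf : Irreducible f) (hd : f.natDegree ≠ 0) (hw : ¬ f ∣ w) :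
    ∃ (a b : Polynomial R) (r : R), r ≠ 0 ∧ a * f + b * w = Polynomial.C r := by
  have hG : IsGCDMonoid R := ⟨UniqueFactorizationMonoid.toGCDMonoid R⟩
  have hprim : f.IsPrimitive := hf.isPrimitive hd
  let K := FractionRing R
  have hinj : Function.Injective (algebraMap R K) := IsFractionRing.injective R K
  have hirr : Irreducible (f.map (algebraMap R K)) :=
    (hprim.irreducible_iff_irreducible_map_fraction_map).mp hf
  have hnd : ¬ f.map (algebraMap R K) ∣ w.map (algebraMap R K) := fun h =>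
    hw (hprim.dvd_of_fraction_map_dvd_fraction_map h)
  have hcop : IsCoprime (f.map (algebraMap R K)) (w.map (algebraMap R K)) :=
    (hirr.coprime_iff_not_dvd).mpr hnd
  obtain ⟨a, b, hab⟩ := hcop
  obtain ⟨c, c0, hc⟩ := IsLocalization.integerNormalization_spec (nonZeroDivisors R) a
  obtain ⟨d, d0, hdd⟩ := IsLocalization.integerNormalization_spec (nonZeroDivisors R) b
  set a' := IsLocalization.integerNormalization (nonZeroDivisors R) a
  set b' := IsLocalization.integerNormalization (nonZeroDivisors R) b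
  refine ⟨Polynomial.C d * a', Polynomial.C c * b', c * d,
    mul_ne_zero (nonZeroDivisors.ne_zero c0) (nonZeroDivisors.ne_zero d0), ?_⟩
  apply Polynomial.map_injective (algebraMap R K) hinj
  rw [Algebra.smul_def, Polynomial.algebraMap_apply] at hc hdd
  simp only [Polynomial.map_add, Polynomial.map_mul, Polynomial.map_C, hc, hdd, map_mul]
  linear_combination (Polynomial.C (algebraMap R K c) * Polynomial.C (algebraMap R K d)) * hab

theorem rename_succ (r : MvPolynomial (Fin 2) ℂ) :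
    finSuccEquiv ℂ 2 (rename Fin.succ r) = Polynomial.C r := by
  induction r using MvPolynomial.induction_on with
  | C a =>
    rw [rename_C]
    exact (finSuccEquiv ℂ 2).commutes a
  | add p q hp hq => rw [map_add, map_add, hp, hq, Polynomial.C_add]
  | mul_X p i hp => rw [map_mul, map_mul, hp, rename_X, finSuccEquiv_X_succ, Polynomial.C_mul]

end ItemA2

theorem a2 : SA2 := by
  intro F W hF hW
  set e := finSuccEquiv ℂ 2 with he
  have hf : Irreducible (e F) := (MulEquiv.irreducible_iff e.toMulEquiv).mpr hF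
  by_cases hd : (e F).natDegree = 0
  · have h1 := Polynomial.eq_C_of_natDegree_eq_zero hd
    refine ⟨1, 0, (e F).coeff 0, ?_, ?_⟩
    · intro h0
      rw [h0, map_zero] at h1
      exact hf.ne_zero h1
    · apply e.injective
      rw [ItemA2.rename_succ, ← h1]
      simp
  · have hw : ¬ e F ∣ e W := by
      intro h
      apply hW
      have := map_dvd e.symm h
      simpa using this
    obtain ⟨a, b, r, hr, hab⟩ := ItemA2.bezout (e F) (e W) hf hd hw
    refine ⟨e.symm a, e.symm b, r, hr, ?_⟩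
    apply e.injective
    rw [ItemA2.rename_succ, ← hab]
    simp

end Pool.Agent.Work.MP_157c12_gt

end

section

/-!
# Points whose last two coordinates are independent are generic
-/

open MvPolynomial

namespace Pool.Agent.Work.MP_157c12_gt

namespace ItemA3

variable {H : Type} [Field H] [Algebra ℂ H]

/-- the chain rule for a polynomial in three variables -/
lemma chain (D : Derivation ℂ H H) (x : Fin 3 → H) (F : P3) :
    D (aeval x F) = ∑ a, aeval x (pderiv a F) * D (x a) := by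
  induction F using MvPolynomial.induction_on with
  | C c =>
    have h1 : aeval x (C c : P3) = algebraMap ℂ H c := by
      rw [MvPolynomial.aeval_C]
    rw [h1, Derivation.map_algebraMap]
    symm
    apply Finset.sum_eq_zero
    intro a _
    rw [pderiv_C, map_zero, zero_mul]
  | add p q hp hq =>
    rw [map_add, map_add, hp, hq, ← Finset.sum_add_distrib]
    apply Finset.sum_congr rfl
    intro a _
    rw [map_add, map_add]
    ring
  | mul_X p i hp =>
    rw [map_mul, aeval_X, Derivation.leibniz, hp, smul_eq_mul, smul_eq_mul]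
    have h1 : ∀ a, aeval x (pderiv a (p * X i)) * D (x a) =
        x i * (aeval x (pderiv a p) * D (x a)) + aeval x p * (aeval x (pderiv a (X i : P3)) * D (x a)) := by
      intro a
      rw [Derivation.leibniz, map_add, smul_eq_mul, smul_eq_mul, map_mul, map_mul, aeval_X]
      ring
    rw [Finset.sum_congr rfl (fun a _ => h1 a), Finset.sum_add_distrib, ← Finset.mul_sum,
      ← Finset.mul_sum]
    have h2 : ∑ a, aeval x (pderiv a (X i : P3)) * D (x a) = D (x i) := by
      rw [Finset.sum_eq_single i]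
      · rw [pderiv_X_self, map_one, one_mul]
      · intro b _ hb
        rw [pderiv_X_of_ne (Ne.symm hb), map_zero, zero_mul]
      · intro h
        exact absurd (Finset.mem_univ i) h
    rw [h2]
    ring

omit [Algebra ℂ H] in
lemma key (a0 a1 a2 b0 b1 b2 F0 F1 F2 d : H)
    (h1 : F0 * a0 + F1 * a1 + F2 * a2 = 0) (h2 : F0 * b0 + F1 * b1 + F2 * b2 = 0)
    (hd : -4 * d = 4 * (a1 * b2 - a2 * b1) * (a2 * b0 - a0 * b2) + (a0 * b1 - a1 * b0) ^ 2) :
    (4 * (F0 * F1) + F2 ^ 2) * (a1 * b2 - a2 * b1) ^ 2 = -4 * d * F0 ^ 2 := by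
  have e1 : F1 * (a1 * b2 - a2 * b1) = F0 * (a2 * b0 - a0 * b2) := by
    linear_combination b2 * h1 - a2 * h2
  have e2 : F2 * (a1 * b2 - a2 * b1) = F0 * (a0 * b1 - a1 * b0) := by
    linear_combination a1 * h2 - b1 * h1
  have e3 : (4 * (F0 * F1) + F2 ^ 2) * (a1 * b2 - a2 * b1) ^ 2 =
      4 * (F0 * (a1 * b2 - a2 * b1)) * (F1 * (a1 * b2 - a2 * b1))
        + (F2 * (a1 * b2 - a2 * b1)) ^ 2 := by ring
  rw [e3, e1, e2, hd]
  ring

end ItemA3

theorem a3 (h : SA2) : SA3 := by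
  intro p F hF H _ _ D1 D2 x hcomm hx hgen hn
  have gen : ∀ W : P3, aeval x W = 0 → F ∣ W := by
    intro W hW
    by_contra hnd
    obtain ⟨A, B, r, hr, hAB⟩ := h F W hF.irr hnd
    have h1 := congrArg (aeval x) hAB
    rw [map_add, map_mul, map_mul, hx, hW, mul_zero, mul_zero, add_zero, aeval_rename] at h1
    exact hgen r hr h1.symm
  have hQ : aeval x (QN F) ≠ 0 := by
    intro h0
    exact hF.nondeg (gen _ h0)
  have hD : ∀ D : Derivation ℂ H H, aeval x (pderiv 0 F) * D (x 0) + aeval x (pderiv 1 F) * D (x 1)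
      + aeval x (pderiv 2 F) * D (x 2) = 0 := by
    intro D
    have h1 := ItemA3.chain D x F
    rw [hx, map_zero, Fin.sum_univ_three] at h1
    exact h1.symm
  have h2 : algebraMap ℂ H (1 / 2) = (1 / 2 : H) := by
    rw [map_div₀, map_one, map_ofNat]
  have hchar : (2 : H) ≠ 0 := by
    have : algebraMap ℂ H 2 ≠ 0 := by
      rw [Ne, FaithfulSMul.algebraMap_eq_zero_iff]
      norm_num
    rwa [map_ofNat] at this
  have hd : -4 * detN D1 D2 x = 4 * (D1 (x 1) * D2 (x 2) - D1 (x 2) * D2 (x 1)) *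
      (D1 (x 2) * D2 (x 0) - D1 (x 0) * D2 (x 2))
      + (D1 (x 0) * D2 (x 1) - D1 (x 1) * D2 (x 0)) ^ 2 := by
    simp only [detN, nd, h2]
    field_simp
    ring
  have hk := ItemA3.key _ _ _ _ _ _ _ _ _ _ (hD D1) (hD D2) hd
  have hQ' : aeval x (QN F) = 4 * (aeval x (pderiv 0 F) * aeval x (pderiv 1 F))
      + aeval x (pderiv 2 F) ^ 2 := by
    rw [QN, map_add, map_mul, map_mul, map_pow, map_ofNat]
  have hdet : detN D1 D2 x ≠ 0 := by
    intro h0
    rw [← hQ', h0, mul_zero, zero_mul] at hk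
    rcases mul_eq_zero.mp hk with h3 | h3
    · exact hQ h3
    · exact hn (pow_eq_zero_iff (two_ne_zero) |>.mp h3)
  exact ⟨hdet, hF.ft H D1 D2 x hcomm hx gen hdet⟩

end Pool.Agent.Work.MP_157c12_gt

end

section

/-!
# Assembly of the algebraic part
-/

open MvPolynomial

namespace Pool.Agent.Work.MP_157c12_gt

theorem alg (h4 : SA4) (hG : SG) (h3 : SF3) (hH1 : SH1) (hH2 : SH2) (hH3 : SH3) : SAlg := by
  intro p F hF
  have hd : 0 < F.totalDegree := by
    by_contra hd
    have h0 : F.totalDegree = 0 := by omega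
    rw [totalDegree_eq_zero_iff_eq_C] at h0
    have hne : F ≠ 0 := hF.irr.ne_zero
    apply hF.irr.not_isUnit
    rw [h0]
    apply IsUnit.map C
    apply IsUnit.mk0
    intro hc
    apply hne
    rw [h0, hc, C_0]
  have hcone : ∀ P : Fin 3 → ℂ, eval P (top F) = 0 → bn P P = 0 := by
    intro P hP
    by_contra hPP
    obtain ⟨A, hA, hdiv⟩ := hG p F hF P hP hPP
    exact h3 p _ (h4 p F A hF hA).1 hdiv
  obtain ⟨c, m, hc, hm, htop⟩ := hH1 F hd hcone
  exact hH3 F hF.irr (hH2 p F hF c m hc hm htop)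

end Pool.Agent.Work.MP_157c12_gt

end

section

/-!
# A polynomial with a small value at a point has a root near the point
-/

namespace Pool.Agent.Work.MP_157c12_gt

namespace ItemB2

variable {H : Type} [Field H] {Γ : Type} [AddCommGroup Γ] [LinearOrder Γ] [IsOrderedAddMonoid Γ]

/-- coefficients of a product of linear factors -/
lemma prod_le (v : AddValuation H (WithTop Γ)) (z : H) (m : Multiset H) (i : ℕ) :
    (m.map fun r => min (v z) (v r)).sum ≤
      v (((m.map fun r => Polynomial.X - Polynomial.C r).prod).coeff i * z ^ i) := by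
  induction m using Multiset.induction_on generalizing i with
  | empty =>
    simp only [Multiset.map_zero, Multiset.sum_zero, Multiset.prod_zero]
    rcases Nat.eq_zero_or_pos i with h | h
    · subst h
      simp
    · rw [Polynomial.coeff_one, if_neg (by omega), zero_mul, AddValuation.map_zero]
      exact le_top
  | cons r m ih =>
    rw [Multiset.map_cons, Multiset.map_cons, Multiset.sum_cons, Multiset.prod_cons, sub_mul,
      Polynomial.coeff_sub, Polynomial.coeff_C_mul]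
    have h2 : min (v z) (v r) + (m.map fun r => min (v z) (v r)).sum ≤
        v (r * ((m.map fun r => Polynomial.X - Polynomial.C r).prod).coeff i * z ^ i) := by
      rw [mul_assoc, AddValuation.map_mul]
      exact add_le_add (min_le_right _ _) (ih i)
    have h1 : min (v z) (v r) + (m.map fun r => min (v z) (v r)).sum ≤
        v ((Polynomial.X * (m.map fun r => Polynomial.X - Polynomial.C r).prod).coeff i
          * z ^ i) := by
      cases i with
      | zero =>
        rw [Polynomial.coeff_X_mul_zero, zero_mul, AddValuation.map_zero]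
        exact le_top
      | succ i =>
        rw [Polynomial.coeff_X_mul, pow_succ', mul_left_comm, AddValuation.map_mul]
        exact add_le_add (min_le_left _ _) (ih i)
    rw [sub_mul]
    exact AddValuation.map_le_sub v h1 h2

lemma eval_prod (v : AddValuation H (WithTop Γ)) (z : H) (m : Multiset H) :
    v (((m.map fun r => Polynomial.X - Polynomial.C r).prod).eval z) =
      (m.map fun r => v (z - r)).sum := by
  induction m using Multiset.induction_on with
  | empty => simp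
  | cons r m ih =>
    rw [Multiset.map_cons, Multiset.map_cons, Multiset.sum_cons, Multiset.prod_cons,
      Polynomial.eval_mul, AddValuation.map_mul, ih, Polynomial.eval_sub, Polynomial.eval_X,
      Polynomial.eval_C]

end ItemB2

theorem b2 : SB2 := by
  intro H _ _ Γ _ _ _ v P z i hz hlt hP
  by_contra hcon
  push Not at hcon
  have hle : ∀ r ∈ P.roots, v (z - r) ≤ min (v z) (v r) := by
    intro r hr
    have h1 : v (z - r) ≤ v z := hcon r ((Polynomial.mem_roots hP).mp hr)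
    refine le_min h1 ?_
    have h2 : v r = v (z - (z - r)) := by
      congr 1
      ring
    rw [h2]
    exact AddValuation.map_le_sub v h1 le_rfl
  have hfac := (IsAlgClosed.splits P).eq_prod_roots
  have hev : v (P.eval z) = v P.leadingCoeff + (P.roots.map fun r => v (z - r)).sum := by
    conv_lhs => rw [hfac]
    rw [Polynomial.eval_mul, Polynomial.eval_C, AddValuation.map_mul, ItemB2.eval_prod]
  have hco : v P.leadingCoeff + (P.roots.map fun r => min (v z) (v r)).sum ≤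
      v (P.coeff i * z ^ i) := by
    conv_rhs => rw [hfac]
    rw [Polynomial.coeff_C_mul, mul_assoc, AddValuation.map_mul]
    exact add_le_add le_rfl (ItemB2.prod_le v z _ i)
  have hs : (P.roots.map fun r => v (z - r)).sum ≤ (P.roots.map fun r => min (v z) (v r)).sum :=
    Multiset.sum_map_le_sum_map _ _ hle
  rw [hev] at hlt
  exact absurd (lt_of_lt_of_le hlt ((add_le_add le_rfl hs).trans hco)) (lt_irrefl _)

end Pool.Agent.Work.MP_157c12_gt

end

section

/-!
# The roots of largest value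
-/

namespace Pool.Agent.Work.MP_157c12_gt

namespace ItemB3

variable {H : Type} [Field H] {Γ : Type} [AddCommGroup Γ] [LinearOrder Γ] [IsOrderedAddMonoid Γ]

lemma map_lt_sub (v : AddValuation H (WithTop Γ)) {x y : H} {g : WithTop Γ} (hx : g < v x)
    (hy : g < v y) : g < v (x - y) := by
  rw [sub_eq_add_neg]
  refine AddValuation.map_lt_add v hx ?_
  rwa [AddValuation.map_neg]

/-- the monomials of a product of linear factors at a point with a value above the roots -/
lemma prod_vals (v : AddValuation H (WithTop Γ)) (r : H) (hr : r ≠ 0) (m : Multiset H)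
    (hm : ∀ s ∈ m, s ≠ 0 ∧ v s ≤ v r) :
    ∃ k : ℕ, (∀ s ∈ m, v s = v r → 1 ≤ k) ∧
      ((m.map fun s => Polynomial.X - Polynomial.C s).prod).coeff 0 ≠ 0 ∧
      (∀ j, v (((m.map fun s => Polynomial.X - Polynomial.C s).prod).coeff 0) ≤
        v (((m.map fun s => Polynomial.X - Polynomial.C s).prod).coeff j * r ^ j)) ∧
      v (((m.map fun s => Polynomial.X - Polynomial.C s).prod).coeff k * r ^ k) =
        v (((m.map fun s => Polynomial.X - Polynomial.C s).prod).coeff 0) ∧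
      (∀ j, k < j → v (((m.map fun s => Polynomial.X - Polynomial.C s).prod).coeff 0) <
        v (((m.map fun s => Polynomial.X - Polynomial.C s).prod).coeff j * r ^ j)) := by
  induction m using Multiset.induction_on with
  | empty =>
    refine ⟨0, ?_, ?_, ?_, ?_, ?_⟩
    · intro s hs
      exact absurd hs (Multiset.notMem_zero s)
    · simp
    · intro j
      rcases Nat.eq_zero_or_pos j with h | h
      · subst h
        simp
      · have h1 : (1 : Polynomial H).coeff j = 0 := by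
          rw [Polynomial.coeff_one, if_neg (by omega)]
        rw [Multiset.map_zero, Multiset.prod_zero, h1, zero_mul, AddValuation.map_zero]
        exact le_top
    · simp
    · intro j hj
      have h1 : (1 : Polynomial H).coeff j = 0 := by
        rw [Polynomial.coeff_one, if_neg (by omega)]
      rw [Multiset.map_zero, Multiset.prod_zero, h1, zero_mul, AddValuation.map_zero,
        Polynomial.coeff_one_zero, AddValuation.map_one]
      exact WithTop.coe_lt_top 0
  | cons s m ih =>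
    obtain ⟨k, hk1, hk0, hk2, hk3, hk4⟩ := ih (fun t ht => hm t (Multiset.mem_cons_of_mem ht))
    obtain ⟨hs0, hsr⟩ := hm s (Multiset.mem_cons_self s m)
    rw [Multiset.map_cons, Multiset.prod_cons]
    set Q : Polynomial H := (m.map fun s => Polynomial.X - Polynomial.C s).prod with hQ
    have hvr : v r ≠ ⊤ := by
      rw [Ne, AddValuation.top_iff]
      exact hr
    have hvs : v s ≠ ⊤ := by
      rw [Ne, AddValuation.top_iff]
      exact hs0
    have hvQ : v (Q.coeff 0) ≠ ⊤ := by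
      rw [Ne, AddValuation.top_iff]
      exact hk0
    have c0 : ((Polynomial.X - Polynomial.C s) * Q).coeff 0 = -(s * Q.coeff 0) := by
      rw [sub_mul, Polynomial.coeff_sub, Polynomial.coeff_X_mul_zero, Polynomial.coeff_C_mul,
        zero_sub]
    have v0 : v (((Polynomial.X - Polynomial.C s) * Q).coeff 0) = v s + v (Q.coeff 0) := by
      rw [c0, AddValuation.map_neg, AddValuation.map_mul]
    have cj : ∀ j, ((Polynomial.X - Polynomial.C s) * Q).coeff (j + 1) * r ^ (j + 1) =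
        r * (Q.coeff j * r ^ j) - s * (Q.coeff (j + 1) * r ^ (j + 1)) := by
      intro j
      rw [sub_mul, Polynomial.coeff_sub, Polynomial.coeff_X_mul, Polynomial.coeff_C_mul, pow_succ]
      ring
    have b1 : ∀ j, v s + v (Q.coeff 0) ≤ v (r * (Q.coeff j * r ^ j)) := by
      intro j
      rw [AddValuation.map_mul]
      exact add_le_add hsr (hk2 j)
    have b1' : ∀ j, k < j → v s + v (Q.coeff 0) < v (r * (Q.coeff j * r ^ j)) := by
      intro j hj
      rw [AddValuation.map_mul]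
      exact lt_of_le_of_lt (add_le_add hsr le_rfl) (WithTop.add_lt_add_left hvr (hk4 j hj))
    have b2 : ∀ j, v s + v (Q.coeff 0) ≤ v (s * (Q.coeff j * r ^ j)) := by
      intro j
      rw [AddValuation.map_mul]
      exact add_le_add le_rfl (hk2 j)
    have b2' : ∀ j, k < j → v s + v (Q.coeff 0) < v (s * (Q.coeff j * r ^ j)) := by
      intro j hj
      rw [AddValuation.map_mul]
      exact WithTop.add_lt_add_left hvs (hk4 j hj)
    have hne : ((Polynomial.X - Polynomial.C s) * Q).coeff 0 ≠ 0 := by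
      rw [c0]
      exact neg_ne_zero.mpr (mul_ne_zero hs0 hk0)
    have hle : ∀ j, v (((Polynomial.X - Polynomial.C s) * Q).coeff 0) ≤
        v (((Polynomial.X - Polynomial.C s) * Q).coeff j * r ^ j) := by
      intro j
      cases j with
      | zero => simp
      | succ j =>
        rw [v0, cj]
        exact AddValuation.map_le_sub v (b1 j) (b2 (j + 1))
    rcases eq_or_lt_of_le hsr with h | h
    · refine ⟨k + 1, ?_, hne, hle, ?_, ?_⟩
      · intro t _ _
        omega
      · rw [v0, cj]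
        have h1 : v (r * (Q.coeff k * r ^ k)) = v s + v (Q.coeff 0) := by
          rw [AddValuation.map_mul, hk3, h]
        have h2 := b2' (k + 1) (by omega)
        rw [← h1] at h2
        rw [AddValuation.map_sub_eq_of_lt_left v h2, h1]
      · intro j hj
        cases j with
        | zero => omega
        | succ j =>
          rw [v0, cj]
          exact map_lt_sub v (b1' j (by omega)) (b2' (j + 1) (by omega))
    · have b3 : ∀ j, v s + v (Q.coeff 0) < v (r * (Q.coeff j * r ^ j)) := by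
        intro j
        rw [AddValuation.map_mul]
        exact lt_of_lt_of_le (WithTop.add_lt_add_right hvQ h) (add_le_add le_rfl (hk2 j))
      refine ⟨k, ?_, hne, hle, ?_, ?_⟩
      · intro t ht htr
        rcases Multiset.mem_cons.mp ht with h1 | h1
        · subst h1
          exact absurd htr (ne_of_lt h)
        · exact hk1 t h1 htr
      · cases k with
        | zero => simp
        | succ k =>
          rw [v0, cj]
          have h1 : v (s * (Q.coeff (k + 1) * r ^ (k + 1))) = v s + v (Q.coeff 0) := by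
            rw [AddValuation.map_mul, hk3]
          have h2 := b3 k
          rw [← h1] at h2
          rw [AddValuation.map_sub_eq_of_lt_right v h2, h1]
      · intro j hj
        cases j with
        | zero => omega
        | succ j =>
          rw [v0, cj]
          exact map_lt_sub v (b3 j) (b2' (j + 1) (by omega))

end ItemB3

theorem b3 : SB3 := by
  classical
  intro H _ _ Γ _ _ _ v P h0 hdeg
  have hP : P ≠ 0 := by
    rintro rfl
    exact h0 (Polynomial.coeff_zero 0)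
  have hroots : P.roots ≠ 0 := by
    intro h
    have h1 := (IsAlgClosed.splits P).natDegree_eq_card_roots
    rw [h, Multiset.card_zero] at h1
    omega
  obtain ⟨s0, hs0⟩ := Multiset.exists_mem_of_ne_zero hroots
  obtain ⟨r, hr, hmax⟩ := Finset.exists_max_image P.roots.toFinset (fun s => v s)
    ⟨s0, Multiset.mem_toFinset.mpr hs0⟩
  have hr' : r ∈ P.roots := Multiset.mem_toFinset.mp hr
  have hnz : ∀ s ∈ P.roots, s ≠ 0 := by
    rintro s hs rfl
    have h1 : P.eval 0 = 0 := (Polynomial.mem_roots hP).mp hs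
    rw [← Polynomial.coeff_zero_eq_eval_zero] at h1
    exact h0 h1
  obtain ⟨k, hk1, _, hk2, hk3, _⟩ := ItemB3.prod_vals v r (hnz r hr') P.roots (fun s hs =>
    ⟨hnz s hs, hmax s (Multiset.mem_toFinset.mpr hs)⟩)
  have hfac := (IsAlgClosed.splits P).eq_prod_roots
  have hco : ∀ j, v (P.coeff j * r ^ j) = v P.leadingCoeff +
      v (((P.roots.map fun s => Polynomial.X - Polynomial.C s).prod).coeff j * r ^ j) := by
    intro j
    conv_lhs => rw [hfac]
    rw [Polynomial.coeff_C_mul, mul_assoc, AddValuation.map_mul]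
  have hc0 : v (P.coeff 0) = v P.leadingCoeff +
      v (((P.roots.map fun s => Polynomial.X - Polynomial.C s).prod).coeff 0) := by
    have h1 := hco 0
    rwa [pow_zero, mul_one, mul_one] at h1
  refine ⟨r, (Polynomial.mem_roots hP).mp hr', hnz r hr', ?_, k, hk1 r hr' rfl, ?_⟩
  · intro j
    rw [hc0, hco]
    exact add_le_add le_rfl (hk2 j)
  · rw [hc0, hco, hk3]

end Pool.Agent.Work.MP_157c12_gt

end

section

/-!
# Item B5: the substitution of Hahn monomials
-/

set_option autoImplicit false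

open MvPolynomial

namespace Pool.Agent.Work.MP_157c12_gt

namespace ItemB5

variable {Γ : Type} [AddCommGroup Γ] [LinearOrder Γ] [IsOrderedAddMonoid Γ]

lemma Th_sum (s : Expo Γ) (A : Gq) :
    Th s.io A = ∑ e ∈ A.coeff.support, HahnSeries.single (s.io e) (A.coeff e) := by
  rw [Th, AddMonoidAlgebra.lift_apply]
  refine Finset.sum_congr rfl fun e _ => ?_
  show A.coeff e • HahnSeries.single (s.io e) (1 : ℂ) = _
  ext δ
  rw [HahnSeries.coeff_smul]
  by_cases h : δ = s.io e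
  · subst h
    simp
  · simp [h]

lemma Th_coeff_sum (s : Expo Γ) (A : Gq) (γ : Γ) :
    (Th s.io A).coeff γ =
      ∑ e ∈ A.coeff.support, (HahnSeries.single (s.io e) (A.coeff e)).coeff γ := by
  rw [Th_sum, HahnSeries.coeff_sum]

end ItemB5

open ItemB5

/-- the substitution of Hahn monomials -/
theorem b5 : SB5 := by
  intro Γ _ _ _ s A
  have h1 : ∀ e, (Th s.io A).coeff (s.io e) = A.coeff e := by
    intro e
    rw [Th_coeff_sum]
    by_cases he : e ∈ A.coeff.support
    · rw [Finset.sum_eq_single e]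
      · simp
      · intro e' _ hne
        exact HahnSeries.coeff_single_of_ne (fun h => hne (s.inj h).symm)
      · intro h
        exact absurd he h
    · rw [Finsupp.notMem_support_iff.mp he]
      refine Finset.sum_eq_zero fun e' he' => ?_
      refine HahnSeries.coeff_single_of_ne fun h => ?_
      exact he ((s.inj h) ▸ he')
  have h2 : ∀ γ, (∀ e ∈ A.coeff.support, s.io e ≠ γ) → (Th s.io A).coeff γ = 0 := by
    intro γ hγ
    rw [Th_coeff_sum]
    exact Finset.sum_eq_zero fun e he => HahnSeries.coeff_single_of_ne (hγ e he).symm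
  refine ⟨h1, h2, fun hA => ?_⟩
  have hne : A.coeff.support.Nonempty := by
    rw [Finsupp.support_nonempty_iff]
    exact fun h => hA (AddMonoidAlgebra.coeff_eq_zero.mp h)
  obtain ⟨e, he, hmin⟩ := Finset.exists_min_image A.coeff.support s.io hne
  refine ⟨e, he, ⟨Finsupp.mem_support_iff.mp he, h1 e, fun γ' hγ' => h2 γ' fun e' he' h => ?_⟩,
    hmin⟩
  exact absurd (hmin e' he') (not_le.mpr (h ▸ hγ'))

end Pool.Agent.Work.MP_157c12_gt

end

section

/-!
# Item B6: algebraic independence from leading exponents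
-/

open MvPolynomial

namespace Pool.Agent.Work.MP_157c12_gt

namespace ItemB6

variable {Γ : Type} [AddCommGroup Γ] [LinearOrder Γ] [IsOrderedAddMonoid Γ]

/-- exponent of the monomial `m` -/
def ex (e1 e2 : ℚ × ℚ) (m : Fin 2 →₀ ℕ) : ℚ × ℚ := m 0 • e1 + m 1 • e2

lemma ex_inj {e1 e2 : ℚ × ℚ} (h : e1.1 * e2.2 - e1.2 * e2.1 ≠ 0) :
    Function.Injective (ex e1 e2) := by
  intro m m' hm
  have h1 : (m 0 : ℚ) * e1.1 + m 1 * e2.1 = m' 0 * e1.1 + m' 1 * e2.1 := by
    have := congrArg Prod.fst hm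
    simpa [ex] using this
  have h2 : (m 0 : ℚ) * e1.2 + m 1 * e2.2 = m' 0 * e1.2 + m' 1 * e2.2 := by
    have := congrArg Prod.snd hm
    simpa [ex] using this
  have h3 : ((m 0 : ℚ) - m' 0) * (e1.1 * e2.2 - e1.2 * e2.1) = 0 := by
    linear_combination e2.2 * h1 - e2.1 * h2
  have h4 : ((m 1 : ℚ) - m' 1) * (e1.1 * e2.2 - e1.2 * e2.1) = 0 := by
    linear_combination e1.1 * h2 - e1.2 * h1
  have h5 : (m 0 : ℚ) = m' 0 := by
    have := (mul_eq_zero.mp h3).resolve_right h
    linarith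
  have h6 : (m 1 : ℚ) = m' 1 := by
    have := (mul_eq_zero.mp h4).resolve_right h
    linarith
  ext i
  fin_cases i
  · exact_mod_cast h5
  · exact_mod_cast h6

lemma lead_term (s : Expo Γ) {x1 x2 : Hn Γ} {e1 e2 : ℚ × ℚ} {c1 c2 : ℂ}
    (h1 : Lead x1 (s.io e1) c1) (h2 : Lead x2 (s.io e2) c2) (m : Fin 2 →₀ ℕ) {k : ℂ}
    (hk : k ≠ 0) : Lead (algebraMap ℂ (Hn Γ) k * (x1 ^ m 0 * x2 ^ m 1)) (s.io (ex e1 e2 m))
      (k * (c1 ^ m 0 * c2 ^ m 1)) := by
  have h3 := ((h1.pow (m 0)).mul (h2.pow (m 1))).smul hk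
  have e0 : algebraMap ℂ (Hn Γ) k * (x1 ^ m 0 * x2 ^ m 1) = k • (x1 ^ m 0 * x2 ^ m 1) :=
    (Algebra.smul_def _ _).symm
  rw [e0]
  have e : s.io (ex e1 e2 m) = m 0 • s.io e1 + m 1 • s.io e2 := by
    rw [ex, map_add, map_nsmul, map_nsmul]
  rw [e]
  exact h3

end ItemB6

open ItemB6 in
/-- Item B6. -/
theorem b6 : SB6 := by
  intro Γ _ _ _ s x1 x2 e1 e2 c1 c2 h1 h2 hdet r hr h0
  have hsum : aeval ![x1, x2] r = ∑ m ∈ r.support,
      algebraMap ℂ (Hn Γ) (r.coeff m) * (x1 ^ m 0 * x2 ^ m 1) := by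
    rw [aeval_def, eval₂_eq']
    refine Finset.sum_congr rfl fun m _ => ?_
    rw [Fin.prod_univ_two]
    rfl
  have hne : r.support.Nonempty := by
    rw [Finset.nonempty_iff_ne_empty]
    intro h
    exact hr (MvPolynomial.support_eq_empty.mp h)
  obtain ⟨m, hm, hmin⟩ := Finset.exists_min_image r.support (fun m => s.io (ex e1 e2 m)) hne
  have hcoef : (aeval ![x1, x2] r).coeff (s.io (ex e1 e2 m)) =
      r.coeff m * (c1 ^ m 0 * c2 ^ m 1) := by
    rw [hsum, HahnSeries.coeff_sum]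
    rw [Finset.sum_eq_single m]
    · exact (lead_term s h1 h2 m (MvPolynomial.mem_support_iff.mp hm)).2.1
    · intro m' hm' hne'
      refine (lead_term s h1 h2 m' (MvPolynomial.mem_support_iff.mp hm')).2.2 _ ?_
      refine lt_of_le_of_ne (hmin m' hm') fun h => hne' ?_
      exact (ex_inj hdet (s.inj h)).symm
    · intro h
      exact absurd hm h
  rw [h0, HahnSeries.coeff_zero] at hcoef
  have h3 := MvPolynomial.mem_support_iff.mp hm
  exact mul_ne_zero h3 (mul_ne_zero (pow_ne_zero _ h1.1) (pow_ne_zero _ h2.1)) hcoef.symm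

end Pool.Agent.Work.MP_157c12_gt

end

section

/-!
# Item C1: decay
-/

open MvPolynomial

namespace Pool.Agent.Work.MP_157c12_gt

namespace ItemC1

variable {H : Type} [Field H] [Algebra ℂ H] {Γ : Type} [AddCommGroup Γ] [LinearOrder Γ]
  [IsOrderedAddMonoid Γ] (v : AddValuation H (WithTop Γ))

/-- strict increase under an iterated linear map -/
lemma lt_pow (L : H →ₗ[ℂ] H) (hL : ∀ f, f ≠ 0 → v f < v (L f)) {y : H} (hy : y ≠ 0) (k : ℕ) :
    v y < v ((L ^ (k + 1)) y) := by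
  induction k with
  | zero => simpa using hL y hy
  | succ k ih =>
    rw [pow_succ', Module.End.mul_apply]
    by_cases h : (L ^ (k + 1)) y = 0
    · rw [h, L.map_zero, AddValuation.map_zero]
      exact lt_of_le_of_ne le_top ((AddValuation.ne_top_iff v).2 hy)
    · exact ih.trans (hL _ h)

/-- if `v (L ^ k y) > v y` for all `k ≥ 1` then `p(L) y ≠ 0` -/
lemma aeval_ne {p : Polynomial ℂ} (hp : p.coeff 0 ≠ 0)
    (hc : ∀ z : ℂ, z ≠ 0 → v (algebraMap ℂ H z) = 0) (L : H →ₗ[ℂ] H) {y : H} (hy : y ≠ 0)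
    (h : ∀ k, v y < v ((L ^ (k + 1)) y)) :
    (Polynomial.aeval L p : H →ₗ[ℂ] H) y ≠ 0 := by
  have hty : v y ≠ ⊤ := (AddValuation.ne_top_iff v).2 hy
  have h0 : v (p.coeff 0 • y) = v y := by
    rw [Algebra.smul_def, AddValuation.map_mul, hc _ hp, zero_add]
  have h1 : ∀ (c : ℂ) (f : H), v f ≤ v (c • f) := by
    intro c f
    by_cases hc0 : c = 0
    · rw [hc0, zero_smul, AddValuation.map_zero]
      exact le_top
    · rw [Algebra.smul_def, AddValuation.map_mul, hc _ hc0, zero_add]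
  have h2 : (Polynomial.aeval L p : H →ₗ[ℂ] H) y =
      ∑ i ∈ Finset.range p.natDegree, p.coeff (i + 1) • (L ^ (i + 1)) y + p.coeff 0 • y := by
    rw [Polynomial.aeval_eq_sum_range, Finset.sum_range_succ', LinearMap.add_apply,
      LinearMap.sum_apply]
    simp only [LinearMap.smul_apply, pow_zero, Module.End.one_apply]
  have h3 : v y < v (∑ i ∈ Finset.range p.natDegree, p.coeff (i + 1) • (L ^ (i + 1)) y) :=
    AddValuation.map_lt_sum v hty fun i _ => (h i).trans_le (h1 _ _)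
  have h4 : v ((Polynomial.aeval L p : H →ₗ[ℂ] H) y) = v y := by
    rw [h2, AddValuation.map_add_eq_of_lt_right, h0]
    rw [h0]
    exact h3
  intro h5
  rw [h5, AddValuation.map_zero] at h4
  exact hty h4.symm

lemma add_lt {δ φ : Γ} {a b : WithTop Γ} (ha : (δ : WithTop Γ) < a) (hb : (φ : WithTop Γ) ≤ b) :
    ((δ + φ : Γ) : WithTop Γ) < a + b := by
  cases a with
  | top => rw [WithTop.top_add]; exact WithTop.coe_lt_top _
  | coe a =>
    cases b with
    | top => rw [WithTop.add_top]; exact WithTop.coe_lt_top _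
    | coe b =>
      rw [← WithTop.coe_add]
      exact_mod_cast add_lt_add_of_lt_of_le (by exact_mod_cast ha) (by exact_mod_cast hb)

lemma add_lt' {δ φ : Γ} {a b : WithTop Γ} (ha : (δ : WithTop Γ) ≤ a) (hb : (φ : WithTop Γ) < b) :
    ((δ + φ : Γ) : WithTop Γ) < a + b := by
  rw [add_comm δ φ, add_comm a b]
  exact add_lt hb ha

/-- the Laplace operator increases the value -/
lemma lap_lt {D1 D2 : Derivation ℂ H H} (hV : VD v D1 D2) {x : Fin 3 → H}
    (h1 : v (detN D1 D2 x) < v (nd D1 D1 x)) (h2 : v (detN D1 D2 x) < v (nd D1 D2 x))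
    (h3 : v (detN D1 D2 x) < v (nd D2 D2 x)) {f : H} (hf : f ≠ 0) :
    v f < v (lapF D1 D2 x (detN D1 D2 x)⁻¹ f) := by
  have hdt : v (detN D1 D2 x) ≠ ⊤ := ne_top_of_lt h1
  obtain ⟨δ, hδ⟩ := WithTop.ne_top_iff_exists.1 hdt
  obtain ⟨φ, hφ⟩ := WithTop.ne_top_iff_exists.1 ((AddValuation.ne_top_iff v).2 hf)
  have hd0 : detN D1 D2 x ≠ 0 := (AddValuation.ne_top_iff v).1 hdt
  have hdi : v (detN D1 D2 x)⁻¹ = ((-δ : Γ) : WithTop Γ) := by
    have h4 : v (detN D1 D2 x) + v (detN D1 D2 x)⁻¹ = 0 := by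
      rw [← AddValuation.map_mul, mul_inv_cancel₀ hd0, AddValuation.map_one]
    rw [← hδ] at h4
    cases h5 : v (detN D1 D2 x)⁻¹ with
    | top => rw [h5, WithTop.add_top] at h4; exact absurd h4 (by simp)
    | coe c =>
      rw [h5, ← WithTop.coe_add] at h4
      have h6 : δ + c = 0 := by exact_mod_cast h4
      rw [eq_neg_of_add_eq_zero_right h6]
  rw [← hδ] at h1 h2 h3
  have hA : ((δ + φ : Γ) : WithTop Γ) < v (nd D2 D2 x * D1 f - nd D1 D2 x * D2 f) := by
    rw [sub_eq_add_neg]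
    refine AddValuation.map_lt_add v ?_ ?_
    · rw [AddValuation.map_mul]
      exact add_lt h3 (hφ.trans_le (hV.d1 f))
    · rw [AddValuation.map_neg, AddValuation.map_mul]
      exact add_lt h2 (hφ.trans_le (hV.d2 f))
  have hB : ((δ + φ : Γ) : WithTop Γ) < v (nd D1 D1 x * D2 f - nd D1 D2 x * D1 f) := by
    rw [sub_eq_add_neg]
    refine AddValuation.map_lt_add v ?_ ?_
    · rw [AddValuation.map_mul]
      exact add_lt h1 (hφ.trans_le (hV.d2 f))
    · rw [AddValuation.map_neg, AddValuation.map_mul]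
      exact add_lt h2 (hφ.trans_le (hV.d1 f))
  have hD1 : ((δ : Γ) : WithTop Γ) ≤ v (D1 (detN D1 D2 x)) := hδ.trans_le (hV.d1 _)
  have hD2 : ((δ : Γ) : WithTop Γ) ≤ v (D2 (detN D1 D2 x)) := hδ.trans_le (hV.d2 _)
  unfold lapF
  rw [sub_eq_add_neg, ← hφ]
  refine AddValuation.map_lt_add v ?_ ?_
  · rw [AddValuation.map_mul, hdi]
    have h4 : ((δ + φ : Γ) : WithTop Γ) < v (D1 (nd D2 D2 x * D1 f - nd D1 D2 x * D2 f) +
        D2 (nd D1 D1 x * D2 f - nd D1 D2 x * D1 f)) :=
      AddValuation.map_lt_add v (hA.trans_le (hV.d1 _)) (hB.trans_le (hV.d2 _))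
    have h5 := add_lt' (δ := -δ) (φ := δ + φ) le_rfl h4
    rwa [neg_add_cancel_left] at h5
  · rw [AddValuation.map_neg, AddValuation.map_mul, AddValuation.map_mul,
      hV.c _ (by norm_num : (1 / 2 : ℂ) ≠ 0), zero_add, pow_two, AddValuation.map_mul, hdi]
    have h4 : ((δ + (δ + φ) : Γ) : WithTop Γ) < v (D1 (detN D1 D2 x) *
        (nd D2 D2 x * D1 f - nd D1 D2 x * D2 f) + D2 (detN D1 D2 x) *
        (nd D1 D1 x * D2 f - nd D1 D2 x * D1 f)) := by
      refine AddValuation.map_lt_add v ?_ ?_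
      · rw [AddValuation.map_mul]
        exact add_lt' hD1 hA
      · rw [AddValuation.map_mul]
        exact add_lt' hD2 hB
    have h5 := add_lt' (δ := -δ + -δ) (φ := δ + (δ + φ)) le_rfl h4
    have h6 : -δ + -δ + (δ + (δ + φ)) = φ := by abel
    rw [h6] at h5
    exact h5

end ItemC1

/-- Item C1. -/
theorem c1 : SC1 := by
  intro p hp H _ _ Γ _ _ _ v D1 D2 hV x h1 h2 h3 hFT
  have hdt : v (detN D1 D2 x) ≠ ⊤ := ne_top_of_lt h1
  have hd0 : detN D1 D2 x ≠ 0 := (AddValuation.ne_top_iff v).1 hdt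
  obtain ⟨a, ha⟩ : ∃ a, x a ≠ 0 := by
    by_contra hc
    push Not at hc
    apply hd0
    simp [detN, nd, hc]
  refine ItemC1.aeval_ne v hp hV.c (lapL D1 D2 x (detN D1 D2 x)⁻¹) ha (fun k => ?_) (hFT a)
  exact ItemC1.lt_pow v _ (fun f hf => ItemC1.lap_lt v hV h1 h2 h3 hf) ha k

end Pool.Agent.Work.MP_157c12_gt

end

section

set_option autoImplicit false

/-!
# C2: growth
-/

open MvPolynomial

namespace Pool.Agent.Work.MP_157c12_gt

namespace ItemC2

variable {Γ : Type} [AddCommGroup Γ] [LinearOrder Γ] [IsOrderedAddMonoid Γ]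

/-- Weak leading term: `f = c t^γ + higher order`, where `c` may vanish. -/
def Lw (f : Hn Γ) (γ : Γ) (c : ℂ) : Prop :=
  f.coeff γ = c ∧ ∀ γ' < γ, f.coeff γ' = 0

theorem Lw.ofLead {f : Hn Γ} {γ : Γ} {c : ℂ} (h : Lead f γ c) : Lw f γ c := ⟨h.2.1, h.2.2⟩

theorem Lw.toLead {f : Hn Γ} {γ : Γ} {c : ℂ} (h : Lw f γ c) (hc : c ≠ 0) : Lead f γ c :=
  ⟨hc, h.1, h.2⟩

theorem Lw.ofLt {f : Hn Γ} {γ : Γ} (h : (γ : WithTop Γ) < vv Γ f) : Lw f γ 0 :=
  ⟨coeff_eq_zero_of_lt_vv h, fun _ h' => coeff_eq_zero_of_lt_vv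
    (lt_trans (by exact_mod_cast h') h)⟩

theorem Lw.add {f g : Hn Γ} {γ : Γ} {c d : ℂ} (hf : Lw f γ c) (hg : Lw g γ d) :
    Lw (f + g) γ (c + d) := by
  refine ⟨by rw [HahnSeries.coeff_add, hf.1, hg.1], fun γ' h => ?_⟩
  rw [HahnSeries.coeff_add, hf.2 γ' h, hg.2 γ' h, add_zero]

theorem Lw.sub {f g : Hn Γ} {γ : Γ} {c d : ℂ} (hf : Lw f γ c) (hg : Lw g γ d) :
    Lw (f - g) γ (c - d) := by
  refine ⟨by rw [HahnSeries.coeff_sub, hf.1, hg.1], fun γ' h => ?_⟩
  rw [HahnSeries.coeff_sub, hf.2 γ' h, hg.2 γ' h, sub_zero]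

theorem Lw.mul {f g : Hn Γ} {γ δ : Γ} {c d : ℂ} (hf : Lw f γ c) (hg : Lw g δ d) :
    Lw (f * g) (γ + δ) (c * d) := by
  refine ⟨?_, ?_⟩
  · rw [HahnSeries.coeff_mul]
    rw [Finset.sum_eq_single (γ, δ)]
    · rw [hf.1, hg.1]
    · rintro ⟨i, j⟩ hij hne
      have h1 : i + j = γ + δ := (Finset.mem_antidiagonal.mp hij).2.2
      rcases lt_trichotomy i γ with h | h | h
      · rw [hf.2 i h, zero_mul]
      · exfalso
        apply hne
        subst h
        rw [add_left_cancel h1]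
      · have h2 : j < δ := by
          by_contra h3
          have h4 := add_lt_add_of_lt_of_le h (not_lt.1 h3)
          rw [h1] at h4
          exact lt_irrefl _ h4
        rw [hg.2 j h2, mul_zero]
    · intro hn
      by_contra h0
      apply hn
      rw [Finset.mem_antidiagonal]
      refine ⟨?_, ?_, rfl⟩
      · intro h
        exact h0 (by rw [h, zero_mul])
      · intro h
        exact h0 (by rw [h, mul_zero])
  · intro a ha
    rw [HahnSeries.coeff_mul]
    apply Finset.sum_eq_zero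
    rintro ⟨i, j⟩ hij
    have h1 : i + j = a := (Finset.mem_antidiagonal.mp hij).2.2
    rcases lt_or_ge i γ with h | h
    · rw [hf.2 i h, zero_mul]
    · have h2 : j < δ := by
        by_contra h3
        have h4 := add_le_add h (not_lt.1 h3)
        rw [h1] at h4
        exact absurd ha (not_lt.2 h4)
      rw [hg.2 j h2, mul_zero]

theorem Lw.der {f : Hn Γ} {γ : Γ} {c : ℂ} (h : Lw f γ c) (φ : Γ →+ ℂ) :
    Lw (hd φ f) γ (φ γ * c) := by
  refine ⟨by rw [hd_coeff, h.1], fun γ' hγ' => ?_⟩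
  rw [hd_coeff, h.2 γ' hγ', mul_zero]

theorem Lw.const (c : ℂ) : Lw (algebraMap ℂ (Hn Γ) c) 0 c := by
  have h : algebraMap ℂ (Hn Γ) c = HahnSeries.single 0 c := rfl
  rw [h]
  refine ⟨by simp, fun γ' hγ' => ?_⟩
  exact HahnSeries.coeff_single_of_ne (ne_of_lt hγ')

theorem Lw.cast {f : Hn Γ} {γ δ : Γ} {c d : ℂ} (h : Lw f γ c) (h1 : γ = δ) (h2 : c = d) :
    Lw f δ d := by
  subst h1; subst h2; exact h

theorem step {f1 f2 : Γ →+ ℂ} {x : Fin 3 → Hn Γ} {gG gD : Γ} {cG cD : ℂ}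
    (hG : Lead (nd (hd f2) (hd f2) x) gG cG) (hD : Lead (detN (hd f1) (hd f2) x) gD cD)
    (hE : (gG : WithTop Γ) < vv Γ (nd (hd f1) (hd f1) x))
    (hF : (gG : WithTop Γ) < vv Γ (nd (hd f1) (hd f2) x)) {f : Hn Γ} {γ : Γ} {c : ℂ}
    (hf : Lead f γ c) (h1 : f1 γ ≠ 0) (h2 : f1 γ + f1 gG - f1 gD / 2 ≠ 0) :
    ∃ c', Lead (lapL (hd f1) (hd f2) x (detN (hd f1) (hd f2) x)⁻¹ f) (γ + (gG - gD)) c' := by
  have wG := Lw.ofLead hG
  have wD := Lw.ofLead hD
  have wE := Lw.ofLt hE
  have wF := Lw.ofLt hF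
  have wi := Lw.ofLead hD.inv
  have wf := Lw.ofLead hf
  have w1 := wf.der f1
  have w2 := wf.der f2
  have wA := (wG.mul w1).sub (wF.mul w2)
  have wB := (wE.mul w2).sub (wF.mul w1)
  have wT := wi.mul ((wA.der f1).add (wB.der f2))
  have wU := ((wD.der f1).mul wA).add ((wD.der f2).mul wB)
  have wS := ((Lw.const (Γ := Γ) (1 / 2)).mul (wi.mul wi)).mul wU
  have wT' := wT.cast (δ := γ + (gG - gD)) (by abel) rfl
  have wS' := wS.cast (δ := γ + (gG - gD)) (by abel) rfl
  have wR := wT'.sub wS'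
  have hcD : cD ≠ 0 := hD.1
  have hcG : cG ≠ 0 := hG.1
  have hc : c ≠ 0 := hf.1
  refine ⟨cD⁻¹ * cG * f1 γ * c * (f1 γ + f1 gG - f1 gD / 2), ?_⟩
  apply Lw.toLead
  · have e1 : lapL (hd f1) (hd f2) x (detN (hd f1) (hd f2) x)⁻¹ f = lapF (hd f1) (hd f2) x
        (detN (hd f1) (hd f2) x)⁻¹ f := rfl
    rw [e1]
    unfold lapF
    rw [sq (detN (hd f1) (hd f2) x)⁻¹]
    refine wR.cast rfl ?_
    simp only [map_add]
    field_simp
    ring
  · exact mul_ne_zero (mul_ne_zero (mul_ne_zero (mul_ne_zero (inv_ne_zero hcD) hcG) h1) hc) h2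

end ItemC2

open ItemC2 in
theorem c2 : SC2 := by
  intro p hp Γ _ _ _ f1 f2 x a g gG gD c cG cD hx hG hD hlt hE hF hk hFT
  have hiter : ∀ k : ℕ, ∃ c', Lead ((lapL (hd f1) (hd f2) x (detN (hd f1) (hd f2) x)⁻¹ ^ k) (x a))
      (g + k • (gG - gD)) c' := by
    intro k
    induction k with
    | zero =>
      refine ⟨c, ?_⟩
      rw [pow_zero, zero_smul, add_zero]
      exact hx
    | succ k ih =>
      obtain ⟨c', hc'⟩ := ih
      have e1 : f1 (g + k • (gG - gD)) = f1 g + k * (f1 gG - f1 gD) := by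
        rw [map_add, map_nsmul, map_sub, nsmul_eq_mul]
      obtain ⟨c'', hc''⟩ := step hG hD hE hF hc' (by rw [e1]; exact (hk k).1)
        (by rw [e1]; exact (hk k).2)
      refine ⟨c'', ?_⟩
      rw [pow_succ', succ_nsmul, ← add_assoc]
      exact hc''
  have hp0 : p ≠ 0 := by
    rintro rfl
    exact hp (Polynomial.coeff_zero 0)
  have h0 := hFT a
  rw [Polynomial.aeval_eq_sum_range] at h0
  have h1 : ∑ i ∈ Finset.range (p.natDegree + 1), p.coeff i •
      ((lapL (hd f1) (hd f2) x (detN (hd f1) (hd f2) x)⁻¹ ^ i) (x a)) = 0 := by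
    rw [← h0, LinearMap.sum_apply]
    rfl
  obtain ⟨cn, hcn⟩ := hiter p.natDegree
  have h2 : (∑ i ∈ Finset.range (p.natDegree + 1), p.coeff i •
      ((lapL (hd f1) (hd f2) x (detN (hd f1) (hd f2) x)⁻¹ ^ i) (x a))).coeff
        (g + p.natDegree • (gG - gD)) = (0 : Hn Γ).coeff (g + p.natDegree • (gG - gD)) := by
    rw [h1]
  rw [HahnSeries.coeff_sum, Finset.sum_range_succ, HahnSeries.coeff_smul, hcn.2.1,
    HahnSeries.coeff_zero] at h2
  rw [Finset.sum_eq_zero, zero_add, smul_eq_mul] at h2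
  · rcases mul_eq_zero.1 h2 with h3 | h3
    · exact hp0 (Polynomial.leadingCoeff_eq_zero.1 h3)
    · exact hcn.1 h3
  · intro k hk'
    obtain ⟨ck, hck⟩ := hiter k
    rw [HahnSeries.coeff_smul, hck.2.2, smul_zero]
    apply add_lt_add_right
    have h3 : k < p.natDegree := Finset.mem_range.1 hk'
    obtain ⟨m, hm⟩ := Nat.exists_eq_add_of_lt h3
    rw [hm, show k + m + 1 = k + (m + 1) by ring, add_nsmul]
    have h4 : (m + 1) • (gG - gD) < 0 := by
      have h5 : gG - gD < 0 := sub_neg.2 hlt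
      exact nsmul_neg h5 (Nat.succ_ne_zero m)
    calc k • (gG - gD) + (m + 1) • (gG - gD) < k • (gG - gD) + 0 := by
          exact add_lt_add_right h4 _
      _ = k • (gG - gD) := add_zero _

end Pool.Agent.Work.MP_157c12_gt

end

section

/-!
# Item C5: Lemma M in the lexicographic field
-/

open MvPolynomial

namespace Pool.Agent.Work.MP_157c12_gt

namespace ItemC5

section

variable {H : Type} [Field H] [Algebra ℂ H]

lemma half_two : algebraMap ℂ H (1 / 2) * 2 = 1 := by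
  have : (2 : H) = algebraMap ℂ H 2 := (map_ofNat (algebraMap ℂ H) 2).symm
  rw [this, ← map_mul]
  norm_num

lemma nd_eq (D D' : Derivation ℂ H H) (x : Fin 3 → H) :
    nd D D' x = bH (fun i => D (x i)) (fun i => D' (x i)) := rfl

variable {D1 D2 : Derivation ℂ H H} {om e mu : Fin 3 → H} {a u Yv h : H} {x : Fin 3 → H}

lemma d1x (hN : NF D1 D2 om e mu a) (hu : D1 u = u) (hY : D1 Yv = 0)
    (hx : ∀ i, x i = u * om i + Yv * e i + h * mu i) (i : Fin 3) :
    D1 (x i) = u * om i + D1 h * mu i := by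
  rw [hx]
  simp only [map_add, Derivation.leibniz, smul_eq_mul, hN.om1, hN.e1, hN.mu1, hu, hY]
  ring

lemma d2x (hN : NF D1 D2 om e mu a) (hu : D2 u = 0)
    (hx : ∀ i, x i = u * om i + Yv * e i + h * mu i) (i : Fin 3) :
    D2 (x i) = (u * a + D2 Yv) * e i + (D2 h - 2 * a * Yv) * mu i := by
  rw [hx]
  simp only [map_add, Derivation.leibniz, smul_eq_mul, hN.om2, hN.e2, hN.mu2, hu]
  ring

lemma bH_comb (v w v' w' : Fin 3 → H) (p q r s : H) :
    bH (fun i => p * v i + q * w i) (fun i => r * v' i + s * w' i) =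
      p * r * bH v v' + p * s * bH v w' + q * r * bH w v' + q * s * bH w w' := by
  unfold bH
  ring

lemma bH_comm (v w : Fin 3 → H) : bH v w = bH w v := by
  unfold bH
  ring

lemma nd11 (hN : NF D1 D2 om e mu a) (hu : D1 u = u) (hY : D1 Yv = 0)
    (hx : ∀ i, x i = u * om i + Yv * e i + h * mu i) : nd D1 D1 x = u * D1 h := by
  rw [nd_eq]
  simp_rw [d1x hN hu hY hx]
  rw [bH_comb, hN.omom, hN.ommu, hN.mumu, bH_comm mu om, hN.ommu]
  have := half_two (H := H)
  linear_combination (u * D1 h) * this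

lemma nd12 (hN : NF D1 D2 om e mu a) (hu : D1 u = u) (hu2 : D2 u = 0) (hY : D1 Yv = 0)
    (hx : ∀ i, x i = u * om i + Yv * e i + h * mu i) :
    nd D1 D2 x = algebraMap ℂ H (1 / 2) * (u * (D2 h - 2 * a * Yv)) := by
  rw [nd_eq]
  simp_rw [d1x hN hu hY hx, d2x hN hu2 hx]
  rw [bH_comb, hN.ome, hN.ommu, hN.mumu, bH_comm mu e, hN.emu]
  ring

lemma nd22 (hN : NF D1 D2 om e mu a) (hu2 : D2 u = 0)
    (hx : ∀ i, x i = u * om i + Yv * e i + h * mu i) :
    nd D2 D2 x = (u * a + D2 Yv) ^ 2 := by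
  rw [nd_eq]
  simp_rw [d2x hN hu2 hx]
  rw [bH_comb, hN.ee, hN.emu, hN.mumu, bH_comm mu e, hN.emu]
  ring

lemma FT_zero {p : Polynomial ℂ} (hp : p.coeff 0 ≠ 0) (h : FT p D1 D2 x 0) (i : Fin 3) :
    x i = 0 := by
  have h1 := h i
  have h2 : lapL D1 D2 x 0 = 0 := by
    ext f
    show lapF D1 D2 x 0 f = 0
    unfold lapF
    ring
  rw [h2, ← Polynomial.coeff_zero_eq_aeval_zero'] at h1
  have h3 : p.coeff 0 • x i = 0 := h1
  exact (smul_eq_zero.1 h3).resolve_left hp

end

/-! ### the coarse valuation -/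

lemma v1_le_vv {f g : Hn LX} (h : vv LX f ≤ vv LX g) : v1 f ≤ v1 g := by
  rw [v1_apply, v1_apply]
  exact WithTop.monotone_map_iff.mpr lfst_mono h

lemma VDv1 : VD v1 exL.d1 exL.d2 := by
  refine ⟨fun r => v1_le_vv (vv_hd _ _), fun r => v1_le_vv (vv_hd _ _), fun z hz => ?_⟩
  rw [v1_apply, vv_algebraMap hz]
  show ((lfst 0 : ℚ) : WithTop ℚ) = 0
  rw [map_zero]
  rfl

lemma le_v1_iff {f : Hn LX} {t : ℚ} :
    (t : WithTop ℚ) ≤ v1 f ↔ ∀ γ, f.coeff γ ≠ 0 → t ≤ lfst γ := by
  constructor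
  · intro h γ hγ
    by_contra hcon
    push Not at hcon
    have hf : f ≠ 0 := by rintro rfl; simp at hγ
    obtain ⟨δ, c, hδ⟩ := lead_exists hf
    rw [hδ.val1, WithTop.coe_le_coe] at h
    have : γ < δ := by
      rw [LX_lt]; left; linarith
    exact hγ (hδ.2.2 γ this)
  · intro h
    by_cases hf : f = 0
    · subst hf
      rw [AddValuation.map_zero]
      exact le_top
    · obtain ⟨δ, c, hδ⟩ := lead_exists hf
      rw [hδ.val1, WithTop.coe_le_coe]
      refine h δ ?_
      rw [hδ.2.1]; exact hδ.1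

lemma lt_v1_iff {f : Hn LX} {t : ℚ} :
    (t : WithTop ℚ) < v1 f ↔ ∀ γ, f.coeff γ ≠ 0 → t < lfst γ := by
  constructor
  · intro h γ hγ
    by_contra hcon
    push Not at hcon
    have hf : f ≠ 0 := by rintro rfl; simp at hγ
    obtain ⟨δ, c, hδ⟩ := lead_exists hf
    rw [hδ.val1, WithTop.coe_lt_coe] at h
    have : γ < δ := by
      rw [LX_lt]; left; linarith
    exact hγ (hδ.2.2 γ this)
  · intro h
    by_cases hf : f = 0
    · subst hf
      rw [AddValuation.map_zero]
      exact WithTop.coe_lt_top t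
    · obtain ⟨δ, c, hδ⟩ := lead_exists hf
      rw [hδ.val1, WithTop.coe_lt_coe]
      refine h δ ?_
      rw [hδ.2.1]; exact hδ.1

lemma shift (t : ℚ) (r : Hn LX) (h : ((-t : ℚ) : WithTop ℚ) ≤ v1 r) :
    ((-t : ℚ) : WithTop ℚ) < v1 (exL.d1 r - algebraMap ℂ (Hn LX) (t : ℂ) * r) := by
  rw [le_v1_iff] at h
  rw [lt_v1_iff]
  intro γ hγ
  have hc : (exL.d1 r - algebraMap ℂ (Hn LX) (t : ℂ) * r).coeff γ =
      (-((lfst γ : ℚ) : ℂ) - t) * r.coeff γ := by
    rw [HahnSeries.coeff_sub, hd_coeff, exL_f1]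
    have : algebraMap ℂ (Hn LX) (t : ℂ) * r = (t : ℂ) • r :=
      (Algebra.smul_def (R := ℂ) (A := Hn LX) (t : ℂ) r).symm
    rw [this, HahnSeries.coeff_smul, smul_eq_mul]
    ring
  rw [hc] at hγ
  have h1 : r.coeff γ ≠ 0 := fun h0 => hγ (by rw [h0, mul_zero])
  have h2 := h γ h1
  refine lt_of_le_of_ne h2 fun h3 => hγ ?_
  rw [← h3]
  push_cast
  ring

lemma const_exps {f : Hn LX} (h : exL.d1 f = 0) {γ : LX} (hγ : f.coeff γ ≠ 0) : lfst γ = 0 := by
  have h1 : (exL.d1 f).coeff γ = 0 := by rw [h]; rfl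
  rw [hd_coeff, exL_f1] at h1
  have h2 := (mul_eq_zero.1 h1).resolve_right hγ
  rw [neg_eq_zero] at h2
  exact_mod_cast h2

lemma const_v1 {f : Hn LX} (h : exL.d1 f = 0) : 0 ≤ v1 f := by
  have : ((0 : ℚ) : WithTop ℚ) ≤ v1 f := by
    rw [le_v1_iff]
    intro γ hγ
    rw [const_exps h hγ]
  exact this

lemma const_v1_eq {f : Hn LX} (h : exL.d1 f = 0) (hf : f ≠ 0) : v1 f = 0 := by
  obtain ⟨δ, c, hδ⟩ := lead_exists hf
  rw [hδ.val1, const_exps h (by rw [hδ.2.1]; exact hδ.1)]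
  rfl

lemma lt_vv {f : Hn LX} {t : ℚ} {γ : LX} (hγ : lfst γ = t) (h : (t : WithTop ℚ) < v1 f) :
    (γ : WithTop LX) < vv LX f := by
  by_cases hf : f = 0
  · subst hf
    rw [AddValuation.map_zero]
    exact WithTop.coe_lt_top γ
  · obtain ⟨δ, c, hδ⟩ := lead_exists hf
    rw [hδ.val1, WithTop.coe_lt_coe] at h
    rw [hδ.val, WithTop.coe_lt_coe, LX_lt]
    left
    rw [hγ]; exact h

end ItemC5

open ItemC5

theorem c5 (h1 : SC1) (h2 : SC2) (h4 : SC4) : SC5 := by
  intro p hp om e mu a Yv h hN ha hY hh x hx hFT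
  set u : Hn LX := mo exL 1 0 1 with hu
  have hu1 : exL.d1 u = u := by rw [hu, mo_d1]; simp
  have hu2 : exL.d2 u = 0 := by
    rw [hu, mo_d2]
    simp [mo]
  have hul : Lead u (exL.io (1, 0)) 1 := mo_lead exL 1 0 one_ne_zero
  have huv : v1 u = ((-1 : ℚ) : WithTop ℚ) := by
    rw [hul.val1]; rfl
  have hav : v1 a = 0 := const_v1_eq hN.a1 ha
  have hYv : 0 ≤ v1 Yv := const_v1 hY
  have hE := nd11 hN hu1 hY hx
  have hF := nd12 hN hu1 hu2 hY hx
  have hG := nd22 hN hu2 hx
  have hVD := VDv1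
  -- valuations
  have hEv : ((-1 : ℚ) : WithTop ℚ) < v1 (nd exL.d1 exL.d1 x) := by
    rw [hE, AddValuation.map_mul, huv]
    have h0 : (0 : WithTop ℚ) < v1 (exL.d1 h) := by
      have := shift 0 h (by simpa using hh)
      simpa using this
    by_cases hd : exL.d1 h = 0
    · rw [hd, AddValuation.map_zero]
      exact WithTop.coe_lt_top _
    · obtain ⟨δ, c, hδ⟩ := lead_exists hd
      rw [hδ.val1] at h0 ⊢
      have h0' : (0 : ℚ) < lfst δ := by exact_mod_cast h0
      rw [← WithTop.coe_add, WithTop.coe_lt_coe]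
      linarith
  have hFv : ((-1 : ℚ) : WithTop ℚ) ≤ v1 (nd exL.d1 exL.d2 x) := by
    rw [hF, AddValuation.map_mul, hVD.c _ (by norm_num), zero_add, AddValuation.map_mul, huv]
    have h0 : (0 : WithTop ℚ) ≤ v1 (exL.d2 h - 2 * a * Yv) := by
      refine le_trans (le_min ?_ ?_) (AddValuation.map_sub _ _ _)
      · exact hh.trans (hVD.d2 h)
      · rw [AddValuation.map_mul, AddValuation.map_mul, hav]
        have h2' : v1 (2 : Hn LX) = 0 := by
          have : (2 : Hn LX) = algebraMap ℂ (Hn LX) 2 := (map_ofNat (algebraMap ℂ (Hn LX)) 2).symm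
          rw [this, hVD.c _ two_ne_zero]
        rw [h2', zero_add, zero_add]
        exact hYv
    calc ((-1 : ℚ) : WithTop ℚ) = ((-1 : ℚ) : WithTop ℚ) + 0 := by rw [add_zero]
      _ ≤ _ := add_le_add le_rfl h0
  have hGr : v1 (u * a + exL.d2 Yv) = ((-1 : ℚ) : WithTop ℚ) := by
    have e1 : v1 (u * a) = ((-1 : ℚ) : WithTop ℚ) := by
      rw [AddValuation.map_mul, huv, hav, add_zero]
    have e2 : v1 (u * a) < v1 (exL.d2 Yv) := by
      rw [e1]
      refine lt_of_lt_of_le ?_ (hYv.trans (hVD.d2 Yv))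
      exact_mod_cast (by norm_num : (-1 : ℚ) < 0)
    rw [AddValuation.map_add_eq_of_lt_left _ e2, e1]
  have hGv : v1 (nd exL.d2 exL.d2 x) = ((-2 : ℚ) : WithTop ℚ) := by
    rw [hG, sq, AddValuation.map_mul, hGr, ← WithTop.coe_add]
    norm_num
  -- a component of `x` of weight one
  obtain ⟨i, hi⟩ : ∃ i, om i ≠ 0 := by
    by_contra hcon
    push Not at hcon
    have := hN.ommu
    unfold bH at this
    rw [hcon 0, hcon 1, hcon 2] at this
    simp only [zero_mul, mul_zero, add_zero] at this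
    exact (map_ne_zero (algebraMap ℂ (Hn LX))).2 (by norm_num) this.symm
  have hxi : v1 (x i) = ((-1 : ℚ) : WithTop ℚ) := by
    have e1 : v1 (u * om i) = ((-1 : ℚ) : WithTop ℚ) := by
      rw [AddValuation.map_mul, huv, const_v1_eq (hN.om1 i) hi, add_zero]
    have e2 : (0 : WithTop ℚ) ≤ v1 (Yv * e i + h * mu i) := by
      refine le_trans (le_min ?_ ?_) (AddValuation.map_add _ _ _)
      · rw [AddValuation.map_mul]
        exact add_nonneg hYv (const_v1 (hN.e1 i))
      · rw [AddValuation.map_mul]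
        exact add_nonneg hh (const_v1 (hN.mu1 i))
    have e3 : v1 (u * om i) < v1 (Yv * e i + h * mu i) := by
      rw [e1]
      refine lt_of_lt_of_le ?_ e2
      exact_mod_cast (by norm_num : (-1 : ℚ) < 0)
    rw [hx i, add_assoc, AddValuation.map_add_eq_of_lt_left _ e3, e1]
  have hx0 : x i ≠ 0 := by
    intro h0
    rw [h0, AddValuation.map_zero] at hxi
    exact WithTop.top_ne_coe hxi
  by_cases hdet : detN exL.d1 exL.d2 x = 0
  · exfalso
    rw [hdet, inv_zero] at hFT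
    exact hx0 (FT_zero hp hFT i)
  obtain ⟨gD, cD, hD⟩ := lead_exists hdet
  have hlt1 : ((-2 : ℚ) : WithTop ℚ) < ((-1 : ℚ) : WithTop ℚ) := by
    exact_mod_cast (by norm_num : (-2 : ℚ) < -1)
  rcases lt_trichotomy (lfst gD) (-2) with hc | hc | hc
  · exfalso
    have hc' : v1 (detN exL.d1 exL.d2 x) < ((-2 : ℚ) : WithTop ℚ) := by
      rw [hD.val1]; exact_mod_cast hc
    refine h1 p hp (Hn LX) ℚ v1 exL.d1 exL.d2 hVD x ?_ ?_ ?_ hFT
    · exact (hc'.trans hlt1).trans hEv
    · exact (hc'.trans hlt1).trans_le hFv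
    · rw [hGv]; exact hc'
  · refine h4 p hp (Hn LX) v1 exL.d1 exL.d2 hVD (fun r => hd_comm _ _ r) shift om e mu a u Yv h hN
      hav hu1 hu2 huv hY hYv hh x hx ?_ hFT
    rw [hD.val1, hc]
  · exfalso
    have hG0 : nd exL.d2 exL.d2 x ≠ 0 := by
      intro h0
      rw [h0, AddValuation.map_zero] at hGv
      exact WithTop.top_ne_coe hGv
    obtain ⟨gG, cG, hGl⟩ := lead_exists hG0
    obtain ⟨g, c, hg⟩ := lead_exists hx0
    have eG : lfst gG = -2 := by
      rw [hGl.val1] at hGv; exact_mod_cast hGv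
    have eg : lfst g = -1 := by
      rw [hg.val1] at hxi; exact_mod_cast hxi
    refine h2 p hp LX exL.f1 exL.f2 x i g gG gD c cG cD hg hGl hD ?_ ?_ ?_ ?_ hFT
    · rw [LX_lt]; left; rw [eG]; exact hc
    · exact lt_vv eG (hlt1.trans hEv)
    · exact lt_vv eG (hlt1.trans_le hFv)
    · intro k
      rw [exL_f1, exL_f1, exL_f1, eg, eG]
      set r := lfst gD with hr
      have e1 : -((-1 : ℚ) : ℂ) + k * (-((-2 : ℚ) : ℂ) - -((r : ℚ) : ℂ)) =
          ((1 + k * (2 + r) : ℚ) : ℂ) := by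
        push_cast; ring
      have e2 : ((1 + k * (2 + r) : ℚ) : ℂ) + -((-2 : ℚ) : ℂ) - -((r : ℚ) : ℂ) / 2 =
          ((1 + k * (2 + r) + 2 + r / 2 : ℚ) : ℂ) := by
        push_cast; ring
      rw [e1, e2]
      have hk : (0 : ℚ) ≤ k * (2 + r) := mul_nonneg (by positivity) (by linarith)
      constructor
      · have : (1 + k * (2 + r) : ℚ) ≠ 0 := by linarith
        exact_mod_cast this
      · have : (1 + k * (2 + r) + 2 + r / 2 : ℚ) ≠ 0 := by linarith
        exact_mod_cast this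

end Pool.Agent.Work.MP_157c12_gt

end

section

/-!
# Item D1: decay in the frame `(κ + f, η, y)`
-/

open MvPolynomial

namespace Pool.Agent.Work.MP_157c12_gt

namespace ItemD1

variable {Γ : Type} [AddCommGroup Γ] [LinearOrder Γ] [IsOrderedAddMonoid Γ]

lemma vd (φ ψ : Γ →+ ℂ) : VD (vv Γ) (hd φ) (hd ψ) :=
  ⟨fun r => vv_hd φ r, fun r => vv_hd ψ r, fun _ hz => vv_algebraMap hz⟩

lemma mo_zero (s : Expo Γ) (i j : ℚ) : mo s i j 0 = 0 := by
  rw [mo]
  simp

lemma half (z : Hn Γ) : algebraMap ℂ (Hn Γ) (1 / 2) * (z + z) = z := by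
  have h : algebraMap ℂ (Hn Γ) (1 / 2) * 2 = 1 := by
    have : (2 : Hn Γ) = algebraMap ℂ (Hn Γ) 2 := by rw [map_ofNat]
    rw [this, ← map_mul]
    norm_num
  rw [← two_mul, ← mul_assoc, h, one_mul]

lemma ndE (s : Expo Γ) (κ : ℂ) (f : Hn Γ) :
    nd s.d1 s.d1 (ptX s κ f) = s.d1 f * mo s 1 0 1 := by
  unfold nd ptX
  simp only [Matrix.cons_val_zero, Matrix.cons_val_one, Matrix.cons_val, map_add, mo_d1]
  rw [mul_comm (mo s 1 0 _) _, half]
  simp [mo_zero]

lemma ndF (s : Expo Γ) (κ : ℂ) (f : Hn Γ) :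
    nd s.d1 s.d2 (ptX s κ f) = algebraMap ℂ (Hn Γ) (1 / 2) * (mo s 1 0 1 * s.d2 f) := by
  unfold nd ptX
  simp only [Matrix.cons_val_zero, Matrix.cons_val_one, Matrix.cons_val, map_add, mo_d1, mo_d2]
  simp [mo_zero]

lemma ndG (s : Expo Γ) (κ : ℂ) (f : Hn Γ) :
    nd s.d2 s.d2 (ptX s κ f) = mo s 0 2 1 := by
  unfold nd ptX
  simp only [Matrix.cons_val_zero, Matrix.cons_val_one, Matrix.cons_val, map_add, mo_d2]
  rw [mo_mul]
  norm_num [mo_zero]

end ItemD1

/-- Item D1. -/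
theorem d1 (h : SC1) : SD1 := by
  intro p hp Γ _ _ _ s κ f γ c hf hγ h1 h2 hFT
  set e : Γ := γ + s.io (1, 0) with he
  have hio : s.io (0, 2) < 0 := h1.trans h2
  have hE : Lead (nd s.d1 s.d1 (ptX s κ f)) e (s.f1 γ * c * 1) := by
    rw [ItemD1.ndE]
    exact (hf.der s.f1 hγ).mul (mo_lead s 1 0 one_ne_zero)
  have hG : Lead (nd s.d2 s.d2 (ptX s κ f)) (s.io (0, 2)) 1 := by
    rw [ItemD1.ndG]
    exact mo_lead s 0 2 one_ne_zero
  have hF : ((e : Γ) : WithTop Γ) ≤ vv Γ (nd s.d1 s.d2 (ptX s κ f)) := by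
    rw [ItemD1.ndF, AddValuation.map_mul, AddValuation.map_mul,
      vv_algebraMap (by norm_num : (1 / 2 : ℂ) ≠ 0), zero_add, (mo_lead s 1 0 one_ne_zero).val, he,
      add_comm γ, WithTop.coe_add]
    refine add_le_add_right ?_ _
    rw [← hf.val]
    exact vv_hd _ _
  have hF2 : ((e + s.io (0, 2) : Γ) : WithTop Γ) < vv Γ (-(nd s.d1 s.d2 (ptX s κ f)) ^ 2) := by
    rw [AddValuation.map_neg, pow_two, AddValuation.map_mul]
    refine lt_of_lt_of_le ?_ (add_le_add hF hF)
    rw [← WithTop.coe_add]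
    exact_mod_cast add_lt_add_right h1 e
  have hdet : Lead (detN s.d1 s.d2 (ptX s κ f)) (e + s.io (0, 2)) (s.f1 γ * c * 1 * 1) := by
    unfold detN
    rw [sub_eq_add_neg]
    exact (hE.mul hG).add hF2
  have hlt : e + s.io (0, 2) < e := by
    have := add_lt_add_right hio e
    rwa [add_zero] at this
  refine h p hp (Hn Γ) Γ (vv Γ) s.d1 s.d2 (ItemD1.vd _ _) (ptX s κ f) ?_ ?_ ?_ hFT
  · rw [hdet.val, hE.val]
    exact_mod_cast hlt
  · rw [hdet.val]
    exact lt_of_lt_of_le (by exact_mod_cast hlt) hF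
  · rw [hdet.val, hG.val]
    have : e + s.io (0, 2) < s.io (0, 2) := by
      have := add_lt_add_left h2 (s.io (0, 2))
      rwa [zero_add] at this
    exact_mod_cast this

end Pool.Agent.Work.MP_157c12_gt

end

section

/-!
# Item D3: the adapted frame, decay
-/

open MvPolynomial

namespace Pool.Agent.Work.MP_157c12_gt

namespace ItemD3

section

variable {Γ : Type} [AddCommGroup Γ] [LinearOrder Γ] [IsOrderedAddMonoid Γ]

lemma mo_zero (s : Expo Γ) (i j : ℚ) : mo s i j 0 = 0 := by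
  rw [mo, HahnSeries.single_eq_zero]

lemma mo_c (s : Expo Γ) (i j : ℚ) (c : ℂ) :
    mo s i j c = algebraMap ℂ (Hn Γ) c * mo s i j 1 := by
  rw [algebraMap_eq_mo s, mo_mul]
  simp

lemma half_two : algebraMap ℂ (Hn Γ) (1 / 2) * 2 = 1 := by
  have : (2 : Hn Γ) = algebraMap ℂ (Hn Γ) 2 := (map_ofNat (algebraMap ℂ (Hn Γ)) 2).symm
  rw [this, ← map_mul]
  norm_num

variable (s : Expo Γ) (κ c : ℂ) (β : ℚ) (g : Hn Γ)

lemma x0 : ptA s κ c β g 0 =
    mo s 0 0 κ + mo s 0 (-β) c - mo s 1 (-2 * β - 2) (β ^ 2 * c ^ 2 / 4) + g := rfl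
lemma x1 : ptA s κ c β g 1 = mo s 1 0 1 := rfl
lemma x2 : ptA s κ c β g 2 = mo s 0 1 1 + mo s 1 (-β - 1) (β * c / 2) := rfl

lemma d1x0 : s.d1 (ptA s κ c β g 0) =
    -(algebraMap ℂ (Hn Γ) (β * c / 2) ^ 2 * mo s 1 (-2 * β - 2) 1) + s.d1 g := by
  rw [x0, map_add, map_sub, map_add, mo_d1, mo_d1, mo_d1]
  simp only [Rat.cast_zero, zero_mul, mo_zero, Rat.cast_one, one_mul, zero_add]
  rw [mo_c s 1 (-2 * β - 2) (β ^ 2 * c ^ 2 / 4), ← map_pow]
  have : ((β : ℂ) * c / 2) ^ 2 = β ^ 2 * c ^ 2 / 4 := by ring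
  rw [this]
  ring

lemma d2x0 : s.d2 (ptA s κ c β g 0) =
    -(2 * algebraMap ℂ (Hn Γ) (β * c / 2) * mo s 0 (-β) 1) +
      2 * algebraMap ℂ (Hn Γ) (β + 1) * algebraMap ℂ (Hn Γ) (β * c / 2) ^ 2 *
        mo s 1 (-2 * β - 2) 1 + s.d2 g := by
  rw [x0, map_add, map_sub, map_add, mo_d2, mo_d2, mo_d2]
  simp only [Rat.cast_zero, zero_mul, mo_zero, zero_add]
  rw [mo_c s 0 (-β), mo_c s 1 (-2 * β - 2) (_ * _)]
  have e1 : (((-β : ℚ) : ℂ)) * c = -(2 * (β * c / 2)) := by push_cast; ring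
  have e2 : ((-2 * β - 2 : ℚ) : ℂ) * (β ^ 2 * c ^ 2 / 4) = -(2 * (β + 1) * (β * c / 2) ^ 2) := by
    push_cast; ring
  rw [e1, e2]
  simp only [map_neg, map_mul, map_pow, map_add, map_one, map_ofNat]
  ring

lemma d1x1 : s.d1 (ptA s κ c β g 1) = mo s 1 0 1 := by
  rw [x1, mo_d1]; simp

lemma d2x1 : s.d2 (ptA s κ c β g 1) = 0 := by
  rw [x1, mo_d2]; simp [mo_zero]

lemma d1x2 : s.d1 (ptA s κ c β g 2) =
    algebraMap ℂ (Hn Γ) (β * c / 2) * mo s 1 (-β - 1) 1 := by
  rw [x2, map_add, mo_d1, mo_d1, ← mo_c]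
  simp [mo_zero]

lemma d2x2' : s.d2 (ptA s κ c β g 2) =
    mo s 0 1 1 + mo s 1 (-β - 1) (-((β + 1) * (β * c / 2))) := by
  rw [x2, map_add, mo_d2, mo_d2]
  congr 2
  · push_cast; ring
  · push_cast; ring

lemma d2x2 : s.d2 (ptA s κ c β g 2) =
    mo s 0 1 1 - algebraMap ℂ (Hn Γ) (β + 1) * algebraMap ℂ (Hn Γ) (β * c / 2) *
      mo s 1 (-β - 1) 1 := by
  rw [d2x2', mo_c s 1 (-β - 1) (-((β + 1) * (β * c / 2)))]
  simp only [map_neg, map_mul]
  ring

lemma rel1 : mo s 1 (-β - 1) 1 * mo s 1 (-β - 1) 1 = mo s 1 0 1 * mo s 1 (-2 * β - 2) 1 := by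
  rw [mo_mul, mo_mul]
  congr 1
  ring

lemma rel2 : mo s 1 0 1 * mo s 0 (-β) 1 = mo s 1 (-β - 1) 1 * mo s 0 1 1 := by
  rw [mo_mul, mo_mul]
  congr 1
  ring

lemma nd11 : nd s.d1 s.d1 (ptA s κ c β g) = mo s 1 0 1 * s.d1 g := by
  rw [nd, d1x0, d1x1, d1x2]
  have h := half_two (Γ := Γ)
  have r1 := rel1 s β
  linear_combination (mo s 1 0 1 * (-(algebraMap ℂ (Hn Γ) (β * c / 2) ^ 2 *
    mo s 1 (-2 * β - 2) 1) + s.d1 g)) * h + algebraMap ℂ (Hn Γ) (β * c / 2) ^ 2 * r1

lemma nd12 : nd s.d1 s.d2 (ptA s κ c β g) =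
    algebraMap ℂ (Hn Γ) (1 / 2) * (mo s 1 0 1 * s.d2 g) := by
  rw [nd, d1x0, d1x1, d1x2, d2x0, d2x1, d2x2]
  have h := half_two (Γ := Γ)
  have r1 := rel1 s β
  have r2 := rel2 s β
  linear_combination (-(algebraMap ℂ (Hn Γ) (β * c / 2) * mo s 1 0 1 * mo s 0 (-β) 1) +
    algebraMap ℂ (Hn Γ) (β + 1) * algebraMap ℂ (Hn Γ) (β * c / 2) ^ 2 * mo s 1 0 1 *
      mo s 1 (-2 * β - 2) 1) * h - algebraMap ℂ (Hn Γ) (β + 1) *
      algebraMap ℂ (Hn Γ) (β * c / 2) ^ 2 * r1 - algebraMap ℂ (Hn Γ) (β * c / 2) * r2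

lemma nd22 : nd s.d2 s.d2 (ptA s κ c β g) =
    (mo s 0 1 1 + mo s 1 (-β - 1) (-((β + 1) * (β * c / 2)))) ^ 2 := by
  rw [nd, d2x0, d2x1, d2x2']
  ring

end

end ItemD3

open ItemD3

theorem d3 (h : SC1) : SD3 := by
  intro p hp a ha κ c0 β g γ c hc0 hβ hβ1 hg hf1 hγβ hγa hFT
  have hio : (exA ha).io = ia a := exA_io ha
  obtain ⟨γr, hγr⟩ : ∃ γr : ℝ, γ = rA γr := ⟨γ, rfl⟩
  rw [hγr] at hg hf1 hγβ hγa
  rw [rA_lt] at hγβ hγa
  have hk : -(((β : ℂ) + 1) * (β * c0 / 2)) ≠ 0 := by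
    rw [neg_ne_zero]
    refine mul_ne_zero ?_ (div_ne_zero (mul_ne_zero (by exact_mod_cast hβ) hc0) two_ne_zero)
    have : (β + 1 : ℚ) ≠ 0 := by linarith
    exact_mod_cast this
  -- leading exponent of the last derivative
  obtain ⟨M, hM1, hM2, hlead⟩ : ∃ (M : ℝ), 1 ≤ M ∧ a - β - 1 ≤ M ∧ ∃ k,
      Lead (mo (exA ha) 0 1 1 + mo (exA ha) 1 (-β - 1) (-(((β : ℂ) + 1) * (β * c0 / 2))))
        (rA (-M)) k := by
    have l1 := mo_lead (exA ha) 0 1 (one_ne_zero (α := ℂ))
    have l2 := mo_lead (exA ha) 1 (-β - 1) hk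
    rw [hio, ia_apply] at l1 l2
    push_cast at l1 l2
    rcases lt_trichotomy (a - β - 1) 1 with hlt | heq | hgt
    · refine ⟨1, le_rfl, hlt.le, 1, ?_⟩
      have := l1.add (g := mo (exA ha) 1 (-β - 1) (-(((β : ℂ) + 1) * (β * c0 / 2)))) (by
        rw [l2.val, WithTop.coe_lt_coe, rA_lt]
        linarith)
      simpa using this
    · exfalso
      apply ha
      refine ⟨β + 2, ?_⟩
      push_cast
      linarith
    · refine ⟨a - β - 1, hgt.le, le_rfl, -(((β : ℂ) + 1) * (β * c0 / 2)), ?_⟩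
      have := l2.add (g := mo (exA ha) 0 1 1) (by
        rw [l1.val, WithTop.coe_lt_coe, rA_lt]
        linarith)
      rw [add_comm] at this
      have e : -((1 : ℝ) * a + (-β - 1)) = -(a - β - 1) := by ring
      rw [e] at this
      exact this
  obtain ⟨k, hk2⟩ := hlead
  have hG := hk2.pow 2
  rw [← nd22 (exA ha) κ c0 β g] at hG
  have eG : (2 • rA (-M) : RA) = rA (-(2 * M)) := by
    rw [two_nsmul, ← rA_add]
    congr 1; ring
  rw [eG] at hG
  have hη := mo_lead (exA ha) 1 0 (one_ne_zero (α := ℂ))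
  rw [hio, ia_apply] at hη
  push_cast at hη
  have eη : rA (-((1 : ℝ) * a + 0)) = rA (-a) := by congr 1; ring
  rw [eη] at hη
  have hE := hη.mul (hg.der (exA ha).f1 hf1)
  have hEv : nd (exA ha).d1 (exA ha).d1 (ptA (exA ha) κ c0 β g) =
      mo (exA ha) 1 0 1 * (exA ha).d1 g := nd11 (exA ha) κ c0 β g
  rw [← hEv, ← rA_add] at hE
  have hFv : ((rA (-a + γr) : RA) : WithTop RA) ≤
      vv RA (nd (exA ha).d1 (exA ha).d2 (ptA (exA ha) κ c0 β g)) := by
    rw [nd12, AddValuation.map_mul, AddValuation.map_mul, hη.val, vv_algebraMap (by norm_num),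
      zero_add, rA_add, WithTop.coe_add]
    refine add_le_add le_rfl ?_
    rw [← hg.val]
    exact vv_hd _ _
  have hEG := hE.mul hG
  rw [← rA_add] at hEG
  have hFF : ((rA (-a + γr + -(2 * M)) : RA) : WithTop RA) <
      vv RA (-(nd (exA ha).d1 (exA ha).d2 (ptA (exA ha) κ c0 β g)) ^ 2) := by
    rw [AddValuation.map_neg, sq, AddValuation.map_mul]
    refine lt_of_lt_of_le ?_ (add_le_add hFv hFv)
    rw [← WithTop.coe_add, WithTop.coe_lt_coe, ← rA_add, rA_lt]
    linarith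
  have hD := hEG.add hFF
  rw [← sub_eq_add_neg] at hD
  change Lead (detN (exA ha).d1 (exA ha).d2 (ptA (exA ha) κ c0 β g)) _ _ at hD
  have hVD : VD (vv RA) (exA ha).d1 (exA ha).d2 :=
    ⟨fun r => vv_hd _ _, fun r => vv_hd _ _, fun z hz => vv_algebraMap hz⟩
  refine h p hp (Hn RA) RA (vv RA) (exA ha).d1 (exA ha).d2 hVD (ptA (exA ha) κ c0 β g)
    ?_ ?_ ?_ hFT
  · rw [hD.val, hE.val, WithTop.coe_lt_coe, rA_lt]
    linarith
  · rw [hD.val]
    refine lt_of_lt_of_le ?_ hFv
    rw [WithTop.coe_lt_coe, rA_lt]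
    linarith
  · rw [hD.val, hG.val, WithTop.coe_lt_coe, rA_lt]
    linarith

end Pool.Agent.Work.MP_157c12_gt

end
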