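import Pool.Agent.Work.MP_157c12_gt.Stmts

/-! Bundle of small proof modules (one section per former module). -/

section

/-!
# Item D2: the frame `(κ + f, η, y)` in the lexicographic field
-/

open MvPolynomial

namespace Pool.Agent.Work.MP_157c12_gt

namespace ItemD2

section

variable {Γ : Type} [AddCommGroup Γ] [LinearOrder Γ] [IsOrderedAddMonoid Γ]

lemma mo_zero (s : Expo Γ) (i j : ℚ) : mo s i j 0 = 0 := by
  rw [mo, HahnSeries.single_eq_zero]

lemma x0 (s : Expo Γ) (κ : ℂ) (f : Hn Γ) : ptX s κ f 0 = mo s 0 0 κ + f := rfl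
lemma x1 (s : Expo Γ) (κ : ℂ) (f : Hn Γ) : ptX s κ f 1 = mo s 1 0 1 := rfl
lemma x2 (s : Expo Γ) (κ : ℂ) (f : Hn Γ) : ptX s κ f 2 = mo s 0 1 1 := rfl

lemma d1x0 (s : Expo Γ) (κ : ℂ) (f : Hn Γ) : s.d1 (ptX s κ f 0) = s.d1 f := by
  rw [x0, map_add, mo_d1]
  simp [mo_zero]

lemma d2x0 (s : Expo Γ) (κ : ℂ) (f : Hn Γ) : s.d2 (ptX s κ f 0) = s.d2 f := by
  rw [x0, map_add, mo_d2]
  simp [mo_zero]

lemma d1x1 (s : Expo Γ) (κ : ℂ) (f : Hn Γ) : s.d1 (ptX s κ f 1) = mo s 1 0 1 := by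
  rw [x1, mo_d1]; simp

lemma d2x1 (s : Expo Γ) (κ : ℂ) (f : Hn Γ) : s.d2 (ptX s κ f 1) = 0 := by
  rw [x1, mo_d2]; simp [mo_zero]

lemma d1x2 (s : Expo Γ) (κ : ℂ) (f : Hn Γ) : s.d1 (ptX s κ f 2) = 0 := by
  rw [x2, mo_d1]; simp [mo_zero]

lemma d2x2 (s : Expo Γ) (κ : ℂ) (f : Hn Γ) : s.d2 (ptX s κ f 2) = mo s 0 1 1 := by
  rw [x2, mo_d2]; simp

lemma half_two : algebraMap ℂ (Hn Γ) (1 / 2) * 2 = 1 := by
  have : (2 : Hn Γ) = algebraMap ℂ (Hn Γ) 2 := (map_ofNat (algebraMap ℂ (Hn Γ)) 2).symm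
  rw [this, ← map_mul]
  norm_num

lemma nd11 (s : Expo Γ) (κ : ℂ) (f : Hn Γ) :
    nd s.d1 s.d1 (ptX s κ f) = mo s 1 0 1 * s.d1 f := by
  rw [nd, d1x0, d1x1, d1x2]
  have h := half_two (Γ := Γ)
  linear_combination (mo s 1 0 1 * s.d1 f) * h

lemma nd12 (s : Expo Γ) (κ : ℂ) (f : Hn Γ) :
    nd s.d1 s.d2 (ptX s κ f) = algebraMap ℂ (Hn Γ) (1 / 2) * (mo s 1 0 1 * s.d2 f) := by
  rw [nd, d1x0, d1x1, d1x2, d2x0, d2x1, d2x2]
  ring

lemma nd22 (s : Expo Γ) (κ : ℂ) (f : Hn Γ) :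
    nd s.d2 s.d2 (ptX s κ f) = mo s 0 2 1 := by
  rw [nd, d2x0, d2x1, d2x2, mo_mul]
  norm_num

end

end ItemD2

open ItemD2

theorem d2 (h1 : SC1) (h2 : SC2) (h3 : SC3) : SD2 := by
  intro p hp κ f γ c hf hlt hFT
  -- first component
  have hl : 1 ≤ lfst γ := by
    have h := LX_lt.1 hlt
    rw [map_add, lfst_il, lfst_il] at h
    rcases h with h | ⟨h, -⟩ <;> norm_num at h <;> linarith
  have hf1 : exL.f1 γ ≠ 0 := by
    rw [exL_f1, neg_ne_zero]
    intro h
    have : lfst γ = 0 := by exact_mod_cast h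
    rw [this] at hl
    norm_num at hl
  have hio : exL.io = il := rfl
  -- leading terms
  have hη := mo_lead exL 1 0 (one_ne_zero (α := ℂ))
  have hE := hη.mul (hf.der exL.f1 hf1)
  have hEv : nd exL.d1 exL.d1 (ptX exL κ f) = mo exL 1 0 1 * exL.d1 f := nd11 exL κ f
  rw [← hEv] at hE
  have hG : Lead (nd exL.d2 exL.d2 (ptX exL κ f)) (exL.io (0, 2)) 1 := by
    rw [nd22]
    exact mo_lead exL 0 2 one_ne_zero
  have hFv : ((exL.io (1, 0) + γ : LX) : WithTop LX) ≤ vv LX (nd exL.d1 exL.d2 (ptX exL κ f)) := by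
    rw [nd12, AddValuation.map_mul, AddValuation.map_mul, hη.val, vv_algebraMap (by norm_num),
      zero_add, WithTop.coe_add]
    refine add_le_add le_rfl ?_
    rw [← hf.val]
    exact vv_hd _ _
  have hEG := hE.mul hG
  rw [hio] at hE hG hFv hEG
  have hFF : ((il (1, 0) + γ + il (0, 2) : LX) : WithTop LX) <
      vv LX (-(nd exL.d1 exL.d2 (ptX exL κ f)) ^ 2) := by
    rw [AddValuation.map_neg, sq, AddValuation.map_mul]
    refine lt_of_lt_of_le ?_ (add_le_add hFv hFv)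
    rw [← WithTop.coe_add, WithTop.coe_lt_coe]
    have : il (0, 2) < il (1, 0) + γ := by rwa [add_comm]
    exact add_lt_add_right this _
  have hD : Lead (detN exL.d1 exL.d2 (ptX exL κ f)) (il (1, 0) + γ + il (0, 2))
      (1 * (exL.f1 γ * c) * 1) := by
    have := hEG.add hFF
    rw [← sub_eq_add_neg] at this
    exact this
  have hVD : VD (vv LX) exL.d1 exL.d2 :=
    ⟨fun r => vv_hd _ _, fun r => vv_hd _ _, fun z hz => vv_algebraMap hz⟩
  have hlt' : il (0, 2) < il (1, 0) + γ := by rwa [add_comm]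
  have h02 : il (0, 2) < 0 := by
    rw [LX_lt]
    right
    constructor
    · rw [lfst_il]; simp
    · rw [lsnd_il]; simp
  rcases lt_trichotomy (il (1, 0) + γ) 0 with hs | hs | hs
  · -- decay
    refine h1 p hp (Hn LX) LX (vv LX) exL.d1 exL.d2 hVD (ptX exL κ f) ?_ ?_ ?_ hFT
    · rw [hD.val, hE.val, WithTop.coe_lt_coe]
      exact add_lt_of_neg_right _ h02
    · rw [hD.val]
      refine lt_of_lt_of_le ?_ hFv
      rw [WithTop.coe_lt_coe]
      exact add_lt_of_neg_right _ h02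
    · rw [hD.val, hG.val, WithTop.coe_lt_coe]
      exact add_lt_of_neg_left _ hs
  · -- neutral
    refine h3 p hp (Hn LX) LX (vv LX) exL.d1 exL.d2 hVD (ptX exL κ f) 2 ?_ ?_ ?_ ?_ ?_ hFT
    · rw [x2]
      exact (mo_lead exL 0 1 one_ne_zero).ne_zero
    · exact d1x2 exL κ f
    · rw [hD.val, hE.val, WithTop.coe_lt_coe]
      exact add_lt_of_neg_right _ h02
    · rw [hD.val]
      refine lt_of_lt_of_le ?_ hFv
      rw [WithTop.coe_lt_coe]
      exact add_lt_of_neg_right _ h02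
    · rw [hD.val, hG.val, hs, zero_add]
  · -- growth
    have hr : 0 ≤ lfst (il (1, 0) + γ) := by
      rw [map_add, lfst_il]; linarith
    have hfD : exL.f1 (il (1, 0) + γ + il (0, 2)) = -((lfst (il (1, 0) + γ) : ℚ) : ℂ) := by
      rw [exL_f1, map_add, lfst_il]; simp
    have hfG : exL.f1 (il (0, 2)) = 0 := by
      rw [exL_f1, lfst_il]; simp
    have hfη : exL.f1 (exL.io (1, 0)) = 1 := by
      rw [exL.h1]; simp
    refine h2 p hp LX exL.f1 exL.f2 (ptX exL κ f) 1 (exL.io (1, 0)) (il (0, 2))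
      (il (1, 0) + γ + il (0, 2)) 1 1 _ ?_ hG hD ?_ ?_ ?_ ?_ hFT
    · rw [x1]; exact hη
    · exact lt_add_of_pos_left _ hs
    · rw [hE.val, WithTop.coe_lt_coe]
      exact hlt'
    · refine lt_of_lt_of_le ?_ hFv
      rw [WithTop.coe_lt_coe]
      exact hlt'
    · intro k
      rw [hfη, hfG, hfD]
      set r := lfst (il (1, 0) + γ) with hrdef
      have e1 : (1 : ℂ) + k * (0 - -((r : ℚ) : ℂ)) = ((1 + k * r : ℚ) : ℂ) := by
        push_cast; ring
      have e2 : (1 : ℂ) + k * (0 - -((r : ℚ) : ℂ)) + 0 - -((r : ℚ) : ℂ) / 2 =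
          ((1 + k * r + r / 2 : ℚ) : ℂ) := by
        push_cast; ring
      rw [e2, e1]
      have hk : (0 : ℚ) ≤ k * r := mul_nonneg (by positivity) hr
      constructor
      · have : (1 + k * r : ℚ) ≠ 0 := by linarith
        exact_mod_cast this
      · have : (1 + k * r + r / 2 : ℚ) ≠ 0 := by linarith
        exact_mod_cast this

end Pool.Agent.Work.MP_157c12_gt

end

section

/-!
# Item D5: the conic frame
-/

open MvPolynomial

namespace Pool.Agent.Work.MP_157c12_gt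

namespace ItemD5

/-- the valuation `v1` is larger than `t` if all exponents are -/
lemma lt_v1 {f : Hn LX} {t : ℚ} (h : ∀ γ, f.coeff γ ≠ 0 → t < lfst γ) :
    (t : WithTop ℚ) < v1 f := by
  by_cases hf : f = 0
  · subst hf
    rw [AddValuation.map_zero]
    exact WithTop.coe_lt_top t
  · obtain ⟨γ, c, hl⟩ := lead_exists hf
    rw [hl.val1]
    refine WithTop.coe_lt_coe.mpr (h γ ?_)
    rw [hl.2.1]
    exact hl.1

lemma le_lfst {q : Hn LX} {t : ℚ} (h : v1 q = (t : WithTop ℚ)) {γ : LX} (hγ : q.coeff γ ≠ 0) :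
    t ≤ lfst γ := by
  have hq : q ≠ 0 := by
    rintro rfl
    simp at hγ
  obtain ⟨γ0, c, hl⟩ := lead_exists hq
  have h1 : lfst γ0 = t := by
    have := hl.val1.symm.trans h
    exact_mod_cast this
  rw [← h1]
  refine lfst_mono ?_
  by_contra hlt
  exact hγ (hl.2.2 γ (not_le.mp hlt))

lemma v1_algebraMap {c : ℂ} (hc : c ≠ 0) : v1 (algebraMap ℂ (Hn LX) c) = 0 := by
  rw [v1_apply, vv_algebraMap hc]
  rfl

lemma v1_hd (φ : LX →+ ℂ) (f : Hn LX) : v1 f ≤ v1 (hd φ f) := by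
  rw [v1_apply, v1_apply]
  exact WithTop.monotone_map_iff.mpr lfst_mono (vv_hd φ f)

lemma vd : VD v1 exL.d1 exL.d2 where
  d1 := v1_hd _
  d2 := v1_hd _
  c := fun _ hz => v1_algebraMap hz

/-- `D1 q - q` has the valuation of `q` -/
lemma v1_E {q : Hn LX} {t : ℚ} (h : v1 q = (t : WithTop ℚ)) (ht : t ≠ -1) :
    v1 (exL.d1 q - q) = (t : WithTop ℚ) := by
  have hc : (-(1 + (t : ℂ))) ≠ 0 := by
    intro h0
    apply ht
    have h1 : (t : ℂ) = ((-1 : ℚ) : ℂ) := by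
      push_cast
      linear_combination -h0
    exact_mod_cast h1
  have h1 : exL.d1 q - q = algebraMap ℂ (Hn LX) (-(1 + (t : ℂ))) * q + (exL.d1 q + (t : ℂ) • q) := by
    rw [← Algebra.smul_def]
    ext γ
    rw [HahnSeries.coeff_sub, HahnSeries.coeff_add, HahnSeries.coeff_add, HahnSeries.coeff_smul,
      HahnSeries.coeff_smul, smul_eq_mul, smul_eq_mul]
    ring
  have h2 : v1 (algebraMap ℂ (Hn LX) (-(1 + (t : ℂ))) * q) = (t : WithTop ℚ) := by
    rw [AddValuation.map_mul, v1_algebraMap hc, zero_add, h]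
  have h3 : (t : WithTop ℚ) < v1 (exL.d1 q + (t : ℂ) • q) := by
    refine lt_v1 fun γ hγ => ?_
    rw [HahnSeries.coeff_add, hd_coeff, HahnSeries.coeff_smul, smul_eq_mul, exL_f1,
      ← add_mul] at hγ
    have h4 : q.coeff γ ≠ 0 := right_ne_zero_of_mul hγ
    have h5 : -(lfst γ : ℂ) + (t : ℂ) ≠ 0 := left_ne_zero_of_mul hγ
    refine lt_of_le_of_ne (le_lfst h h4) fun h6 => h5 ?_
    rw [h6]
    ring
  rw [h1, AddValuation.map_add_eq_of_lt_left, h2]
  rw [h2]
  exact h3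

lemma mo_pow_aux : mo exL 1 0 1 * mo exL (-1) 0 1 = 1 := by
  rw [mo_mul, ← mo_one exL]
  norm_num

lemma x0_eq (q : Hn LX) : ptC exL q 0 =
    mo exL (-1) 0 1 * q - mo exL 1 0 1 * mo exL 0 1 1 ^ 2 := by
  have : mo exL 1 0 1 * mo exL 0 1 1 ^ 2 = mo exL 1 2 1 := by
    rw [pow_two, mo_mul, mo_mul]
    norm_num
  rw [this]
  rfl

lemma x1_eq (q : Hn LX) : ptC exL q 1 = mo exL 1 0 1 := rfl

lemma x2_eq (q : Hn LX) : ptC exL q 2 = mo exL 1 0 1 * mo exL 0 1 1 := by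
  have : mo exL 1 0 1 * mo exL 0 1 1 = mo exL 1 1 1 := by
    rw [mo_mul]
    norm_num
  rw [this]
  rfl

lemma d1U : exL.d1 (mo exL 1 0 1) = mo exL 1 0 1 := by
  rw [mo_d1]
  norm_num

lemma d2U : exL.d2 (mo exL 1 0 1) = 0 := by
  rw [mo_d2]
  simp [mo]

lemma d1T : exL.d1 (mo exL 0 1 1) = 0 := by
  rw [mo_d1]
  simp [mo]

lemma d2T : exL.d2 (mo exL 0 1 1) = mo exL 0 1 1 := by
  rw [mo_d2]
  norm_num

lemma d1V : exL.d1 (mo exL (-1) 0 1) = -mo exL (-1) 0 1 := by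
  rw [mo_d1]
  simp [mo]

lemma d2V : exL.d2 (mo exL (-1) 0 1) = 0 := by
  rw [mo_d2]
  simp [mo]

lemma half : 2 * algebraMap ℂ (Hn LX) (1 / 2) = 1 := by
  rw [← map_ofNat (algebraMap ℂ (Hn LX)) 2, ← map_mul]
  norm_num

lemma d1x0 (q : Hn LX) : exL.d1 (ptC exL q 0) = mo exL (-1) 0 1 * exL.d1 q -
    mo exL (-1) 0 1 * q - mo exL 1 0 1 * mo exL 0 1 1 ^ 2 := by
  rw [x0_eq, pow_two]
  simp only [map_sub, Derivation.leibniz, smul_eq_mul, d1U, d1T, d1V]
  ring

lemma d2x0 (q : Hn LX) : exL.d2 (ptC exL q 0) = mo exL (-1) 0 1 * exL.d2 q -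
    2 * mo exL 1 0 1 * mo exL 0 1 1 ^ 2 := by
  rw [x0_eq, pow_two]
  simp only [map_sub, Derivation.leibniz, smul_eq_mul, d2U, d2T, d2V]
  ring

lemma d1x2 (q : Hn LX) : exL.d1 (ptC exL q 2) = mo exL 1 0 1 * mo exL 0 1 1 := by
  rw [x2_eq]
  simp only [Derivation.leibniz, smul_eq_mul, d1U, d1T]
  ring

lemma d2x2 (q : Hn LX) : exL.d2 (ptC exL q 2) = mo exL 1 0 1 * mo exL 0 1 1 := by
  rw [x2_eq]
  simp only [Derivation.leibniz, smul_eq_mul, d2U, d2T]
  ring

lemma E_eq (q : Hn LX) : nd exL.d1 exL.d1 (ptC exL q) = exL.d1 q - q := by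
  rw [nd, d1x0, d1x2, x1_eq, d1U]
  linear_combination (mo exL 1 0 1 * (mo exL (-1) 0 1 * exL.d1 q -
    mo exL (-1) 0 1 * q - mo exL 1 0 1 * mo exL 0 1 1 ^ 2)) * half + (exL.d1 q - q) * mo_pow_aux

lemma F_eq (q : Hn LX) : nd exL.d1 exL.d2 (ptC exL q) =
    algebraMap ℂ (Hn LX) (1 / 2) * exL.d2 q := by
  rw [nd, d2x0, d1x2, d2x2, x1_eq, d1U, d2U]
  linear_combination (algebraMap ℂ (Hn LX) (1 / 2) * exL.d2 q) * mo_pow_aux -
    (mo exL 1 0 1 ^ 2 * mo exL 0 1 1 ^ 2) * half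

lemma G_eq (q : Hn LX) : nd exL.d2 exL.d2 (ptC exL q) =
    (mo exL 1 0 1 * mo exL 0 1 1) * (mo exL 1 0 1 * mo exL 0 1 1) := by
  rw [nd, d2x2, x1_eq, d2U]
  ring

lemma v1_UT : v1 (mo exL 1 0 1 * mo exL 0 1 1) = ((-1 : ℚ) : WithTop ℚ) := by
  rw [AddValuation.map_mul, (mo_lead exL 1 0 one_ne_zero).val1,
    (mo_lead exL 0 1 one_ne_zero).val1]
  show ((lfst (il (1, 0)) : ℚ) : WithTop ℚ) + ((lfst (il (0, 1)) : ℚ) : WithTop ℚ) = _
  rw [lfst_il, lfst_il, ← WithTop.coe_add]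
  norm_num

/-- the null frame -/
lemma nf : NF exL.d1 exL.d2 ![-(mo exL 0 1 1) ^ 2, 1, mo exL 0 1 1]
    ![-(2 * mo exL 0 1 1), 0, 1] ![1, 0, 0] (mo exL 0 1 1) where
  om1 := by
    intro i
    fin_cases i
    · show exL.d1 (-(mo exL 0 1 1) ^ 2) = 0
      rw [map_neg, pow_two, Derivation.leibniz, d1T]
      simp
    · show exL.d1 1 = 0
      exact Derivation.map_one_eq_zero _
    · exact d1T
  e1 := by
    intro i
    fin_cases i
    · show exL.d1 (-(2 * mo exL 0 1 1)) = 0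
      rw [map_neg, two_mul, map_add, d1T]
      simp
    · exact map_zero _
    · exact Derivation.map_one_eq_zero _
  mu1 := by
    intro i
    fin_cases i
    · exact Derivation.map_one_eq_zero _
    · exact map_zero _
    · exact map_zero _
  a1 := d1T
  om2 := by
    intro i
    fin_cases i
    · show exL.d2 (-(mo exL 0 1 1) ^ 2) = mo exL 0 1 1 * -(2 * mo exL 0 1 1)
      rw [map_neg, pow_two, Derivation.leibniz, d2T, smul_eq_mul]
      ring
    · show exL.d2 1 = mo exL 0 1 1 * 0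
      rw [Derivation.map_one_eq_zero, mul_zero]
    · show exL.d2 (mo exL 0 1 1) = mo exL 0 1 1 * 1
      rw [d2T, mul_one]
  e2 := by
    intro i
    fin_cases i
    · show exL.d2 (-(2 * mo exL 0 1 1)) = -2 * mo exL 0 1 1 * 1
      rw [map_neg, two_mul, map_add, d2T]
      ring
    · show exL.d2 0 = -2 * mo exL 0 1 1 * 0
      rw [map_zero, mul_zero]
    · show exL.d2 1 = -2 * mo exL 0 1 1 * 0
      rw [Derivation.map_one_eq_zero, mul_zero]
  mu2 := by
    intro i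
    fin_cases i
    · exact Derivation.map_one_eq_zero _
    · exact map_zero _
    · exact map_zero _
  omom := by
    show algebraMap ℂ (Hn LX) (1 / 2) * (-(mo exL 0 1 1) ^ 2 * 1 + 1 * -(mo exL 0 1 1) ^ 2) +
      mo exL 0 1 1 * mo exL 0 1 1 = 0
    linear_combination -(mo exL 0 1 1) ^ 2 * half
  ome := by
    show algebraMap ℂ (Hn LX) (1 / 2) * (-(mo exL 0 1 1) ^ 2 * 0 + 1 * -(2 * mo exL 0 1 1)) +
      mo exL 0 1 1 * 1 = 0
    linear_combination -(mo exL 0 1 1) * half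
  ommu := by
    show algebraMap ℂ (Hn LX) (1 / 2) * (-(mo exL 0 1 1) ^ 2 * 0 + 1 * 1) +
      mo exL 0 1 1 * 0 = algebraMap ℂ (Hn LX) (1 / 2)
    ring
  ee := by
    show algebraMap ℂ (Hn LX) (1 / 2) * (-(2 * mo exL 0 1 1) * 0 + 0 * -(2 * mo exL 0 1 1)) +
      1 * 1 = 1
    ring
  emu := by
    show algebraMap ℂ (Hn LX) (1 / 2) * (-(2 * mo exL 0 1 1) * 0 + 0 * 1) + 1 * 0 = 0
    ring
  mumu := by
    show algebraMap ℂ (Hn LX) (1 / 2) * ((1 : Hn LX) * 0 + 0 * 1) + 0 * 0 = 0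
    ring

lemma x_eq (q : Hn LX) (i : Fin 3) : ptC exL q i =
    mo exL 1 0 1 * (![-(mo exL 0 1 1) ^ 2, 1, mo exL 0 1 1] : Fin 3 → Hn LX) i +
      0 * (![-(2 * mo exL 0 1 1), 0, 1] : Fin 3 → Hn LX) i +
      (mo exL (-1) 0 1 * q) * (![1, 0, 0] : Fin 3 → Hn LX) i := by
  fin_cases i
  · show ptC exL q 0 = mo exL 1 0 1 * -(mo exL 0 1 1) ^ 2 + 0 * -(2 * mo exL 0 1 1) +
      (mo exL (-1) 0 1 * q) * 1
    rw [x0_eq]
    ring
  · show ptC exL q 1 = mo exL 1 0 1 * 1 + 0 * 0 + (mo exL (-1) 0 1 * q) * 0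
    rw [x1_eq]
    ring
  · show ptC exL q 2 = mo exL 1 0 1 * mo exL 0 1 1 + 0 * 1 + (mo exL (-1) 0 1 * q) * 0
    rw [x2_eq]
    ring

end ItemD5

open ItemD5

theorem d5 (h1 : SC1) (h5 : SC5) : SD5 := by
  intro p hp q t ht2 ht0 hq hFT
  rcases eq_or_ne t (-1) with rfl | ht
  · have hv : v1 (mo exL (-1) 0 1 * q) = 0 := by
      rw [AddValuation.map_mul, (mo_lead exL (-1) 0 one_ne_zero).val1, hq]
      show ((lfst (il (-1, 0)) : ℚ) : WithTop ℚ) + ((-1 : ℚ) : WithTop ℚ) = _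
      rw [lfst_il, ← WithTop.coe_add]
      norm_num
    have := h5 p hp _ _ _ _ 0 (mo exL (-1) 0 1 * q) nf (mo_lead exL 0 1 one_ne_zero).ne_zero
      (map_zero _) hv.ge (ptC exL q) (x_eq q) hFT
    rw [hv] at this
    exact lt_irrefl _ this
  · have hE := v1_E hq ht
    have hF : (t : WithTop ℚ) ≤ v1 (algebraMap ℂ (Hn LX) (1 / 2) * exL.d2 q) := by
      rw [AddValuation.map_mul, v1_algebraMap (by norm_num), zero_add, ← hq]
      exact v1_hd _ q
    have hG : v1 ((mo exL 1 0 1 * mo exL 0 1 1) * (mo exL 1 0 1 * mo exL 0 1 1)) =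
        ((-2 : ℚ) : WithTop ℚ) := by
      rw [AddValuation.map_mul, v1_UT, ← WithTop.coe_add]
      norm_num
    have hEG : v1 ((exL.d1 q - q) * ((mo exL 1 0 1 * mo exL 0 1 1) *
        (mo exL 1 0 1 * mo exL 0 1 1))) = ((t + -2 : ℚ) : WithTop ℚ) := by
      rw [AddValuation.map_mul, hE, hG, WithTop.coe_add]
    have hF2 : ((t + -2 : ℚ) : WithTop ℚ) <
        v1 (-(algebraMap ℂ (Hn LX) (1 / 2) * exL.d2 q) ^ 2) := by
      rw [AddValuation.map_neg, pow_two, AddValuation.map_mul]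
      refine lt_of_lt_of_le ?_ (add_le_add hF hF)
      rw [← WithTop.coe_add, WithTop.coe_lt_coe]
      linarith
    have hdet : v1 (detN exL.d1 exL.d2 (ptC exL q)) = ((t + -2 : ℚ) : WithTop ℚ) := by
      rw [detN, E_eq, F_eq, G_eq, sub_eq_add_neg, AddValuation.map_add_eq_of_lt_left, hEG]
      rw [hEG]
      exact hF2
    refine h1 p hp (Hn LX) ℚ v1 exL.d1 exL.d2 vd (ptC exL q) ?_ ?_ ?_ hFT
    · rw [hdet, E_eq, hE, WithTop.coe_lt_coe]
      linarith
    · rw [hdet, F_eq]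
      refine lt_of_lt_of_le ?_ hF
      rw [WithTop.coe_lt_coe]
      linarith
    · rw [hdet, G_eq, hG, WithTop.coe_lt_coe]
      linarith

end Pool.Agent.Work.MP_157c12_gt

end

section

/-!
# Item E1: continuity of the smallest root weight
-/

namespace Pool.Agent.Work.MP_157c12_gt

namespace ItemE1

lemma wt_cont (A : Gq) : Continuous fun a : ℝ => wt a A := by
  unfold wt
  split_ifs with h
  · exact Continuous.finset_sup'_apply h fun e _ =>
      (continuous_const.mul continuous_id).add continuous_const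
  · exact continuous_const

end ItemE1

/-- Item E1. -/
theorem e1 : SE1 := by
  intro P
  unfold sm
  by_cases h : (P.support.erase 0).Nonempty
  · simp only [h, dif_pos]
    exact Continuous.finset_inf'_apply h fun i _ =>
      ((ItemE1.wt_cont _).sub (ItemE1.wt_cont _)).div_const _
  · simp only [h, dif_neg, not_false_eq_true]
    exact continuous_const

end Pool.Agent.Work.MP_157c12_gt

end

section

/-!
# Item E3: all roots have at least the smallest weight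
-/

set_option autoImplicit false

open MvPolynomial

namespace Pool.Agent.Work.MP_157c12_gt

namespace ItemE3

lemma nsmul_rA (j : ℕ) (g : ℝ) : j • rA g = rA (j * g) := by
  have h : (j • g : ℝ) = (j : ℝ) * g := nsmul_eq_mul j g
  exact h

/-- the valuation of the image is minus the weight -/
lemma wt_val (h5 : SB5) {a : ℝ} (ha : Irrational a) {A : Gq} (hA : A ≠ 0) :
    vv RA (Th (ia a) A) = ((rA (-wt a A) : RA) : WithTop RA) := by
  obtain ⟨e, he, hL, hmin⟩ := (h5 RA (exA ha) A).2.2 hA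
  rw [exA_io] at hL hmin
  have hne : A.coeff.support.Nonempty := ⟨e, he⟩
  have h1 : wt a A = (e.1 : ℝ) * a + e.2 := by
    unfold wt
    rw [dif_pos hne]
    refine le_antisymm ?_ ?_
    · refine Finset.sup'_le hne _ fun e' he' => ?_
      have h2 : (-((e.1 : ℝ) * a + e.2) : ℝ) ≤ (-((e'.1 : ℝ) * a + e'.2) : ℝ) := hmin e' he'
      linarith
    · exact Finset.le_sup' (fun e : ℚ × ℚ => (e.1 : ℝ) * a + e.2) he
  rw [hL.val, h1]
  rfl

end ItemE3

open ItemE3

/-- all roots have at least the smallest weight -/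
theorem e3 (h5 : SB5) : SE3 := by
  intro P hP a ha f hf
  by_contra hlt
  rw [not_le] at hlt
  have h0 : (0 : ℕ) ∈ P.support := Polynomial.mem_support_iff.mpr hP
  have hv0 := wt_val h5 ha hP
  have hev : (PT (ia a) P).eval f = Th (ia a) (P.coeff 0) +
      ∑ j ∈ P.support.erase 0, Th (ia a) (P.coeff j) * f ^ j := by
    unfold PT
    rw [Polynomial.eval_map, Polynomial.eval₂_eq_sum, Polynomial.sum_def,
      ← Finset.add_sum_erase _ _ h0, pow_zero, mul_one]
    rfl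
  have hterm : ∀ j ∈ P.support.erase 0,
      vv RA (Th (ia a) (P.coeff 0)) < vv RA (Th (ia a) (P.coeff j) * f ^ j) := by
    intro j hj
    have hj0 : j ≠ 0 := (Finset.mem_erase.mp hj).1
    have hPj : P.coeff j ≠ 0 := Polynomial.mem_support_iff.mp (Finset.mem_erase.mp hj).2
    rw [hv0]
    by_cases hf0 : f = 0
    · rw [hf0, zero_pow hj0, mul_zero, AddValuation.map_zero]
      exact WithTop.coe_lt_top _
    · obtain ⟨γ, c, hL⟩ := lead_exists hf0
      rw [AddValuation.map_mul, AddValuation.map_pow, wt_val h5 ha hPj, hL.val]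
      rw [hL.val] at hlt
      have hlt' : rA (-sm P a) < γ := by exact_mod_cast hlt
      obtain ⟨g, rfl⟩ : ∃ g : ℝ, rA g = γ := ⟨γ, rfl⟩
      have hlt2 : -sm P a < g := hlt'
      rw [← WithTop.coe_nsmul, nsmul_rA, ← WithTop.coe_add, ← rA_add]
      rw [WithTop.coe_lt_coe, rA_lt]
      have hsm : sm P a ≤ (wt a (P.coeff 0) - wt a (P.coeff j)) / j := by
        unfold sm
        rw [dif_pos ⟨j, hj⟩]
        exact Finset.inf'_le (fun i : ℕ => (wt a (P.coeff 0) - wt a (P.coeff i)) / i) hj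
      have hjp : (0 : ℝ) < j := by exact_mod_cast Nat.pos_of_ne_zero hj0
      rw [le_div_iff₀ hjp] at hsm
      nlinarith
  have hsum : vv RA (Th (ia a) (P.coeff 0)) <
      vv RA (∑ j ∈ P.support.erase 0, Th (ia a) (P.coeff j) * f ^ j) :=
    AddValuation.map_lt_sum _ (by rw [hv0]; exact WithTop.coe_ne_top) hterm
  rw [hev] at hf
  have h6 := eq_neg_of_add_eq_zero_left hf
  rw [← AddValuation.map_neg (vv RA) (∑ j ∈ P.support.erase 0, _), ← h6] at hsum
  exact lt_irrefl _ hsum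

end Pool.Agent.Work.MP_157c12_gt

end

section

/-!
# Item E4: the lexicographic root
-/

set_option autoImplicit false

open MvPolynomial Filter

namespace Pool.Agent.Work.MP_157c12_gt

namespace ItemE4

lemma ev_nonneg {x y : ℚ} (h : 0 < x ∨ (x = 0 ∧ 0 ≤ y)) :
    ∀ᶠ a : ℝ in atTop, (0 : ℝ) ≤ x * a + y := by
  rcases h with h | ⟨h, h'⟩
  · have hx : (0 : ℝ) < x := by exact_mod_cast h
    filter_upwards [eventually_ge_atTop (-(y : ℝ) / x)] with a ha
    rw [div_le_iff₀ hx] at ha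
    linarith
  · subst h
    refine Eventually.of_forall fun a => ?_
    have : (0 : ℝ) ≤ y := by exact_mod_cast h'
    simpa using this

lemma pos_of_ev {x y : ℚ} (h : ∀ᶠ a : ℝ in atTop, (0 : ℝ) < x * a + y) :
    0 < x ∨ (x = 0 ∧ 0 < y) := by
  by_contra hcon
  rw [not_or, not_lt, not_and, not_lt] at hcon
  obtain ⟨hx, hy⟩ := hcon
  have h2 : ∀ᶠ a : ℝ in atTop, (0 : ℝ) ≤ ((-x : ℚ) : ℝ) * a + ((-y : ℚ) : ℝ) := by
    rcases lt_or_eq_of_le hx with hx | hx
    · exact ev_nonneg (Or.inl (by linarith))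
    · exact ev_nonneg (Or.inr ⟨by linarith, by linarith [hy hx]⟩)
  obtain ⟨a, ha1, ha2⟩ := (h.and h2).exists
  push_cast at ha2
  linarith

lemma wt_le {A : Gq} {e : ℚ × ℚ} (he : e ∈ A.coeff.support)
    (hmin : ∀ e' ∈ A.coeff.support, il e ≤ il e') :
    ∀ᶠ a : ℝ in atTop, wt a A ≤ (e.1 : ℝ) * a + e.2 := by
  have h1 : ∀ e' ∈ A.coeff.support, ∀ᶠ a : ℝ in atTop,
      (e'.1 : ℝ) * a + e'.2 ≤ (e.1 : ℝ) * a + e.2 := by
    intro e' he'
    have h2 := LX_le.mp (hmin e' he')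
    have h3 : 0 < e.1 - e'.1 ∨ (e.1 - e'.1 = 0 ∧ 0 ≤ e.2 - e'.2) := by
      have e1 : lfst (il e) = -e.1 := rfl
      have e2 : lfst (il e') = -e'.1 := rfl
      have e3 : lsnd (il e) = -e.2 := rfl
      have e4 : lsnd (il e') = -e'.2 := rfl
      rw [e1, e2, e3, e4] at h2
      rcases h2 with h2 | ⟨h2, h2'⟩
      · left; linarith
      · right; exact ⟨by linarith, by linarith⟩
    filter_upwards [ev_nonneg h3] with a ha
    push_cast at ha
    linarith
  have h2 := (Filter.eventually_all_finset A.coeff.support).2 h1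
  filter_upwards [h2] with a ha
  unfold wt
  rw [dif_pos ⟨e, he⟩]
  exact Finset.sup'_le _ _ fun e' he' => ha e' he'

lemma le_wt {A : Gq} {e : ℚ × ℚ} (he : e ∈ A.coeff.support) (a : ℝ) :
    (e.1 : ℝ) * a + e.2 ≤ wt a A := by
  unfold wt
  rw [dif_pos ⟨e, he⟩]
  exact Finset.le_sup' (fun e : ℚ × ℚ => (e.1 : ℝ) * a + e.2) he

end ItemE4

open ItemE4

/-- the lexicographic root -/
theorem e4 (h1 : SB1) (h3 : SB3) (h5 : SB5) : SE4 := by
  intro P hP hdeg a0 l1 l2 hsm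
  haveI : IsAlgClosed (Hn LX) := h1 LX
  have hco : ∀ j, (PT il P).coeff j = Th il (P.coeff j) := by
    intro j; rw [PT, Polynomial.coeff_map]; rfl
  have hlead : ∀ A : Gq, A ≠ 0 → ∃ e ∈ A.coeff.support, vv LX (Th il A) = ((il e : LX) : WithTop LX)
      ∧ ∀ e' ∈ A.coeff.support, il e ≤ il e' := by
    intro A hA
    obtain ⟨e, he, hL, hmin⟩ := (h5 LX exL A).2.2 hA
    exact ⟨e, he, hL.val, hmin⟩
  have hTne : ∀ A : Gq, A ≠ 0 → Th il A ≠ 0 := by
    intro A hA h0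
    obtain ⟨e, _, hv, _⟩ := hlead A hA
    rw [h0, AddValuation.map_zero] at hv
    exact WithTop.coe_ne_top hv.symm
  have hP0 : P ≠ 0 := by rintro rfl; simp at hP
  have h0 : (PT il P).coeff 0 ≠ 0 := by rw [hco]; exact hTne _ hP
  have hdeg' : 1 ≤ (PT il P).natDegree := by
    refine le_trans hdeg (Polynomial.le_natDegree_of_ne_zero ?_)
    rw [hco]
    exact hTne _ (Polynomial.leadingCoeff_ne_zero.2 hP0)
  obtain ⟨r, hr, hr0, hall, _⟩ := h3 (Hn LX) LX (vv LX) (PT il P) h0 hdeg'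
  refine ⟨r, hr, ?_⟩
  obtain ⟨γ, c, hL⟩ := lead_exists hr0
  rw [hL.val]
  obtain ⟨e0, he0, hv0, hmin0⟩ := hlead _ hP
  have hne : (P.support.erase 0).Nonempty := by
    refine ⟨P.natDegree, Finset.mem_erase.2 ⟨by omega, ?_⟩⟩
    exact Polynomial.mem_support_iff.2 (Polynomial.leadingCoeff_ne_zero.2 hP0)
  have hterm : ∀ j ∈ P.support.erase 0, ∀ᶠ a : ℝ in atTop,
      -((lfst γ : ℝ) * a + lsnd γ) ≤ (wt a (P.coeff 0) - wt a (P.coeff j)) / j := by
    intro j hj
    have hj0 : j ≠ 0 := (Finset.mem_erase.mp hj).1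
    have hPj : P.coeff j ≠ 0 := Polynomial.mem_support_iff.mp (Finset.mem_erase.mp hj).2
    obtain ⟨e, he, hv, hmin⟩ := hlead _ hPj
    have h6 := hall j
    rw [hco, hco, AddValuation.map_mul, AddValuation.map_pow, hv0, hv, hL.val,
      ← WithTop.coe_nsmul, ← WithTop.coe_add, WithTop.coe_le_coe] at h6
    have h7 := LX_le.mp h6
    have e1 : lfst (il e0) = -e0.1 := rfl
    have e2 : lfst (il e + j • γ) = -e.1 + j * lfst γ := by
      rw [map_add, map_nsmul, nsmul_eq_mul]; rfl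
    have e3 : lsnd (il e0) = -e0.2 := rfl
    have e4 : lsnd (il e + j • γ) = -e.2 + j * lsnd γ := by
      rw [map_add, map_nsmul, nsmul_eq_mul]; rfl
    rw [e1, e2, e3, e4] at h7
    have h8 : 0 < e0.1 - e.1 + j * lfst γ ∨
        (e0.1 - e.1 + j * lfst γ = 0 ∧ 0 ≤ e0.2 - e.2 + j * lsnd γ) := by
      rcases h7 with h7 | ⟨h7, h7'⟩
      · left; linarith
      · right; exact ⟨by linarith, by linarith⟩
    have hjp : (0 : ℝ) < j := by exact_mod_cast Nat.pos_of_ne_zero hj0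
    filter_upwards [ev_nonneg h8, wt_le he hmin] with a ha1 ha2
    have ha3 := le_wt he0 a
    push_cast at ha1
    rw [le_div_iff₀ hjp]
    nlinarith
  have hall2 := (Filter.eventually_all_finset (P.support.erase 0)).2 hterm
  have hfin : ∀ᶠ a : ℝ in atTop, (0 : ℝ) < ((lfst γ + l1 : ℚ) : ℝ) * a + ((lsnd γ + l2 : ℚ) : ℝ) := by
    filter_upwards [hall2, eventually_ge_atTop a0] with a ha1 ha2
    have h9 := hsm a ha2
    have h10 : -((lfst γ : ℝ) * a + lsnd γ) ≤ sm P a := by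
      unfold sm
      rw [dif_pos hne]
      exact Finset.le_inf' _ _ fun j hj => ha1 j hj
    push_cast
    linarith
  have h11 := pos_of_ev hfin
  rw [WithTop.coe_lt_coe, LX_lt, lfst_il, lsnd_il]
  rcases h11 with h11 | ⟨h11, h12⟩
  · left; linarith
  · right; exact ⟨by linarith, by linarith⟩

end Pool.Agent.Work.MP_157c12_gt

end

section

/-!
# Item E5: real analysis
-/

open MvPolynomial

namespace Pool.Agent.Work.MP_157c12_gt

/-- Item E5. -/
theorem e5 : SE5 := by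
  intro s lo hi S hs hlt hS hirr
  have hcl : Set.Icc lo hi ⊆ closure (Set.Ioo lo hi ∩ {a | Irrational a}) := by
    have h1 : Set.Ioo lo hi ⊆ closure (Set.Ioo lo hi ∩ {a | Irrational a}) :=
      dense_irrational.open_subset_closure_inter isOpen_Ioo
    have h2 := closure_minimal h1 isClosed_closure
    rwa [closure_Ioo hlt.ne] at h2
  have hmem : ∀ a ∈ Set.Icc lo hi, s a ∈ S := by
    intro a ha
    have h1 := hcl ha
    have h2 : s '' (Set.Ioo lo hi ∩ {a | Irrational a}) ⊆ S := by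
      rintro _ ⟨b, ⟨hb1, hb2⟩, rfl⟩
      exact hirr b hb1.1 hb1.2 hb2
    have h3 : s a ∈ closure (s '' (Set.Ioo lo hi ∩ {a | Irrational a})) :=
      image_closure_subset_closure_image hs ⟨a, h1, rfl⟩
    exact hS.isClosed.closure_subset_iff.2 h2 h3
  have hpre : IsPreconnected (s '' Set.Icc lo hi) :=
    isPreconnected_Icc.image s hs.continuousOn
  have hsub : (s '' Set.Icc lo hi).Subsingleton := by
    by_contra hne
    rw [Set.not_subsingleton_iff] at hne
    refine hpre.infinite_of_nontrivial hne (hS.subset ?_)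
    rintro _ ⟨a, ha, rfl⟩
    exact hmem a ha
  have hlo : lo ∈ Set.Icc lo hi := ⟨le_rfl, hlt.le⟩
  refine ⟨s lo, hmem lo hlo, fun a h1 h2 => ?_⟩
  exact hsub ⟨a, ⟨h1, h2⟩, rfl⟩ ⟨lo, hlo, rfl⟩

end Pool.Agent.Work.MP_157c12_gt

end

section

/-!
# Item E6: evaluation at a root gives a point of the surface
-/

open MvPolynomial

namespace Pool.Agent.Work.MP_157c12_gt

theorem e6 : SE6 := by
  intro Γ _ _ _ ι S F f
  have h0 : ∀ P : Polynomial Gq, (PT ι P).eval f =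
      Polynomial.eval₂RingHom (Th ι).toRingHom f P := by
    intro P
    rw [PT, Polynomial.eval_map]
    rfl
  have h1 : ∀ P : Polynomial Gq, Polynomial.eval₂RingHom (Th ι).toRingHom f P = (PT ι P).eval f :=
    fun P => (h0 P).symm
  rw [h0]
  induction F using MvPolynomial.induction_on with
  | C a =>
    rw [← MvPolynomial.algebraMap_eq, AlgHom.commutes, AlgHom.commutes]
    have : algebraMap ℂ (Polynomial Gq) a = Polynomial.C (algebraMap ℂ Gq a) := rfl
    rw [this, Polynomial.coe_eval₂RingHom, Polynomial.eval₂_C]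
    exact (Th ι).commutes a
  | add p q hp hq =>
    rw [map_add, map_add, map_add, hp, hq]
  | mul_X p i hp =>
    rw [map_mul, map_mul, map_mul, hp, aeval_X, aeval_X, h1]

end Pool.Agent.Work.MP_157c12_gt

end

section

/-!
# Item F0: the frame polynomials are not degenerate
-/

open MvPolynomial

namespace Pool.Agent.Work.MP_157c12_gt

namespace ItemF0

lemma Th_gm {Γ : Type} [AddCommGroup Γ] [LinearOrder Γ] [IsOrderedAddMonoid Γ]
    (s : Expo Γ) (i j : ℚ) (c : ℂ) : Th s.io (gm i j c) = mo s i j c := Th_single s i j c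

lemma PT_aeval {Γ : Type} [AddCommGroup Γ] [LinearOrder Γ] [IsOrderedAddMonoid Γ]
    (ι : ℚ × ℚ →+ Γ) (S : Fin 3 → Polynomial Gq) (F : P3) :
    PT ι (aeval S F) = aeval (fun i => PT ι (S i)) F := by
  induction F using MvPolynomial.induction_on with
  | C a =>
    rw [MvPolynomial.aeval_C, MvPolynomial.aeval_C, PT, Polynomial.algebraMap_apply,
      Polynomial.map_C, Polynomial.algebraMap_apply]
    congr 1
    exact (Th ι).commutes a
  | add p q hp hq =>
    rw [map_add, map_add, ← hp, ← hq, PT, PT, PT, Polynomial.map_add]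
  | mul_X p n hp =>
    rw [map_mul, map_mul, ← hp, MvPolynomial.aeval_X, MvPolynomial.aeval_X, PT, PT, PT,
      Polynomial.map_mul]

/-- substitution of an affine polynomial for the first variable -/
lemma aeval_affine {H : Type} [Field H] [Algebra ℂ H] (a1 a2 : H) (q : Polynomial H) (F : P3) :
    aeval ![q, Polynomial.C a1, Polynomial.C a2] F =
      ((finSuccEquiv ℂ 2 F).map (aeval ![a1, a2] : MvPolynomial (Fin 2) ℂ →ₐ[ℂ] H).toRingHom).comp
        q := by
  induction F using MvPolynomial.induction_on with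
  | C a =>
    rw [MvPolynomial.aeval_C, finSuccEquiv_apply, eval₂Hom_C]
    simp
  | add p q hp hq =>
    rw [map_add, map_add, Polynomial.map_add, Polynomial.add_comp, hp, hq]
  | mul_X p n hp =>
    rw [map_mul, map_mul, Polynomial.map_mul, Polynomial.mul_comp, hp, MvPolynomial.aeval_X]
    congr 1
    refine Fin.cases ?_ (fun j => ?_) n
    · rw [finSuccEquiv_X_zero]
      simp
    · rw [finSuccEquiv_X_succ]
      fin_cases j
      · simp
      · simp

lemma natDegree_pos {H : Type} [Field H] [Algebra ℂ H] (a1 a2 u a0 : H) (hu : u ≠ 0)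
    (hi : ∀ r : MvPolynomial (Fin 2) ℂ, r ≠ 0 → aeval ![a1, a2] r ≠ 0) (F : P3)
    (hF : 1 ≤ F.degreeOf 0) :
    1 ≤ (aeval ![Polynomial.C u * Polynomial.X + Polynomial.C a0, Polynomial.C a1,
      Polynomial.C a2] F : Polynomial H).natDegree := by
  rw [aeval_affine, Polynomial.natDegree_comp, Polynomial.natDegree_map_eq_of_injective,
    natDegree_finSuccEquiv, Polynomial.natDegree_linear hu, mul_one]
  · exact hF
  · rw [injective_iff_map_eq_zero]
    intro r hr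
    by_contra h
    exact hi r h hr

lemma natDegree_PT {Γ : Type} [AddCommGroup Γ] [LinearOrder Γ] [IsOrderedAddMonoid Γ]
    (ι : ℚ × ℚ →+ Γ) (P : Polynomial Gq) (h : 1 ≤ (PT ι P).natDegree) : 1 ≤ P.natDegree :=
  h.trans Polynomial.natDegree_map_le

lemma coeff_PT {Γ : Type} [AddCommGroup Γ] [LinearOrder Γ] [IsOrderedAddMonoid Γ]
    (ι : ℚ × ℚ →+ Γ) (P : Polynomial Gq) (h : P.coeff 0 = 0) : (PT ι P).eval 0 = 0 := by
  rw [← Polynomial.coeff_zero_eq_eval_zero, PT, Polynomial.coeff_map, h, map_zero]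

lemma il_lt (i j i' j' : ℚ) (h : i' < i ∨ (i = i' ∧ j' < j)) : exL.io (i, j) < exL.io (i', j') := by
  show il (i, j) < il (i', j')
  rw [LX_lt, lfst_il, lfst_il, lsnd_il, lsnd_il]
  rcases h with h | ⟨h, h'⟩
  · left; linarith
  · right; exact ⟨by rw [h], by linarith⟩

/-- leading term of the last coordinate of the adapted frame -/
lemma lead_x2 (β : ℚ) (d : ℂ) (k : ℂ) (hd : d ≠ 0) :
    Lead (mo exL 0 1 k + mo exL 1 (-β - 1) d) (exL.io (1, -β - 1)) d := by
  rw [add_comm]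
  refine (mo_lead exL 1 (-β - 1) hd).add ?_
  by_cases hk : k = 0
  · have h0 : mo exL 0 1 k = 0 := by rw [hk, mo, HahnSeries.single_eq_zero]
    rw [h0, AddValuation.map_zero]
    exact WithTop.coe_lt_top _
  · rw [(mo_lead exL 0 1 hk).val]
    have := il_lt 1 (-β - 1) 0 1 (Or.inl (by norm_num))
    exact_mod_cast this

lemma indep_x (h6 : SB6) : ∀ r : MvPolynomial (Fin 2) ℂ, r ≠ 0 →
    aeval ![mo exL 1 0 1, mo exL 0 1 1] r ≠ 0 :=
  h6 LX exL _ _ (1, 0) (0, 1) 1 1 (mo_lead exL 1 0 one_ne_zero) (mo_lead exL 0 1 one_ne_zero)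
    (by norm_num)

lemma indep_c (h6 : SB6) : ∀ r : MvPolynomial (Fin 2) ℂ, r ≠ 0 →
    aeval ![mo exL 1 0 1, mo exL 1 1 1] r ≠ 0 :=
  h6 LX exL _ _ (1, 0) (1, 1) 1 1 (mo_lead exL 1 0 one_ne_zero) (mo_lead exL 1 1 one_ne_zero)
    (by norm_num)

lemma indep_a (h6 : SB6) (c : ℂ) (β : ℚ) (hc : c ≠ 0) (hβ : β ≠ 0) (hβ1 : -1 < β) :
    ∀ r : MvPolynomial (Fin 2) ℂ, r ≠ 0 →
    aeval ![mo exL 1 0 1, mo exL 0 1 1 + mo exL 1 (-β - 1) (β * c / 2)] r ≠ 0 := by
  have hd : (β : ℂ) * c / 2 ≠ 0 := by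
    have : (β : ℂ) ≠ 0 := by exact_mod_cast hβ
    exact div_ne_zero (mul_ne_zero this hc) two_ne_zero
  refine h6 LX exL _ _ (1, 0) (1, -β - 1) 1 _ (mo_lead exL 1 0 one_ne_zero)
    (lead_x2 β _ 1 hd) ?_
  show (1 : ℚ) * (-β - 1) - 0 * 1 ≠ 0
  intro h
  linarith

lemma x_point (h3 : SA3) (h6 : SB6) (p : Polynomial ℂ) (F : P3) (hG : Good p F) (κ : ℂ) :
    aeval (ptX exL κ 0) F ≠ 0 := by
  intro hF
  have hj : exL.d1 (ptX exL κ 0 1) * exL.d2 (ptX exL κ 0 2) -
      exL.d1 (ptX exL κ 0 2) * exL.d2 (ptX exL κ 0 1) ≠ 0 := by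
    show exL.d1 (mo exL 1 0 1) * exL.d2 (mo exL 0 1 1) -
      exL.d1 (mo exL 0 1 1) * exL.d2 (mo exL 1 0 1) ≠ 0
    simp only [mo_d1, mo_d2, mo_mul]
    have e1 : mo exL (0 + 1) (1 + 0) (((0 : ℚ) : ℂ) * 1 * (((0 : ℚ) : ℂ) * 1)) = 0 := by
      rw [mo]
      simp
    rw [e1, sub_zero]
    refine (mo_lead exL _ _ ?_).ne_zero
    norm_num
  obtain ⟨h, -⟩ := h3 p F hG (Hn LX) exL.d1 exL.d2 (ptX exL κ 0) (fun r => hd_comm _ _ r) hF
    (by
      have e : (fun i : Fin 2 => ptX exL κ 0 (Fin.succ i)) = ![mo exL 1 0 1, mo exL 0 1 1] := by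
        funext i
        fin_cases i <;> rfl
      rw [e]
      exact indep_x h6) hj
  apply h
  have a0 : exL.d1 (ptX exL κ 0 0) = 0 := by
    show exL.d1 (mo exL 0 0 κ + 0) = 0
    rw [add_zero, mo_d1, mo]
    simp
  have a2 : exL.d1 (ptX exL κ 0 2) = 0 := by
    show exL.d1 (mo exL 0 1 1) = 0
    rw [mo_d1, mo]
    simp
  have b0 : exL.d2 (ptX exL κ 0 0) = 0 := by
    show exL.d2 (mo exL 0 0 κ + 0) = 0
    rw [add_zero, mo_d2, mo]
    simp
  simp only [detN, nd, a0, a2, b0]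
  ring

lemma a_point (h3 : SA3) (h6 : SB6) (p : Polynomial ℂ) (F : P3) (hG : Good p F) (κ c : ℂ)
    (β : ℚ) (hc : c ≠ 0) (hβ : β ≠ 0) (hβ1 : -1 < β) :
    aeval (ptA exL κ c β 0) F ≠ 0 := by
  intro hF
  have hβc : (β : ℂ) ≠ 0 := by exact_mod_cast hβ
  have hβ1c : -(β : ℂ) - 1 ≠ 0 := by
    have : (-β - 1 : ℚ) ≠ 0 := by
      intro h
      linarith
    exact_mod_cast this
  have hd : (β : ℂ) * c / 2 ≠ 0 := div_ne_zero (mul_ne_zero hβc hc) two_ne_zero
  -- the derivatives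
  have d10 : exL.d1 (ptA exL κ c β 0 0) = -mo exL 1 (-2 * β - 2) (β ^ 2 * c ^ 2 / 4) := by
    show exL.d1 (mo exL 0 0 κ + mo exL 0 (-β) c - mo exL 1 (-2 * β - 2) (β ^ 2 * c ^ 2 / 4) + 0)
      = _
    rw [add_zero, map_sub, map_add, mo_d1, mo_d1, mo_d1]
    have e1 : mo exL 0 0 (((0 : ℚ) : ℂ) * κ) = 0 := by rw [mo]; simp
    have e2 : mo exL 0 (-β) (((0 : ℚ) : ℂ) * c) = 0 := by rw [mo]; simp
    rw [e1, e2]
    simp
  have d11 : exL.d1 (ptA exL κ c β 0 1) = mo exL 1 0 1 := by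
    show exL.d1 (mo exL 1 0 1) = _
    rw [mo_d1]
    simp
  have d12 : exL.d1 (ptA exL κ c β 0 2) = mo exL 1 (-β - 1) (β * c / 2) := by
    show exL.d1 (mo exL 0 1 1 + mo exL 1 (-β - 1) (β * c / 2)) = _
    rw [map_add, mo_d1, mo_d1]
    have e1 : mo exL 0 1 (((0 : ℚ) : ℂ) * 1) = 0 := by rw [mo]; simp
    rw [e1]
    simp
  have d21 : exL.d2 (ptA exL κ c β 0 1) = 0 := by
    show exL.d2 (mo exL 1 0 1) = _
    rw [mo_d2, mo]
    simp
  have d20 : exL.d2 (ptA exL κ c β 0 0) = mo exL 0 (-β) (-β * c) -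
      mo exL 1 (-2 * β - 2) ((-2 * β - 2) * (β ^ 2 * c ^ 2 / 4)) := by
    show exL.d2 (mo exL 0 0 κ + mo exL 0 (-β) c - mo exL 1 (-2 * β - 2) (β ^ 2 * c ^ 2 / 4) + 0)
      = _
    rw [add_zero, map_sub, map_add, mo_d2, mo_d2, mo_d2]
    have e1 : mo exL 0 0 (((0 : ℚ) : ℂ) * κ) = 0 := by rw [mo]; simp
    rw [e1]
    push_cast
    rw [zero_add]
  have d22 : exL.d2 (ptA exL κ c β 0 2) = mo exL 0 1 1 +
      mo exL 1 (-β - 1) ((-β - 1) * (β * c / 2)) := by
    show exL.d2 (mo exL 0 1 1 + mo exL 1 (-β - 1) (β * c / 2)) = _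
    rw [map_add, mo_d2, mo_d2]
    push_cast
    rw [one_mul]
  have hj : exL.d1 (ptA exL κ c β 0 1) * exL.d2 (ptA exL κ c β 0 2) -
      exL.d1 (ptA exL κ c β 0 2) * exL.d2 (ptA exL κ c β 0 1) ≠ 0 := by
    rw [d21, mul_zero, sub_zero, d11, d22]
    exact mul_ne_zero (mo_lead exL 1 0 one_ne_zero).ne_zero
      (lead_x2 β _ 1 (mul_ne_zero hβ1c hd)).ne_zero
  obtain ⟨h, -⟩ := h3 p F hG (Hn LX) exL.d1 exL.d2 (ptA exL κ c β 0) (fun r => hd_comm _ _ r) hF
    (by
      have e : (fun i : Fin 2 => ptA exL κ c β 0 (Fin.succ i)) =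
          ![mo exL 1 0 1, mo exL 0 1 1 + mo exL 1 (-β - 1) (β * c / 2)] := by
        funext i
        fin_cases i <;> rfl
      rw [e]
      exact indep_a h6 c β hc hβ hβ1) hj
  apply h
  have hmo : ∀ (i j : ℚ) (k : ℂ), mo exL i j k = algebraMap ℂ (Hn LX) k * mo exL i j 1 := by
    intro i j k
    rw [algebraMap_eq_mo exL, mo_mul, zero_add, zero_add, mul_one]
  have hP : mo exL 1 (-2 * β - 2) 1 * mo exL 1 0 1 = mo exL 1 (-β - 1) 1 ^ 2 := by
    rw [pow_two, mo_mul, mo_mul]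
    congr 1
    ring
  have hQ : mo exL 0 (-β) 1 * mo exL 1 0 1 = mo exL 1 (-β - 1) 1 * mo exL 0 1 1 := by
    rw [mo_mul, mo_mul]
    congr 1 <;> ring
  have : CharZero (Hn LX) :=
    charZero_of_injective_algebraMap (algebraMap ℂ (Hn LX)).injective
  have hE : nd exL.d1 exL.d1 (ptA exL κ c β 0) = 0 := by
    rw [nd, d10, d11, d12, hmo 1 (-2 * β - 2) (_ / 4), hmo 1 (-β - 1) (_ / 2)]
    simp only [map_mul, map_div₀, map_pow, map_one, map_ofNat]
    linear_combination (-(algebraMap ℂ (Hn LX) β ^ 2 * algebraMap ℂ (Hn LX) c ^ 2 / 4)) * hP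
  have hF' : nd exL.d1 exL.d2 (ptA exL κ c β 0) = 0 := by
    rw [nd, d10, d11, d12, d20, d21, d22, hmo 1 (-2 * β - 2) (_ / 4), hmo 1 (-β - 1) (_ / 2),
      hmo 0 (-β) (_ * _), hmo 1 (-2 * β - 2) (_ * (_ / 4)), hmo 1 (-β - 1) (_ * (_ / 2))]
    simp only [map_mul, map_div₀, map_pow, map_one, map_ofNat, map_sub, map_neg]
    linear_combination (-(algebraMap ℂ (Hn LX) β * algebraMap ℂ (Hn LX) c / 2)) * hQ +
      ((algebraMap ℂ (Hn LX) β + 1) * (algebraMap ℂ (Hn LX) β ^ 2 * algebraMap ℂ (Hn LX) c ^ 2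
        / 4)) * hP
  rw [detN, hE, hF']
  ring

lemma PT_C {Γ : Type} [AddCommGroup Γ] [LinearOrder Γ] [IsOrderedAddMonoid Γ]
    (ι : ℚ × ℚ →+ Γ) (A : Gq) : PT ι (Polynomial.C A) = Polynomial.C (Th ι A) :=
  Polynomial.map_C _

lemma PT_X {Γ : Type} [AddCommGroup Γ] [LinearOrder Γ] [IsOrderedAddMonoid Γ]
    (ι : ℚ × ℚ →+ Γ) : PT ι Polynomial.X = Polynomial.X := Polynomial.map_X _

lemma PT_add {Γ : Type} [AddCommGroup Γ] [LinearOrder Γ] [IsOrderedAddMonoid Γ]
    (ι : ℚ × ℚ →+ Γ) (P Q : Polynomial Gq) : PT ι (P + Q) = PT ι P + PT ι Q :=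
  Polynomial.map_add _

lemma PT_sub {Γ : Type} [AddCommGroup Γ] [LinearOrder Γ] [IsOrderedAddMonoid Γ]
    (ι : ℚ × ℚ →+ Γ) (P Q : Polynomial Gq) : PT ι (P - Q) = PT ι P - PT ι Q :=
  Polynomial.map_sub _

lemma PT_mul {Γ : Type} [AddCommGroup Γ] [LinearOrder Γ] [IsOrderedAddMonoid Γ]
    (ι : ℚ × ℚ →+ Γ) (P Q : Polynomial Gq) : PT ι (P * Q) = PT ι P * PT ι Q :=
  Polynomial.map_mul _

end ItemF0

theorem f0 (h3 : SA3) (h6 : SB6) (h5 : SB5) (he : SE6) : SF0 := by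
  intro p F hG
  refine ⟨?_, ?_, ?_⟩
  · intro κ h
    have h1 := ItemF0.coeff_PT exL.io _ h
    rw [xiP, he] at h1
    apply ItemF0.x_point h3 h6 p F hG κ
    have e : (fun i => (PT exL.io (![Polynomial.X + Polynomial.C (gm 0 0 κ),
        Polynomial.C (gm 1 0 1), Polynomial.C (gm 0 1 1)] i)).eval 0) = ptX exL κ 0 := by
      funext i
      fin_cases i
      · show (PT exL.io (Polynomial.X + Polynomial.C (gm 0 0 κ))).eval 0 = mo exL 0 0 κ + 0
        rw [ItemF0.PT_add, ItemF0.PT_X, ItemF0.PT_C, ItemF0.Th_gm]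
        simp
      · show (PT exL.io (Polynomial.C (gm 1 0 1))).eval 0 = mo exL 1 0 1
        rw [ItemF0.PT_C, ItemF0.Th_gm, Polynomial.eval_C]
      · show (PT exL.io (Polynomial.C (gm 0 1 1))).eval 0 = mo exL 0 1 1
        rw [ItemF0.PT_C, ItemF0.Th_gm, Polynomial.eval_C]
    rw [e] at h1
    exact h1
  · intro κ c β hc hβ hβ1 h
    have h1 := ItemF0.coeff_PT exL.io _ h
    rw [adP, he] at h1
    apply ItemF0.a_point h3 h6 p F hG κ c β hc hβ hβ1
    have e : (fun i => (PT exL.io (![Polynomial.X + Polynomial.C (gm 0 0 κ + gm 0 (-β) c -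
        gm 1 (-2 * β - 2) (β ^ 2 * c ^ 2 / 4)), Polynomial.C (gm 1 0 1),
        Polynomial.C (gm 0 1 1 + gm 1 (-β - 1) (β * c / 2))] i)).eval 0) =
        ptA exL κ c β 0 := by
      funext i
      fin_cases i
      · show (PT exL.io (Polynomial.X + Polynomial.C (gm 0 0 κ + gm 0 (-β) c -
          gm 1 (-2 * β - 2) (β ^ 2 * c ^ 2 / 4)))).eval 0 =
          mo exL 0 0 κ + mo exL 0 (-β) c - mo exL 1 (-2 * β - 2) (β ^ 2 * c ^ 2 / 4) + 0
        rw [ItemF0.PT_add, ItemF0.PT_X, ItemF0.PT_C, map_sub, map_add, ItemF0.Th_gm,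
          ItemF0.Th_gm, ItemF0.Th_gm]
        simp
      · show (PT exL.io (Polynomial.C (gm 1 0 1))).eval 0 = mo exL 1 0 1
        rw [ItemF0.PT_C, ItemF0.Th_gm, Polynomial.eval_C]
      · show (PT exL.io (Polynomial.C (gm 0 1 1 + gm 1 (-β - 1) (β * c / 2)))).eval 0 =
          mo exL 0 1 1 + mo exL 1 (-β - 1) (β * c / 2)
        rw [ItemF0.PT_C, map_add, ItemF0.Th_gm, ItemF0.Th_gm, Polynomial.eval_C]
    rw [e] at h1
    exact h1
  · intro hF
    refine ⟨?_, ?_, ?_⟩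
    · intro κ
      apply ItemF0.natDegree_PT exL.io
      rw [xiP, ItemF0.PT_aeval]
      have e : (fun i => PT exL.io (![Polynomial.X + Polynomial.C (gm 0 0 κ),
          Polynomial.C (gm 1 0 1), Polynomial.C (gm 0 1 1)] i)) =
          ![Polynomial.C 1 * Polynomial.X + Polynomial.C (mo exL 0 0 κ),
            Polynomial.C (mo exL 1 0 1), Polynomial.C (mo exL 0 1 1)] := by
        funext i
        fin_cases i
        · show PT exL.io (Polynomial.X + Polynomial.C (gm 0 0 κ)) = Polynomial.C 1 * Polynomial.X +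
            Polynomial.C (mo exL 0 0 κ)
          rw [ItemF0.PT_add, ItemF0.PT_X, ItemF0.PT_C, ItemF0.Th_gm, Polynomial.C_1, one_mul]
        · show PT exL.io (Polynomial.C (gm 1 0 1)) = Polynomial.C (mo exL 1 0 1)
          rw [ItemF0.PT_C, ItemF0.Th_gm]
        · show PT exL.io (Polynomial.C (gm 0 1 1)) = Polynomial.C (mo exL 0 1 1)
          rw [ItemF0.PT_C, ItemF0.Th_gm]
      rw [e]
      exact ItemF0.natDegree_pos _ _ 1 _ one_ne_zero (ItemF0.indep_x h6) F hF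
    · intro κ c β hc hβ hβ1
      apply ItemF0.natDegree_PT exL.io
      rw [adP, ItemF0.PT_aeval]
      have e : (fun i => PT exL.io (![Polynomial.X + Polynomial.C (gm 0 0 κ + gm 0 (-β) c -
          gm 1 (-2 * β - 2) (β ^ 2 * c ^ 2 / 4)), Polynomial.C (gm 1 0 1),
          Polynomial.C (gm 0 1 1 + gm 1 (-β - 1) (β * c / 2))] i)) =
          ![Polynomial.C 1 * Polynomial.X + Polynomial.C (mo exL 0 0 κ + mo exL 0 (-β) c -
              mo exL 1 (-2 * β - 2) (β ^ 2 * c ^ 2 / 4)),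
            Polynomial.C (mo exL 1 0 1),
            Polynomial.C (mo exL 0 1 1 + mo exL 1 (-β - 1) (β * c / 2))] := by
        funext i
        fin_cases i
        · show PT exL.io (Polynomial.X + Polynomial.C (gm 0 0 κ + gm 0 (-β) c -
            gm 1 (-2 * β - 2) (β ^ 2 * c ^ 2 / 4))) = Polynomial.C 1 * Polynomial.X +
            Polynomial.C (mo exL 0 0 κ + mo exL 0 (-β) c -
              mo exL 1 (-2 * β - 2) (β ^ 2 * c ^ 2 / 4))
          rw [ItemF0.PT_add, ItemF0.PT_X, ItemF0.PT_C, map_sub, map_add, ItemF0.Th_gm,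
            ItemF0.Th_gm, ItemF0.Th_gm, Polynomial.C_1, one_mul]
        · show PT exL.io (Polynomial.C (gm 1 0 1)) = Polynomial.C (mo exL 1 0 1)
          rw [ItemF0.PT_C, ItemF0.Th_gm]
        · show PT exL.io (Polynomial.C (gm 0 1 1 + gm 1 (-β - 1) (β * c / 2))) =
            Polynomial.C (mo exL 0 1 1 + mo exL 1 (-β - 1) (β * c / 2))
          rw [ItemF0.PT_C, map_add, ItemF0.Th_gm, ItemF0.Th_gm]
      rw [e]
      exact ItemF0.natDegree_pos _ _ 1 _ one_ne_zero (ItemF0.indep_a h6 c β hc hβ hβ1) F hF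
    · apply ItemF0.natDegree_PT exL.io
      rw [coP, ItemF0.PT_aeval]
      have e : (fun i => PT exL.io (![Polynomial.C (gm (-1) 0 1) * Polynomial.X -
          Polynomial.C (gm 1 2 1), Polynomial.C (gm 1 0 1), Polynomial.C (gm 1 1 1)] i)) =
          ![Polynomial.C (mo exL (-1) 0 1) * Polynomial.X + Polynomial.C (-mo exL 1 2 1),
            Polynomial.C (mo exL 1 0 1), Polynomial.C (mo exL 1 1 1)] := by
        funext i
        fin_cases i
        · show PT exL.io (Polynomial.C (gm (-1) 0 1) * Polynomial.X - Polynomial.C (gm 1 2 1)) =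
            Polynomial.C (mo exL (-1) 0 1) * Polynomial.X + Polynomial.C (-mo exL 1 2 1)
          rw [ItemF0.PT_sub, ItemF0.PT_mul, ItemF0.PT_X, ItemF0.PT_C, ItemF0.PT_C, ItemF0.Th_gm,
            ItemF0.Th_gm, Polynomial.C_neg]
          ring
        · show PT exL.io (Polynomial.C (gm 1 0 1)) = Polynomial.C (mo exL 1 0 1)
          rw [ItemF0.PT_C, ItemF0.Th_gm]
        · show PT exL.io (Polynomial.C (gm 1 1 1)) = Polynomial.C (mo exL 1 1 1)
          rw [ItemF0.PT_C, ItemF0.Th_gm]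
      rw [e]
      exact ItemF0.natDegree_pos _ _ _ _ (mo_lead exL (-1) 0 one_ne_zero).ne_zero
        (ItemF0.indep_c h6) F hF

end Pool.Agent.Work.MP_157c12_gt

end

section

/-!
# Item F1: Lemma B
-/

set_option autoImplicit false

open MvPolynomial

namespace Pool.Agent.Work.MP_157c12_gt

/-- Lemma B -/
theorem f1 (hE2 : SE2) (hF0 : SF0) (hFg : SFg) (hD1 : SD1) (hF1a : SF1a) (hF1b : SF1b) : SF1 := by
  intro p F hG hdeg κ a1 ε ha1 ha2 hε H
  obtain ⟨h0x, h0a, h0d⟩ := hF0 p F hG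
  obtain ⟨hdx, hda, -⟩ := h0d hdeg
  have hlt : max (a1 - ε) (a1 - 1) < a1 := max_lt (by linarith) (by linarith)
  obtain ⟨a, hirr, hlo, hhi⟩ := exists_irrational_btwn hlt
  have hlo1 : a1 - ε < a := lt_of_le_of_lt (le_max_left _ _) hlo
  have hlo2 : a1 - 1 < a := lt_of_le_of_lt (le_max_right _ _) hlo
  have hsm : sm (xiP κ F) a = 2 - a1 := H a hlo1.le hhi.le
  obtain ⟨S, T, hST⟩ := hE2 (xiP κ F) (h0x κ) (hdx κ)
  obtain ⟨⟨e1, e2⟩, -, c, -, f, hL, hev, hw⟩ := hST a hirr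
  rw [hsm] at hw
  have hw' : (e1 : ℝ) * a + e2 = 2 - a1 := hw
  by_cases he : e1 = 0
  · subst he
    have hb : ((-e2 : ℚ) : ℝ) = a1 - 2 := by
      push_cast
      have : ((0 : ℚ) : ℝ) * a + e2 = 2 - a1 := hw'
      rw [Rat.cast_zero, zero_mul, zero_add] at this
      linarith
    have hb0 : -e2 ≠ 0 := by
      intro h
      rw [h, Rat.cast_zero] at hb
      exact ha2 (by linarith)
    have hb1 : -1 < -e2 := by
      have : ((-1 : ℚ) : ℝ) < ((-e2 : ℚ) : ℝ) := by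
        rw [hb]
        push_cast
        linarith
      exact_mod_cast this
    have h1 : sm (adP κ c (-e2) F) a < -((-e2 : ℚ) : ℝ) := by
      refine hF1a F κ c (-e2) a f hirr hL.1 hb0 hb1 ?_ (h0x κ) (h0a κ c (-e2) hL.1 hb0 hb1)
        (hda κ c (-e2) hL.1 hb0 hb1) ?_ hev ?_
      · rw [hb]
        linarith
      · rw [neg_neg]
        exact hL
      · rw [hsm, hb]
        ring
    refine hF1b p F hG hdeg κ c (-e2) a hL.1 hb0 hb1 ?_ h1
    rw [hb]
    linarith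
  · have h1 : FTs p (exA hirr) (ptX (exA hirr) κ f) := by
      refine (hFg p F hG RA (exA hirr)).1 κ f ?_
      rw [exA_io]
      exact hev
    refine hD1 p hG.p0 RA (exA hirr) κ f (ia a (e1, e2)) c hL ?_ ?_ ?_ h1
    · rw [← exA_io hirr, (exA hirr).h1]
      exact_mod_cast he
    · rw [exA_io, ia_apply, ia_apply, ia_apply, ← rA_add, rA_lt]
      push_cast
      linarith
    · rw [exA_io, ia_apply, ia_apply, ← rA_add, ← rA_zero, rA_lt]
      push_cast
      linarith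

end Pool.Agent.Work.MP_157c12_gt

end

section

/-!
# Item F1b: the adapted path
-/

open MvPolynomial

namespace Pool.Agent.Work.MP_157c12_gt

theorem f1b (h1 : SE1) (h2 : SE2) (h4 : SE4) (h5 : SE5) (hf0 : SF0) (hfg : SFg)
    (hd3 : SD3) (hd4 : SD4) : SF1b := by
  intro p F hF hdeg κ c β a hc hβ0 hβ ha hlt
  obtain ⟨-, hA, hN⟩ := hf0 p F hF
  have hP0 : (adP κ c β F).coeff 0 ≠ 0 := hA κ c β hc hβ0 hβ
  have hPd : 1 ≤ (adP κ c β F).natDegree := (hN hdeg).2.1 κ c β hc hβ0 hβ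
  have hcont : Continuous (sm (adP κ c β F)) := h1 _
  by_cases hcase : ∀ t ≥ a, sm (adP κ c β F) t < -β
  · -- the lexicographic root
    obtain ⟨g, hg, hv⟩ := h4 (adP κ c β F) hP0 hPd a 0 (-β) (by
      intro t ht
      have := hcase t ht
      push_cast
      linarith)
    exact hd4 p hF.p0 κ c β g hc hβ0 hβ hv ((hfg p F hF LX exL).2.1 κ c β g hc hβ0 hβ hg)
  · push Not at hcase
    obtain ⟨t0, ht0, hst0⟩ := hcase
    -- the first point where the weight reaches `-β`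
    set A : Set ℝ := {t | a ≤ t ∧ (-β : ℝ) ≤ sm (adP κ c β F) t} with hAdef
    have hAne : A.Nonempty := ⟨t0, ht0, hst0⟩
    have hAbdd : BddBelow A := ⟨a, fun t ht => ht.1⟩
    have hAcl : IsClosed A := by
      have : A = Set.Ici a ∩ {t | (-β : ℝ) ≤ sm (adP κ c β F) t} := rfl
      rw [this]
      exact isClosed_Ici.inter (isClosed_le continuous_const hcont)
    obtain ⟨ha2, hs2⟩ := hAcl.csInf_mem hAne hAbdd
    set a2 := sInf A with ha2def
    have hbelow : ∀ t, a ≤ t → t < a2 → sm (adP κ c β F) t < -β := by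
      intro t ht hta
      by_contra hcon
      exact absurd (csInf_le hAbdd (⟨ht, not_lt.mp hcon⟩ : t ∈ A)) (not_le.mpr hta)
    have haa2 : a < a2 := by
      rcases eq_or_lt_of_le ha2 with h | h
      · rw [← h] at hs2
        exact absurd hlt (not_lt.mpr hs2)
      · exact h
    have hs2eq : sm (adP κ c β F) a2 = -β := by
      refine le_antisymm ?_ hs2
      by_contra hcon
      have hgt : (-β : ℝ) < sm (adP κ c β F) a2 := not_le.mp hcon
      have hev : ∀ᶠ t in nhds a2, (-β : ℝ) < sm (adP κ c β F) t :=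
        hcont.continuousAt.eventually_const_lt hgt
      obtain ⟨ε, hε, hball⟩ := Metric.eventually_nhds_iff.mp hev
      have h6 : a ≤ max a (a2 - ε / 2) := le_max_left _ _
      have h7 : max a (a2 - ε / 2) < a2 := max_lt haa2 (by linarith)
      have h8 := hbelow _ h6 h7
      have h9 : dist (max a (a2 - ε / 2)) a2 < ε := by
        rw [Real.dist_eq, abs_lt]
        have := le_max_right a (a2 - ε / 2)
        constructor <;> linarith
      have := hball h9
      linarith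
    -- near `a2` the sum `s t + t` is positive
    have hpos : 0 < sm (adP κ c β F) a2 + a2 := by
      rw [hs2eq]
      linarith
    have hev2 : ∀ᶠ t in nhds a2, 0 < sm (adP κ c β F) t + t :=
      (hcont.add continuous_id).continuousAt.eventually_const_lt hpos
    obtain ⟨ε, hε, hball⟩ := Metric.eventually_nhds_iff.mp hev2
    set lo := max a (a2 - ε / 2) with hlo
    have hlo1 : a ≤ lo := le_max_left _ _
    have hlo2 : lo < a2 := max_lt haa2 (by linarith)
    have hlo3 : ∀ t, lo < t → t < a2 → 0 < sm (adP κ c β F) t + t := by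
      intro t h10 h11
      apply hball
      rw [Real.dist_eq, abs_lt]
      have := le_max_right a (a2 - ε / 2)
      constructor <;> linarith
    obtain ⟨S, T, hST⟩ := h2 (adP κ c β F) hP0 hPd
    obtain ⟨v, hv, hconst⟩ := h5 (sm (adP κ c β F)) lo a2
      ((fun e : ℚ × ℚ => (e.2 : ℝ)) '' (S : Set (ℚ × ℚ))) hcont hlo2
      (S.finite_toSet.image _) (by
        intro t h10 h11 hirr
        obtain ⟨e, heS, c', -, f, hlead, hroot, hst⟩ := hST t hirr
        have hlt2 : sm (adP κ c β F) t < -β := hbelow t (hlo1.trans h10.le) h11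
        have hpos2 := hlo3 t h10 h11
        have he1 : e.1 = 0 := by
          by_contra hne
          have hFT : FTs p (exA hirr) (ptA (exA hirr) κ c β f) := by
            refine (hfg p F hF RA (exA hirr)).2.1 κ c β f hc hβ0 hβ ?_
            rw [exA_io]
            exact hroot
          have hγ : ia t e = rA (-(sm (adP κ c β F) t)) := by
            have : ia t e = rA (-((e.1 : ℝ) * t + e.2)) := ia_apply t e.1 e.2
            rw [this, hst]
          refine hd3 p hF.p0 t hirr κ c β f (ia t e) c' hc hβ0 hβ hlead ?_ ?_ ?_ hFT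
          · have := (exA hirr).h1 e
            rw [exA_io] at this
            rw [this]
            exact_mod_cast hne
          · rw [hγ, rA_lt]
            linarith
          · rw [hγ, rA_lt]
            linarith
        refine ⟨e, heS, ?_⟩
        rw [← hst, he1]
        push_cast
        ring)
    have h12 := hconst lo le_rfl hlo2.le
    have h13 := hconst a2 hlo2.le le_rfl
    have h14 := hbelow lo hlo1 hlo2
    rw [h12, ← h13, hs2eq] at h14
    exact lt_irrefl _ h14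

end Pool.Agent.Work.MP_157c12_gt

end

section

/-!
# Item F2: the path
-/

open MvPolynomial

namespace Pool.Agent.Work.MP_157c12_gt

namespace ItemF2

lemma Th_ne_zero (hB5 : SB5) {Γ : Type} [AddCommGroup Γ] [LinearOrder Γ] [IsOrderedAddMonoid Γ]
    (s : Expo Γ) {A : Gq} (hA : A ≠ 0) : Th s.io A ≠ 0 := by
  obtain ⟨e, he, hl, _⟩ := (hB5 Γ s A).2.2 hA
  exact hl.ne_zero

lemma root_ne_zero (hB5 : SB5) {Γ : Type} [AddCommGroup Γ] [LinearOrder Γ] [IsOrderedAddMonoid Γ]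
    (s : Expo Γ) {P : Polynomial Gq} (hP : P.coeff 0 ≠ 0) {f : Hn Γ}
    (hf : (PT s.io P).eval f = 0) : f ≠ 0 := by
  rintro rfl
  rw [← Polynomial.coeff_zero_eq_eval_zero, PT, Polynomial.coeff_map] at hf
  exact Th_ne_zero hB5 s hP hf

lemma caseA (hB5 : SB5) (hE4 : SE4) (hF0 : SF0) (hFg : SFg) (hD2 : SD2) (p : Polynomial ℂ)
    (F : P3) (hg : Good p F) (hd : 1 ≤ F.degreeOf 0) (κ : ℂ) (a0 : ℝ) :
    ¬ ∀ a ≥ a0, sm (xiP κ F) a + a < 2 := by
  intro h
  obtain ⟨hc0, _, hdeg⟩ := hF0 p F hg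
  obtain ⟨f, hf, hv⟩ := hE4 (xiP κ F) (hc0 κ) ((hdeg hd).1 κ) a0 (-1) 2 (by
    intro a ha
    have := h a ha
    push_cast
    linarith)
  have hf0 : f ≠ 0 := root_ne_zero hB5 exL (hc0 κ) hf
  obtain ⟨γ, c, hl⟩ := lead_exists hf0
  rw [hl.val] at hv
  have hv' : il (-1, 2) < γ := WithTop.coe_lt_coe.mp hv
  have h1 : il (0, 2) < γ + il (1, 0) := by
    have h2 : il (0, 2) = il (-1, 2) + il (1, 0) := by
      rw [← map_add]
      norm_num
    rw [h2]
    exact add_lt_add_of_lt_of_le hv' le_rfl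
  exact hD2 p hg.p0 κ f γ c hl h1 ((hFg p F hg LX exL).1 κ f hf)

/-- the first point where `S ≥ 2` -/
lemma firstPoint (S : ℝ → ℝ) (hS : Continuous S) (a0 : ℝ) (h0 : S a0 < 2)
    (h : ∃ a ≥ a0, 2 ≤ S a) : ∃ a1, a0 < a1 ∧ S a1 = 2 ∧ ∀ a, a0 ≤ a → a < a1 → S a < 2 := by
  obtain ⟨b, hb, hSb⟩ := h
  have hcl : IsClosed {a : ℝ | a0 ≤ a ∧ 2 ≤ S a} :=
    (isClosed_le continuous_const continuous_id).inter (isClosed_le continuous_const hS)
  have hne : {a : ℝ | a0 ≤ a ∧ 2 ≤ S a}.Nonempty := ⟨b, hb, hSb⟩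
  have hbd : BddBelow {a : ℝ | a0 ≤ a ∧ 2 ≤ S a} := ⟨a0, fun a ha => ha.1⟩
  have hmem := hcl.csInf_mem hne hbd
  set a1 := sInf {a : ℝ | a0 ≤ a ∧ 2 ≤ S a} with ha1
  have hlt : ∀ a, a0 ≤ a → a < a1 → S a < 2 := by
    intro a h1 h2
    by_contra h3
    exact absurd (csInf_le hbd ⟨h1, not_lt.mp h3⟩) (not_le.mpr h2)
  have hne1 : a0 ≠ a1 := by
    intro h1
    have := hmem.2
    rw [← h1] at this
    linarith
  have h01 : a0 < a1 := lt_of_le_of_ne hmem.1 hne1
  refine ⟨a1, h01, le_antisymm ?_ hmem.2, hlt⟩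
  have hcw : Filter.Tendsto S (nhdsWithin a1 (Set.Iio a1)) (nhds (S a1)) :=
    (hS.tendsto a1).mono_left nhdsWithin_le_nhds
  refine le_of_tendsto hcw ?_
  have : Set.Ioo a0 a1 ∈ nhdsWithin a1 (Set.Iio a1) := Ioo_mem_nhdsLT h01
  filter_upwards [this] with a ha
  exact (hlt a ha.1.le ha.2).le

lemma lemP (hB5 : SB5) (hE1 : SE1) (hE2 : SE2) (hE4 : SE4) (hE5 : SE5) (hF0 : SF0) (hFg : SFg)
    (hD1 : SD1) (hD2 : SD2) (hF1 : SF1) (p : Polynomial ℂ)
    (F : P3) (hg : Good p F) (hd : 1 ≤ F.degreeOf 0) (κ : ℂ) (a0 : ℝ) (ha0 : 1 ≤ a0)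
    (h : sm (xiP κ F) a0 + a0 < 2) :
    ∃ ε > 0, ∀ t, 2 - ε ≤ t → t ≤ 2 → sm (xiP κ F) t = 0 := by
  obtain ⟨hc0, _, hdeg⟩ := hF0 p F hg
  have hex : ∃ a ≥ a0, 2 ≤ sm (xiP κ F) a + a := by
    by_contra hcon
    push Not at hcon
    exact caseA hB5 hE4 hF0 hFg hD2 p F hg hd κ a0 hcon
  have hcont : Continuous (sm (xiP κ F)) := hE1 (xiP κ F)
  have hScont : Continuous fun a => sm (xiP κ F) a + a := hcont.add continuous_id
  obtain ⟨a1, h01, hS1, hlt⟩ := firstPoint (fun a => sm (xiP κ F) a + a) hScont a0 h hex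
  -- near `a1` the function is positive
  have hpos : ∀ᶠ t in nhds a1, 0 < sm (xiP κ F) t + t := by
    have h2 : (0 : ℝ) < (fun a => sm (xiP κ F) a + a) a1 := by
      show (0 : ℝ) < sm (xiP κ F) a1 + a1
      linarith
    exact hScont.continuousAt.eventually (lt_mem_nhds h2)
  obtain ⟨δ0, hδ0, hball⟩ := Metric.eventually_nhds_iff.mp hpos
  set δ := min (δ0 / 2) (a1 - a0) with hδ
  have hδpos : 0 < δ := lt_min (by linarith) (by linarith)
  have hδ1 : δ ≤ δ0 / 2 := min_le_left _ _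
  have hδ2 : δ ≤ a1 - a0 := min_le_right _ _
  obtain ⟨S, T, hST⟩ := hE2 (xiP κ F) (hc0 κ) ((hdeg hd).1 κ)
  have hfin : ∀ t, a1 - δ < t → t < a1 → Irrational t →
      sm (xiP κ F) t ∈ ((fun e : ℚ × ℚ => (e.2 : ℝ)) '' (S : Set (ℚ × ℚ))) := by
    intro t ht1 ht2 hirr
    obtain ⟨e, he, c, hc, f, hl, hroot, hes⟩ := hST t hirr
    have hSt : sm (xiP κ F) t + t < 2 := hlt t (by linarith) ht2
    have hSt0 : 0 < sm (xiP κ F) t + t := by
      apply hball
      rw [Real.dist_eq, abs_lt]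
      constructor <;> linarith
    by_cases he1 : e.1 = 0
    · refine ⟨e, he, ?_⟩
      show (e.2 : ℝ) = _
      rw [← hes, he1]
      push_cast
      ring
    · exfalso
      have hio := exA_io hirr
      have hl' : Lead f ((exA hirr).io e) c := by
        rw [hio]
        exact hl
      refine hD1 p hg.p0 RA (exA hirr) κ f ((exA hirr).io e) c hl' ?_ ?_ ?_
        ((hFg p F hg RA (exA hirr)).1 κ f ?_)
      · rw [(exA hirr).h1]
        exact_mod_cast he1
      · rw [hio]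
        have h1 : ia t (0, 2) = rA (-2) := by
          rw [ia_apply]
          push_cast
          congr 1
          ring
        have h2 : ia t e + ia t (1, 0) = rA (-(sm (xiP κ F) t + t)) := by
          have h3 : ia t e = rA (-(sm (xiP κ F) t)) := by
            rw [← hes]
            exact ia_apply t e.1 e.2
          have h4 : ia t (1, 0) = rA (-t) := by
            rw [ia_apply]
            push_cast
            congr 1
            ring
          rw [h3, h4, ← rA_add]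
          congr 1
          ring
        rw [h1, h2, rA_lt]
        linarith
      · rw [hio]
        have h2 : ia t e + ia t (1, 0) = rA (-(sm (xiP κ F) t + t)) := by
          have h3 : ia t e = rA (-(sm (xiP κ F) t)) := by
            rw [← hes]
            exact ia_apply t e.1 e.2
          have h4 : ia t (1, 0) = rA (-t) := by
            rw [ia_apply]
            push_cast
            congr 1
            ring
          rw [h3, h4, ← rA_add]
          congr 1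
          ring
        rw [h2, ← rA_zero, rA_lt]
        linarith
      · rw [hio]
        exact hroot
  obtain ⟨v, _, hv⟩ := hE5 (sm (xiP κ F)) (a1 - δ) a1 _ hcont (by linarith)
    (S.finite_toSet.image _) hfin
  have hv1 : v = 2 - a1 := by
    have h1 := hv a1 (by linarith) le_rfl
    have h2 : sm (xiP κ F) a1 + a1 = 2 := hS1
    linarith
  have ha1 : a1 = 2 := by
    by_contra hne
    refine hF1 p F hg hd κ a1 δ (by linarith) hne hδpos ?_
    intro a h1 h2
    rw [hv a h1 h2, hv1]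
  refine ⟨δ, hδpos, ?_⟩
  intro t h1 h2
  rw [hv t (by linarith) (by linarith), hv1, ha1]
  ring

lemma PT_X {Γ : Type} [AddCommGroup Γ] [LinearOrder Γ] [IsOrderedAddMonoid Γ] (s : Expo Γ)
    (κ : ℂ) (f : Hn Γ) : (PT s.io (Polynomial.X + Polynomial.C (gm 0 0 κ))).eval f =
      f + mo s 0 0 κ := by
  rw [PT, Polynomial.map_add, Polynomial.map_X, Polynomial.map_C, Polynomial.eval_add,
    Polynomial.eval_X, Polynomial.eval_C]
  congr 1
  exact Th_single s 0 0 κ

/-- moving a root -/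
lemma shift (hE6 : SE6) {Γ : Type} [AddCommGroup Γ] [LinearOrder Γ] [IsOrderedAddMonoid Γ]
    (s : Expo Γ) (F : P3) (κ c : ℂ) (f : Hn Γ) (h : (PT s.io (xiP κ F)).eval f = 0) :
    (PT s.io (xiP (κ + c) F)).eval (f - mo s 0 0 c) = 0 := by
  rw [xiP, hE6] at h
  rw [xiP, hE6, ← h]
  congr 2
  funext i
  fin_cases i
  · show (PT s.io (Polynomial.X + Polynomial.C (gm 0 0 (κ + c)))).eval (f - mo s 0 0 c) =
      (PT s.io (Polynomial.X + Polynomial.C (gm 0 0 κ))).eval f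
    rw [PT_X, PT_X, mo_add]
    ring
  · show (PT s.io (Polynomial.C (gm 1 0 1))).eval (f - mo s 0 0 c) =
      (PT s.io (Polynomial.C (gm 1 0 1))).eval f
    simp [PT]
  · show (PT s.io (Polynomial.C (gm 0 1 1))).eval (f - mo s 0 0 c) =
      (PT s.io (Polynomial.C (gm 0 1 1))).eval f
    simp [PT]

/-- subtracting the leading term -/
lemma sub_lead {Γ : Type} [AddCommGroup Γ] [LinearOrder Γ] [IsOrderedAddMonoid Γ]
    (s : Expo Γ) {f : Hn Γ} {c : ℂ} (h : Lead f 0 c) :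
    (0 : WithTop Γ) < vv Γ (f - mo s 0 0 c) := by
  by_cases h0 : f - mo s 0 0 c = 0
  · rw [h0]
    simp
  · obtain ⟨γ, d, hl⟩ := lead_exists h0
    have hio : s.io ((0 : ℚ), (0 : ℚ)) = 0 := s.io.map_zero
    rw [hl.val]
    have hγ : 0 < γ := by
      by_contra hneg
      rcases lt_or_eq_of_le (not_lt.mp hneg) with h1 | h1
      · have h2 : (f - mo s 0 0 c).coeff γ = 0 := by
          rw [HahnSeries.coeff_sub, h.2.2 γ h1, mo, hio, HahnSeries.coeff_single_of_ne (ne_of_lt h1),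
            sub_zero]
        exact hl.1 (hl.2.1.symm.trans h2)
      · have h2 : (f - mo s 0 0 c).coeff γ = 0 := by
          rw [h1, HahnSeries.coeff_sub, h.2.1, mo, hio, HahnSeries.coeff_single_same, sub_self]
        exact hl.1 (hl.2.1.symm.trans h2)
    exact_mod_cast hγ

lemma freq_irr : ∃ᶠ t in nhdsWithin (2 : ℝ) (Set.Iio 2), Irrational t := by
  rw [Filter.frequently_iff]
  intro U hU
  obtain ⟨l, hl, hlU⟩ := (mem_nhdsLT_iff_exists_Ioo_subset (a := (2 : ℝ))).mp hU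
  obtain ⟨t, ht, h1, h2⟩ := exists_irrational_btwn (show l < 2 from hl)
  exact ⟨t, hlU ⟨h1, h2⟩, ht⟩

end ItemF2

open ItemF2 in
theorem f2 (hB5 : SB5) (hE1 : SE1) (hE2 : SE2) (hE3 : SE3) (hE4 : SE4) (hE5 : SE5) (hE6 : SE6)
    (hF0 : SF0) (hFg : SFg) (hD1 : SD1) (hD2 : SD2) (hF1 : SF1) : SF2 := by
  intro p F hg hd κ a0 ha0 h
  obtain ⟨hc0, _, hdeg⟩ := hF0 p F hg
  obtain ⟨ε, hε, hzero⟩ := lemP hB5 hE1 hE2 hE4 hE5 hF0 hFg hD1 hD2 hF1 p F hg hd κ a0 ha0 h
  obtain ⟨S, T, hST⟩ := hE2 (xiP κ F) (hc0 κ) ((hdeg hd).1 κ)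
  -- for irrational slopes near `2` one of the shifted polynomials has negative root weight
  have key : ∀ t, 2 - ε < t → t < 2 → Irrational t → ∃ c ∈ T, sm (xiP (κ + c) F) t < 0 := by
    intro t ht1 ht2 hirr
    obtain ⟨e, he, c, hc, f, hl, hroot, hes⟩ := hST t hirr
    rw [hzero t ht1.le ht2.le] at hes
    have hio := exA_io hirr
    have he0 : ia t e = 0 := by
      have h1 : ia t e = rA (-((e.1 : ℝ) * t + e.2)) := ia_apply t e.1 e.2
      rw [h1, hes, neg_zero]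
      rfl
    rw [he0] at hl
    refine ⟨c, hc, ?_⟩
    have hroot' : (PT (exA hirr).io (xiP κ F)).eval f = 0 := by
      rw [hio]
      exact hroot
    have h1 := shift hE6 (exA hirr) F κ c f hroot'
    rw [hio] at h1
    have h2 := hE3 (xiP (κ + c) F) (hc0 _) t hirr _ h1
    have h3 := lt_of_lt_of_le (sub_lead (exA hirr) hl) h2
    have h4 : (0 : RA) < rA (-sm (xiP (κ + c) F) t) := by exact_mod_cast h3
    rw [← rA_zero, rA_lt] at h4
    linarith
  -- one value of `c` serves for slopes arbitrarily near `2`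
  have hex : ∃ c ∈ T, ∃ᶠ t in nhdsWithin (2 : ℝ) (Set.Iio 2), sm (xiP (κ + c) F) t < 0 := by
    by_contra hcon
    push Not at hcon
    have h1 : ∀ c ∈ T, ∀ᶠ t in nhdsWithin (2 : ℝ) (Set.Iio 2), ¬ sm (xiP (κ + c) F) t < 0 := by
      intro c hc
      have := hcon c hc
      filter_upwards [this] with t ht
      exact not_lt.mpr ht
    have h2 := (Filter.eventually_all_finset T).mpr h1
    have h3 : Set.Ioo (2 - ε) 2 ∈ nhdsWithin (2 : ℝ) (Set.Iio 2) :=
      Ioo_mem_nhdsLT (by linarith)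
    have h4 := freq_irr.and_eventually (h2.and h3)
    obtain ⟨t, hirr, hnot, hmem⟩ := h4.exists
    obtain ⟨c, hc, hlt⟩ := key t hmem.1 hmem.2 hirr
    exact hnot c hc hlt
  obtain ⟨c, hc, hfr⟩ := hex
  have h3 : Set.Ioo (1 : ℝ) 2 ∈ nhdsWithin (2 : ℝ) (Set.Iio 2) := Ioo_mem_nhdsLT (by norm_num)
  obtain ⟨t, hlt, hmem⟩ := (hfr.and_eventually h3).exists
  obtain ⟨ε', hε', hzero'⟩ := lemP hB5 hE1 hE2 hE4 hE5 hF0 hFg hD1 hD2 hF1 p F hg hd (κ + c) t
    hmem.1.le (by have := hmem.2; linarith)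
  have h5 : Set.Ioo (2 - ε') 2 ∈ nhdsWithin (2 : ℝ) (Set.Iio 2) := Ioo_mem_nhdsLT (by linarith)
  obtain ⟨t', hlt', hmem'⟩ := (hfr.and_eventually h5).exists
  rw [hzero' t' hmem'.1.le hmem'.2.le] at hlt'
  exact lt_irrefl _ hlt'

end Pool.Agent.Work.MP_157c12_gt

end

section

/-!
# Item F3: `X 0` does not divide the top form
-/

open MvPolynomial

namespace Pool.Agent.Work.MP_157c12_gt

namespace ItemF3

theorem gm_mul (i j k l : ℚ) (c d : ℂ) : gm i j c * gm k l d = gm (i + k) (j + l) (c * d) := by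
  unfold gm
  rw [AddMonoidAlgebra.single_mul_single]
  rfl

theorem gm_one : gm 0 0 1 = 1 := rfl

theorem gm_pow (i j : ℚ) (n : ℕ) : gm i j 1 ^ n = gm (n * i) (n * j) 1 := by
  induction n with
  | zero => simp [gm_one]
  | succ n ih =>
    rw [pow_succ, ih, gm_mul]
    congr 1
    · push_cast; ring
    · push_cast; ring
    · ring

theorem gm_zero (i j : ℚ) : gm i j 0 = 0 := by
  unfold gm
  simp

theorem coeff_xiP (F : P3) (i : ℕ) : (xiP 0 F).coeff i =
    ∑ m ∈ F.support, if m 0 = i then gm (m 1) (m 2) (coeff m F) else 0 := by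
  unfold xiP
  rw [aeval_def, eval₂_eq', Polynomial.finsetSum_coeff]
  refine Finset.sum_congr rfl fun m _ => ?_
  rw [Fin.prod_univ_three]
  simp only [Matrix.cons_val_zero, Matrix.cons_val_one, Matrix.cons_val]
  rw [gm_zero, Polynomial.C_0, add_zero]
  have h1 : (algebraMap ℂ (Polynomial Gq)) (coeff m F) = Polynomial.C (gm 0 0 (coeff m F)) := rfl
  rw [h1, ← Polynomial.C_pow, ← Polynomial.C_pow, gm_pow, gm_pow]
  have h2 : Polynomial.C (gm 0 0 (coeff m F)) *
      (Polynomial.X ^ m 0 * Polynomial.C (gm (m 1 * 1) (m 1 * 0) 1) *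
        Polynomial.C (gm (m 2 * 0) (m 2 * 1) 1)) =
      Polynomial.C (gm (m 1) (m 2) (coeff m F)) * Polynomial.X ^ m 0 := by
    have h3 : gm (m 1) (m 2) (coeff m F) =
        gm 0 0 (coeff m F) * (gm (m 1 * 1) (m 1 * 0) 1 * gm (m 2 * 0) (m 2 * 1) 1) := by
      rw [gm_mul, gm_mul]
      congr 1
      · ring
      · ring
      · ring
    rw [h3, Polynomial.C_mul, Polynomial.C_mul]
    ring
  rw [h2, Polynomial.coeff_C_mul_X_pow]
  simp only [eq_comm]

theorem coeff_coeff_xiP (F : P3) (i : ℕ) (e : ℚ × ℚ) : ((xiP 0 F).coeff i).coeff e =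
    ∑ m ∈ F.support, if m 0 = i ∧ ((m 1 : ℚ), (m 2 : ℚ)) = e then coeff m F else 0 := by
  rw [coeff_xiP]
  have h : ∀ (s : Finset (Fin 3 →₀ ℕ)) (f : (Fin 3 →₀ ℕ) → Gq),
      (∑ m ∈ s, f m).coeff e = ∑ m ∈ s, (f m).coeff e := by
    intro s f
    classical
    induction s using Finset.induction_on with
    | empty => simp
    | insert a s ha ih =>
      rw [Finset.sum_insert ha, Finset.sum_insert ha, ← ih]
      rfl
  rw [h]
  refine Finset.sum_congr rfl fun m _ => ?_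
  by_cases h1 : m 0 = i
  · rw [if_pos h1]
    by_cases h2 : ((m 1 : ℚ), (m 2 : ℚ)) = e
    · rw [if_pos ⟨h1, h2⟩, ← h2]
      simp [gm]
    · rw [if_neg (fun h => h2 h.2)]
      simp [gm, h2]
  · rw [if_neg h1, if_neg (fun h => h1 h.1)]
    rfl

theorem exp_eq (m m' : Fin 3 →₀ ℕ) (h0 : m 0 = m' 0) (h1 : ((m 1 : ℚ), (m 2 : ℚ)) = ((m' 1 : ℚ), (m' 2 : ℚ))) :
    m = m' := by
  rw [Prod.ext_iff] at h1
  obtain ⟨h1, h2⟩ := h1
  have h3 : (m 1 : ℚ) = (m' 1 : ℚ) := h1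
  have h4 : (m 2 : ℚ) = (m' 2 : ℚ) := h2
  have h1' : m 1 = m' 1 := by exact_mod_cast h3
  have h2' : m 2 = m' 2 := by exact_mod_cast h4
  ext i
  fin_cases i
  · exact h0
  · exact h1'
  · exact h2'

theorem coeff_mono (F : P3) (m : Fin 3 →₀ ℕ) :
    ((xiP 0 F).coeff (m 0)).coeff (m 1, m 2) = coeff m F := by
  rw [coeff_coeff_xiP]
  by_cases hm : m ∈ F.support
  · rw [Finset.sum_eq_single m]
    · simp
    · intro m' _ hne
      rw [if_neg]
      rintro ⟨h0, h1⟩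
      exact hne (exp_eq m' m h0 h1)
    · intro h
      exact absurd hm h
  · rw [notMem_support_iff.1 hm]
    refine Finset.sum_eq_zero fun m' hm' => ?_
    rw [if_neg]
    rintro ⟨h0, h1⟩
    rw [exp_eq m' m h0 h1] at hm'
    exact hm hm'

theorem exists_mono (F : P3) (i : ℕ) (e : ℚ × ℚ) (h : ((xiP 0 F).coeff i).coeff e ≠ 0) :
    ∃ m ∈ F.support, m 0 = i ∧ ((m 1 : ℚ), (m 2 : ℚ)) = e := by
  rw [coeff_coeff_xiP] at h
  obtain ⟨m, hm, hne⟩ := Finset.exists_ne_zero_of_sum_ne_zero h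
  by_cases hc : m 0 = i ∧ ((m 1 : ℚ), (m 2 : ℚ)) = e
  · exact ⟨m, hm, hc⟩
  · rw [if_neg hc] at hne
    exact absurd rfl hne

theorem deg_eq (m : Fin 3 →₀ ℕ) : m.degree = m 0 + m 1 + m 2 := by
  rw [Finsupp.degree_eq_sum, Fin.sum_univ_three]

end ItemF3

open ItemF3 in
theorem f3 (h0 : SF0) (h2 : SF2) : SF3 := by
  intro p F hF hdvd
  have hF0 : F ≠ 0 := hF.irr.ne_zero
  set d := F.totalDegree with hd
  have htop0 : top F ≠ 0 := by
    intro h
    have h1 : homogeneousComponent F.totalDegree F = 0 := h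
    obtain ⟨m, hm, hmd⟩ : ∃ m ∈ F.support, m.degree = F.totalDegree := by
      have hne : F.support.Nonempty := by
        rwa [support_nonempty]
      obtain ⟨m, hm, hmax⟩ := Finset.exists_mem_eq_sup F.support hne (fun m => m.degree)
      refine ⟨m, hm, ?_⟩
      rw [← hmax]
      rfl
    have h3 : coeff m (homogeneousComponent F.totalDegree F) = coeff m F := by
      rw [coeff_homogeneousComponent, if_pos hmd]
    rw [h1, coeff_zero] at h3
    exact (mem_support_iff.1 hm) h3.symm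
  -- the monomials of the top form
  have htm : ∀ m, coeff m F ≠ 0 → m.degree = d → 1 ≤ m 0 := by
    intro m hm hmd
    have h3 : coeff m (top F) ≠ 0 := by
      unfold top
      rw [coeff_homogeneousComponent, if_pos hmd]
      exact hm
    by_contra hlt
    have hm0 : m 0 = 0 := by omega
    rw [X_dvd_iff_modMonomial_eq_zero] at hdvd
    have h4 := congrArg (coeff m) hdvd
    rw [coeff_modMonomial_of_not_le _ (by
      intro hle
      have := hle 0
      simp [hm0] at this), coeff_zero] at h4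
    exact h3 h4
  obtain ⟨M, hM⟩ := ne_zero_iff.1 htop0
  have hMd : M.degree = d ∧ coeff M F ≠ 0 := by
    unfold top at hM
    rw [coeff_homogeneousComponent] at hM
    split_ifs at hM with h
    · exact ⟨h, hM⟩
    · exact absurd rfl hM
  have hM1 : 1 ≤ M 0 := htm M hMd.2 hMd.1
  have hdeg : 1 ≤ F.degreeOf 0 := by
    have := monomial_le_degreeOf 0 (mem_support_iff.2 hMd.2)
    omega
  apply h2 p F hF hdeg 0 1 le_rfl
  have hA0 := (h0 p F hF).1 0
  -- weight of A_0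
  have hw0 : wt 1 ((xiP 0 F).coeff 0) ≤ (d : ℝ) - 1 := by
    have hne : ((xiP 0 F).coeff 0).coeff.support.Nonempty := by
      rw [Finsupp.support_nonempty_iff]
      intro h
      apply hA0
      ext e
      rw [h]
      rfl
    unfold wt
    rw [dif_pos hne, Finset.sup'_le_iff]
    intro e he
    rw [Finsupp.mem_support_iff] at he
    obtain ⟨m, hm, hm0, hme⟩ := exists_mono F 0 e he
    rw [← hme]
    have hle : m.degree ≤ d := le_totalDegree hm
    have hlt : m.degree ≠ d := by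
      intro h
      have := htm m (mem_support_iff.1 hm) h
      omega
    have h5 : m 1 + m 2 + 1 ≤ d := by
      have := deg_eq m
      omega
    have h6 : ((m 1 : ℝ) + m 2 + 1) ≤ d := by exact_mod_cast h5
    push_cast
    linarith
  -- weight of A_i
  have hAi : ((xiP 0 F).coeff (M 0)).coeff (M 1, M 2) ≠ 0 := by
    rw [coeff_mono]
    exact hMd.2
  have hwi : (d : ℝ) - M 0 ≤ wt 1 ((xiP 0 F).coeff (M 0)) := by
    have hmem : ((M 1 : ℚ), (M 2 : ℚ)) ∈ ((xiP 0 F).coeff (M 0)).coeff.support :=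
      Finsupp.mem_support_iff.2 hAi
    unfold wt
    rw [dif_pos ⟨_, hmem⟩]
    refine le_trans ?_ (Finset.le_sup' (fun e : ℚ × ℚ => (e.1 : ℝ) * 1 + e.2) hmem)
    have h5 : d = M 0 + M 1 + M 2 := by
      rw [← hMd.1, deg_eq]
    have h6 : (d : ℝ) = M 0 + M 1 + M 2 := by exact_mod_cast h5
    push_cast
    rw [h6]
    linarith
  have hsupp : M 0 ∈ (xiP 0 F).support.erase 0 := by
    rw [Finset.mem_erase, Polynomial.mem_support_iff]
    refine ⟨by omega, ?_⟩
    intro h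
    rw [h] at hAi
    exact hAi rfl
  have hsm : sm (xiP 0 F) 1 ≤ (wt 1 ((xiP 0 F).coeff 0) - wt 1 ((xiP 0 F).coeff (M 0))) / (M 0 : ℕ) := by
    unfold sm
    rw [dif_pos ⟨_, hsupp⟩]
    exact Finset.inf'_le (fun i : ℕ => (wt 1 ((xiP 0 F).coeff 0) - wt 1 ((xiP 0 F).coeff i)) / (i : ℝ)) hsupp
  have hpos : (0 : ℝ) < (M 0 : ℕ) := by exact_mod_cast hM1
  have hlt : (wt 1 ((xiP 0 F).coeff 0) - wt 1 ((xiP 0 F).coeff (M 0))) / ((M 0 : ℕ) : ℝ) < 1 := by
    rw [div_lt_one hpos]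
    linarith
  linarith

end Pool.Agent.Work.MP_157c12_gt

end

section

/-!
# Item Fg: the points of the frames are generic
-/

open MvPolynomial

namespace Pool.Agent.Work.MP_157c12_gt

namespace ItemFg

variable {Γ : Type} [AddCommGroup Γ] [LinearOrder Γ] [IsOrderedAddMonoid Γ]

lemma mo_zero (s : Expo Γ) (i j : ℚ) : mo s i j 0 = 0 := by
  simp [mo]

lemma mo_ne (s : Expo Γ) (i j : ℚ) {c : ℂ} (hc : c ≠ 0) : mo s i j c ≠ 0 :=
  (mo_lead s i j hc).ne_zero

lemma Th_gm (s : Expo Γ) (i j : ℚ) (c : ℂ) : Th s.io (gm i j c) = mo s i j c :=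
  Th_single s i j c

/-- The common part of the three cases. -/
lemma key (h3 : SA3) (h6 : SB6) (p : Polynomial ℂ) (F : P3) (hF : Good p F) (s : Expo Γ)
    (x : Fin 3 → Hn Γ) (hx : aeval x F = 0) (e1 e2 : ℚ × ℚ) (c1 c2 : ℂ)
    (l1 : Lead (x 1) (s.io e1) c1) (l2 : Lead (x 2) (s.io e2) c2)
    (he : e1.1 * e2.2 - e1.2 * e2.1 ≠ 0)
    (hj : s.d1 (x 1) * s.d2 (x 2) - s.d1 (x 2) * s.d2 (x 1) ≠ 0) : FTs p s x := by
  have h := h3 p F hF (Hn Γ) s.d1 s.d2 x (hd_comm _ _) hx (by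
    intro r hr
    have h7 := h6 Γ s (x 1) (x 2) e1 e2 c1 c2 l1 l2 he r hr
    have h8 : (fun i : Fin 2 => x (Fin.succ i)) = ![x 1, x 2] := by
      funext i
      fin_cases i <;> rfl
    rw [h8]
    exact h7) hj
  exact h.2

lemma aux2 (s : Expo Γ) (β : ℚ) {d : ℂ} (hd : d ≠ 0) (hβ : -1 < β) :
    mo s 0 1 1 + mo s 1 (-β - 1) d ≠ 0 ∧
    ∃ (e : ℚ × ℚ) (c : ℂ), Lead (mo s 0 1 1 + mo s 1 (-β - 1) d) (s.io e) c ∧
      (1 : ℚ) * e.2 - 0 * e.1 ≠ 0 := by
  have hne : s.io ((0 : ℚ), (1 : ℚ)) ≠ s.io ((1 : ℚ), -β - 1) := by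
    intro h
    have := congrArg Prod.fst (s.inj h)
    simp at this
  have h1 : Lead (mo s 0 1 1) (s.io ((0 : ℚ), (1 : ℚ))) 1 := mo_lead s 0 1 one_ne_zero
  have h2 : Lead (mo s 1 (-β - 1) d) (s.io ((1 : ℚ), -β - 1)) d := mo_lead s 1 (-β - 1) hd
  have h3 : ∃ (e : ℚ × ℚ) (c : ℂ), Lead (mo s 0 1 1 + mo s 1 (-β - 1) d) (s.io e) c ∧
      (1 : ℚ) * e.2 - 0 * e.1 ≠ 0 := by
    rcases lt_or_gt_of_ne hne with h | h
    · refine ⟨(0, 1), 1, h1.add ?_, by norm_num⟩
      rw [h2.val]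
      exact_mod_cast h
    · refine ⟨(1, -β - 1), d, ?_, ?_⟩
      · rw [add_comm]
        refine h2.add ?_
        rw [h1.val]
        exact_mod_cast h
      · simp only [one_mul, zero_mul, sub_zero]
        intro h'
        linarith
  refine ⟨?_, h3⟩
  obtain ⟨e, c, h4, -⟩ := h3
  exact h4.ne_zero

end ItemFg

open ItemFg in
theorem fg (h3 : SA3) (h6 : SB6) (he : SE6) : SFg := by
  intro p F hF Γ _ _ _ s
  have d11 : s.d1 (mo s 1 0 1) = mo s 1 0 1 := by
    rw [mo_d1]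
    norm_num
  have d21 : s.d2 (mo s 1 0 1) = 0 := by
    rw [mo_d2]
    norm_num [mo_zero]
  have l1 : Lead (mo s 1 0 1) (s.io ((1 : ℚ), (0 : ℚ))) 1 := mo_lead s 1 0 one_ne_zero
  refine ⟨fun κ f hf => ?_, fun κ c β g hc hβ0 hβ hg => ?_, fun q hq => ?_⟩
  · have hx : aeval (ptX s κ f) F = 0 := by
      rw [xiP, he] at hf
      rw [← hf]
      congr 2
      funext i
      fin_cases i
      · simp [ptX, PT, Th_gm, add_comm]
      · simp [ptX, PT, Th_gm]
      · simp [ptX, PT, Th_gm]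
    have e1 : ptX s κ f 1 = mo s 1 0 1 := rfl
    have e2 : ptX s κ f 2 = mo s 0 1 1 := rfl
    refine key h3 h6 p F hF s (ptX s κ f) hx (1, 0) (0, 1) 1 1 ?_ ?_ (by norm_num) ?_
    · rw [e1]; exact l1
    · rw [e2]; exact mo_lead s 0 1 one_ne_zero
    · rw [e1, e2, d11, d21, mul_zero, sub_zero, mo_d2]
      exact mul_ne_zero (mo_ne s _ _ one_ne_zero) (mo_ne s _ _ (by norm_num))
  · have hx : aeval (ptA s κ c β g) F = 0 := by
      rw [adP, he] at hg
      rw [← hg]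
      congr 2
      funext i
      fin_cases i
      · simp [ptA, PT, Th_gm, add_comm]
      · simp [ptA, PT, Th_gm]
      · simp [ptA, PT, Th_gm]
    have e1 : ptA s κ c β g 1 = mo s 1 0 1 := rfl
    have e2 : ptA s κ c β g 2 = mo s 0 1 1 + mo s 1 (-β - 1) (β * c / 2) := rfl
    have hβc : (β : ℂ) ≠ 0 := by exact_mod_cast hβ0
    have hd : (β * c / 2 : ℂ) ≠ 0 := div_ne_zero (mul_ne_zero hβc hc) (by norm_num)
    have hβ1 : ((-β - 1 : ℚ) : ℂ) ≠ 0 := by
      have : (-β - 1 : ℚ) ≠ 0 := by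
        intro h'
        linarith
      exact_mod_cast this
    obtain ⟨-, e, c2, hl, hne⟩ := aux2 s β hd hβ
    refine key h3 h6 p F hF s (ptA s κ c β g) hx (1, 0) e 1 c2 ?_ ?_ hne ?_
    · rw [e1]; exact l1
    · rw [e2]; exact hl
    · rw [e1, e2, d11, d21, mul_zero, sub_zero, map_add, mo_d2, mo_d2]
      refine mul_ne_zero (mo_ne s _ _ one_ne_zero) ?_
      have h5 : (((1 : ℚ) : ℂ) * 1) = 1 := by norm_num
      rw [h5]
      exact (aux2 s β (mul_ne_zero hβ1 hd) hβ).1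
  · have hx : aeval (ptC s q) F = 0 := by
      rw [coP, he] at hq
      rw [← hq]
      congr 2
      funext i
      fin_cases i
      · simp [ptC, PT, Th_gm]
      · simp [ptC, PT, Th_gm]
      · simp [ptC, PT, Th_gm]
    have e1 : ptC s q 1 = mo s 1 0 1 := rfl
    have e2 : ptC s q 2 = mo s 1 1 1 := rfl
    refine key h3 h6 p F hF s (ptC s q) hx (1, 0) (1, 1) 1 1 ?_ ?_ (by norm_num) ?_
    · rw [e1]; exact l1
    · rw [e2]; exact mo_lead s 1 1 one_ne_zero
    · rw [e1, e2, d11, d21, mul_zero, sub_zero, mo_d2]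
      exact mul_ne_zero (mo_ne s _ _ one_ne_zero) (mo_ne s _ _ (by norm_num))

end Pool.Agent.Work.MP_157c12_gt

end
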