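import Pool.Agent.Work.MP_157c12_gt.TT.Stmts
import Pool.Agent.Work.MP_157c12_gt.TT.Stmts2
import Pool.Agent.Work.MP_157c12_gt.TT.ItemSL1
import Pool.Agent.Work.MP_157c12_gt.Bd.B06

/-! Bundle of small proof modules (one section per former module). -/

section

/-!
# Surfaces of 2-type: the Laplacian of the position vector, and the two elimination steps that are
pure algebra (`SN`, `SP0`, `SP1`)
-/

namespace Pool.Agent.Work.MP_157c12_gt.TT

open Pool.Agent.Work.MP_157c12_gt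

theorem sN : SN := by
  intro R _ _ e1 e2 x T1 T2 N k m l p q h a
  rw [lapE, h.x1, h.x2, h.T11, h.T22]
  ring

namespace ItemP

lemma half {R : Type} [CommRing R] [Algebra ℝ R] {x : R} {c : ℝ} (hc : c ≠ 0)
    (h : algebraMap ℝ R c * x = 0) : x = 0 := by
  have h1 : algebraMap ℝ R c⁻¹ * algebraMap ℝ R c = 1 := by
    rw [← map_mul, inv_mul_cancel₀ hc, map_one]
  calc x = algebraMap ℝ R c⁻¹ * algebraMap ℝ R c * x := by rw [h1, one_mul]
    _ = algebraMap ℝ R c⁻¹ * (algebraMap ℝ R c * x) := by ring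
    _ = 0 := by rw [h, mul_zero]

lemma natz {R : Type} [CommRing R] [Algebra ℝ R] {x : R} (n : ℕ) (hn : n ≠ 0)
    (h : (n : R) * x = 0) : x = 0 := by
  apply half (c := (n : ℝ)) (by exact_mod_cast hn)
  rw [map_natCast]
  exact h

lemma dof {R : Type} [CommRing R] [Algebra ℝ R] (e : Derivation ℝ R R) (n : ℕ) [n.AtLeastTwo] :
    e (no_index (OfNat.ofNat n)) = 0 :=
  e.map_natCast n

lemma d2 {R : Type} [CommRing R] [Algebra ℝ R] (e : Derivation ℝ R R) : e 2 = 0 := by
  have := e.map_natCast 2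
  simpa using this

lemma d3 {R : Type} [CommRing R] [Algebra ℝ R] (e : Derivation ℝ R R) : e 3 = 0 := by
  have := e.map_natCast 3
  simpa using this

lemma d4 {R : Type} [CommRing R] [Algebra ℝ R] (e : Derivation ℝ R R) : e 4 = 0 := by
  have := e.map_natCast 4
  simpa using this

end ItemP

open ItemP

theorem sP0 : SP0 := by
  intro R _ _ _ e1 e2 k l p q y r s r1 r2 a b hb h hy
  have hr2 : r2 = 0 := by
    apply half hb
    have := h.t2
    linear_combination -this
  have hpr : p * r1 = 0 := by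
    have := h.r12
    rw [hr2, map_zero] at this
    linear_combination this
  have h3 : p * (3 * k + l) = 0 := by
    have h1 : p * (3 * k + l) * y = 0 := by
      have := h.t1
      linear_combination p * this + algebraMap ℝ R b * hpr
    exact (hy.mul_left_eq_zero).1 h1
  have hey : e2 y = p * y := by
    have h1 := h.comm (k + l)
    rw [map_add e1, map_add e2, h.e1h, h.e2h, map_zero] at h1
    linear_combination -h1
  have hk : e2 k = 0 := by
    have h1 := congrArg e2 h.t1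
    have h21 := h.r21
    have h2 := h.e2h
    simp only [map_add, Derivation.leibniz, smul_eq_mul, Derivation.map_algebraMap,
      mul_zero, add_zero, d2] at h1
    have h4 : e2 k * y = 0 := by
      apply natz 2 (by norm_num)
      push_cast
      rw [h21, hr2] at h1
      rw [hey] at h1
      linear_combination h1 - y * h2 - y * h3
    exact (hy.mul_left_eq_zero).1 h4
  have h4 : p * (k - l) = 0 := by
    have := h.codazzi1
    rw [hk, map_zero] at this
    linear_combination this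
  have h5 : p * (k + l) = 0 := by
    apply natz 2 (by norm_num)
    push_cast
    have h6 : p * k = 0 := by
      apply natz 4 (by norm_num)
      push_cast
      linear_combination h3 + h4
    linear_combination 4 * h6 - 2 * h4
  have h6 := congrArg e1 h5
  rw [Derivation.leibniz, map_add, h.e1h, map_zero, smul_eq_mul, smul_eq_mul] at h6
  have h7 : p ^ 2 * y = 0 := by linear_combination p * h6 - e1 p * h5
  exact pow_eq_zero_iff (two_ne_zero) |>.1 ((hy.mul_left_eq_zero).1 h7)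

namespace ItemP

section

variable {R : Type} [CommRing R] [Algebra ℝ R]

lemma cube (e : Derivation ℝ R R) (c0 c1 c2 c3 r t : R) (h0 : e c0 = 0) (h1 : e c1 = 0)
    (h2 : e c2 = 0) (h3 : e c3 = 0) (hr : e r = t) (ht : IsUnit t)
    (h : c3 * r ^ 3 + c2 * r ^ 2 + c1 * r + c0 = 0) : c3 = 0 := by
  have a1 : 3 * c3 * r ^ 2 + 2 * c2 * r + c1 = 0 := by
    have := congrArg e h
    simp only [map_add, Derivation.leibniz, Derivation.leibniz_pow, smul_eq_mul, h0, h1, h2, h3,
      hr, map_zero, mul_zero, add_zero, nsmul_eq_mul, Nat.cast_ofNat, Nat.add_one_sub_one,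
      Nat.reduceSub, pow_one] at this
    apply (ht.mul_left_eq_zero).1
    linear_combination this
  have a2 : 6 * c3 * r + 2 * c2 = 0 := by
    have := congrArg e a1
    simp only [map_add, Derivation.leibniz, Derivation.leibniz_pow, smul_eq_mul, h0, h1, h2, h3,
      hr, map_zero, mul_zero, add_zero, nsmul_eq_mul, Nat.cast_ofNat, Nat.add_one_sub_one,
      Nat.reduceSub, pow_one, d2, d3] at this
    apply (ht.mul_left_eq_zero).1
    linear_combination this
  have a3 : 6 * c3 = 0 := by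
    have d6 : e 6 = 0 := by
      have := e.map_natCast 6
      simpa using this
    have := congrArg e a2
    simp only [map_add, Derivation.leibniz, smul_eq_mul, h0, h1, h2, h3,
      hr, map_zero, mul_zero, add_zero, d2, d6] at this
    apply (ht.mul_left_eq_zero).1
    linear_combination this
  exact natz 6 (by norm_num) (by exact_mod_cast a3)

end

end ItemP

theorem sP1 : SP1 := by
  intro R _ _ e1 e2 k m l p q y r s r1 r2 a b hb h hy hm
  obtain ⟨yi, hyi⟩ := hy.exists_right_inv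
  set A := algebraMap ℝ R a with hA
  set B := algebraMap ℝ R b with hB
  have eA : ∀ e : Derivation ℝ R R, e A = 0 := fun e => e.map_algebraMap a
  have eB : ∀ e : Derivation ℝ R R, e B = 0 := fun e => e.map_algebraMap b
  have hBu : IsUnit B := (isUnit_iff_ne_zero.2 hb).map (algebraMap ℝ R)
  have t1 : 2 * (k * y + m * 0) + (k + l) * y = B * r1 := h.t1
  have t2 : 2 * (m * y + l * 0) + (k + l) * 0 = B * r2 := h.t2
  have nn : e1 y + e2 0 - q * y - p * 0 = (k + l) * ((k + l) ^ 2 - 2 * (k * l - m ^ 2))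
    - A * (k + l) - B * s := h.nn
  rw [map_zero] at nn
  have hey : e2 y = p * y := by
    have h1 := h.comm (k + l)
    rw [map_add e1, map_add e2, h.e1h, h.e2h, map_zero] at h1
    linear_combination -h1
  have e1h := h.e1h
  have e2h := h.e2h
  have e1s := h.e1s
  have e2s := h.e2s
  have e1r := h.e1r
  have e2r := h.e2r
  -- the function `g0`
  obtain ⟨g0, hg0⟩ : ∃ g0, g0 = 2 * B * s + 3 * B * (k + l) * r - (k + l) ^ 3 := ⟨_, rfl⟩
  obtain ⟨g1, hg1⟩ : ∃ g1, g1 = 4 * (k * l - m ^ 2) + 3 * B * r := ⟨_, rfl⟩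
  have f1 : e1 g0 = g1 * y := by
    rw [hg0, hg1]
    simp only [map_add, map_sub, Derivation.leibniz, Derivation.leibniz_pow, smul_eq_mul, eB, d2, d3,
      e1s, e1r, mul_zero, add_zero, nsmul_eq_mul, Nat.cast_ofNat, Nat.reduceSub]
    linear_combination (3 * B * r - 3 * (k + l) ^ 2) * e1h + (2 * k - 3 * (k + l)) * t1
      + 2 * m * t2
  have f2 : e2 g0 = 0 := by
    rw [hg0]
    simp only [map_add, map_sub, Derivation.leibniz, Derivation.leibniz_pow, smul_eq_mul, eB, d2, d3,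
      e2s, e2r, mul_zero, add_zero, nsmul_eq_mul, Nat.cast_ofNat, Nat.reduceSub]
    linear_combination (3 * B * r - 3 * (k + l) ^ 2) * e2h + 2 * m * t1
      + (2 * l - 3 * (k + l)) * t2
  have f3 : e2 g1 = 0 := by
    have h1 := h.comm g0
    rw [f1, f2, map_zero, Derivation.leibniz, smul_eq_mul, smul_eq_mul, hey] at h1
    apply (hy.mul_left_eq_zero).1
    linear_combination -h1
  obtain ⟨g2, hg2⟩ : ∃ g2, g2 = e1 g1 * yi := ⟨_, rfl⟩
  have f4 : e1 g1 = g2 * y := by
    rw [hg2]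
    linear_combination -(e1 g1) * hyi
  have f5 : e2 g2 = 0 := by
    have h1 := h.comm g1
    rw [f3, f4, map_zero, Derivation.leibniz, smul_eq_mul, smul_eq_mul, hey] at h1
    apply (hy.mul_left_eq_zero).1
    linear_combination -h1
  -- the derivatives of the tangential equations
  obtain ⟨Φ, hΦ⟩ : ∃ Φ, Φ = (k + l) * ((k + l) ^ 2 - 2 * (k * l - m ^ 2)) - A * (k + l) - B * s :=
    ⟨_, rfl⟩
  have ey : e1 y = q * y + Φ := by
    rw [hΦ]
    linear_combination nn
  have a1 : 2 * (y * e1 k) = B * (1 + s * k + p * r2) - (3 * k + l) * e1 y - y ^ 2 := by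
    have := congrArg e1 t1
    simp only [map_add, Derivation.leibniz, smul_eq_mul, eB, d2, h.r11, mul_zero, add_zero] at this
    linear_combination this - y * e1h
  have a2 : 2 * (y * e2 k) = B * (s * m - q * r2) - (3 * k + l) * (p * y) := by
    have := congrArg e2 t1
    simp only [map_add, Derivation.leibniz, smul_eq_mul, eB, d2, h.r21, mul_zero, add_zero, hey]
      at this
    linear_combination this - y * e2h
  have a3 : 2 * (y * e1 m) = B * (s * m - p * r1) - 2 * m * e1 y := by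
    have := congrArg e1 t2
    simp only [map_add, Derivation.leibniz, smul_eq_mul, eB, d2, h.r12, mul_zero, add_zero] at this
    linear_combination this
  have a4 : 2 * (y * e2 m) = B * (1 + s * l + q * r1) - 2 * m * (p * y) := by
    have := congrArg e2 t2
    simp only [map_add, Derivation.leibniz, smul_eq_mul, eB, d2, h.r22, mul_zero, add_zero, hey]
      at this
    linear_combination this
  have Ra : p * (k - l) * y = 2 * m * q * y + m * Φ := by
    have h1 : p * (k - l) * y - (2 * m * q * y + m * Φ) = 0 := by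
      apply natz 2 (by norm_num)
      push_cast
      linear_combination 2 * y * h.codazzi1 - a3 + a2 + 2 * m * ey - p * t1 + q * t2
    linear_combination h1
  have Rb : 3 * y ^ 2 + (3 * k + l) * Φ + 4 * m * p * y + 2 * q * (k - l) * y =
      B * (2 + s * (k + l)) := by
    linear_combination 2 * y * h.codazzi2 + a1 + a4 - 2 * y * e1h - (3 * k + l) * ey
      - p * t2 - q * t1
  have F5 : (-(k - l) ^ 2 - 4 * m ^ 2) * (p * y) =
      m * (3 * y ^ 2 + 2 * (k + l) * Φ - 2 * B - B * (k + l) * s) := by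
    linear_combination -m * Rb - (k - l) * Ra
  have hg2y : g2 * y ^ 2 = 2 * l * (2 * (y * e1 k)) + 2 * k * (2 * (y * e1 l))
      - 4 * m * (2 * (y * e1 m)) + 3 * (3 * k + l) * y ^ 2 := by
    have h1 : e1 g1 = 4 * (k * e1 l + l * e1 k - 2 * m * e1 m) + 3 * B * r1 := by
      rw [hg1]
      simp only [map_add, map_sub, Derivation.leibniz, Derivation.leibniz_pow, smul_eq_mul, eB, d4,
        d3, e1r, mul_zero, add_zero, nsmul_eq_mul, Nat.cast_ofNat, Nat.reduceSub, pow_one]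
      ring
    linear_combination -y * f4 + y * h1 - 3 * y * t1
  have T6 : (6 * (k + l) + g2) * y ^ 2 + (3 * (k + l) ^ 2 + 4 * (k * l - m ^ 2)) * (Φ - B * s) =
      4 * (3 * k + l) * y ^ 2 + 4 * B * (k + l) - 2 * B * (k + l) ^ 2 * s := by
    linear_combination hg2y + 2 * l * a1 + 2 * k * (2 * y * e1h - a1) - 4 * m * a3
      + (3 * k + l) * Rb - 4 * m * Ra
      + (2 * (k - l) * (3 * k + l) + 8 * m ^ 2) * ey - (2 * l - 2 * k) * p * t2 - 4 * m * p * t1
  -- everything in terms of `H, r` and the functions of `H`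
  obtain ⟨H, hH⟩ : ∃ H, H = k + l := ⟨_, rfl⟩
  have eH : e2 H = 0 := by rw [hH, map_add, e2h]
  have F6 : 4 * (3 * B * r + 3 * H ^ 2 + H * g2 - g1) * y ^ 2 =
      45 * H ^ 2 * B ^ 2 * r ^ 2 + (-36 * H ^ 4 * B - 24 * H ^ 2 * g1 * B - 12 * H ^ 2 * A * B
        - 6 * H * g0 * B + 8 * B ^ 2) * r + (-5 * H ^ 6 + 6 * H ^ 4 * g1 + 12 * H ^ 4 * A
        + 6 * H ^ 3 * g0 + 2 * H ^ 2 * g1 ^ 2 + 4 * H ^ 2 * g1 * A + 16 * H ^ 2 * B
        + 4 * H * g0 * g1 - g0 ^ 2) := by
    rw [hΦ] at T6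
    rw [hg0, hg1, hH]
    linear_combination 4 * (k + l) * T6 + 4 * ((3 * k + l) * y + B * r1) * t1
      + 4 * (2 * m * y + B * r2) * t2 + 4 * B ^ 2 * h.norm
  have F5' : (g1 - 3 * B * r - H ^ 2) * (4 * p * y ^ 2) = r2 * (6 * B * y ^ 2 +
      (2 * B * H * (2 * H ^ 3 - H * (g1 - 3 * B * r) - 2 * A * H - (g0 + H ^ 3 - 3 * B * H * r))
        - B * H * (g0 + H ^ 3 - 3 * B * H * r) - 4 * B ^ 2)) := by
    rw [hΦ] at F5
    rw [hg0, hg1, hH]
    linear_combination 4 * y * F5 + 2 * (3 * y ^ 2 + 2 * (k + l) * ((k + l) * ((k + l) ^ 2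
      - 2 * (k * l - m ^ 2)) - A * (k + l) - B * s) - 2 * B - B * (k + l) * s) * t2
  have hr2 : IsUnit r2 := by
    have h1 : IsUnit (B * r2) := by
      rw [← t2]
      have : 2 * (m * y + l * 0) + (k + l) * 0 = algebraMap ℝ R 2 * (m * y) := by
        rw [map_ofNat]; ring
      rw [this]
      exact ((isUnit_iff_ne_zero.2 (two_ne_zero)).map (algebraMap ℝ R)).mul (hm.mul hy)
    exact isUnit_of_mul_isUnit_right h1
  have dn : ∀ n : ℕ, e2 (n : R) = 0 := fun n => e2.map_natCast n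
  have d5 : e2 5 = 0 := by simpa using dn 5
  have d6 : e2 6 = 0 := by simpa using dn 6
  have d8 : e2 8 = 0 := by simpa using dn 8
  have d12 : e2 12 = 0 := by simpa using dn 12
  have d16 : e2 16 = 0 := by simpa using dn 16
  have d24 : e2 24 = 0 := by simpa using dn 24
  have d36 : e2 36 = 0 := by simpa using dn 36
  have d45 : e2 45 = 0 := by simpa using dn 45
  obtain ⟨n1, hn1⟩ : ∃ n1, n1 = -36 * H ^ 4 * B - 24 * H ^ 2 * g1 * B - 12 * H ^ 2 * A * B
        - 6 * H * g0 * B + 8 * B ^ 2 := ⟨_, rfl⟩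
  obtain ⟨n0, hn0⟩ : ∃ n0, n0 = -5 * H ^ 6 + 6 * H ^ 4 * g1 + 12 * H ^ 4 * A
        + 6 * H ^ 3 * g0 + 2 * H ^ 2 * g1 ^ 2 + 4 * H ^ 2 * g1 * A + 16 * H ^ 2 * B
        + 4 * H * g0 * g1 - g0 ^ 2 := ⟨_, rfl⟩
  rw [← hn1, ← hn0] at F6
  have en1 : e2 n1 = 0 := by
    rw [hn1]
    simp only [map_add, map_sub, map_neg, Derivation.leibniz, Derivation.leibniz_pow, smul_eq_mul,
      eB, eA, eH, f2, f3, d6, d8, d12, d24, d36, mul_zero, add_zero, sub_zero, neg_zero, smul_zero]
  have en0 : e2 n0 = 0 := by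
    rw [hn0]
    simp only [map_add, map_sub, map_neg, Derivation.leibniz, Derivation.leibniz_pow, smul_eq_mul,
      eB, eA, eH, f2, f3, d2, d4, d5, d6, d12, d16, mul_zero, add_zero, sub_zero, neg_zero,
      smul_zero]
  have dF6 := congrArg e2 F6
  simp only [map_add, map_sub, Derivation.leibniz, Derivation.leibniz_pow, smul_eq_mul, eB,
    eH, f3, f5, d3, d4, d45, e2r, hey, en1, en0, mul_zero, add_zero, zero_add, sub_zero,
    nsmul_eq_mul, smul_zero, Nat.cast_ofNat, Nat.reduceSub, pow_one] at dF6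
  have iv : 12 * B * y ^ 2 * (g1 - 3 * B * r - H ^ 2) + 2 * (3 * B * r + 3 * H ^ 2 + H * g2 - g1) *
      (6 * B * y ^ 2 +
      (2 * B * H * (2 * H ^ 3 - H * (g1 - 3 * B * r) - 2 * A * H - (g0 + H ^ 3 - 3 * B * H * r))
        - B * H * (g0 + H ^ 3 - 3 * B * H * r) - 4 * B ^ 2)) =
      (90 * H ^ 2 * B ^ 2 * r + n1) * (g1 - 3 * B * r - H ^ 2) := by
    have h1 : (12 * B * y ^ 2 * (g1 - 3 * B * r - H ^ 2) + 2 * (3 * B * r + 3 * H ^ 2 + H * g2 - g1)
      * (6 * B * y ^ 2 +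
      (2 * B * H * (2 * H ^ 3 - H * (g1 - 3 * B * r) - 2 * A * H - (g0 + H ^ 3 - 3 * B * H * r))
        - B * H * (g0 + H ^ 3 - 3 * B * H * r) - 4 * B ^ 2)) -
      (90 * H ^ 2 * B ^ 2 * r + n1) * (g1 - 3 * B * r - H ^ 2)) * r2 = 0 := by
      linear_combination (g1 - 3 * B * r - H ^ 2) * dF6
        - 2 * (3 * B * r + 3 * H ^ 2 + H * g2 - g1) * F5'
    linear_combination (hr2.mul_left_eq_zero).1 h1
  have fin : 1080 * H ^ 2 * B ^ 4 = 0 := by
    apply cube e2
      (-120 * H ^ 8 * B + -39 * H ^ 7 * g2 * B + 60 * H ^ 6 * g1 * B + 2 * H ^ 6 * g2 ^ 2 * B + -36 * H ^ 6 * A * B + -36 * H ^ 5 * g0 * B + 2 * H ^ 5 * g1 * g2 * B + -24 * H ^ 5 * g2 * A * B + -24 * H ^ 4 * g0 * g2 * B + 98 * H ^ 4 * g1 ^ 2 * B + -4 * H ^ 4 * g1 * g2 ^ 2 * B + 120 * H ^ 4 * g1 * A * B + -8 * H ^ 4 * g2 ^ 2 * A * B + 48 * H ^ 4 * B ^ 2 + 84 * H ^ 3 * g0 * g1 * B + -6 * H ^ 3 * g0 * g2 ^ 2 * B + 38 * H ^ 3 * g1 ^ 2 * g2 * B + 40 * H ^ 3 * g1 * g2 * A * B + 8 * H ^ 3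 * g2 * B ^ 2 + -6 * H ^ 2 * g0 ^ 2 * B + 30 * H ^ 2 * g0 * g1 * g2 * B + -28 * H ^ 2 * g1 ^ 3 * B + -20 * H ^ 2 * g1 ^ 2 * A * B + 16 * H ^ 2 * g1 * B ^ 2 + -8 * H ^ 2 * g2 ^ 2 * B ^ 2 + -3 * H * g0 ^ 2 * g2 * B + -12 * H * g0 * g1 ^ 2 * B + 8 * H * g1 * g2 * B ^ 2)
      (-72 * H ^ 6 * B ^ 2 + 66 * H ^ 5 * g2 * B ^ 2 + -840 * H ^ 4 * g1 * B ^ 2 + 30 * H ^ 4 * g2 ^ 2 * B ^ 2 + -360 * H ^ 4 * A * B ^ 2 + -216 * H ^ 3 * g0 * B ^ 2 + -318 * H ^ 3 * g1 * g2 * B ^ 2 + -120 * H ^ 3 * g2 * A * B ^ 2 + -72 * H ^ 2 * g0 * g2 * B ^ 2 + 288 * H ^ 2 * g1 ^ 2 * B ^ 2 + 120 * H ^ 2 * g1 * A * B ^ 2 + 72 * H * g0 * g1 * B ^ 2)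
      (1584 * H ^ 4 * B ^ 3 + 585 * H ^ 3 * g2 * B ^ 3 + -972 * H ^ 2 * g1 * B ^ 3 + -180 * H ^ 2 * A * B ^ 3 + -108 * H * g0 * B ^ 3)
      (1080 * H ^ 2 * B ^ 4) r r2 _ _ _ _ e2r hr2
    · rw [hn1] at iv
      rw [hn1, hn0] at F6
      linear_combination (3 * B * r + 3 * H ^ 2 + H * g2 - g1) * iv
        - (3 * B * (g1 - 3 * B * r - H ^ 2) + 3 * B * (3 * B * r + 3 * H ^ 2 + H * g2 - g1)) * F6
    all_goals simp only [map_add, map_neg, Derivation.leibniz, Derivation.leibniz_pow,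
      smul_eq_mul, eB, eA, eH, f2, f3, f5, dof, mul_zero, add_zero, neg_zero, smul_zero]
  have fin2 : (k + l) ^ 2 = 0 := by
    rw [← hH]
    apply natz 1080 (by norm_num)
    push_cast
    apply ((hBu.pow 4).mul_left_eq_zero).1
    linear_combination fin
  exact fin2

end Pool.Agent.Work.MP_157c12_gt.TT

end

section

/-!
# The orthonormal frame of a surface, algebraically
-/

set_option autoImplicit false
set_option linter.unusedSectionVars false

namespace Pool.Agent.Work.MP_157c12_gt.TT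

namespace ItemSF

section

variable {R : Type} [CommRing R] [Algebra ℝ R]

theorem half {y : R} (h : y + y = 0) : y = 0 := by
  have h2 : algebraMap ℝ R (1 / 2) * 2 = 1 := by
    have h3 : (2 : R) = algebraMap ℝ R 2 := (map_ofNat (algebraMap ℝ R) 2).symm
    rw [h3, ← map_mul]
    norm_num
  linear_combination (algebraMap ℝ R (1 / 2)) * h - y * h2

theorem dot_comm (v w : Fin 3 → R) : dot v w = dot w v := by
  unfold dot
  ring

theorem dot_der (e : Derivation ℝ R R) (v w : Fin 3 → R) :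
    e (dot v w) = dot (fun a => e (v a)) w + dot v (fun a => e (w a)) := by
  unfold dot
  simp only [map_add, Derivation.leibniz, smul_eq_mul]
  ring

theorem expand (T1 T2 N v : Fin 3 → R)
    (full : ∀ a b, T1 a * T1 b + T2 a * T2 b + N a * N b = if a = b then 1 else 0) (a : Fin 3) :
    v a = dot v T1 * T1 a + dot v T2 * T2 a + dot v N * N a := by
  have h0 := full a 0
  have h1 := full a 1
  have h2 := full a 2
  unfold dot
  fin_cases a
  · simp only [Fin.isValue, Fin.zero_eta, if_true, Fin.reduceEq, if_false] at h0 h1 h2 ⊢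
    linear_combination (-(v 0)) * h0 - (v 1) * h1 - (v 2) * h2
  · simp only [Fin.isValue, Fin.mk_one, if_true, Fin.reduceEq, if_false] at h0 h1 h2 ⊢
    linear_combination (-(v 0)) * h0 - (v 1) * h1 - (v 2) * h2
  · simp only [Fin.isValue, Fin.reduceFinMk, if_true, Fin.reduceEq, if_false] at h0 h1 h2 ⊢
    linear_combination (-(v 0)) * h0 - (v 1) * h1 - (v 2) * h2

theorem coef {T1 T2 N : Fin 3 → R} (d11 : dot T1 T1 = 1) (d12 : dot T1 T2 = 0)
    (d22 : dot T2 T2 = 1) (d1N : dot T1 N = 0) (d2N : dot T2 N = 0) {A B C A' B' C' : R}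
    (h : ∀ a, A * T1 a + B * T2 a + C * N a = A' * T1 a + B' * T2 a + C' * N a) :
    A = A' ∧ B = B' := by
  have h0 := h 0
  have h1 := h 1
  have h2 := h 2
  unfold dot at d11 d12 d22 d1N d2N
  constructor
  · linear_combination (T1 0) * h0 + (T1 1) * h1 + (T1 2) * h2 - (A - A') * d11 - (B - B') * d12 -
      (C - C') * d1N
  · linear_combination (T2 0) * h0 + (T2 1) * h1 + (T2 2) * h2 - (A - A') * d12 - (B - B') * d22 -
      (C - C') * d2N

theorem full_of {T1 T2 N : Fin 3 → R} (d11 : dot T1 T1 = 1) (d12 : dot T1 T2 = 0)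
    (d22 : dot T2 T2 = 1) (d1N : dot T1 N = 0) (d2N : dot T2 N = 0) (dNN : dot N N = 1)
    (a b : Fin 3) : T1 a * T1 b + T2 a * T2 b + N a * N b = if a = b then 1 else 0 := by
  let M : Matrix (Fin 3) (Fin 3) R := Matrix.of ![T1, T2, N]
  have h1 : M * M.transpose = 1 := by
    unfold dot at d11 d12 d22 d1N d2N dNN
    ext i j
    rw [Matrix.mul_apply, Fin.sum_univ_three, Matrix.one_apply]
    fin_cases i <;> fin_cases j <;>
      simp only [M, Matrix.transpose_apply, Matrix.of_apply, Fin.isValue, Fin.zero_eta,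
        Fin.mk_one, Fin.reduceFinMk, Matrix.cons_val_zero, Matrix.cons_val_one, Matrix.cons_val,
        if_true, Fin.reduceEq, if_false]
    · exact d11
    · exact d12
    · exact d1N
    · linear_combination d12
    · exact d22
    · exact d2N
    · linear_combination d1N
    · linear_combination d2N
    · exact dNN
  have h2 : M.transpose * M = 1 := mul_eq_one_comm.mp h1
  have h3 := congrFun (congrFun h2 a) b
  rw [Matrix.mul_apply, Fin.sum_univ_three, Matrix.one_apply] at h3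
  exact h3

/-- The structure equations from orthonormality. -/
theorem struct (e1 e2 : Derivation ℝ R R) (T1 T2 N : Fin 3 → R)
    (d11 : dot T1 T1 = 1) (d12 : dot T1 T2 = 0) (d22 : dot T2 T2 = 1) (d1N : dot T1 N = 0)
    (d2N : dot T2 N = 0) (dNN : dot N N = 1)
    (full : ∀ a b, T1 a * T1 b + T2 a * T2 b + N a * N b = if a = b then 1 else 0)
    (hs : dot (fun a => e2 (T1 a)) N = dot (fun a => e1 (T2 a)) N) :
    ∃ k m l p q : R, (∀ a, e1 (T1 a) = p * T2 a + k * N a) ∧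
      (∀ a, e1 (T2 a) = -p * T1 a + m * N a) ∧ (∀ a, e2 (T1 a) = -q * T2 a + m * N a) ∧
      (∀ a, e2 (T2 a) = q * T1 a + l * N a) ∧ (∀ a, e1 (N a) = -k * T1 a - m * T2 a) ∧
      (∀ a, e2 (N a) = -m * T1 a - l * T2 a) := by
  have z : ∀ (e : Derivation ℝ R R) (v w : Fin 3 → R) (c : R), (c = 0 ∨ c = 1) → dot v w = c →
      dot (fun a => e (v a)) w + dot v (fun a => e (w a)) = 0 := by
    intro e v w c hc h
    rw [← dot_der, h]
    rcases hc with hc | hc
    · rw [hc, map_zero]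
    · rw [hc]
      exact Derivation.map_one_eq_zero e
  have zz : ∀ (e : Derivation ℝ R R) (v : Fin 3 → R), dot v v = 1 →
      dot (fun a => e (v a)) v = 0 := by
    intro e v h
    have h1 := z e v v 1 (Or.inr rfl) h
    rw [dot_comm v] at h1
    exact half h1
  have a1 := z e1 T1 T2 0 (Or.inl rfl) d12
  have a2 := z e2 T1 T2 0 (Or.inl rfl) d12
  have b1 := z e1 T1 N 0 (Or.inl rfl) d1N
  have b2 := z e2 T1 N 0 (Or.inl rfl) d1N
  have c1 := z e1 T2 N 0 (Or.inl rfl) d2N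
  have c2 := z e2 T2 N 0 (Or.inl rfl) d2N
  rw [dot_comm T1] at a1 a2 b1 b2
  rw [dot_comm T2] at c1 c2
  refine ⟨dot (fun a => e1 (T1 a)) N, dot (fun a => e1 (T2 a)) N, dot (fun a => e2 (T2 a)) N,
    dot (fun a => e1 (T1 a)) T2, dot (fun a => e2 (T2 a)) T1, ?_, ?_, ?_, ?_, ?_, ?_⟩
  · intro a
    have h := expand T1 T2 N (fun a => e1 (T1 a)) full a
    rw [zz e1 T1 d11] at h
    linear_combination h
  · intro a
    have h := expand T1 T2 N (fun a => e1 (T2 a)) full a
    rw [zz e1 T2 d22] at h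
    linear_combination h + (T1 a) * a1
  · intro a
    have h := expand T1 T2 N (fun a => e2 (T1 a)) full a
    rw [zz e2 T1 d11, hs] at h
    linear_combination h + (T2 a) * a2
  · intro a
    have h := expand T1 T2 N (fun a => e2 (T2 a)) full a
    rw [zz e2 T2 d22] at h
    linear_combination h
  · intro a
    have h := expand T1 T2 N (fun a => e1 (N a)) full a
    rw [zz e1 N dNN] at h
    linear_combination h + (T1 a) * b1 + (T2 a) * c1
  · intro a
    have h := expand T1 T2 N (fun a => e2 (N a)) full a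
    rw [zz e2 N dNN] at h
    rw [hs] at b2
    linear_combination h + (T1 a) * b2 + (T2 a) * c2

/-- The equations of Codazzi and Gauss from the commutator. -/
theorem cg (e1 e2 : Derivation ℝ R R) (T1 T2 N : Fin 3 → R) (k m l p q : R)
    (comm : ∀ f, e1 (e2 f) - e2 (e1 f) = -p * e1 f + q * e2 f)
    (T11 : ∀ a, e1 (T1 a) = p * T2 a + k * N a)
    (T12 : ∀ a, e1 (T2 a) = -p * T1 a + m * N a)
    (T21 : ∀ a, e2 (T1 a) = -q * T2 a + m * N a)
    (T22 : ∀ a, e2 (T2 a) = q * T1 a + l * N a)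
    (N1 : ∀ a, e1 (N a) = -k * T1 a - m * T2 a)
    (N2 : ∀ a, e2 (N a) = -m * T1 a - l * T2 a)
    (d11 : dot T1 T1 = 1) (d12 : dot T1 T2 = 0) (d22 : dot T2 T2 = 1) (d1N : dot T1 N = 0)
    (d2N : dot T2 N = 0) :
    e1 m + p * (k - l) = e2 k + 2 * q * m ∧ e1 l + 2 * p * m = e2 m - q * (k - l) ∧
      e1 q + e2 p = p ^ 2 + q ^ 2 + (k * l - m ^ 2) := by
  have hN : ∀ a, (-(e1 m) + e2 k + l * p + m * q) * T1 a + (-(e1 l) + e2 m - m * p - k * q) * T2 a +
      0 * N a = (p * k - q * m) * T1 a + (p * m - q * l) * T2 a + 0 * N a := by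
    intro a
    have h := comm (N a)
    rw [N2 a, N1 a] at h
    simp only [map_sub, map_neg, neg_mul, Derivation.leibniz, smul_eq_mul, T11 a, T12 a, T21 a,
      T22 a] at h
    linear_combination h
  have hT : ∀ a, (q * p - m * k - p * q + k * m) * T1 a +
      (-(e1 q) - m ^ 2 - e2 p + k * l) * T2 a + (-(q * m) + e1 m - p * l - e2 k) * N a =
      0 * T1 a + (-(p ^ 2) - q ^ 2) * T2 a + (-(p * k) + q * m) * N a := by
    intro a
    have h := comm (T1 a)
    rw [T21 a, T11 a] at h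
    simp only [map_add, map_neg, neg_mul, Derivation.leibniz, smul_eq_mul, T12 a, T22 a, N1 a,
      N2 a] at h
    linear_combination h
  obtain ⟨h1, h2⟩ := coef d11 d12 d22 d1N d2N hN
  obtain ⟨_, h3⟩ := coef d11 d12 d22 d1N d2N hT
  refine ⟨?_, ?_, ?_⟩
  · linear_combination -h1
  · linear_combination -h2
  · linear_combination -h3

/-- The commutator of two combinations of commuting derivations. -/
theorem comm_of (D0 D1 : Derivation ℝ R R) (hD : ∀ f, D0 (D1 f) = D1 (D0 f))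
    (c0 c1 d0 d1 f : R) :
    (c0 * D0 (d0 * D0 f + d1 * D1 f) + c1 * D1 (d0 * D0 f + d1 * D1 f)) -
      (d0 * D0 (c0 * D0 f + c1 * D1 f) + d1 * D1 (c0 * D0 f + c1 * D1 f)) =
      ((c0 * D0 d0 + c1 * D1 d0) - (d0 * D0 c0 + d1 * D1 c0)) * D0 f +
        ((c0 * D0 d1 + c1 * D1 d1) - (d0 * D0 c1 + d1 * D1 c1)) * D1 f := by
  have h := hD f
  simp only [map_add, Derivation.leibniz, smul_eq_mul]
  linear_combination (c0 * d1 - d0 * c1) * h

/-- The divergence form of the Laplace operator. -/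
theorem lapl (D0 D1 : Derivation ℝ R R) (c0 c1 d0 d1 W Wi p q u v : R) (hW : W * Wi = 1)
    (hD : c0 * d1 - c1 * d0 = Wi)
    (hα : (c0 * D0 d0 + c1 * D1 d0) - (d0 * D0 c0 + d1 * D1 c0) = -p * c0 + q * d0)
    (hβ : (c0 * D0 d1 + c1 * D1 d1) - (d0 * D0 c1 + d1 * D1 c1) = -p * c1 + q * d1) :
    (c0 * D0 u + c1 * D1 u) + (d0 * D0 v + d1 * D1 v) - q * u - p * v =
      Wi * (D0 (W * (c0 * u + d0 * v)) + D1 (W * (c1 * u + d1 * v))) := by
  have w0 : W * D0 Wi + Wi * D0 W = 0 := by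
    have h := D0.leibniz W Wi
    rw [hW, Derivation.map_one_eq_zero] at h
    simp only [smul_eq_mul] at h
    exact h.symm
  have w1 : W * D1 Wi + Wi * D1 W = 0 := by
    have h := D1.leibniz W Wi
    rw [hW, Derivation.map_one_eq_zero] at h
    simp only [smul_eq_mul] at h
    exact h.symm
  have x0 : D0 Wi = (c0 * D0 d1 + d1 * D0 c0) - (c1 * D0 d0 + d0 * D0 c1) := by
    rw [← hD, map_sub, Derivation.leibniz, Derivation.leibniz]
    simp only [smul_eq_mul]
  have x1 : D1 Wi = (c0 * D1 d1 + d1 * D1 c0) - (c1 * D1 d0 + d0 * D1 c1) := by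
    rw [← hD, map_sub, Derivation.leibniz, Derivation.leibniz]
    simp only [smul_eq_mul]
  have y1 : c0 * D0 Wi + c1 * D1 Wi = Wi * (D0 c0 + D1 c1 + q) := by
    rw [x0, x1]
    linear_combination c0 * hβ - c1 * hα + (D0 c0 + D1 c1 + q) * hD
  have y2 : d0 * D0 Wi + d1 * D1 Wi = Wi * (D0 d0 + D1 d1 + p) := by
    rw [x0, x1]
    linear_combination d0 * hβ - d1 * hα + (D0 d0 + D1 d1 + p) * hD
  simp only [map_add, Derivation.leibniz, smul_eq_mul]
  have z1 : Wi * (c0 * D0 W + c1 * D1 W) = -(D0 c0 + D1 c1 + q) := by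
    linear_combination c0 * w0 + c1 * w1 - W * y1 - (D0 c0 + D1 c1 + q) * hW
  have z2 : Wi * (d0 * D0 W + d1 * D1 W) = -(D0 d0 + D1 d1 + p) := by
    linear_combination d0 * w0 + d1 * w1 - W * y2 - (D0 d0 + D1 d1 + p) * hW
  linear_combination (-u) * z1 - v * z2 - (c0 * D0 u + c1 * D1 u + d0 * D0 v + d1 * D1 v +
    u * (D0 c0 + D1 c1) + v * (D0 d0 + D1 d1)) * hW

end

end ItemSF

open ItemSF in
/-- The orthonormal frame with first vector `c0 ∂0 + c1 ∂1`. -/
theorem sF : SF := by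
  intro R _ _ D0 D1 x E F G W Wi c0 c1 hcomm hE hF hG hW2 hWW hc
  have hW4 : Wi ^ 2 * (E * G - F ^ 2) = 1 := by
    rw [← hW2]
    linear_combination (W * Wi + 1) * hWW
  obtain ⟨X0, hX0⟩ : ∃ X0 : Fin 3 → R, X0 = fun a => D0 (x a) := ⟨_, rfl⟩
  obtain ⟨X1, hX1⟩ : ∃ X1 : Fin 3 → R, X1 = fun a => D1 (x a) := ⟨_, rfl⟩
  have X0a : ∀ a, D0 (x a) = X0 a := fun a => (congrFun hX0 a).symm
  have X1a : ∀ a, D1 (x a) = X1 a := fun a => (congrFun hX1 a).symm
  rw [← hX0] at hE hF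
  rw [← hX1] at hF hG
  obtain ⟨d0, hd0⟩ : ∃ d0 : R, d0 = -Wi * (F * c0 + G * c1) := ⟨_, rfl⟩
  obtain ⟨d1, hd1⟩ : ∃ d1 : R, d1 = Wi * (E * c0 + F * c1) := ⟨_, rfl⟩
  have hΔ : c0 * d1 - c1 * d0 = Wi := by
    rw [hd0, hd1]
    linear_combination Wi * hc
  have g12 : E * (c0 * d0) + F * (c0 * d1 + c1 * d0) + G * (c1 * d1) = 0 := by
    rw [hd0, hd1]
    ring
  have g22 : E * d0 ^ 2 + 2 * F * d0 * d1 + G * d1 ^ 2 = 1 := by
    rw [hd0, hd1]
    linear_combination (Wi ^ 2 * (E * G - F ^ 2)) * hc + hW4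
  obtain ⟨e1, he1⟩ : ∃ e1 : Derivation ℝ R R, e1 = c0 • D0 + c1 • D1 := ⟨_, rfl⟩
  obtain ⟨e2, he2⟩ : ∃ e2 : Derivation ℝ R R, e2 = d0 • D0 + d1 • D1 := ⟨_, rfl⟩
  have e1f : ∀ f, e1 f = c0 * D0 f + c1 * D1 f := by
    intro f
    rw [he1]
    simp
  have e2f : ∀ f, e2 f = d0 * D0 f + d1 * D1 f := by
    intro f
    rw [he2]
    simp
  obtain ⟨T1, hT1⟩ : ∃ T1 : Fin 3 → R, T1 = fun a => c0 * X0 a + c1 * X1 a := ⟨_, rfl⟩
  obtain ⟨T2, hT2⟩ : ∃ T2 : Fin 3 → R, T2 = fun a => d0 * X0 a + d1 * X1 a := ⟨_, rfl⟩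
  obtain ⟨N, hN⟩ : ∃ N : Fin 3 → R, N = fun a => Wi * cross X0 X1 a := ⟨_, rfl⟩
  have T1a : ∀ a, T1 a = c0 * X0 a + c1 * X1 a := fun a => congrFun hT1 a
  have T2a : ∀ a, T2 a = d0 * X0 a + d1 * X1 a := fun a => congrFun hT2 a
  have Na : ∀ a, N a = Wi * cross X0 X1 a := fun a => congrFun hN a
  have n0 : N 0 = Wi * (X0 1 * X1 2 - X0 2 * X1 1) := Na 0
  have n1 : N 1 = Wi * (X0 2 * X1 0 - X0 0 * X1 2) := Na 1
  have n2 : N 2 = Wi * (X0 0 * X1 1 - X0 1 * X1 0) := Na 2
  have hE' : E = X0 0 * X0 0 + X0 1 * X0 1 + X0 2 * X0 2 := hE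
  have hF' : F = X0 0 * X1 0 + X0 1 * X1 1 + X0 2 * X1 2 := hF
  have hG' : G = X1 0 * X1 0 + X1 1 * X1 1 + X1 2 * X1 2 := hG
  have d11 : dot T1 T1 = 1 := by
    unfold dot
    rw [T1a, T1a, T1a]
    linear_combination hc - c0 ^ 2 * hE' - 2 * c0 * c1 * hF' - c1 ^ 2 * hG'
  have d12 : dot T1 T2 = 0 := by
    unfold dot
    rw [T1a, T1a, T1a, T2a, T2a, T2a]
    linear_combination g12 - (c0 * d0) * hE' - (c0 * d1 + c1 * d0) * hF' - (c1 * d1) * hG'
  have d22 : dot T2 T2 = 1 := by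
    unfold dot
    rw [T2a, T2a, T2a]
    linear_combination g22 - d0 ^ 2 * hE' - 2 * d0 * d1 * hF' - d1 ^ 2 * hG'
  have d0N : dot X0 N = 0 := by
    unfold dot
    rw [n0, n1, n2]
    ring
  have dXN : dot X1 N = 0 := by
    unfold dot
    rw [n0, n1, n2]
    ring
  have d1N : dot T1 N = 0 := by
    unfold dot at d0N dXN ⊢
    rw [T1a, T1a, T1a]
    linear_combination c0 * d0N + c1 * dXN
  have d2N : dot T2 N = 0 := by
    unfold dot at d0N dXN ⊢
    rw [T2a, T2a, T2a]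
    linear_combination d0 * d0N + d1 * dXN
  have dNN : dot N N = 1 := by
    unfold dot
    rw [n0, n1, n2]
    rw [hE', hF', hG'] at hW4
    linear_combination hW4
  obtain ⟨α, hα⟩ : ∃ α : R, α = (c0 * D0 d0 + c1 * D1 d0) - (d0 * D0 c0 + d1 * D1 c0) := ⟨_, rfl⟩
  obtain ⟨β, hβ⟩ : ∃ β : R, β = (c0 * D0 d1 + c1 * D1 d1) - (d0 * D0 c1 + d1 * D1 c1) := ⟨_, rfl⟩
  have cm : ∀ f, e1 (e2 f) - e2 (e1 f) = α * D0 f + β * D1 f := by
    intro f
    rw [e2f f, e1f f, e1f, e2f, hα, hβ]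
    exact comm_of D0 D1 hcomm c0 c1 d0 d1 f
  have e1x : ∀ a, e1 (x a) = T1 a := by
    intro a
    rw [e1f, X0a, X1a, T1a]
  have e2x : ∀ a, e2 (x a) = T2 a := by
    intro a
    rw [e2f, X0a, X1a, T2a]
  have cx : ∀ a, e1 (T2 a) - e2 (T1 a) = α * X0 a + β * X1 a := by
    intro a
    rw [← e1x, ← e2x, cm, X0a, X1a]
  have hs : dot (fun a => e2 (T1 a)) N = dot (fun a => e1 (T2 a)) N := by
    have h0 := cx 0
    have h1 := cx 1
    have h2 := cx 2
    unfold dot at d0N dXN ⊢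
    linear_combination (-(N 0)) * h0 - (N 1) * h1 - (N 2) * h2 - α * d0N - β * dXN
  have full := full_of d11 d12 d22 d1N d2N dNN
  obtain ⟨k, m, l, p, q, T11, T12, T21, T22, N1, N2⟩ :=
    struct e1 e2 T1 T2 N d11 d12 d22 d1N d2N dNN full hs
  have key : ∀ a, (α + p * c0 - q * d0) * X0 a + (β + p * c1 - q * d1) * X1 a = 0 := by
    intro a
    have h := cx a
    rw [T12 a, T21 a, T1a, T2a] at h
    linear_combination -h
  have k0 := key 0
  have k1 := key 1
  have k2 := key 2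
  have r0 : (α + p * c0 - q * d0) * E + (β + p * c1 - q * d1) * F = 0 := by
    rw [hE', hF']
    linear_combination (X0 0) * k0 + (X0 1) * k1 + (X0 2) * k2
  have r1 : (α + p * c0 - q * d0) * F + (β + p * c1 - q * d1) * G = 0 := by
    rw [hF', hG']
    linear_combination (X1 0) * k0 + (X1 1) * k1 + (X1 2) * k2
  have hα2 : (c0 * D0 d0 + c1 * D1 d0) - (d0 * D0 c0 + d1 * D1 c0) = -p * c0 + q * d0 := by
    rw [← hα]
    linear_combination (-(α + p * c0 - q * d0)) * hW4 + (Wi ^ 2 * G) * r0 - (Wi ^ 2 * F) * r1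
  have hβ2 : (c0 * D0 d1 + c1 * D1 d1) - (d0 * D0 c1 + d1 * D1 c1) = -p * c1 + q * d1 := by
    rw [← hβ]
    linear_combination (-(β + p * c1 - q * d1)) * hW4 - (Wi ^ 2 * F) * r0 + (Wi ^ 2 * E) * r1
  have comm : ∀ f, e1 (e2 f) - e2 (e1 f) = -p * e1 f + q * e2 f := by
    intro f
    rw [cm, hα, hβ, hα2, hβ2, e1f, e2f]
    ring
  obtain ⟨cg1, cg2, cg3⟩ := cg e1 e2 T1 T2 N k m l p q comm T11 T12 T21 T22 N1 N2 d11 d12 d22 d1N
    d2N
  refine ⟨e1, e2, T1, T2, N, k, m, l, p, q,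
    ⟨comm, e1x, e2x, T11, T12, T21, T22, N1, N2, d11, d12, d22, d1N, d2N, dNN, full, cg1, cg2, cg3⟩,
    e1f, ?_, ?_, ?_⟩
  · intro f
    rw [e2f, hd0, hd1]
    ring
  · intro a
    rw [Na, hX0, hX1]
  · intro f
    have hGG : Wi * G = W * (c0 ^ 2 + d0 ^ 2) := by
      have h : G = W ^ 2 * (c0 ^ 2 + d0 ^ 2) := by
        rw [hd0]
        linear_combination (-G) * hc - (c0 ^ 2) * hW2 -
          (F * c0 + G * c1) ^ 2 * (W * Wi + 1) * hWW
      linear_combination Wi * h + W * (c0 ^ 2 + d0 ^ 2) * hWW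
    have hFF : Wi * F = -(W * (c0 * c1 + d0 * d1)) := by
      have h : F = -(W ^ 2 * (c0 * c1 + d0 * d1)) := by
        rw [hd0, hd1]
        linear_combination (-F) * hc + (c0 * c1) * hW2 -
          (F * c0 + G * c1) * (E * c0 + F * c1) * (W * Wi + 1) * hWW
      linear_combination Wi * h - W * (c0 * c1 + d0 * d1) * hWW
    have hEE : Wi * E = W * (c1 ^ 2 + d1 ^ 2) := by
      have h : E = W ^ 2 * (c1 ^ 2 + d1 ^ 2) := by
        rw [hd1]
        linear_combination (-E) * hc - (c1 ^ 2) * hW2 -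
          (E * c0 + F * c1) ^ 2 * (W * Wi + 1) * hWW
      linear_combination Wi * h + W * (c1 ^ 2 + d1 ^ 2) * hWW
    have i0 : Wi * (G * D0 f - F * D1 f) = W * (c0 * e1 f + d0 * e2 f) := by
      rw [e1f, e2f]
      linear_combination (D0 f) * hGG - (D1 f) * hFF
    have i1 : Wi * (E * D1 f - F * D0 f) = W * (c1 * e1 f + d1 * e2 f) := by
      rw [e1f, e2f]
      linear_combination (D1 f) * hEE - (D0 f) * hFF
    rw [i0, i1, ← lapl D0 D1 c0 c1 d0 d1 W Wi p q (e1 f) (e2 f) hWW hΔ hα2 hβ2, ← e1f, ← e2f]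
    rfl

end Pool.Agent.Work.MP_157c12_gt.TT

end

section

/-!
# Surfaces of 2-type: the local theorem
-/

open TopologicalSpace
open scoped Manifold ContDiff

namespace Pool.Agent.Work.MP_157c12_gt.TT

open Pool.Agent.Work.MP_157c12_gt

namespace ItemSL

lemma dot_ev {O : Opens (E 2)} (v w : Fin 3 → RR O) {p : E 2} (hp : p ∈ O) :
    ev (dot v w) p = ev (v 0) p * ev (w 0) p + ev (v 1) p * ev (w 1) p + ev (v 2) p * ev (w 2) p := by
  unfold dot
  rw [add_ev _ _ hp, add_ev _ _ hp, mul_ev _ _ hp, mul_ev _ _ hp, mul_ev _ _ hp]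

lemma fderiv_zero {O : Opens (E 2)} (f : RR O) (h0 : dR O 0 f = 0) (h1 : dR O 1 f = 0) {p : E 2}
    (hp : p ∈ O) : fderiv ℝ (ev f) p = 0 := by
  have k0 : fderiv ℝ (ev f) p (e2 0) = 0 := by rw [← dR_ev 0 f hp, h0, zero_ev hp]
  have k1 : fderiv ℝ (ev f) p (e2 1) = 0 := by rw [← dR_ev 1 f hp, h1, zero_ev hp]
  apply ContinuousLinearMap.ext
  intro v
  have hv : v = v 0 • e2 0 + v 1 • e2 1 := by
    ext i
    fin_cases i <;> simp [e2]
  rw [hv, map_add, map_smul, map_smul, k0, k1]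
  simp

end ItemSL

theorem sL (h1 : SF) (h2 : SN) (h3 : ST) (h4 : SU) (h5 : SL1) : SL := by
  intro O X a b hX hE hb
  obtain ⟨x, W, Wi, hx, hW, hWWi, hW2, hlap⟩ := h4 O X hX
  set D0 := dR O 0 with hD0
  set D1 := dR O 1 with hD1
  set EE : RR O := dot (fun a => D0 (x a)) (fun a => D0 (x a)) with hEE
  set FF : RR O := dot (fun a => D0 (x a)) (fun a => D1 (x a)) with hFF
  set GG : RR O := dot (fun a => D1 (x a)) (fun a => D1 (x a)) with hGG
  have hEnn : ∀ p ∈ O, 0 ≤ ev EE p := by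
    intro p hp
    rw [hEE, ItemSL.dot_ev _ _ hp]
    nlinarith [mul_self_nonneg (ev (D0 (x 0)) p), mul_self_nonneg (ev (D0 (x 1)) p),
      mul_self_nonneg (ev (D0 (x 2)) p)]
  have hEpos : ∀ p ∈ O, 0 < ev EE p := by
    intro p hp
    rcases (hEnn p hp).lt_or_eq with h | h
    · exact h
    · exfalso
      have e1 : ev (W ^ 2) p = ev (EE * GG - FF ^ 2) p := by rw [hW2]
      rw [pow_two, pow_two, mul_ev _ _ hp, sub_ev _ _ hp, mul_ev _ _ hp, mul_ev _ _ hp, ← h,
        zero_mul] at e1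
      have e2' := hW p hp
      nlinarith [mul_self_nonneg (ev FF p), mul_pos e2' e2']
  -- the inverse square root of `E`
  set c0 : RR O := mk (fun p => (Real.sqrt (ev EE p))⁻¹)
    (((smooth_ev EE).sqrt (fun p hp => (hEpos p hp).ne')).inv
      (fun p hp => (Real.sqrt_pos.mpr (hEpos p hp)).ne')) with hc0
  have hc0E : EE * c0 ^ 2 = 1 := by
    apply ext_ev
    intro p hp
    rw [pow_two, mul_ev _ _ hp, mul_ev _ _ hp, one_ev hp, hc0, mk_ev _ _ hp]
    have e1 : Real.sqrt (ev EE p) * Real.sqrt (ev EE p) = ev EE p :=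
      Real.mul_self_sqrt (hEnn p hp)
    have e3 : Real.sqrt (ev EE p) ≠ 0 := (Real.sqrt_pos.mpr (hEpos p hp)).ne'
    rw [← mul_inv, e1]
    exact mul_inv_cancel₀ (hEpos p hp).ne'
  obtain ⟨e1, e2', T1, T2, N, k, m, l, pp, qq, hFr, he1, he2, hN, hL⟩ :=
    h1 (RR O) D0 D1 x EE FF GG W Wi c0 0 (fun f => dR_comm O 0 1 f) hEE hFF hGG hW2 hWWi
      (by rw [hc0E]; ring)
  -- the Laplace operator
  have hlap' : ∀ (f : E 2 → ℝ) (g : RR O), (∀ p ∈ O, ev g p = f p) → ∀ p ∈ O,
      lap X f p = ev (lapE e1 e2' pp qq g) p := by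
    intro f g hfg p hp
    rw [hlap f g hfg p hp, hL g]
  have hLx : ∀ i, lapE e1 e2' pp qq (x i) = (k + l) * N i := h2 (RR O) e1 e2' x T1 T2 N k m l pp qq hFr
  have hlapx : ∀ i, ∀ p ∈ O, lap X (fun q => X q i) p = ev ((k + l) * N i) p := by
    intro i p hp
    rw [hlap' (fun q => X q i) (x i) (hx i) p hp, hLx]
  -- the mean curvature is constant
  have hh : ∀ i, dR O i (k + l) = 0 := by
    apply h5 O X a b hX hE hb x W Wi hx hW hWWi hW2 (k + l)
    intro p hp
    have e3 : ∀ i : Fin 3, lap X (fun q => X q i) p *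
        ev (Wi * cross (fun a => D0 (x a)) (fun a => D1 (x a)) i) p =
        ev (k + l) p * (ev (N i) p * ev (N i) p) := by
      intro i
      rw [hlapx i p hp, ← hN i, mul_ev _ _ hp]
      ring
    have e4 : ev (dot N N) p = 1 := by rw [hFr.dNN, one_ev hp]
    rw [ItemSL.dot_ev _ _ hp] at e4
    rw [Finset.sum_congr rfl (fun i _ => e3 i), Fin.sum_univ_three, ← mul_add, ← mul_add, e4,
      mul_one]
  have h1h : e1 (k + l) = 0 := by
    rw [he1, hD0, hD1, hh 0, hh 1]; ring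
  have h2h : e2' (k + l) = 0 := by
    rw [he2, hD0, hD1, hh 0, hh 1]; ring
  -- the equations
  have hTT := h3 (RR O) e1 e2' x T1 T2 N k m l pp qq a b hFr (by
    intro i
    apply ext_ev
    intro p hp
    rw [add_ev _ _ hp, add_ev _ _ hp, mul_ev _ _ hp, mul_ev _ _ hp, algebraMap_ev _ hp,
      algebraMap_ev _ hp, zero_ev hp, hx i p hp]
    have e3 := hE p hp i
    rw [hlap' (lap X fun q => X q i) (lapE e1 e2' pp qq (x i)) (fun q hq =>
      (hlap' (fun q => X q i) (x i) (hx i) q hq).symm) p hp,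
      hlap' (fun q => X q i) (x i) (hx i) p hp] at e3
    exact e3)
  rw [h1h, h2h] at hTT
  set r1 := dot x T1 with hr1
  set r2 := dot x T2 with hr2
  set s := dot x N with hs
  have hbu : ∀ f : RR O, algebraMap ℝ (RR O) b * f = 0 → f = 0 := by
    intro f hf
    have e3 : algebraMap ℝ (RR O) b⁻¹ * (algebraMap ℝ (RR O) b * f) = f := by
      rw [← mul_assoc, ← map_mul, inv_mul_cancel₀ hb, map_one, one_mul]
    rw [← e3, hf, mul_zero]
  have hr1z : r1 = 0 := hbu _ (by rw [← hTT.t1]; ring)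
  have hr2z : r2 = 0 := hbu _ (by rw [← hTT.t2]; ring)
  have hsk : 1 + s * k = 0 := by
    have e3 := hTT.r11
    rw [hr1z, hr2z, map_zero] at e3
    rw [mul_zero, add_zero] at e3
    exact e3.symm
  have hsl : 1 + s * l = 0 := by
    have e3 := hTT.r22
    rw [hr1z, hr2z, map_zero] at e3
    rw [mul_zero, add_zero] at e3
    exact e3.symm
  set rr : RR O := algebraMap ℝ (RR O) (1 / 2) * dot x x with hrr
  have hc0u : ∀ f : RR O, c0 * f = 0 → f = 0 := by
    intro f hf
    have e3 : EE * c0 * (c0 * f) = f := by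
      have : EE * c0 * (c0 * f) = (EE * c0 ^ 2) * f := by ring
      rw [this, hc0E, one_mul]
    rw [← e3, hf, mul_zero]
  have hD0r : D0 rr = 0 := by
    apply hc0u
    have e3 := hTT.e1r
    rw [hr1z, he1] at e3
    rw [← e3]; ring
  have hD1r : D1 rr = 0 := by
    have e3 := hTT.e2r
    rw [hr2z, he2, hD0r] at e3
    have e4 : D1 rr = (W * Wi) * (EE * c0 ^ 2) * D1 rr := by rw [hWWi, hc0E]; ring
    rw [e4]
    have e5 : W * Wi * (EE * c0 ^ 2) * D1 rr =
        W * c0 * (Wi * ((EE * c0 + FF * 0) * D1 rr - (FF * c0 + GG * 0) * 0)) := by ring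
    rw [e5, e3, mul_zero]
  -- the norm
  have hnorm : ∀ q ∈ O, ‖X q‖ ^ 2 = ev (dot x x) q := by
    intro q hq
    rw [EuclideanSpace.norm_sq_eq, Fin.sum_univ_three, ItemSL.dot_ev _ _ hq, hx 0 q hq, hx 1 q hq,
      hx 2 q hq]
    simp only [Real.norm_eq_abs, sq_abs]
    ring
  have hdot : dot x x = 2 * rr := by
    rw [hrr, ← mul_assoc]
    have e3 : (2 : RR O) * algebraMap ℝ (RR O) (1 / 2) = 1 := by
      rw [show (2 : RR O) = algebraMap ℝ (RR O) 2 by rw [map_ofNat], ← map_mul]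
      norm_num
    rw [e3, one_mul]
  intro p hp
  constructor
  · have e3 : (fun q => ‖X q‖ ^ 2) =ᶠ[nhds p] ev (dot x x) :=
      Filter.eventually_of_mem (O.isOpen.mem_nhds hp) fun q hq => hnorm q hq
    rw [e3.fderiv_eq]
    have hd0 : ∀ D : Derivation ℝ (RR O) (RR O), D rr = 0 → D (dot x x) = 0 := by
      intro D hD
      rw [hdot, D.leibniz, hD]
      have : D (2 : RR O) = 0 := by
        rw [show (2 : RR O) = algebraMap ℝ (RR O) 2 by rw [map_ofNat]]
        exact D.map_algebraMap 2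
      rw [this]
      simp
    exact ItemSL.fderiv_zero (dot x x) (hd0 D0 hD0r) (hd0 D1 hD1r) hp
  · intro i
    rw [hnorm p hp, hlapx i p hp, ← hx i p hp, ← mul_ev _ _ hp]
    have hs2 : dot x x = s ^ 2 := by
      have e3 := hTT.norm
      rw [hr1z, hr2z] at e3
      rw [hdot, ← e3]; ring
    have hxi : x i = s * N i := by
      have e3 : ∀ j, x j * (T1 i * T1 j + T2 i * T2 j + N i * N j) =
          if i = j then x j else 0 := by
        intro j
        rw [hFr.full i j]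
        split_ifs <;> ring
      have e4 : x i = ∑ j, x j * (T1 i * T1 j + T2 i * T2 j + N i * N j) := by
        rw [Finset.sum_congr rfl (fun j _ => e3 j), Finset.sum_ite_eq]
        simp
      rw [e4, Fin.sum_univ_three]
      have e5 : x 0 * (T1 i * T1 0 + T2 i * T2 0 + N i * N 0) +
          x 1 * (T1 i * T1 1 + T2 i * T2 1 + N i * N 1) +
          x 2 * (T1 i * T1 2 + T2 i * T2 2 + N i * N 2) =
          r1 * T1 i + r2 * T2 i + s * N i := by
        rw [hr1, hr2, hs]; unfold dot; ring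
      rw [e5, hr1z, hr2z]; ring
    have e6 : dot x x * ((k + l) * N i) = algebraMap ℝ (RR O) (-2) * x i := by
      rw [hs2, hxi]
      have e7 : s ^ 2 * ((k + l) * N i) = s * (s * k + s * l) * N i := by ring
      have e8 : s * k = -1 := by linear_combination hsk
      have e9 : s * l = -1 := by linear_combination hsl
      rw [e7, e8, e9]
      have e10 : algebraMap ℝ (RR O) (-2) = -2 := by rw [map_neg, map_ofNat]
      rw [e10]; ring
    rw [e6, mul_ev _ _ hp, algebraMap_ev _ hp]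

end Pool.Agent.Work.MP_157c12_gt.TT

end

section

/-!
# Surfaces of 2-type: the scalar equations
-/

namespace Pool.Agent.Work.MP_157c12_gt.TT

namespace ItemST

variable {R : Type} [CommRing R] [Algebra ℝ R]

lemma half2 : algebraMap ℝ R (1 / 2) * 2 = 1 := by
  have h2 : (2 : R) = algebraMap ℝ R 2 := (map_ofNat (algebraMap ℝ R) 2).symm
  rw [h2, ← map_mul]
  norm_num

lemma der_c (e : Derivation ℝ R R) (c : ℝ) (f : R) :
    e (algebraMap ℝ R c * f) = algebraMap ℝ R c * e f := by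
  rw [Derivation.leibniz, Derivation.map_algebraMap]
  simp [smul_eq_mul]

lemma der_mul (e : Derivation ℝ R R) (f g : R) : e (f * g) = f * e g + g * e f := by
  rw [Derivation.leibniz]
  simp [smul_eq_mul]

lemma der_dot (e : Derivation ℝ R R) (v w : Fin 3 → R) :
    e (dot v w) = dot v (fun a => e (w a)) + dot w (fun a => e (v a)) := by
  simp only [dot, map_add, der_mul]
  ring

end ItemST

open ItemST in
theorem sT (h : SN) : ST := by
  intro R _ _ e1 e2 x T1 T2 N k m l p q a b hF hE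
  have hlap := h R e1 e2 x T1 T2 N k m l p q hF
  have d11 := hF.d11
  have d12 := hF.d12
  have d22 := hF.d22
  have d1N := hF.d1N
  have d2N := hF.d2N
  have dNN := hF.dNN
  have x1 := hF.x1
  have x2 := hF.x2
  have T11 := hF.T11
  have T12 := hF.T12
  have T21 := hF.T21
  have T22 := hF.T22
  have N1 := hF.N1
  have N2 := hF.N2
  have cd1 := hF.codazzi1
  have cd2 := hF.codazzi2
  simp only [dot] at d11 d12 d22 d1N d2N dNN
  -- the vector equation
  have key : ∀ i, -((k + l) * e1 (k + l) + 2 * (k * e1 (k + l) + m * e2 (k + l))) * T1 i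
      - ((k + l) * e2 (k + l) + 2 * (m * e1 (k + l) + l * e2 (k + l))) * T2 i
      + (e1 (e1 (k + l)) + e2 (e2 (k + l)) - q * e1 (k + l) - p * e2 (k + l)
        - (k + l) * (k ^ 2 + 2 * m ^ 2 + l ^ 2) + algebraMap ℝ R a * (k + l)) * N i
      + algebraMap ℝ R b * x i = 0 := by
    intro i
    have h1 := hE i
    rw [hlap i] at h1
    simp only [lapE, der_mul, map_add, map_sub, map_neg, neg_mul, N1, N2, T11, T12, T21, T22] at h1
    simp only [map_add]
    linear_combination h1 + (k + l) * T2 i * cd1 - (k + l) * T1 i * cd2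
  refine ⟨hF.comm, cd1, cd2, hF.gauss, (map_add _ _ _).symm, (map_add _ _ _).symm, ?_, ?_, ?_, ?_,
    ?_, ?_, ?_, ?_, ?_, ?_, ?_, ?_⟩
  · rw [der_c, der_dot]
    simp only [dot, x1]
    linear_combination (x 0 * T1 0 + x 1 * T1 1 + x 2 * T1 2) * half2 (R := R)
  · rw [der_c, der_dot]
    simp only [dot, x2]
    linear_combination (x 0 * T2 0 + x 1 * T2 1 + x 2 * T2 2) * half2 (R := R)
  · rw [der_dot]
    simp only [dot, x1, T11]
    linear_combination d11
  · rw [der_dot]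
    simp only [dot, x1, T12]
    linear_combination d12
  · rw [der_dot]
    simp only [dot, x2, T21]
    linear_combination d12
  · rw [der_dot]
    simp only [dot, x2, T22]
    linear_combination d22
  · rw [der_dot]
    simp only [dot, x1, N1]
    linear_combination d1N
  · rw [der_dot]
    simp only [dot, x2, N2]
    linear_combination d2N
  · have f00 := hF.full 0 0
    have f01 := hF.full 0 1
    have f02 := hF.full 0 2
    have f11 := hF.full 1 1
    have f12 := hF.full 1 2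
    have f22 := hF.full 2 2
    simp only [if_true, Fin.isValue, zero_ne_one, if_false, Fin.reduceEq] at f00 f01 f02 f11 f12 f22
    simp only [dot]
    linear_combination (x 0 * x 0) * f00 + (x 1 * x 1) * f11 + (x 2 * x 2) * f22
      + 2 * (x 0 * x 1) * f01 + 2 * (x 0 * x 2) * f02 + 2 * (x 1 * x 2) * f12
      - (x 0 * x 0 + x 1 * x 1 + x 2 * x 2) * half2 (R := R)
  · simp only [dot]
    have k0 := key 0
    have k1 := key 1
    have k2 := key 2
    linear_combination (-T1 0) * k0 - T1 1 * k1 - T1 2 * k2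
      - ((k + l) * e1 (k + l) + 2 * (k * e1 (k + l) + m * e2 (k + l))) * d11
      - ((k + l) * e2 (k + l) + 2 * (m * e1 (k + l) + l * e2 (k + l))) * d12
      + (e1 (e1 (k + l)) + e2 (e2 (k + l)) - q * e1 (k + l) - p * e2 (k + l)
        - (k + l) * (k ^ 2 + 2 * m ^ 2 + l ^ 2) + algebraMap ℝ R a * (k + l)) * d1N
  · simp only [dot]
    have k0 := key 0
    have k1 := key 1
    have k2 := key 2
    linear_combination (-T2 0) * k0 - T2 1 * k1 - T2 2 * k2
      - ((k + l) * e1 (k + l) + 2 * (k * e1 (k + l) + m * e2 (k + l))) * d12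
      - ((k + l) * e2 (k + l) + 2 * (m * e1 (k + l) + l * e2 (k + l))) * d22
      + (e1 (e1 (k + l)) + e2 (e2 (k + l)) - q * e1 (k + l) - p * e2 (k + l)
        - (k + l) * (k ^ 2 + 2 * m ^ 2 + l ^ 2) + algebraMap ℝ R a * (k + l)) * d2N
  · simp only [dot]
    have k0 := key 0
    have k1 := key 1
    have k2 := key 2
    linear_combination N 0 * k0 + N 1 * k1 + N 2 * k2
      + ((k + l) * e1 (k + l) + 2 * (k * e1 (k + l) + m * e2 (k + l))) * d1N
      + ((k + l) * e2 (k + l) + 2 * (m * e1 (k + l) + l * e2 (k + l))) * d2N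
      - (e1 (e1 (k + l)) + e2 (e2 (k + l)) - q * e1 (k + l) - p * e2 (k + l)
        - (k + l) * (k ^ 2 + 2 * m ^ 2 + l ^ 2) + algebraMap ℝ R a * (k + l)) * dNN

end Pool.Agent.Work.MP_157c12_gt.TT

end

section

/-!
# Item SU: the first fundamental form and the Laplace operator in the ring of smooth functions
-/

open TopologicalSpace
open scoped Manifold ContDiff

namespace Pool.Agent.Work.MP_157c12_gt.TT

open Pool.Agent.Work.MP_157c12_gt

namespace ItemSU

/-- derivatives of functions which agree with a ring element on `O` -/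
lemma pd_eq {O : Opens (E 2)} (i : Fin 2) (g : RR O) (f : E 2 → ℝ) (h : ∀ p ∈ O, f p = ev g p)
    {p : E 2} (hp : p ∈ O) : pd i f p = ev (dR O i g) p := by
  rw [dR_ev i g hp, pd]
  have h1 : f =ᶠ[nhds p] ev g :=
    Filter.eventually_of_mem (O.isOpen.mem_nhds hp) fun q hq => h q hq
  rw [h1.fderiv_eq]
  rfl

lemma dot_ev {O : Opens (E 2)} (v w : Fin 3 → RR O) {p : E 2} (hp : p ∈ O) :
    ev (dot v w) p = ev (v 0) p * ev (w 0) p + ev (v 1) p * ev (w 1) p + ev (v 2) p * ev (w 2) p := by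
  rw [dot, add_ev _ _ hp, add_ev _ _ hp, mul_ev _ _ hp, mul_ev _ _ hp, mul_ev _ _ hp]

/-- the position vector -/
noncomputable def xx {O : Opens (E 2)} {X : E 2 → E 3} (h : PatchR O X) (a : Fin 3) : RR O :=
  mk (fun q => X q a) (h.smooth a)

lemma gram_ev {O : Opens (E 2)} {X : E 2 → E 3} (h : PatchR O X) (i j : Fin 2) {p : E 2}
    (hp : p ∈ O) : gram X p i j =
      ev (dot (fun a => dR O i (xx h a)) (fun a => dR O j (xx h a))) p := by
  rw [dot_ev _ _ hp]
  have h1 : ∀ (i : Fin 2) (a : Fin 3), pd i (fun q => X q a) p = ev (dR O i (xx h a)) p := by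
    intro i a
    refine pd_eq i (xx h a) _ ?_ hp
    intro q hq
    rw [xx, mk_ev _ _ hq]
  simp only [gram, Matrix.of_apply, Fin.sum_univ_three, h1]

/-- the determinant -/
noncomputable def dd {O : Opens (E 2)} {X : E 2 → E 3} (h : PatchR O X) : RR O :=
  dot (fun a => dR O 0 (xx h a)) (fun a => dR O 0 (xx h a)) *
      dot (fun a => dR O 1 (xx h a)) (fun a => dR O 1 (xx h a))
      - dot (fun a => dR O 0 (xx h a)) (fun a => dR O 1 (xx h a)) ^ 2

lemma det_ev {O : Opens (E 2)} {X : E 2 → E 3} (h : PatchR O X) {p : E 2} (hp : p ∈ O) :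
    (gram X p).det = ev (dd h) p := by
  rw [Matrix.det_fin_two, gram_ev h 0 0 hp, gram_ev h 1 1 hp, gram_ev h 0 1 hp, gram_ev h 1 0 hp,
    dd, sub_ev _ _ hp, mul_ev _ _ hp, pow_two, mul_ev _ _ hp]
  congr 2
  rw [dot_ev _ _ hp, dot_ev _ _ hp]
  ring

lemma sm {O : Opens (E 2)} {X : E 2 → E 3} (h : PatchR O X) :
    ContDiffOn ℝ ∞ (fun q => √(gram X q).det) O := by
  have h1 : ContDiffOn ℝ ∞ (fun q => √(ev (dd h) q)) O := by
    refine ContDiffOn.sqrt (smooth_ev (dd h)) ?_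
    intro q hq
    rw [← det_ev h hq]
    exact (h.imm q hq).ne'
  refine h1.congr ?_
  intro q hq
  rw [det_ev h hq]

lemma ne0 {O : Opens (E 2)} {X : E 2 → E 3} (h : PatchR O X) :
    ∀ q ∈ O, 0 < √(gram X q).det := fun q hq => Real.sqrt_pos.2 (h.imm q hq)

/-- the area element -/
noncomputable def WW {O : Opens (E 2)} {X : E 2 → E 3} (h : PatchR O X) : RR O :=
  mk (fun q => √(gram X q).det) (sm h)

/-- its inverse -/
noncomputable def WI {O : Opens (E 2)} {X : E 2 → E 3} (h : PatchR O X) : RR O :=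
  mk (fun q => (√(gram X q).det)⁻¹) ((sm h).inv fun q hq => (ne0 h q hq).ne')

lemma flux {O : Opens (E 2)} {X : E 2 → E 3} (h : PatchR O X) (f : E 2 → ℝ) (g : RR O)
    (hg : ∀ p ∈ O, ev g p = f p) {q : E 2} (hq : q ∈ O) :
    (√(gram X q).det * ∑ j, (gram X q)⁻¹ 0 j * pd j f q =
      ev (WI h * (dot (fun a => dR O 1 (xx h a)) (fun a => dR O 1 (xx h a)) * dR O 0 g
          - dot (fun a => dR O 0 (xx h a)) (fun a => dR O 1 (xx h a)) * dR O 1 g)) q) ∧
    (√(gram X q).det * ∑ j, (gram X q)⁻¹ 1 j * pd j f q =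
      ev (WI h * (dot (fun a => dR O 0 (xx h a)) (fun a => dR O 0 (xx h a)) * dR O 1 g
          - dot (fun a => dR O 0 (xx h a)) (fun a => dR O 1 (xx h a)) * dR O 0 g)) q) := by
  have hd := h.imm q hq
  have hs : √(gram X q).det * (gram X q).det⁻¹ = (√(gram X q).det)⁻¹ := by
    have h1 := ne0 h q hq
    have h2 : √(gram X q).det * √(gram X q).det = (gram X q).det := Real.mul_self_sqrt hd.le
    field_simp
    rw [pow_two, h2]
  have hinv : (gram X q)⁻¹ = (gram X q).det⁻¹ • (gram X q).adjugate := by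
    rw [Matrix.inv_def, Ring.inverse_eq_inv']
  have hpd : ∀ j : Fin 2, pd j f q = ev (dR O j g) q := fun j =>
    pd_eq j g f (fun p hp => (hg p hp).symm) hq
  have hsym : gram X q 1 0 = gram X q 0 1 := by
    rw [gram_ev h 1 0 hq, gram_ev h 0 1 hq, dot_ev _ _ hq, dot_ev _ _ hq]
    ring
  have hWI : ev (WI h) q = (√(gram X q).det)⁻¹ := mk_ev _ _ hq
  rw [hinv, Matrix.adjugate_fin_two]
  simp only [Fin.sum_univ_two, Matrix.smul_apply, Matrix.of_apply, Matrix.cons_val_zero,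
    Matrix.cons_val_one, Matrix.cons_val', Matrix.cons_val_fin_one, smul_eq_mul, hpd, hsym]
  rw [mul_ev _ _ hq, sub_ev _ _ hq, mul_ev _ _ hq, mul_ev _ _ hq, ← gram_ev h 1 1 hq,
    ← gram_ev h 0 1 hq, mul_ev _ _ hq, sub_ev _ _ hq, mul_ev _ _ hq, mul_ev _ _ hq,
    ← gram_ev h 0 0 hq, ← gram_ev h 0 1 hq, hWI, ← hs]
  constructor <;> ring

end ItemSU

open ItemSU in
theorem sU : SU := by
  intro O X h
  refine ⟨xx h, WW h, WI h, ?_, ?_, ?_, ?_, ?_⟩
  · intro a p hp
    exact mk_ev _ _ hp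
  · intro p hp
    rw [WW, mk_ev _ _ hp]
    exact ne0 h p hp
  · apply ext_ev
    intro p hp
    rw [mul_ev _ _ hp, one_ev hp, WW, WI, mk_ev _ _ hp, mk_ev _ _ hp]
    exact mul_inv_cancel₀ (ne0 h p hp).ne'
  · apply ext_ev
    intro p hp
    rw [pow_two, mul_ev _ _ hp, WW, mk_ev _ _ hp, Real.mul_self_sqrt (h.imm p hp).le, det_ev h hp]
    rfl
  · intro f g hg p hp
    rw [lap, Fin.sum_univ_two]
    rw [pd_eq 0 _ _ (fun q hq => (flux h f g hg hq).1) hp,
      pd_eq 1 _ _ (fun q hq => (flux h f g hg hq).2) hp]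
    rw [mul_ev _ _ hp, add_ev _ _ hp]
    congr 1
    rw [WI, mk_ev _ _ hp]

end Pool.Agent.Work.MP_157c12_gt.TT

end

section

/-!
# Item SZ3: the mean curvature of a surface of null 2-type is constant
-/

open TopologicalSpace
open scoped Manifold ContDiff

namespace Pool.Agent.Work.MP_157c12_gt.TT

open Pool.Agent.Work.MP_157c12_gt
open ItemSL1

theorem sZ3 (h1 : SF) (h2 : SN) (h3 : ST) (h6 : SZ1) (h7 : SU) : SZ3 := by
  intro O X a hX hEq x W Wi hx hW hWi hW2 h hh
  -- the Laplace operator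
  obtain ⟨x', W', Wi', hx', hW', hWi', hW2', hL⟩ := h7 O X hX
  have exx : x' = x := by
    funext i
    apply ext_ev
    intro p hp
    rw [hx' i p hp, hx i p hp]
  subst exx
  have eW : W' = W := by
    apply ext_ev
    intro p hp
    have e1 : ev W' p ^ 2 = ev W p ^ 2 := by
      have := congrArg (evH hp) (hW2'.trans hW2.symm)
      rw [map_pow, map_pow, evH_apply, evH_apply] at this
      exact this
    exact (pow_left_inj₀ (hW' p hp).le (hW p hp).le (by norm_num)).1 e1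
  subst eW
  have eWi : Wi' = Wi := by
    calc Wi' = Wi' * (W' * Wi) := by rw [hWi, mul_one]
      _ = (W' * Wi') * Wi := by ring
      _ = Wi := by rw [hWi', one_mul]
  subst eWi
  have hL' : ∀ (f : E 2 → ℝ) (g : RR O), (∀ p ∈ O, ev g p = f p) → ∀ p ∈ O,
      lap X f p = ev (Lp (dR O 0) (dR O 1) x' Wi' g) p := hL
  have hLx : ∀ i, ∀ p ∈ O, ev (Lp (dR O 0) (dR O 1) x' Wi' (x' i)) p =
      lap X (fun q => X q i) p := fun i p hp => (hL' _ _ (hx i) p hp).symm
  have hD : Dat (dR O 0) (dR O 1) a 0 x' W' Wi' h := by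
    refine ⟨dR_comm O 0 1, hWi, hW2, ?_, ?_⟩
    · intro i
      apply ext_ev
      intro p hp
      rw [add_ev _ _ hp, add_ev _ _ hp, mul_ev _ _ hp, mul_ev _ _ hp, algebraMap_ev a hp,
        algebraMap_ev 0 hp, zero_ev hp, hLx i p hp, hx i p hp]
      have e := hL' (lap X fun q => X q i) _ (hLx i) p hp
      rw [← e]
      exact hEq p hp i
    · apply ext_ev
      intro p hp
      rw [hh p hp, ← evH_apply hp, map_sum]
      refine Finset.sum_congr rfl fun i _ => ?_
      rw [map_mul, evH_apply, evH_apply, hLx i p hp]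
  -- the contradiction
  by_contra hcon
  push Not at hcon
  obtain ⟨i, hi⟩ := hcon
  set G2 : RR O := dR O 0 h ^ 2 + dR O 1 h ^ 2 with hG2
  obtain ⟨p0, hp0O, hp0⟩ : ∃ p ∈ O, ev G2 p ≠ 0 := by
    obtain ⟨p, hp, hne⟩ := exists_ne hi
    refine ⟨p, hp, ?_⟩
    rw [hG2, ev_sq_sum hp]
    intro h0
    have e0 := sq_nonneg (ev (dR O 0 h) p)
    have e1 := sq_nonneg (ev (dR O 1 h) p)
    apply hne
    rcases (show i = 0 ∨ i = 1 by fin_cases i <;> simp) with rfl | rfl
    · exact (pow_eq_zero_iff (two_ne_zero)).1 (le_antisymm (by linarith) e0)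
    · exact (pow_eq_zero_iff (two_ne_zero)).1 (le_antisymm (by linarith) e1)
  set U := nz G2 with hU
  have hUO : U ≤ O := nz_le G2
  have hp0U : p0 ∈ U := mem_nz hp0O hp0
  have hDU := hD.map (res hUO) (F0 := dR U 0) (F1 := dR U 1) (res_dR hUO 0) (res_dR hUO 1)
    (dR_comm U 0 1)
  obtain ⟨nu, nuI, hnu, hnu2⟩ := exists_nu hDU (by
    intro p hp
    rw [ev_sq_sum hp, ← res_dR, ← res_dR, ev_res hUO _ hp, ev_res hUO _ hp,
      ← ev_sq_sum (hUO hp)]
    exact ne_of_mem_nz hp)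
  obtain ⟨e1, e2, k, m, l, p, q, s, r1, r2, hT, he1, he2⟩ := keyAlg h1 h2 h3 hDU hnu hnu2
  have hnuu : IsUnit nu := IsUnit.of_mul_eq_one _ hnu
  have hkl0 : k + l = 0 := h6 (RR U) e1 e2 k m l p q nu _ s r1 r2 a hT hnuu
  have hz : nu = 0 := by
    rw [← hT.e1h, ← map_add, hkl0, map_zero]
  rw [hz, zero_mul] at hnu
  have := congrArg (evH hp0U) hnu
  rw [map_zero, map_one] at this
  exact zero_ne_one this

end Pool.Agent.Work.MP_157c12_gt.TT

end

section

/-!
# Surfaces of null 2-type: the length of the second component is locally constant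
-/

open TopologicalSpace
open scoped Manifold ContDiff RealInnerProductSpace

namespace Pool.Agent.Work.MP_157c12_gt.TT

open Pool.Agent.Work.MP_157c12_gt

namespace ItemSZ4

lemma dot_ev {O : Opens (E 2)} (v w : Fin 3 → RR O) {p : E 2} (hp : p ∈ O) :
    ev (dot v w) p = ev (v 0) p * ev (w 0) p + ev (v 1) p * ev (w 1) p + ev (v 2) p * ev (w 2) p := by
  unfold dot
  rw [add_ev _ _ hp, add_ev _ _ hp, mul_ev _ _ hp, mul_ev _ _ hp, mul_ev _ _ hp]

lemma fderiv_zero {O : Opens (E 2)} (f : RR O) (h0 : dR O 0 f = 0) (h1 : dR O 1 f = 0) {p : E 2}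
    (hp : p ∈ O) : fderiv ℝ (ev f) p = 0 := by
  have k0 : fderiv ℝ (ev f) p (e2 0) = 0 := by rw [← dR_ev 0 f hp, h0, zero_ev hp]
  have k1 : fderiv ℝ (ev f) p (e2 1) = 0 := by rw [← dR_ev 1 f hp, h1, zero_ev hp]
  apply ContinuousLinearMap.ext
  intro v
  have hv : v = v 0 • e2 0 + v 1 • e2 1 := by
    ext i
    fin_cases i <;> simp [e2]
  rw [hv, map_add, map_smul, map_smul, k0, k1]
  simp

section Alg

variable {R : Type} [CommRing R] [Algebra ℝ R]

lemma lapE_add (e1 e2 : Derivation ℝ R R) (p q f g : R) :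
    lapE e1 e2 p q (f + g) = lapE e1 e2 p q f + lapE e1 e2 p q g := by
  unfold lapE
  simp only [map_add]
  ring

lemma D_alg (D : Derivation ℝ R R) (c : ℝ) (g : R) :
    D (algebraMap ℝ R c * g) = algebraMap ℝ R c * D g := by
  rw [D.leibniz, D.map_algebraMap, smul_zero, add_zero, smul_eq_mul]

lemma lapE_smul (e1 e2 : Derivation ℝ R R) (p q f : R) (c : ℝ) :
    lapE e1 e2 p q (algebraMap ℝ R c * f) = algebraMap ℝ R c * lapE e1 e2 p q f := by
  unfold lapE
  rw [D_alg, D_alg, D_alg, D_alg]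
  ring

end Alg

end ItemSZ4

theorem sZ4 (h1 : SF) (h2 : SN) (h7 : SU) (h8 : SZ3) : SZ4 := by
  intro O X Y1 Y2 lam hlam hX hs1 hs2 hsum hl1 hl2
  obtain ⟨x, W, Wi, hx, hW, hWWi, hW2, hlap⟩ := h7 O X hX
  set D0 := dR O 0 with hD0
  set D1 := dR O 1 with hD1
  set EE : RR O := dot (fun a => D0 (x a)) (fun a => D0 (x a)) with hEE
  set FF : RR O := dot (fun a => D0 (x a)) (fun a => D1 (x a)) with hFF
  set GG : RR O := dot (fun a => D1 (x a)) (fun a => D1 (x a)) with hGG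
  have hEnn : ∀ p ∈ O, 0 ≤ ev EE p := by
    intro p hp
    rw [hEE, ItemSZ4.dot_ev _ _ hp]
    nlinarith [mul_self_nonneg (ev (D0 (x 0)) p), mul_self_nonneg (ev (D0 (x 1)) p),
      mul_self_nonneg (ev (D0 (x 2)) p)]
  have hEpos : ∀ p ∈ O, 0 < ev EE p := by
    intro p hp
    rcases (hEnn p hp).lt_or_eq with h | h
    · exact h
    · exfalso
      have e1 : ev (W ^ 2) p = ev (EE * GG - FF ^ 2) p := by rw [hW2]
      rw [pow_two, pow_two, mul_ev _ _ hp, sub_ev _ _ hp, mul_ev _ _ hp, mul_ev _ _ hp, ← h,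
        zero_mul] at e1
      have e2' := hW p hp
      nlinarith [mul_self_nonneg (ev FF p), mul_pos e2' e2']
  -- the inverse square root of `E`
  set c0 : RR O := mk (fun p => (Real.sqrt (ev EE p))⁻¹)
    (((smooth_ev EE).sqrt (fun p hp => (hEpos p hp).ne')).inv
      (fun p hp => (Real.sqrt_pos.mpr (hEpos p hp)).ne')) with hc0
  have hc0E : EE * c0 ^ 2 = 1 := by
    apply ext_ev
    intro p hp
    rw [pow_two, mul_ev _ _ hp, mul_ev _ _ hp, one_ev hp, hc0, mk_ev _ _ hp]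
    have e1 : Real.sqrt (ev EE p) * Real.sqrt (ev EE p) = ev EE p :=
      Real.mul_self_sqrt (hEnn p hp)
    have e3 : Real.sqrt (ev EE p) ≠ 0 := (Real.sqrt_pos.mpr (hEpos p hp)).ne'
    rw [← mul_inv, e1]
    exact mul_inv_cancel₀ (hEpos p hp).ne'
  obtain ⟨e1, e2', T1, T2, N, k, m, l, pp, qq, hFr, he1, he2, hN, hL⟩ :=
    h1 (RR O) D0 D1 x EE FF GG W Wi c0 0 (fun f => dR_comm O 0 1 f) hEE hFF hGG hW2 hWWi
      (by rw [hc0E]; ring)
  -- the Laplace operator
  have hlap' : ∀ (f : E 2 → ℝ) (g : RR O), (∀ p ∈ O, ev g p = f p) → ∀ p ∈ O,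
      lap X f p = ev (lapE e1 e2' pp qq g) p := by
    intro f g hfg p hp
    rw [hlap f g hfg p hp, hL g]
  have hLx : ∀ i, lapE e1 e2' pp qq (x i) = (k + l) * N i := h2 (RR O) e1 e2' x T1 T2 N k m l pp qq hFr
  have hlapx : ∀ i, ∀ p ∈ O, lap X (fun q => X q i) p = ev ((k + l) * N i) p := by
    intro i p hp
    rw [hlap' (fun q => X q i) (x i) (hx i) p hp, hLx]
  -- the two components
  set y1 : Fin 3 → RR O := fun i => mk (fun q => Y1 q i) (hs1 i) with hy1d
  set y2 : Fin 3 → RR O := fun i => mk (fun q => Y2 q i) (hs2 i) with hy2d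
  have hy1 : ∀ i, ∀ p ∈ O, ev (y1 i) p = Y1 p i := fun i p hp => mk_ev _ _ hp
  have hy2 : ∀ i, ∀ p ∈ O, ev (y2 i) p = Y2 p i := fun i p hp => mk_ev _ _ hp
  have hxy : ∀ i, x i = y1 i + y2 i := by
    intro i
    apply ext_ev
    intro p hp
    rw [add_ev _ _ hp, hx i p hp, hy1 i p hp, hy2 i p hp, hsum p hp]
    rfl
  have hLy1 : ∀ i, lapE e1 e2' pp qq (y1 i) = 0 := by
    intro i
    apply ext_ev
    intro p hp
    rw [← hlap' (fun q => Y1 q i) (y1 i) (hy1 i) p hp, hl1 p hp i, zero_ev hp]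
  have hLy2 : ∀ i, lapE e1 e2' pp qq (y2 i) = algebraMap ℝ (RR O) lam * y2 i := by
    intro i
    apply ext_ev
    intro p hp
    rw [← hlap' (fun q => Y2 q i) (y2 i) (hy2 i) p hp, hl2 p hp i, mul_ev _ _ hp,
      algebraMap_ev _ hp, hy2 i p hp]
  have hLx2 : ∀ i, lapE e1 e2' pp qq (x i) = algebraMap ℝ (RR O) lam * y2 i := by
    intro i
    rw [hxy i, ItemSZ4.lapE_add, hLy1, hLy2, zero_add]
  have hkN : ∀ i, algebraMap ℝ (RR O) lam * y2 i = (k + l) * N i := by
    intro i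
    rw [← hLx2, hLx]
  have hE4 : Eq4 O X (-lam) 0 := by
    intro p hp i
    rw [hlap' (lap X fun q => X q i) (lapE e1 e2' pp qq (x i)) (fun q hq =>
      (hlap' (fun q => X q i) (x i) (hx i) q hq).symm) p hp,
      hlap' (fun q => X q i) (x i) (hx i) p hp, hLx2 i, ItemSZ4.lapE_smul, hLy2 i,
      mul_ev _ _ hp, algebraMap_ev _ hp]
    ring
  -- the mean curvature is constant
  have hh : ∀ i, dR O i (k + l) = 0 := by
    apply h8 O X (-lam) hX hE4 x W Wi hx hW hWWi hW2 (k + l)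
    intro p hp
    have e3 : ∀ i : Fin 3, lap X (fun q => X q i) p *
        ev (Wi * cross (fun a => D0 (x a)) (fun a => D1 (x a)) i) p =
        ev (k + l) p * (ev (N i) p * ev (N i) p) := by
      intro i
      rw [hlapx i p hp, ← hN i, mul_ev _ _ hp]
      ring
    have e4 : ev (dot N N) p = 1 := by rw [hFr.dNN, one_ev hp]
    rw [ItemSZ4.dot_ev _ _ hp] at e4
    rw [Finset.sum_congr rfl (fun i _ => e3 i), Fin.sum_univ_three, ← mul_add, ← mul_add, e4,
      mul_one]
  -- the length of the second component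
  have hyy : dot y2 y2 = algebraMap ℝ (RR O) (lam⁻¹ ^ 2) * (k + l) ^ 2 := by
    have e3 : ∀ i, y2 i = algebraMap ℝ (RR O) lam⁻¹ * ((k + l) * N i) := by
      intro i
      rw [← hkN i, ← mul_assoc, ← map_mul, inv_mul_cancel₀ hlam, map_one, one_mul]
    have e4 : dot y2 y2 = (algebraMap ℝ (RR O) lam⁻¹) ^ 2 * (k + l) ^ 2 * dot N N := by
      unfold dot
      rw [e3 0, e3 1, e3 2]
      ring
    rw [e4, hFr.dNN, mul_one, map_pow]
  have hd : ∀ i, dR O i (dot y2 y2) = 0 := by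
    intro i
    rw [hyy, ItemSZ4.D_alg, pow_two (k + l), (dR O i).leibniz, hh i, smul_zero, add_zero,
      mul_zero]
  intro p hp
  have hnorm : ∀ q ∈ O, ‖Y2 q‖ ^ 2 = ev (dot y2 y2) q := by
    intro q hq
    rw [EuclideanSpace.norm_sq_eq, Fin.sum_univ_three, ItemSZ4.dot_ev _ _ hq, hy2 0 q hq,
      hy2 1 q hq, hy2 2 q hq]
    simp only [Real.norm_eq_abs, sq_abs]
    ring
  have e3 : (fun q => ‖Y2 q‖ ^ 2) =ᶠ[nhds p] ev (dot y2 y2) :=
    Filter.eventually_of_mem (O.isOpen.mem_nhds hp) fun q hq => hnorm q hq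
  rw [e3.fderiv_eq]
  exact ItemSZ4.fderiv_zero (dot y2 y2) (hd 0) (hd 1) hp

end Pool.Agent.Work.MP_157c12_gt.TT

end

section

/-!
# Surfaces of null 2-type: the umbilic case
-/

open TopologicalSpace
open scoped Manifold ContDiff RealInnerProductSpace

namespace Pool.Agent.Work.MP_157c12_gt.TT

open Pool.Agent.Work.MP_157c12_gt

namespace ItemSZ5

section

variable {R : Type} [CommRing R] [Algebra ℝ R]

lemma cancel {c : ℝ} (hc : c ≠ 0) {f : R} (h : algebraMap ℝ R c * f = 0) : f = 0 := by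
  have e3 : algebraMap ℝ R c⁻¹ * (algebraMap ℝ R c * f) = f := by
    rw [← mul_assoc, ← map_mul, inv_mul_cancel₀ hc, map_one, one_mul]
  rw [← e3, h, mul_zero]

lemma der_mul (e : Derivation ℝ R R) (f g : R) : e (f * g) = f * e g + g * e f := by
  rw [Derivation.leibniz]
  simp [smul_eq_mul]

lemma der_c (e : Derivation ℝ R R) (c : ℝ) (f : R) :
    e (algebraMap ℝ R c * f) = algebraMap ℝ R c * e f := by
  rw [Derivation.leibniz, Derivation.map_algebraMap]
  simp [smul_eq_mul]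

lemma lapE_c (e1 e2 : Derivation ℝ R R) (p q : R) (c : ℝ) (f : R) :
    lapE e1 e2 p q (algebraMap ℝ R c * f) = algebraMap ℝ R c * lapE e1 e2 p q f := by
  simp only [lapE, der_c]
  ring

lemma lapE_add (e1 e2 : Derivation ℝ R R) (p q : R) (f g : R) :
    lapE e1 e2 p q (f + g) = lapE e1 e2 p q f + lapE e1 e2 p q g := by
  simp only [lapE, map_add]
  ring

end

/-- the frame of a patch of null 2-type -/
theorem common (h1 : SF) (h2 : SN) (h3 : ST) (h7 : SU) {O : Opens (E 2)} {X Y1 Y2 : E 2 → E 3}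
    {l ρ : ℝ} (hl : l ≠ 0) (hρ : 0 < ρ) (hP : NullPatch O X Y1 Y2 l ρ) :
    ∃ (e1 e2 : Derivation ℝ (RR O) (RR O)) (x y1 y2 T1 T2 N : Fin 3 → RR O)
      (k m n p q : RR O), OFrame e1 e2 x T1 T2 N k m n p q ∧
      (∀ a, ∀ z ∈ O, ev (y1 a) z = Y1 z a) ∧ (∀ a, ∀ z ∈ O, ev (y2 a) z = Y2 z a) ∧
      (∀ a, x a = y1 a + y2 a) ∧
      (∀ a, algebraMap ℝ (RR O) l * y2 a = (k + n) * N a) ∧
      (k + n) ^ 2 = algebraMap ℝ (RR O) (l ^ 2 * ρ) ∧ e1 (k + n) = 0 ∧ e2 (k + n) = 0 ∧
      2 * (k * n - m ^ 2) = (k + n) ^ 2 + algebraMap ℝ (RR O) l ∧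
      (∀ f : RR O, e1 f = 0 → e2 f = 0 → dR O 0 f = 0 ∧ dR O 1 f = 0) ∧
      (∀ f : RR O, ∀ z ∈ O, fderiv ℝ (ev f) z = 0 → ev (e1 f) z = 0 ∧ ev (e2 f) z = 0) := by
  obtain ⟨x, W, Wi, hx, hW, hWWi, hW2, hlap⟩ := h7 O X hP.patch
  set D0 := dR O 0 with hD0
  set D1 := dR O 1 with hD1
  set EE : RR O := dot (fun a => D0 (x a)) (fun a => D0 (x a)) with hEE
  set FF : RR O := dot (fun a => D0 (x a)) (fun a => D1 (x a)) with hFF
  set GG : RR O := dot (fun a => D1 (x a)) (fun a => D1 (x a)) with hGG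
  have hEnn : ∀ p ∈ O, 0 ≤ ev EE p := by
    intro p hp
    rw [hEE, ItemSL.dot_ev _ _ hp]
    nlinarith [mul_self_nonneg (ev (D0 (x 0)) p), mul_self_nonneg (ev (D0 (x 1)) p),
      mul_self_nonneg (ev (D0 (x 2)) p)]
  have hEpos : ∀ p ∈ O, 0 < ev EE p := by
    intro p hp
    rcases (hEnn p hp).lt_or_eq with h | h
    · exact h
    · exfalso
      have e1 : ev (W ^ 2) p = ev (EE * GG - FF ^ 2) p := by rw [hW2]
      rw [pow_two, pow_two, mul_ev _ _ hp, sub_ev _ _ hp, mul_ev _ _ hp, mul_ev _ _ hp, ← h,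
        zero_mul] at e1
      have e2' := hW p hp
      nlinarith [mul_self_nonneg (ev FF p), mul_pos e2' e2']
  -- the inverse square root of `E`
  set c0 : RR O := mk (fun p => (Real.sqrt (ev EE p))⁻¹)
    (((smooth_ev EE).sqrt (fun p hp => (hEpos p hp).ne')).inv
      (fun p hp => (Real.sqrt_pos.mpr (hEpos p hp)).ne')) with hc0
  have hc0E : EE * c0 ^ 2 = 1 := by
    apply ext_ev
    intro p hp
    rw [pow_two, mul_ev _ _ hp, mul_ev _ _ hp, one_ev hp, hc0, mk_ev _ _ hp]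
    have e1 : Real.sqrt (ev EE p) * Real.sqrt (ev EE p) = ev EE p :=
      Real.mul_self_sqrt (hEnn p hp)
    have e3 : Real.sqrt (ev EE p) ≠ 0 := (Real.sqrt_pos.mpr (hEpos p hp)).ne'
    rw [← mul_inv, e1]
    exact mul_inv_cancel₀ (hEpos p hp).ne'
  obtain ⟨e1, e2', T1, T2, N, k, m, n, pp, qq, hFr, he1, he2, hN, hL⟩ :=
    h1 (RR O) D0 D1 x EE FF GG W Wi c0 0 (fun f => dR_comm O 0 1 f) hEE hFF hGG hW2 hWWi
      (by rw [hc0E]; ring)
  -- the Laplace operator
  have hlap' : ∀ (f : E 2 → ℝ) (g : RR O), (∀ p ∈ O, ev g p = f p) → ∀ p ∈ O,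
      lap X f p = ev (lapE e1 e2' pp qq g) p := by
    intro f g hfg p hp
    rw [hlap f g hfg p hp, hL g]
  have hLx : ∀ i, lapE e1 e2' pp qq (x i) = (k + n) * N i :=
    h2 (RR O) e1 e2' x T1 T2 N k m n pp qq hFr
  set y1 : Fin 3 → RR O := fun a => mk (fun q => Y1 q a) (hP.smooth1 a) with hy1
  set y2 : Fin 3 → RR O := fun a => mk (fun q => Y2 q a) (hP.smooth2 a) with hy2
  have hy1e : ∀ a, ∀ p ∈ O, ev (y1 a) p = Y1 p a := fun a p hp => mk_ev _ _ hp
  have hy2e : ∀ a, ∀ p ∈ O, ev (y2 a) p = Y2 p a := fun a p hp => mk_ev _ _ hp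
  have hxy : ∀ a, x a = y1 a + y2 a := by
    intro a
    apply ext_ev
    intro p hp
    rw [add_ev _ _ hp, hy1e a p hp, hy2e a p hp, hx a p hp, hP.sum p hp]
    rfl
  have hL1 : ∀ a, lapE e1 e2' pp qq (y1 a) = 0 := by
    intro a
    apply ext_ev
    intro p hp
    rw [← hlap' (fun q => Y1 q a) (y1 a) (hy1e a) p hp, hP.lap1 p hp a, zero_ev hp]
  have hL2 : ∀ a, lapE e1 e2' pp qq (y2 a) = algebraMap ℝ (RR O) l * y2 a := by
    intro a
    apply ext_ev
    intro p hp
    rw [← hlap' (fun q => Y2 q a) (y2 a) (hy2e a) p hp, hP.lap2 p hp a, mul_ev _ _ hp,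
      algebraMap_ev _ hp, hy2e a p hp]
  have hyN : ∀ a, algebraMap ℝ (RR O) l * y2 a = (k + n) * N a := by
    intro a
    rw [← hLx a, hxy a, lapE_add, hL1, hL2, zero_add]
  have hρ2 : dot y2 y2 = algebraMap ℝ (RR O) ρ := by
    apply ext_ev
    intro p hp
    rw [ItemSL.dot_ev _ _ hp, algebraMap_ev _ hp, hy2e 0 p hp, hy2e 1 p hp, hy2e 2 p hp,
      ← hP.norm p hp, EuclideanSpace.norm_sq_eq, Fin.sum_univ_three]
    simp only [Real.norm_eq_abs, sq_abs]
    ring
  have hh2 : (k + n) ^ 2 = algebraMap ℝ (RR O) (l ^ 2 * ρ) := by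
    have e3 := hFr.dNN
    have e4 : (k + n) ^ 2 = (k + n) ^ 2 * dot N N := by rw [e3, mul_one]
    have e5 : (k + n) ^ 2 * dot N N = dot (fun a => (k + n) * N a) (fun a => (k + n) * N a) := by
      unfold dot; ring
    rw [e4, e5]
    simp only [← hyN]
    have e6 : dot (fun a => algebraMap ℝ (RR O) l * y2 a) (fun a => algebraMap ℝ (RR O) l * y2 a) =
        algebraMap ℝ (RR O) l ^ 2 * dot y2 y2 := by
      unfold dot; ring
    rw [e6, hρ2, map_mul, map_pow]
  have hlr : l ^ 2 * ρ ≠ 0 := mul_ne_zero (pow_ne_zero 2 hl) hρ.ne'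
  have hcan : ∀ f : RR O, (k + n) * f = 0 → f = 0 := by
    intro f hf
    apply cancel hlr
    rw [← hh2, pow_two, mul_assoc, hf, mul_zero]
  have hder : ∀ e : Derivation ℝ (RR O) (RR O), e (k + n) = 0 := by
    intro e
    have e3 : e ((k + n) ^ 2) = 0 := by rw [hh2]; exact e.map_algebraMap _
    rw [pow_two, der_mul] at e3
    apply hcan
    have e4 : algebraMap ℝ (RR O) 2 * ((k + n) * e (k + n)) = 0 := by
      rw [map_ofNat]
      linear_combination e3
    exact cancel two_ne_zero e4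
  have hTT := h3 (RR O) e1 e2' x T1 T2 N k m n pp qq (-l) 0 hFr (by
    intro i
    have e3 : lapE e1 e2' pp qq (x i) = algebraMap ℝ (RR O) l * y2 i := by
      rw [hxy i, lapE_add, hL1, hL2, zero_add]
    rw [e3, lapE_c, hL2, map_neg, map_zero]
    ring)
  have hnn := hTT.nn
  rw [hder e1, hder e2'] at hnn
  have hfin : 2 * (k * n - m ^ 2) = (k + n) ^ 2 + algebraMap ℝ (RR O) l := by
    have e3 : (k + n) * ((k + n) ^ 2 + algebraMap ℝ (RR O) l - 2 * (k * n - m ^ 2)) = 0 := by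
      rw [map_zero, map_zero, map_neg, map_zero] at hnn
      linear_combination -hnn
    have e4 := hcan _ e3
    linear_combination -e4
  refine ⟨e1, e2', x, y1, y2, T1, T2, N, k, m, n, pp, qq, hFr, hy1e, hy2e, hxy, hyN, hh2,
    hder e1, hder e2', hfin, ?_, ?_⟩
  · intro f hf1 hf2
    have hc0u : ∀ f : RR O, c0 * f = 0 → f = 0 := by
      intro f hf
      have e3 : EE * c0 * (c0 * f) = f := by
        have : EE * c0 * (c0 * f) = (EE * c0 ^ 2) * f := by ring
        rw [this, hc0E, one_mul]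
      rw [← e3, hf, mul_zero]
    have hD0r : D0 f = 0 := by
      apply hc0u
      rw [he1] at hf1
      rw [← hf1]; ring
    refine ⟨hD0r, ?_⟩
    rw [he2, hD0r] at hf2
    have e4 : D1 f = (W * Wi) * (EE * c0 ^ 2) * D1 f := by rw [hWWi, hc0E]; ring
    rw [e4]
    have e5 : W * Wi * (EE * c0 ^ 2) * D1 f =
        W * c0 * (Wi * ((EE * c0 + FF * 0) * D1 f - (FF * c0 + GG * 0) * 0)) := by ring
    rw [e5, hf2, mul_zero]
  · intro f z hz hf
    have e3 : ev (D0 f) z = 0 := by rw [hD0, dR_ev 0 f hz, hf]; rfl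
    have e4 : ev (D1 f) z = 0 := by rw [hD1, dR_ev 1 f hz, hf]; rfl
    constructor
    · rw [he1, add_ev _ _ hz, mul_ev _ _ hz, mul_ev _ _ hz, e3, e4]; ring
    · rw [he2, mul_ev _ _ hz, sub_ev _ _ hz, mul_ev _ _ hz, mul_ev _ _ hz, e3, e4]; ring

end ItemSZ5

open ItemSZ5 in
theorem sZ5 (h1 : SF) (h2 : SN) (h3 : ST) (h7 : SU) (h8 : SZ3) : SZ5 := by
  intro O X Y1 Y2 l ρ hl hρ hP hlρ
  obtain ⟨e1, e2, x, y1, y2, T1, T2, N, k, m, n, p, q, hF, hy1, hy2, hxy, hyN, hh2, hd1, hd2,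
    hfin, hA, hB⟩ := common h1 h2 h3 h7 hl hρ hP
  set c := algebraMap ℝ (RR O) with hc
  have hcl : c (l ^ 2 * ρ) = -2 * c l := by
    have : l ^ 2 * ρ = -2 * l := by
      rw [pow_two, mul_assoc, hlρ]; ring
    rw [this, map_mul, map_neg, map_ofNat]
  have hdel : (k - n) ^ 2 + 4 * m ^ 2 = 0 := by
    rw [hcl] at hh2
    linear_combination (-2 : RR O) * hfin - hh2
  have hkn : k = n ∧ m = 0 := by
    have hp : ∀ z ∈ O, ev k z - ev n z = 0 ∧ ev m z = 0 := by
      intro z hz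
      have e3 : ev ((k - n) * (k - n) + 4 * (m * m)) z = 0 := by
        rw [show (k - n) * (k - n) + 4 * (m * m) = (k - n) ^ 2 + 4 * m ^ 2 by ring, hdel,
          zero_ev hz]
      rw [add_ev _ _ hz, mul_ev _ _ hz, mul_ev _ _ hz, mul_ev _ _ hz, sub_ev _ _ hz,
        show (4 : RR O) = algebraMap ℝ (RR O) 4 by rw [map_ofNat], algebraMap_ev _ hz] at e3
      constructor
      · nlinarith [mul_self_nonneg (ev k z - ev n z), mul_self_nonneg (ev m z)]
      · nlinarith [mul_self_nonneg (ev k z - ev n z), mul_self_nonneg (ev m z)]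
    constructor
    · apply ext_ev
      intro z hz
      linarith [(hp z hz).1]
    · apply ext_ev
      intro z hz
      rw [zero_ev hz]
      exact (hp z hz).2
  obtain ⟨rfl, rfl⟩ := hkn
  have hk2 : c l + 2 * (k * k) = 0 := by
    have e3 : c 2 * (c l + 2 * (k * k)) = 0 := by
      rw [map_ofNat]
      linear_combination hh2 + hcl
    exact cancel two_ne_zero e3
  have hz1 : ∀ a, e1 (y1 a) = 0 := by
    intro a
    have e3 : e1 (y1 a) = T1 a - e1 (y2 a) := by
      rw [← hF.x1 a, hxy a, map_add]; ring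
    have e4 : c l * e1 (y2 a) = (k + k) * (-k * T1 a) := by
      rw [← der_c, hyN a, der_mul, hF.N1 a, hd1]; ring
    apply cancel hl
    rw [e3]
    linear_combination -e4 + T1 a * hk2
  have hz2 : ∀ a, e2 (y1 a) = 0 := by
    intro a
    have e3 : e2 (y1 a) = T2 a - e2 (y2 a) := by
      rw [← hF.x2 a, hxy a, map_add]; ring
    have e4 : c l * e2 (y2 a) = (k + k) * (-k * T2 a) := by
      rw [← der_c, hyN a, der_mul, hF.N2 a, hd2]; ring
    apply cancel hl
    rw [e3]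
    linear_combination -e4 + T2 a * hk2
  intro z hz i
  have e3 : (fun q => Y1 q i) =ᶠ[nhds z] ev (y1 i) :=
    Filter.eventually_of_mem (O.isOpen.mem_nhds hz) fun q hq => (hy1 i q hq).symm
  rw [e3.fderiv_eq]
  exact ItemSL.fderiv_zero (y1 i) (hA _ (hz1 i) (hz2 i)).1 (hA _ (hz1 i) (hz2 i)).2 hz

end Pool.Agent.Work.MP_157c12_gt.TT

end

section

/-!
# Surfaces of null 2-type: the two statements of pure algebra
-/

namespace Pool.Agent.Work.MP_157c12_gt.TT

open Pool.Agent.Work.MP_157c12_gt ItemP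

theorem sZ2 : SZ2 := by
  intro R _ _ e1 e2 x T1 T2 N k m l p q h h1 h2 hd1 hd2 hu
  obtain ⟨D, hD⟩ : ∃ D, D = k - l := ⟨_, rfl⟩
  obtain ⟨Z, hZ⟩ : ∃ Z, Z = 2 * m := ⟨_, rfl⟩
  obtain ⟨δi, hδ⟩ := hu.exists_right_inv
  have hδ' : (D ^ 2 + Z ^ 2) * δi = 1 := by
    rw [hD, hZ]; linear_combination hδ
  have zz1 : D * e1 D + Z * e1 Z = 0 := by
    have : 2 * (D * e1 D + Z * e1 Z) = 0 := by
      have h3 : e1 (D ^ 2 + Z ^ 2) = 0 := by
        rw [← hd1, hD, hZ]; congr 1; ring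
      rw [map_add, Derivation.leibniz_pow, Derivation.leibniz_pow] at h3
      simp only [smul_eq_mul, nsmul_eq_mul, Nat.cast_ofNat, Nat.add_one_sub_one, pow_one] at h3
      linear_combination h3
    exact natz 2 (by norm_num) (by exact_mod_cast this)
  have zz2 : D * e2 D + Z * e2 Z = 0 := by
    have : 2 * (D * e2 D + Z * e2 Z) = 0 := by
      have h3 : e2 (D ^ 2 + Z ^ 2) = 0 := by
        rw [← hd2, hD, hZ]; congr 1; ring
      rw [map_add, Derivation.leibniz_pow, Derivation.leibniz_pow] at h3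
      simp only [smul_eq_mul, nsmul_eq_mul, Nat.cast_ofNat, Nat.add_one_sub_one, pow_one] at h3
      linear_combination h3
    exact natz 2 (by norm_num) (by exact_mod_cast this)
  rw [map_add] at h1 h2
  have D1 : e1 D = 2 * e1 k := by rw [hD, map_sub]; linear_combination -h1
  have D2 : e2 D = 2 * e2 k := by rw [hD, map_sub]; linear_combination -h2
  have Z1 : e1 Z = 2 * e1 m := by
    rw [hZ, Derivation.leibniz, d2, smul_eq_mul, smul_zero, add_zero]
  have Z2 : e2 Z = 2 * e2 m := by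
    rw [hZ, Derivation.leibniz, d2, smul_eq_mul, smul_zero, add_zero]
  have c1 : e1 Z + 2 * p * D = e2 D + 2 * q * Z := by
    rw [Z1, D2, hD, hZ]; linear_combination 2 * h.codazzi1
  have c2 : -e1 D + 2 * p * Z = e2 Z - 2 * q * D := by
    rw [Z2, D1, hD, hZ]; linear_combination 2 * h.codazzi2 - 2 * h1
  -- the rotation of the principal directions
  have u1 : e1 D = 2 * p * Z := by
    linear_combination -(e1 D - 2 * p * Z) * hδ' + δi * (D * zz1 - Z * zz2 + D * Z * (-c1) - Z ^ 2 * c2)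
  have u2 : e1 Z = -(2 * p * D) := by
    linear_combination -(e1 Z + 2 * p * D) * hδ' + δi * (Z * zz1 + D * zz2 + D ^ 2 * c1 + D * Z * c2)
  have u3 : e2 D = -(2 * q * Z) := by linear_combination u2 - c1
  have u4 : e2 Z = 2 * q * D := by linear_combination -u1 - c2
  have k1 : Z * (k * l - m ^ 2) = 0 := by
    have h3 := h.comm D
    rw [u3, u1, map_neg, Derivation.leibniz, Derivation.leibniz, Derivation.leibniz,
      Derivation.leibniz, d2, d2] at h3
    simp only [smul_eq_mul, mul_zero, add_zero] at h3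
    apply natz 2 (by norm_num)
    push_cast
    linear_combination -h3 - 2 * Z * h.gauss - 2 * q * u2 - 2 * p * u4
  have k2 : D * (k * l - m ^ 2) = 0 := by
    have h3 := h.comm Z
    rw [u4, u2, map_neg, Derivation.leibniz, Derivation.leibniz, Derivation.leibniz,
      Derivation.leibniz, d2, d2] at h3
    simp only [smul_eq_mul, mul_zero, add_zero] at h3
    apply natz 2 (by norm_num)
    push_cast
    linear_combination h3 - 2 * D * h.gauss - 2 * q * u1 - 2 * p * u3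
  calc k * l - m ^ 2 = (D ^ 2 + Z ^ 2) * δi * (k * l - m ^ 2) := by rw [hδ', one_mul]
    _ = D * δi * (D * (k * l - m ^ 2)) + Z * δi * (Z * (k * l - m ^ 2)) := by ring
    _ = 0 := by rw [k1, k2]; ring

theorem sZ1 : SZ1 := by
  intro R _ _ _ e1 e2 k m l p q y r s r1 r2 a h hy
  have t1 : 2 * (k * y + m * 0) + (k + l) * y = algebraMap ℝ R 0 * r1 := h.t1
  have t2 : 2 * (m * y + l * 0) + (k + l) * 0 = algebraMap ℝ R 0 * r2 := h.t2
  have nn := h.nn
  rw [map_zero] at t1 t2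
  rw [map_zero e2, map_zero (algebraMap ℝ R)] at nn
  have hm : m = 0 := by
    apply natz 2 (by norm_num)
    push_cast
    apply (hy.mul_left_eq_zero).1
    linear_combination t2
  have hl : l = -3 * k := by
    have : (3 * k + l) * y = 0 := by linear_combination t1
    linear_combination (hy.mul_left_eq_zero).1 this
  subst hm
  have hey : e2 y = p * y := by
    have h1 := h.comm (k + l)
    rw [map_add e1, map_add e2, h.e1h, h.e2h, map_zero] at h1
    linear_combination -h1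
  have e1h := h.e1h
  have e2h := h.e2h
  have c1 := h.codazzi1
  have c2 := h.codazzi2
  have ga := h.gauss
  obtain ⟨A, hA⟩ : ∃ A, A = algebraMap ℝ R a := ⟨_, rfl⟩
  have eA : e1 A = 0 := by rw [hA]; exact e1.map_algebraMap a
  rw [← hA] at nn
  have dl : ∀ e : Derivation ℝ R R, e l = -3 * e k := by
    intro e
    rw [hl, Derivation.leibniz, map_neg, d3, smul_eq_mul, neg_zero, smul_zero, add_zero]
  have k1 : 2 * e1 k = -y := by rw [dl] at e1h; linear_combination -e1h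
  have k2 : e2 k = 0 := by
    have : 2 * e2 k = 0 := by rw [dl] at e2h; linear_combination -e2h
    exact natz 2 (by norm_num) (by exact_mod_cast this)
  have hpk : p * k = 0 := by
    rw [map_zero, k2, hl] at c1
    apply natz 4 (by norm_num)
    push_cast
    linear_combination c1
  have hp : p = 0 := by
    have h1 := congrArg e1 hpk
    rw [Derivation.leibniz, map_zero, smul_eq_mul, smul_eq_mul] at h1
    have h7 : p ^ 2 * y = 0 := by linear_combination -2 * p * h1 + 2 * e1 p * hpk + p ^ 2 * k1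
    exact pow_eq_zero_iff (two_ne_zero) |>.1 ((hy.mul_left_eq_zero).1 h7)
  subst hp
  have G1 : 3 * y + 8 * (q * k) = 0 := by
    rw [map_zero, dl, hl] at c2
    linear_combination 2 * c2 + 3 * k1
  have q1 : e1 q = q ^ 2 - 3 * k ^ 2 := by
    rw [map_zero, hl] at ga
    linear_combination ga
  have y1 : e1 y = q * y - 20 * k ^ 3 + 2 * A * k := by
    rw [hl] at nn
    linear_combination nn
  have d8 : e1 8 = 0 := by simpa using e1.map_natCast 8
  have G2 : 2 * (q * y) + 42 * k ^ 3 - 3 * (A * k) = 0 := by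
    have h1 := congrArg e1 G1
    simp only [map_add, Derivation.leibniz, smul_eq_mul, d3, d8, mul_zero, add_zero, y1, q1,
      map_zero] at h1
    have : 2 * (2 * (q * y) + 42 * k ^ 3 - 3 * (A * k)) = 0 := by
      linear_combination -h1 + q * G1 + 4 * q * k1
    exact natz 2 (by norm_num) (by exact_mod_cast this)
  have d42 : e1 42 = 0 := by simpa using e1.map_natCast 42
  have G3 : 2 * q ^ 2 - 27 * k ^ 2 = 0 := by
    have h1 := congrArg e1 G2
    simp only [map_add, map_sub, Derivation.leibniz, Derivation.leibniz_pow, smul_eq_mul, d2, d3,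
      d42, eA, mul_zero, add_zero, y1, q1, map_zero, nsmul_eq_mul, Nat.cast_ofNat,
      Nat.reduceSub] at h1
    have : 4 * (2 * q ^ 2 - 27 * k ^ 2) = 0 := by
      apply (hy.mul_left_eq_zero).1
      linear_combination 2 * h1 + (-126 * k ^ 2 + 3 * A) * k1 + (10 * k ^ 2 - A) * G1
    exact natz 4 (by norm_num) (by exact_mod_cast this)
  have d27 : e1 27 = 0 := by simpa using e1.map_natCast 27
  have hk : k = 0 := by
    have h1 := congrArg e1 G3
    simp only [map_sub, Derivation.leibniz, Derivation.leibniz_pow, smul_eq_mul, d2,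
      d27, mul_zero, add_zero, q1, map_zero, nsmul_eq_mul, Nat.cast_ofNat,
      Nat.add_one_sub_one, pow_one] at h1
    have : 45 * k = 0 := by
      apply (hy.mul_left_eq_zero).1
      linear_combination 4 * h1 + 108 * k * k1 - 8 * q * G3 - 21 * k * G1
    exact natz 45 (by norm_num) (by exact_mod_cast this)
  rw [hl, hk]
  ring

end Pool.Agent.Work.MP_157c12_gt.TT

end

section

/-!
# Item SMain: the theorem on the manifold
-/

open TopologicalSpace
open scoped Manifold ContDiff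

namespace Pool.Agent.Work.MP_157c12_gt.TT

open Pool.Agent.Work.MP_157c12_gt

namespace ItemSMain

lemma dAt {n : ℕ} {O : Opens (E n)} {f : E n → ℝ} (hf : ContDiffOn ℝ ∞ f O) {p : E n}
    (hp : p ∈ O) : DifferentiableAt ℝ f p :=
  (hf.contDiffAt (O.isOpen.mem_nhds hp)).differentiableAt (by simp)

lemma pd_congr {n : ℕ} {O : Opens (E n)} {f g : E n → ℝ} (h : ∀ q ∈ O, f q = g q) {p : E n}
    (hp : p ∈ O) (i : Fin n) : pd i f p = pd i g p := by
  unfold pd
  have h1 : f =ᶠ[nhds p] g := Filter.eventually_of_mem (O.isOpen.mem_nhds hp) h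
  rw [h1.fderiv_eq]

lemma lap_congr {n m : ℕ} {O : Opens (E n)} (Z : E n → E m) {f g : E n → ℝ}
    (h : ∀ q ∈ O, f q = g q) {p : E n} (hp : p ∈ O) : lap Z f p = lap Z g p := by
  unfold lap
  congr 1
  refine Finset.sum_congr rfl fun i _ => pd_congr (O := O) ?_ hp i
  intro q hq
  congr 1
  exact Finset.sum_congr rfl fun j _ => by rw [pd_congr h hq j]

lemma pd_lin {n : ℕ} {f g : E n → ℝ} {p : E n} (hf : DifferentiableAt ℝ f p)
    (hg : DifferentiableAt ℝ g p) (s t : ℝ) (i : Fin n) :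
    pd i (fun q => s * f q + t * g q) p = s * pd i f p + t * pd i g p := by
  unfold pd
  rw [fderiv_fun_add (hf.const_mul s) (hg.const_mul t), fderiv_const_mul hf, fderiv_const_mul hg]
  simp

lemma lap_lin {n m : ℕ} {O : Opens (E n)} {Z : E n → E m} (hZ : Patch O Z) {f g : E n → ℝ}
    (hf : ContDiffOn ℝ ∞ f O) (hg : ContDiffOn ℝ ∞ g O) (s t : ℝ) {p : E n} (hp : p ∈ O) :
    lap Z (fun q => s * f q + t * g q) p = s * lap Z f p + t * lap Z g p := by
  obtain ⟨-, -, b, -, hexp⟩ := gh1 n m O Z hZ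
  have hfg : ContDiffOn ℝ ∞ (fun q => s * f q + t * g q) O :=
    (contDiffOn_const.mul hf).add (contDiffOn_const.mul hg)
  rw [hexp _ hfg p hp, hexp _ hf p hp, hexp _ hg p hp]
  have e1 : ∀ i j, pd i (fun q => pd j (fun q => s * f q + t * g q) q) p =
      s * pd i (fun q => pd j f q) p + t * pd i (fun q => pd j g q) p := by
    intro i j
    rw [pd_congr (O := O) (g := fun q => s * pd j f q + t * pd j g q)
      (fun q hq => pd_lin (dAt hf hq) (dAt hg hq) s t j) hp i]
    exact pd_lin (f := pd j f) (g := pd j g) (dAt (ItemGH1.pd_smooth hf j) hp)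
      (dAt (ItemGH1.pd_smooth hg j) hp) s t i
  have e2 : ∀ i, pd i (fun q => s * f q + t * g q) p = s * pd i f p + t * pd i g p := fun i =>
    pd_lin (dAt hf hp) (dAt hg hp) s t i
  simp only [e1, e2, mul_add, Finset.sum_add_distrib, Finset.mul_sum]
  have e3 : ∀ i j, (gram Z p)⁻¹ i j * (s * pd i (fun q => pd j f q) p) =
      s * ((gram Z p)⁻¹ i j * pd i (fun q => pd j f q) p) := fun i j => by ring
  have e4 : ∀ i j, (gram Z p)⁻¹ i j * (t * pd i (fun q => pd j g q) p) =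
      t * ((gram Z p)⁻¹ i j * pd i (fun q => pd j g q) p) := fun i j => by ring
  have e5 : ∀ i, b p i * (s * pd i f p) = s * (b p i * pd i f p) := fun i => by ring
  have e6 : ∀ i, b p i * (t * pd i g p) = t * (b p i * pd i g p) := fun i => by ring
  simp only [e3, e4, e5, e6]
  ring

/-- a nonconstant component is not a multiple of the other one -/
lemma no_mult {M : Type} [TopologicalSpace M] [ChartedSpace (E 2) M] {x : M → E 3} (g2 : GM2)
    (g1 : GM1) [IsManifold 𝓘(ℝ, E 2) ∞ M] (hx : ContMDiff 𝓘(ℝ, E 2) 𝓘(ℝ, E 3) ∞ x)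
    (himm : ∀ p, Function.Injective (mfderiv 𝓘(ℝ, E 2) 𝓘(ℝ, E 3) x p)) {x1 x2 : M → E 3}
    {l1 l2 : ℝ} (h2 : ContMDiff 𝓘(ℝ, E 2) 𝓘(ℝ, E 3) ∞ x2) (hn : ∃ p q, x1 p ≠ x1 q)
    (hne : l1 ≠ l2) (hL1 : ∀ i, LapEq (n := 2) x (fun p => x1 p i) l1)
    (hL2 : ∀ i, LapEq (n := 2) x (fun p => x2 p i) l2) (κ : ℝ)
    (h : ∀ m i, x1 m i = κ * x2 m i) : False := by
  have key : ∀ m i, x1 m i = 0 := by
    intro m i
    have hφ := chart_mem_atlas (E 2) m
    have hms := mem_chart_source (E 2) m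
    generalize chartAt (E 2) m = φ at hφ hms
    have hp : φ m ∈ φ.target := φ.map_source hms
    have hpatch := g1 2 3 M x hx himm φ hφ
    have hs := g2 2 3 M x2 h2 φ hφ i
    have e1 := hL1 i φ hφ (φ m) hp
    have e2 := hL2 i φ hφ (φ m) hp
    have e3 : lap (fun q => x (φ.symm q)) (fun q => x1 (φ.symm q) i) (φ m) =
        lap (fun q => x (φ.symm q)) (fun q => κ * x2 (φ.symm q) i + 0 * x2 (φ.symm q) i) (φ m) :=
      lap_congr (O := ⟨φ.target, φ.open_target⟩) _ (fun q _ => by rw [h]; ring) hp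
    have e4 := lap_lin hpatch hs hs κ 0 hp
    rw [e4, e1, e2, φ.left_inv hms] at e3
    have e5 : (l1 - l2) * x1 m i = 0 := by
      rw [sub_mul, e3, h m i]
      ring
    exact (mul_eq_zero.mp e5).resolve_left (sub_ne_zero.mpr hne)
  obtain ⟨p, q, hpq⟩ := hn
  apply hpq
  ext i
  rw [key, key]

end ItemSMain

open ItemSMain

theorem sMain (h : SL) (g1 : GM1) (g2 : GM2) (g3 : GM3) : SMain := by
  intro M _ _ _ _ x hxi c x1 x2 l1 l2 h1 h2 hn1 hn2 hne hsum hL1 hL2
  obtain ⟨hx, himm⟩ := hxi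
  have hA : l1 = 0 ∨ l2 = 0 := by
    by_contra hcon
    push Not at hcon
    obtain ⟨hl1, hl2⟩ := hcon
    -- the local theorem in every chart
    have hloc : ∀ φ ∈ atlas (E 2) M, ∀ p ∈ φ.target,
        fderiv ℝ (fun q => ‖x (φ.symm q) - c‖ ^ 2) p = 0 ∧
        ∀ i, ‖x (φ.symm p) - c‖ ^ 2 * (l1 * x1 (φ.symm p) i + l2 * x2 (φ.symm p) i) =
          -2 * (x1 (φ.symm p) i + x2 (φ.symm p) i) := by
      intro φ hφ p hp
      have hpatch := g1 2 3 M x hx himm φ hφ
      have hs1 := g2 2 3 M x1 h1 φ hφ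
      have hs2 := g2 2 3 M x2 h2 φ hφ
      have hpR : PatchR ⟨φ.target, φ.open_target⟩ (fun q => x (φ.symm q) - c) := by
        constructor
        · intro a
          exact (hpatch.smooth a).sub contDiffOn_const
        · intro q hq
          have := hpatch.imm q hq
          rw [ItemGMain.gram_sub]
          exact this
      have hZ : ∀ (i : Fin 3) (q : E 2), (x (φ.symm q) - c) i =
          1 * x1 (φ.symm q) i + 1 * x2 (φ.symm q) i := by
        intro i q
        rw [hsum (φ.symm q), PiLp.sub_apply, PiLp.add_apply, PiLp.add_apply]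
        ring
      have hlin : ∀ (i : Fin 3) (s t : ℝ), ∀ q ∈ φ.target,
          lap (fun q => x (φ.symm q) - c)
            (fun q => s * x1 (φ.symm q) i + t * x2 (φ.symm q) i) q =
          s * l1 * x1 (φ.symm q) i + t * l2 * x2 (φ.symm q) i := by
        intro i s t q hq
        rw [ItemGMain.lap_sub (fun q => x (φ.symm q)) c]
        have e := lap_lin hpatch (hs1 i) (hs2 i) s t (show q ∈ (⟨φ.target, φ.open_target⟩ :
          Opens (E 2)) from hq)
        rw [e, hL1 i φ hφ q hq, hL2 i φ hφ q hq]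
        ring
      have hlap1 : ∀ (i : Fin 3), ∀ q ∈ φ.target,
          lap (fun q => x (φ.symm q) - c) (fun q => (x (φ.symm q) - c) i) q =
          l1 * x1 (φ.symm q) i + l2 * x2 (φ.symm q) i := by
        intro i q hq
        rw [lap_congr (O := ⟨φ.target, φ.open_target⟩) _ (fun q _ => hZ i q) hq, hlin i 1 1 q hq]
        ring
      have hEq : Eq4 ⟨φ.target, φ.open_target⟩ (fun q => x (φ.symm q) - c) (-(l1 + l2))
          (l1 * l2) := by
        intro q hq i
        have e1 := lap_congr (O := ⟨φ.target, φ.open_target⟩) (fun q => x (φ.symm q) - c)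
          (f := lap (fun q => x (φ.symm q) - c) (fun q => (x (φ.symm q) - c) i))
          (fun q hq => hlap1 i q hq) hq
        rw [e1, hlin i l1 l2 q hq, hlap1 i q hq, hZ i q]
        ring
      obtain ⟨r1, r2⟩ := h ⟨φ.target, φ.open_target⟩ _ _ _ hpR hEq (mul_ne_zero hl1 hl2) p hp
      refine ⟨r1, fun i => ?_⟩
      have r3 := r2 i
      rw [hlap1 i p hp, hZ i p] at r3
      rw [r3]
      ring
    -- the norm is constant
    have hlc : IsLocallyConstant fun m : M => ‖x m - c‖ ^ 2 := by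
      rw [IsLocallyConstant.iff_eventually_eq]
      intro m
      have hφ := chart_mem_atlas (E 2) m
      have hms := mem_chart_source (E 2) m
      generalize chartAt (E 2) m = φ at hφ hms
      have hp : φ m ∈ φ.target := φ.map_source hms
      obtain ⟨r, hr, hball⟩ := Metric.isOpen_iff.mp φ.open_target (φ m) hp
      have hsx := g2 2 3 M x hx φ hφ
      have hdiff : DifferentiableOn ℝ (fun q => ‖x (φ.symm q) - c‖ ^ 2)
          (Metric.ball (φ m) r) := by
        have e : (fun q => ‖x (φ.symm q) - c‖ ^ 2) =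
            fun q => ∑ i, (x (φ.symm q) i - c i) ^ 2 := by
          funext q
          rw [EuclideanSpace.real_norm_sq_eq]
          rfl
        rw [e]
        apply DifferentiableOn.fun_sum
        intro i _
        exact (((hsx i).differentiableOn (by simp)).mono hball |>.sub_const _).pow 2
      have hconst : ∀ q ∈ Metric.ball (φ m) r, ‖x (φ.symm q) - c‖ ^ 2 = ‖x m - c‖ ^ 2 := by
        intro q hq
        have := Metric.isOpen_ball.is_const_of_fderiv_eq_zero
          (convex_ball (φ m) r).isPreconnected hdiff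
          (fun z hz => (hloc φ hφ z (hball hz)).1) hq (Metric.mem_ball_self hr)
        simp only [φ.left_inv hms] at this
        exact this
      have h4 : ∀ᶠ p in nhds m, φ p ∈ Metric.ball (φ m) r :=
        (φ.continuousAt hms).eventually (Metric.ball_mem_nhds _ hr)
      filter_upwards [h4, φ.open_source.mem_nhds hms] with p hp1 hp2
      have := hconst (φ p) hp1
      rw [φ.left_inv hp2] at this
      exact this
    obtain ⟨m0⟩ : Nonempty M := inferInstance
    have hρ : ∀ m : M, ‖x m - c‖ ^ 2 = ‖x m0 - c‖ ^ 2 := fun m =>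
      hlc.apply_eq_of_preconnectedSpace m m0
    generalize ‖x m0 - c‖ ^ 2 = ρ at hρ
    have hall : ∀ m i, (ρ * l1 + 2) * x1 m i = -(ρ * l2 + 2) * x2 m i := by
      intro m i
      have hφ := chart_mem_atlas (E 2) m
      have hms := mem_chart_source (E 2) m
      generalize chartAt (E 2) m = φ at hφ hms
      have hp : φ m ∈ φ.target := φ.map_source hms
      have e := (hloc φ hφ (φ m) hp).2 i
      rw [φ.left_inv hms, hρ m] at e
      linarith
    by_cases h0 : ρ * l1 + 2 = 0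
    · have h3 : ρ * l2 + 2 ≠ 0 := by
        intro h4
        have h5 : ρ * (l1 - l2) = 0 := by linarith
        rcases mul_eq_zero.mp h5 with h6 | h6
        · rw [h6] at h0
          norm_num at h0
        · exact hne (sub_eq_zero.mp h6)
      obtain ⟨p, q, hpq⟩ := hn2
      apply hpq
      have h7 : ∀ m i, x2 m i = 0 := by
        intro m i
        have e := hall m i
        rw [h0, zero_mul] at e
        exact (mul_eq_zero.mp e.symm).resolve_left (neg_ne_zero.mpr h3)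
      ext i
      rw [h7, h7]
    · refine no_mult g2 g1 hx himm h2 hn1 hne hL1 hL2 (-(ρ * l2 + 2) / (ρ * l1 + 2)) ?_
      intro m i
      rw [div_mul_eq_mul_div, eq_div_iff h0, mul_comm]
      exact hall m i
  refine ⟨hA, ?_⟩
  intro hc
  rcases hA with h0 | h0
  · obtain ⟨p, q, hpq⟩ := hn1
    apply hpq
    ext i
    have e := hL1 i
    rw [h0] at e
    exact g3 2 3 M x hx himm x1 i h1 e p q
  · obtain ⟨p, q, hpq⟩ := hn2
    apply hpq
    ext i
    have e := hL2 i
    rw [h0] at e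
    exact g3 2 3 M x hx himm x2 i h2 e p q

end Pool.Agent.Work.MP_157c12_gt.TT

end

section

/-!
# Item SNull: surfaces of null 2-type lie in circular cylinders
-/

open TopologicalSpace
open scoped Manifold ContDiff RealInnerProductSpace

namespace Pool.Agent.Work.MP_157c12_gt.TT

open Pool.Agent.Work.MP_157c12_gt

namespace ItemSNull

/-- a function with zero differential in all charts is constant -/
lemma const_of_fderiv {M : Type} [TopologicalSpace M] [ChartedSpace (E 2) M] [ConnectedSpace M]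
    (f : M → ℝ) (hd : ∀ φ ∈ atlas (E 2) M, DifferentiableOn ℝ (fun q => f (φ.symm q)) φ.target)
    (h0 : ∀ φ ∈ atlas (E 2) M, ∀ p ∈ φ.target, fderiv ℝ (fun q => f (φ.symm q)) p = 0)
    (m n : M) : f m = f n := by
  have hlc : IsLocallyConstant f := by
    rw [IsLocallyConstant.iff_eventually_eq]
    intro m
    have hφ := chart_mem_atlas (E 2) m
    have hms := mem_chart_source (E 2) m
    generalize chartAt (E 2) m = φ at hφ hms
    have hp : φ m ∈ φ.target := φ.map_source hms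
    obtain ⟨r, hr, hball⟩ := Metric.isOpen_iff.mp φ.open_target (φ m) hp
    have hconst : ∀ q ∈ Metric.ball (φ m) r, f (φ.symm q) = f m := by
      intro q hq
      have := Metric.isOpen_ball.is_const_of_fderiv_eq_zero
        (convex_ball (φ m) r).isPreconnected ((hd φ hφ).mono hball)
        (fun z hz => (h0 φ hφ z (hball hz))) hq (Metric.mem_ball_self hr)
      simp only [φ.left_inv hms] at this
      exact this
    have h4 : ∀ᶠ p in nhds m, φ p ∈ Metric.ball (φ m) r :=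
      (φ.continuousAt hms).eventually (Metric.ball_mem_nhds _ hr)
    filter_upwards [h4, φ.open_source.mem_nhds hms] with p hp1 hp2
    have := hconst (φ p) hp1
    rw [φ.left_inv hp2] at this
    exact this
  exact hlc.apply_eq_of_preconnectedSpace m n

/-- the charts of a surface of null 2-type -/
lemma chart_data {M : Type} [TopologicalSpace M] [ChartedSpace (E 2) M]
    [IsManifold 𝓘(ℝ, E 2) ∞ M] {x : M → E 3} (g1 : GM1)
    (hx : ContMDiff 𝓘(ℝ, E 2) 𝓘(ℝ, E 3) ∞ x)
    (himm : ∀ p, Function.Injective (mfderiv 𝓘(ℝ, E 2) 𝓘(ℝ, E 3) x p))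
    {c : E 3} {x1 x2 : M → E 3} {l : ℝ}
    (hsum : ∀ p, x p = c + x1 p + x2 p)
    (hL1 : ∀ i, LapEq (n := 2) x (fun p => x1 p i) 0)
    (hL2 : ∀ i, LapEq (n := 2) x (fun p => x2 p i) l) (φ : OpenPartialHomeomorph M (E 2))
    (hφ : φ ∈ atlas (E 2) M) :
    PatchR ⟨φ.target, φ.open_target⟩ (fun q => x (φ.symm q) - c) ∧
    (∀ p ∈ φ.target, x (φ.symm p) - c = x1 (φ.symm p) + x2 (φ.symm p)) ∧
    (∀ p ∈ φ.target, ∀ i, lap (fun q => x (φ.symm q) - c) (fun q => x1 (φ.symm q) i) p = 0) ∧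
    (∀ p ∈ φ.target, ∀ i, lap (fun q => x (φ.symm q) - c) (fun q => x2 (φ.symm q) i) p =
      l * x2 (φ.symm p) i) := by
  have hpatch := g1 2 3 M x hx himm φ hφ
  refine ⟨?_, ?_, ?_, ?_⟩
  · constructor
    · intro a
      exact (hpatch.smooth a).sub contDiffOn_const
    · intro q hq
      have := hpatch.imm q hq
      rw [ItemGMain.gram_sub]
      exact this
  · intro p _
    rw [hsum]
    abel
  · intro p hp i
    rw [ItemGMain.lap_sub (fun q => x (φ.symm q)) c]
    have := hL1 i φ hφ p hp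
    rw [this, zero_mul]
  · intro p hp i
    rw [ItemGMain.lap_sub (fun q => x (φ.symm q)) c]
    exact hL2 i φ hφ p hp

end ItemSNull

open ItemSNull

theorem sNull (h4 : SZ4) (h5 : SZ5) (h6 : SZ6) (g1 : GM1) (g2 : GM2) : SNull := by
  intro M _ _ _ _ x hxi c x1 x2 l h1 h2 hn1 hn2 hl hsum hL1 hL2
  obtain ⟨hx, himm⟩ := hxi
  have hch := chart_data g1 hx himm hsum hL1 hL2
  -- the norm of `x2` is constant
  obtain ⟨m0⟩ : Nonempty M := inferInstance
  have hρ : ∀ m : M, ‖x2 m‖ ^ 2 = ‖x2 m0‖ ^ 2 := by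
    intro m
    refine const_of_fderiv (fun m => ‖x2 m‖ ^ 2) ?_ ?_ m m0
    · intro φ hφ
      have hs2 := g2 2 3 M x2 h2 φ hφ
      have e : (fun q => ‖x2 (φ.symm q)‖ ^ 2) = fun q => ∑ i, (x2 (φ.symm q) i) ^ 2 := by
        funext q
        rw [EuclideanSpace.real_norm_sq_eq]
      rw [e]
      apply DifferentiableOn.fun_sum
      intro i _
      exact ((hs2 i).differentiableOn (by simp)).pow 2
    · intro φ hφ p hp
      obtain ⟨c1, c2, c3, c4⟩ := hch φ hφ
      exact h4 ⟨φ.target, φ.open_target⟩ (fun q => x (φ.symm q) - c) (fun q => x1 (φ.symm q))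
        (fun q => x2 (φ.symm q)) l hl c1 (g2 2 3 M x1 h1 φ hφ) (g2 2 3 M x2 h2 φ hφ) c2 c3 c4 p hp
  have hρ0 : 0 < ‖x2 m0‖ ^ 2 := by
    rcases (sq_nonneg ‖x2 m0‖).lt_or_eq with h | h
    · exact h
    · exfalso
      obtain ⟨p, q, hpq⟩ := hn2
      apply hpq
      have h7 : ∀ m, x2 m = 0 := by
        intro m
        have e := hρ m
        rw [← h] at e
        exact norm_eq_zero.mp (pow_eq_zero_iff (two_ne_zero) |>.mp e)
      rw [h7, h7]
  generalize hρd : ‖x2 m0‖ ^ 2 = ρ at hρ hρ0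
  have hnull : ∀ φ ∈ atlas (E 2) M, NullPatch ⟨φ.target, φ.open_target⟩
      (fun q => x (φ.symm q) - c) (fun q => x1 (φ.symm q)) (fun q => x2 (φ.symm q)) l ρ := by
    intro φ hφ
    obtain ⟨c1, c2, c3, c4⟩ := hch φ hφ
    exact ⟨c1, g2 2 3 M x1 h1 φ hφ, g2 2 3 M x2 h2 φ hφ, c2, c3, c4, fun p _ => hρ _⟩
  by_cases hu : l * ρ = -2
  · exfalso
    obtain ⟨p, q, hpq⟩ := hn1
    apply hpq
    ext i
    refine const_of_fderiv (fun m => x1 m i) ?_ ?_ p q
    · intro φ hφ
      exact (g2 2 3 M x1 h1 φ hφ i).differentiableOn (by simp)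
    · intro φ hφ p hp
      exact h5 _ _ _ _ l ρ hl hρ0 (hnull φ hφ) hu p hp i
  -- the local structure
  have hloc : ∀ m : M, ∃ e : E 3, ‖e‖ = 1 ∧ ∃ U : Set M, IsOpen U ∧ m ∈ U ∧
      (∀ q ∈ U, ⟪e, x2 q⟫ = 0 ∧ x1 q - x1 m = ⟪e, x1 q - x1 m⟫ • e) ∧
      ∀ V : Set M, IsOpen V → V ⊆ U → V.Nonempty → ∀ e' : E 3, ‖e'‖ = 1 →
        (∀ q ∈ V, ⟪e', x2 q⟫ = 0) → e' = e ∨ e' = -e := by
    intro m
    have hφ := chart_mem_atlas (E 2) m
    have hms := mem_chart_source (E 2) m
    generalize chartAt (E 2) m = φ at hφ hms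
    have hp : φ m ∈ φ.target := φ.map_source hms
    obtain ⟨e, he, U, hpU, hUO, hU, huniq⟩ := h6 _ _ _ _ l ρ hl hρ0 (hnull φ hφ) hu (φ m) hp
    refine ⟨e, he, φ.source ∩ φ ⁻¹' U, φ.isOpen_inter_preimage U.isOpen, ⟨hms, hpU⟩, ?_, ?_⟩
    · rintro q ⟨hq1, hq2⟩
      have := hU (φ q) hq2
      simp only [φ.left_inv hq1, φ.left_inv hms] at this
      exact this
    · intro V hV hVU hVn e' he' hV0
      refine huniq ⟨φ.target ∩ φ.symm ⁻¹' V, φ.symm.isOpen_inter_preimage hV⟩ ?_ ?_ e' he' ?_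
      · rintro q ⟨hq1, hq2⟩
        have := (hVU hq2).2
        rw [Set.mem_preimage, φ.right_inv hq1] at this
        exact this
      · obtain ⟨v, hv⟩ := hVn
        have hvs := (hVU hv).1
        refine ⟨φ v, φ.map_source hvs, ?_⟩
        rw [Set.mem_preimage, φ.left_inv hvs]
        exact hv
      · rintro q ⟨hq1, hq2⟩
        exact hV0 _ hq2
  obtain ⟨e, he, U0, hU0o, hm0, hU0, -⟩ := hloc m0
  -- the set where the axis is `e`
  have hS : {p : M | ∃ U : Set M, IsOpen U ∧ p ∈ U ∧ ∀ q ∈ U, ⟪e, x2 q⟫ = 0 ∧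
      x1 q - x1 p = ⟪e, x1 q - x1 p⟫ • e} = Set.univ := by
    apply IsClopen.eq_univ
    · constructor
      · rw [← closure_subset_iff_isClosed]
        intro p hp
        obtain ⟨e', he', U', hU'o, hpU', hU', huniq⟩ := hloc p
        obtain ⟨q0, hq0, W, hWo, hqW, hW⟩ := mem_closure_iff.mp hp U' hU'o hpU'
        have hee := huniq (U' ∩ W) (hU'o.inter hWo) Set.inter_subset_left ⟨q0, hq0, hqW⟩ e he
          (fun q hq => (hW q hq.2).1)
        refine ⟨U', hU'o, hpU', fun q hq => ?_⟩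
        obtain ⟨a1, a2⟩ := hU' q hq
        rcases hee with h | h
        · rw [h]
          exact ⟨a1, a2⟩
        · rw [h]
          refine ⟨by rw [inner_neg_left, a1, neg_zero], ?_⟩
          rw [inner_neg_left, neg_smul_neg]
          exact a2
      · rw [isOpen_iff_mem_nhds]
        rintro p ⟨U, hUo, hpU, hU⟩
        filter_upwards [hUo.mem_nhds hpU] with p' hp'
        refine ⟨U, hUo, hp', fun q hq => ⟨(hU q hq).1, ?_⟩⟩
        have a1 := (hU q hq).2
        have a2 := (hU p' hp').2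
        have a3 : x1 q - x1 p' = (x1 q - x1 p) - (x1 p' - x1 p) := by abel
        rw [a3, inner_sub_right, sub_smul, ← a1, ← a2]
    · exact ⟨m0, U0, hU0o, hm0, hU0⟩
  have hall : ∀ p : M, ∃ U : Set M, IsOpen U ∧ p ∈ U ∧ ∀ q ∈ U, ⟪e, x2 q⟫ = 0 ∧
      x1 q - x1 p = ⟪e, x1 q - x1 p⟫ • e := by
    intro p
    have : p ∈ (Set.univ : Set M) := Set.mem_univ p
    rw [← hS] at this
    exact this
  have hx20 : ∀ p, ⟪e, x2 p⟫ = 0 := by
    intro p
    obtain ⟨U, -, hpU, hU⟩ := hall p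
    exact (hU p hpU).1
  have hw : ∀ p, x1 p - ⟪e, x1 p⟫ • e = x1 m0 - ⟪e, x1 m0⟫ • e := by
    have hlc : IsLocallyConstant fun m : M => x1 m - ⟪e, x1 m⟫ • e := by
      rw [IsLocallyConstant.iff_eventually_eq]
      intro m
      obtain ⟨U, hUo, hmU, hU⟩ := hall m
      filter_upwards [hUo.mem_nhds hmU] with q hq
      have a1 := (hU q hq).2
      rw [inner_sub_right, sub_smul] at a1
      have a2 : x1 q - ⟪e, x1 q⟫ • e - (x1 m - ⟪e, x1 m⟫ • e) =
          (x1 q - x1 m) - (⟪e, x1 q⟫ • e - ⟪e, x1 m⟫ • e) := by abel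
      rw [← sub_eq_zero, a2, a1, sub_self]
    exact fun p => hlc.apply_eq_of_preconnectedSpace p m0
  refine ⟨c + (x1 m0 - ⟪e, x1 m0⟫ • e), e, √ρ, he, Real.sqrt_pos.mpr hρ0, fun p => ?_⟩
  have b1 : x p - (c + (x1 m0 - ⟪e, x1 m0⟫ • e)) = ⟪e, x1 p⟫ • e + x2 p := by
    rw [← hw p, hsum p]
    abel
  have b2 : ⟪e, ⟪e, x1 p⟫ • e + x2 p⟫ = ⟪e, x1 p⟫ := by
    rw [inner_add_right, hx20, inner_smul_right, real_inner_self_eq_norm_sq, he]
    ring
  rw [b1, b2, add_sub_cancel_left, ← hρ p, Real.sqrt_sq (norm_nonneg _)]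

end Pool.Agent.Work.MP_157c12_gt.TT

end
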