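import Pool.Agent.Work.MP_157c12_gt.Stmts
import Pool.Agent.Work.MP_157c12_gt.Bd.B02
import Pool.Agent.Work.MP_157c12_gt.Bd.B03
import Pool.Agent.Work.MP_157c12_gt.Bd.B06

/-! Bundle of small proof modules (one section per former module). -/

section

/-!
# Item G: step II
-/

open MvPolynomial

namespace Pool.Agent.Work.MP_157c12_gt.ItemG

lemma gm_zero (i j : ℚ) : gm i j 0 = 0 := by simp [gm]

lemma gm_mul (i j i' j' : ℚ) (c c' : ℂ) :
    gm i j c * gm i' j' c' = gm (i + i') (j + j') (c * c') := by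
  rw [gm, gm, gm, AddMonoidAlgebra.single_mul_single]
  rfl

lemma gm_pow (i j : ℚ) (c : ℂ) (n : ℕ) : gm i j c ^ n = gm (n * i) (n * j) (c ^ n) := by
  induction n with
  | zero =>
    simp [gm, AddMonoidAlgebra.one_def]
    rfl
  | succ n ih =>
    rw [pow_succ, ih, gm_mul, pow_succ]
    congr 1 <;> (push_cast; ring)

lemma algebraMap_gm (c : ℂ) : algebraMap ℂ Gq c = gm 0 0 c := rfl

lemma xiP_eq (F : P3) : xiP 0 F =
    ∑ m ∈ F.support, Polynomial.monomial (m 0) (gm (m 1) (m 2) (coeff m F)) := by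
  rw [xiP, aeval_def, eval₂_eq']
  apply Finset.sum_congr rfl
  intro m _
  rw [Fin.prod_univ_three]
  show algebraMap ℂ (Polynomial Gq) (coeff m F) * ((Polynomial.X + Polynomial.C (gm 0 0 0)) ^ m 0 *
    (Polynomial.C (gm 1 0 1)) ^ m 1 * (Polynomial.C (gm 0 1 1)) ^ m 2) = _
  have h1 : algebraMap ℂ (Polynomial Gq) (coeff m F) = Polynomial.C (gm 0 0 (coeff m F)) := rfl
  rw [h1, gm_zero, Polynomial.C_0, add_zero, ← Polynomial.C_pow, ← Polynomial.C_pow, gm_pow, gm_pow,
    mul_assoc, ← Polynomial.C_mul, gm_mul, ← Polynomial.C_mul_X_pow_eq_monomial, mul_left_comm,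
    ← Polynomial.C_mul, gm_mul, mul_comm]
  congr 3
  · ring
  · ring
  · ring

lemma coeff_PT (F : P3) (i : ℕ) : (PT il2 (xiP 0 F)).coeff i =
    ∑ m ∈ F.support, if m 0 = i then mo exL2 (m 1) (m 2) (coeff m F) else 0 := by
  rw [PT, Polynomial.coeff_map, xiP_eq, Polynomial.finsetSum_coeff, map_sum]
  apply Finset.sum_congr rfl
  intro m _
  rw [Polynomial.coeff_monomial]
  split_ifs with h
  · exact Th_single exL2 _ _ _
  · exact map_zero _

/-- the exponent of a monomial -/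
noncomputable def ex (m : Fin 3 →₀ ℕ) : LX := il2 ((m 1 : ℚ), (m 2 : ℚ))

lemma lfst_ex (m : Fin 3 →₀ ℕ) : lfst (ex m) = -((m 1 : ℚ) + m 2) := rfl

lemma lsnd_ex (m : Fin 3 →₀ ℕ) : lsnd (ex m) = m 1 := rfl

lemma deg_eq (m : Fin 3 →₀ ℕ) : Finsupp.degree m = m 0 + m 1 + m 2 := by
  rw [Finsupp.degree_eq_sum, Fin.sum_univ_three]

lemma ext3 {m m' : Fin 3 →₀ ℕ} (h0 : m 0 = m' 0) (h1 : m 1 = m' 1) (h2 : m 2 = m' 2) : m = m' := by
  ext i
  fin_cases i
  · exact h0
  · exact h1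
  · exact h2

lemma ext_of_ex {m m' : Fin 3 →₀ ℕ} (h0 : m 0 = m' 0) (h : ex m = ex m') : m = m' := by
  have h1 : (m 1 : ℚ) = m' 1 := by
    rw [← lsnd_ex, ← lsnd_ex, h]
  have h2 : -((m 1 : ℚ) + m 2) = -((m' 1 : ℚ) + m' 2) := by
    rw [← lfst_ex, ← lfst_ex, h]
  refine ext3 h0 (by exact_mod_cast h1) ?_
  have h3 : (m 2 : ℚ) = m' 2 := by linarith
  exact_mod_cast h3

lemma le_deg (F : P3) {m : Fin 3 →₀ ℕ} (h : coeff m F ≠ 0) : m 0 + m 1 + m 2 ≤ F.totalDegree := by
  have h1 := le_totalDegree (mem_support_iff.mpr h)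
  have h2 : (m.sum fun _ e => e) = m 0 + m 1 + m 2 := by
    rw [Finsupp.sum_fintype _ _ (fun _ => rfl), Fin.sum_univ_three]
  omega

lemma coeff_A (F : P3) (m : Fin 3 →₀ ℕ) :
    ((PT il2 (xiP 0 F)).coeff (m 0)).coeff (ex m) = coeff m F := by
  rw [coeff_PT, HahnSeries.coeff_sum]
  have h : ∀ m' ∈ F.support, (if m' 0 = m 0 then mo exL2 (m' 1) (m' 2) (coeff m' F) else 0).coeff
      (ex m) = if m' = m then coeff m' F else 0 := by
    intro m' _
    by_cases h0 : m' 0 = m 0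
    · rw [if_pos h0]
      show (HahnSeries.single (ex m') (coeff m' F)).coeff (ex m) = _
      by_cases h1 : m' = m
      · subst h1
        simp
      · rw [if_neg h1, HahnSeries.coeff_single_of_ne]
        intro h2
        exact h1 (ext_of_ex h0 h2.symm)
    · rw [if_neg h0, if_neg (fun h => h0 (by rw [h]))]
      rfl
  rw [Finset.sum_congr rfl h, Finset.sum_ite_eq']
  split_ifs with h1
  · rfl
  · exact (notMem_support_iff.mp h1).symm

lemma vv_A0 (F : P3) (hz : ∀ m : Fin 3 →₀ ℕ, coeff m F ≠ 0 → m 0 = 0 → m 1 = 0 →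
    m 2 ≠ F.totalDegree) :
    ((toLex (-(F.totalDegree : ℚ), 0) : LX) : WithTop LX) < vv LX ((PT il2 (xiP 0 F)).coeff 0) := by
  rw [coeff_PT]
  apply AddValuation.map_lt_sum'
  · exact WithTop.coe_lt_top _
  · intro m hm
    have hm' := mem_support_iff.mp hm
    split_ifs with h0
    · rw [(mo_lead exL2 (m 1) (m 2) hm').val]
      rw [WithTop.coe_lt_coe]
      show _ < ex m
      rw [LX_lt]
      have h1 := le_deg F hm'
      have h2 : lfst (toLex (-(F.totalDegree : ℚ), 0) : LX) = -(F.totalDegree : ℚ) := rfl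
      have h3 : lsnd (toLex (-(F.totalDegree : ℚ), 0) : LX) = 0 := rfl
      rw [lfst_ex, lsnd_ex, h2, h3]
      have h4 : ((m 0 : ℚ) + m 1 + m 2) ≤ F.totalDegree := by exact_mod_cast h1
      rw [h0] at h4
      push_cast at h4
      rcases Nat.eq_zero_or_pos (m 1) with h5 | h5
      · left
        have h6 := hz m hm' h0 h5
        have h7 : m 2 < F.totalDegree := by omega
        have h8 : (m 2 : ℚ) < F.totalDegree := by exact_mod_cast h7
        rw [h5]
        push_cast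
        linarith
      · have h6 : (0 : ℚ) < m 1 := by exact_mod_cast h5
        rcases lt_or_eq_of_le h4 with h7 | h7
        · left
          linarith
        · right
          exact ⟨by linarith, h6⟩
    · rw [AddValuation.map_zero]
      exact WithTop.coe_lt_top _

lemma exists_of_not_dvd (G : P3) (i : Fin 3) (h : ¬ X i ∣ G) :
    ∃ m : Fin 3 →₀ ℕ, coeff m G ≠ 0 ∧ m i = 0 := by
  by_contra hc
  push Not at hc
  apply h
  rw [X_dvd_iff_modMonomial_eq_zero]
  ext m
  by_cases hm : Finsupp.single i 1 ≤ m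
  · rw [coeff_modMonomial_of_le _ hm, coeff_zero]
  · rw [coeff_modMonomial_of_not_le _ hm, coeff_zero]
    by_contra hne
    have h1 := hc m hne
    apply hm
    rw [Finsupp.single_le_iff]
    omega

lemma coeff_top (F : P3) (m : Fin 3 →₀ ℕ) :
    coeff m (top F) = if m 0 + m 1 + m 2 = F.totalDegree then coeff m F else 0 := by
  rw [top, coeff_homogeneousComponent, deg_eq]

lemma eval_001 (F : P3) (h : eval ![0, 0, 1] (top F) = 0) (m : Fin 3 →₀ ℕ) (hm : coeff m F ≠ 0)
    (h0 : m 0 = 0) (h1 : m 1 = 0) : m 2 ≠ F.totalDegree := by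
  intro h2
  have h3 : coeff m (top F) = coeff m F := by
    rw [coeff_top, if_pos (by omega)]
  rw [eval_eq'] at h
  have h4 : ∀ d ∈ (top F).support, coeff d (top F) * ∏ i, (![0, 0, 1] : Fin 3 → ℂ) i ^ d i =
      if d = m then coeff d (top F) else 0 := by
    intro d hd
    have hd' := mem_support_iff.mp hd
    rw [coeff_top] at hd'
    have hd2 : d 0 + d 1 + d 2 = F.totalDegree := by
      by_contra hne
      rw [if_neg hne] at hd'
      exact hd' rfl
    rw [Fin.prod_univ_three]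
    show coeff d (top F) * ((0 : ℂ) ^ d 0 * (0 : ℂ) ^ d 1 * (1 : ℂ) ^ d 2) = _
    by_cases h5 : d 0 = 0
    · by_cases h6 : d 1 = 0
      · have h7 : d = m := ext3 (by omega) (by omega) (by omega)
        rw [if_pos h7, h5, h6]
        simp
      · rw [if_neg (fun h8 => h6 (by rw [h8]; exact h1)), zero_pow h6]
        simp
    · rw [if_neg (fun h8 => h5 (by rw [h8]; exact h0)), zero_pow h5]
      simp
  rw [Finset.sum_congr rfl h4, Finset.sum_ite_eq', if_pos] at h
  · exact hm (by rw [← h3]; exact h)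
  · rw [mem_support_iff, h3]
    exact hm

lemma eval_PT (F : P3) (r : Hn LX) : (PT il2 (xiP 0 F)).eval r =
    ∑ m ∈ F.support, mo exL2 (m 1) (m 2) (coeff m F) * r ^ m 0 := by
  rw [PT, xiP_eq, Polynomial.map_sum, Polynomial.eval_finsetSum]
  apply Finset.sum_congr rfl
  intro m _
  rw [Polynomial.map_monomial, Polynomial.eval_monomial]
  congr 1
  exact Th_single exL2 _ _ _

lemma term_val (F : P3) {m : Fin 3 →₀ ℕ} (hm : coeff m F ≠ 0) {r : Hn LX} {γ : LX} {c : ℂ}
    (hr : Lead r γ c) :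
    vv LX (mo exL2 (m 1) (m 2) (coeff m F) * r ^ m 0) = ((ex m + m 0 • γ : LX) : WithTop LX) :=
  ((mo_lead exL2 (m 1) (m 2) hm).mul (hr.pow (m 0))).val

lemma dvd_of_root (F : P3) {r : Hn LX} {γ : LX} {c : ℂ} (hr : Lead r γ c)
    (h0 : (PT il2 (xiP 0 F)).eval r = 0) (hγ : -1 < lfst γ) : X 0 ∣ top F := by
  by_contra hn
  obtain ⟨m, hm, hm0⟩ := exists_of_not_dvd _ _ hn
  rw [coeff_top] at hm
  have hd : m 0 + m 1 + m 2 = F.totalDegree := by
    by_contra hne
    rw [if_neg hne] at hm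
    exact hm rfl
  rw [if_pos hd] at hm
  have h1 : ((PT il2 (xiP 0 F)).eval r).coeff (ex m) = 0 := by
    rw [h0]
    rfl
  rw [eval_PT, HahnSeries.coeff_sum] at h1
  have h2 : ∀ m' ∈ F.support, (mo exL2 (m' 1) (m' 2) (coeff m' F) * r ^ m' 0).coeff (ex m) =
      if m' = m then coeff m' F else 0 := by
    intro m' hm'
    have hm1 := mem_support_iff.mp hm'
    by_cases h3 : m' 0 = 0
    · rw [h3, pow_zero, mul_one]
      show (HahnSeries.single (ex m') (coeff m' F)).coeff (ex m) = _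
      by_cases h4 : m' = m
      · subst h4
        simp
      · rw [if_neg h4, HahnSeries.coeff_single_of_ne]
        intro h5
        exact h4 (ext_of_ex (by omega) h5.symm)
    · rw [if_neg (fun h4 => h3 (by rw [h4]; exact hm0))]
      apply coeff_eq_zero_of_lt_vv
      rw [term_val F hm1 hr, WithTop.coe_lt_coe, LX_lt]
      left
      rw [map_add, map_nsmul, lfst_ex, lfst_ex, nsmul_eq_mul]
      have h4 : ((m 0 : ℚ) + m 1 + m 2) = F.totalDegree := by exact_mod_cast hd
      have h5 : ((m' 0 : ℚ) + m' 1 + m' 2) ≤ F.totalDegree := by exact_mod_cast le_deg F hm1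
      have h6 : (m 0 : ℚ) = 0 := by exact_mod_cast hm0
      have h7 : (0 : ℚ) < m' 0 := by exact_mod_cast Nat.pos_of_ne_zero h3
      have h8 : (m' 0 : ℚ) * (-1) < m' 0 * lfst γ := mul_lt_mul_of_pos_left hγ h7
      linarith
  rw [Finset.sum_congr rfl h2, Finset.sum_ite_eq', if_pos (mem_support_iff.mpr hm)] at h1
  exact hm h1

lemma rot_rot (A B : Matrix (Fin 3) (Fin 3) ℂ) (F : P3) : rot B (rot A F) = rot (A * B) F := by
  have h : (aeval (fun a => ∑ b, C (B a b) * (X b : P3)) : P3 →ₐ[ℂ] P3).comp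
      (aeval (fun a => ∑ b, C (A a b) * (X b : P3))) =
      aeval (fun a => ∑ b, C ((A * B) a b) * (X b : P3)) := by
    ext1 a
    rw [AlgHom.comp_apply, aeval_X, aeval_X, map_sum]
    simp only [map_mul, aeval_X, aeval_C, algebraMap_eq, Matrix.mul_apply, map_sum, Finset.sum_mul,
      Finset.mul_sum]
    rw [Finset.sum_comm]
    simp only [mul_assoc]
  exact congrArg (fun g : P3 →ₐ[ℂ] P3 => g F) h

lemma isoN_mul {A B : Matrix (Fin 3) (Fin 3) ℂ} (hA : IsoN A) (hB : IsoN B) : IsoN (A * B) := by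
  intro v w
  rw [← Matrix.mulVec_mulVec, ← Matrix.mulVec_mulVec, hA, hB]

lemma eval_top_smul (F : P3) (c : ℂ) (P : Fin 3 → ℂ) (h : eval P (top F) = 0) :
    eval (c • P) (top F) = 0 := by
  have hh : (top F).IsHomogeneous F.totalDegree := homogeneousComponent_isHomogeneous _ _
  rw [eval_eq'] at h ⊢
  have h1 : ∀ d ∈ (top F).support, coeff d (top F) * ∏ i, (c • P) i ^ d i =
      c ^ F.totalDegree * (coeff d (top F) * ∏ i, P i ^ d i) := by
    intro d hd
    have hd' := mem_support_iff.mp hd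
    rw [coeff_top] at hd'
    have hd2 : d 0 + d 1 + d 2 = F.totalDegree := by
      by_contra hne
      rw [if_neg hne] at hd'
      exact hd' rfl
    rw [Fin.prod_univ_three, Fin.prod_univ_three, ← hd2]
    simp only [Pi.smul_apply, smul_eq_mul]
    ring
  rw [Finset.sum_congr rfl h1, ← Finset.mul_sum, h, mul_zero]

lemma coeff0_ne (F : P3) (h : (xiP 0 F).coeff 0 ≠ 0) : (PT il2 (xiP 0 F)).coeff 0 ≠ 0 := by
  have h1 : ∃ m ∈ F.support, m 0 = 0 := by
    by_contra hc
    push Not at hc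
    apply h
    rw [xiP_eq, Polynomial.finsetSum_coeff]
    apply Finset.sum_eq_zero
    intro m hm
    rw [Polynomial.coeff_monomial, if_neg (hc m hm)]
  obtain ⟨m, hm, hm0⟩ := h1
  have h2 := coeff_A F m
  rw [hm0] at h2
  intro h3
  rw [h3, HahnSeries.coeff_zero] at h2
  exact mem_support_iff.mp hm h2.symm

lemma main (hb1 : SB1) (hb3 : SB3) (hf0 : SF0) (hfg : SFg) (hd1 : SD1) (p : Polynomial ℂ) (F : P3)
    (hF : Good p F) (hz : eval ![0, 0, 1] (top F) = 0) (hn : ¬ X 1 ∣ top F) : X 0 ∣ top F := by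
  obtain ⟨m, hm, hm1⟩ := exists_of_not_dvd _ _ hn
  rw [coeff_top] at hm
  have hd : m 0 + m 1 + m 2 = F.totalDegree := by
    by_contra hne
    rw [if_neg hne] at hm
    exact hm rfl
  rw [if_pos hd] at hm
  have hz' := eval_001 F hz
  have hm0 : 1 ≤ m 0 := by
    by_contra h0
    have h0' : m 0 = 0 := by omega
    exact hz' m hm h0' hm1 (by omega)
  have hc0 := coeff0_ne F ((hf0 p F hF).1 0)
  have hcA := coeff_A F m
  have hA : (PT il2 (xiP 0 F)).coeff (m 0) ≠ 0 := by
    intro h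
    rw [h, HahnSeries.coeff_zero] at hcA
    exact hm hcA.symm
  have hdeg : 1 ≤ (PT il2 (xiP 0 F)).natDegree :=
    le_trans hm0 (Polynomial.le_natDegree_of_ne_zero hA)
  have : IsAlgClosed (Hn LX) := hb1 LX
  obtain ⟨r, hr, hr0, hle, -⟩ := hb3 (Hn LX) LX (vv LX) (PT il2 (xiP 0 F)) hc0 hdeg
  obtain ⟨γ, c, hl⟩ := lead_exists hr0
  have h1 : vv LX ((PT il2 (xiP 0 F)).coeff (m 0)) ≤ ((ex m : LX) : WithTop LX) := by
    by_contra h
    have h2 := coeff_eq_zero_of_lt_vv (not_le.mp h)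
    rw [hcA] at h2
    exact hm h2
  have h2 := vv_A0 F hz'
  have h3 := hle (m 0)
  rw [AddValuation.map_mul, (hl.pow (m 0)).val] at h3
  have h4 : ((toLex (-(F.totalDegree : ℚ), 0) : LX) : WithTop LX) <
      ((ex m + m 0 • γ : LX) : WithTop LX) := by
    refine lt_of_lt_of_le h2 (le_trans h3 ?_)
    rw [WithTop.coe_add]
    gcongr
  rw [WithTop.coe_lt_coe, LX_lt] at h4
  have e1 : lfst (toLex (-(F.totalDegree : ℚ), 0) : LX) = -(F.totalDegree : ℚ) := rfl
  have e2 : lsnd (toLex (-(F.totalDegree : ℚ), 0) : LX) = 0 := rfl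
  have e3 : ((m 0 : ℚ) + m 1 + m 2) = F.totalDegree := by exact_mod_cast hd
  have e4 : (m 1 : ℚ) = 0 := by exact_mod_cast hm1
  have e5 : (0 : ℚ) < m 0 := by exact_mod_cast hm0
  rw [e1, e2, map_add, map_add, map_nsmul, map_nsmul, lfst_ex, lsnd_ex, nsmul_eq_mul,
    nsmul_eq_mul] at h4
  have h5 : -1 < lfst γ ∨ (lfst γ = -1 ∧ 0 < lsnd γ) := by
    rcases h4 with h4 | ⟨h4, h4'⟩
    · left
      have h6 : (m 0 : ℚ) * (-1) < m 0 * lfst γ := by linarith
      exact lt_of_mul_lt_mul_left h6 e5.le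
    · right
      constructor
      · have h6 : (m 0 : ℚ) * lfst γ = m 0 * (-1) := by linarith
        exact mul_left_cancel₀ e5.ne' h6
      · have h6 : 0 < (m 0 : ℚ) * lsnd γ := by linarith
        exact (mul_pos_iff_of_pos_left e5).mp h6
  rcases h5 with h5 | ⟨h5, h6⟩
  · exact dvd_of_root F hl hr h5
  · exfalso
    have hft : FTs p exL2 (ptX exL2 0 r) := (hfg p F hF LX exL2).1 0 r hr
    refine hd1 p hF.p0 LX exL2 0 r γ c hl ?_ ?_ ?_ hft
    · rw [exL2_f1]
      exact_mod_cast h6.ne'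
    · show il2 (0, 2) < γ + il2 (1, 0)
      rw [LX_lt]
      right
      rw [map_add, map_add, lfst_il2, lfst_il2, lsnd_il2, lsnd_il2, h5]
      constructor
      · norm_num
      · linarith
    · show γ + il2 (1, 0) < 0
      rw [LX_lt]
      left
      rw [map_add, lfst_il2, h5, map_zero]
      norm_num

end Pool.Agent.Work.MP_157c12_gt.ItemG

namespace Pool.Agent.Work.MP_157c12_gt

open ItemG in
theorem gII (ha4 : SA4) (ha5 : SA5) (hb1 : SB1) (hb3 : SB3) (hf0 : SF0) (hfg : SFg) (hd1 : SD1) :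
    SG := by
  intro p F hF P hP hb
  obtain ⟨A, c, hA, -, hAc⟩ := ha5.1 P hb
  obtain ⟨B, hB, hBv⟩ := ha5.2
  obtain ⟨hF', -, htop, hev⟩ := ha4 p F A hF hA
  have hz : eval ![0, 0, 1] (top (rot A F)) = 0 := by
    rw [htop, hev, hAc]
    exact eval_top_smul F c P hP
  by_cases hn : X 1 ∣ top (rot A F)
  · refine ⟨A * B, isoN_mul hA hB, ?_⟩
    rw [← rot_rot, (ha4 p _ B hF' hB).2.2.1]
    obtain ⟨G, hG⟩ := hn
    rw [hG]
    have h1 : rot B (X 1 * G) = rot B (X 1) * rot B G := map_mul _ _ _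
    have h2 : rot B (X 1) = X 0 := by
      rw [rot, aeval_X]
      have h3 : ∀ b, B 1 b = if b = 0 then 1 else 0 := by
        intro b
        have h4 := congrFun (hBv (Pi.single b 1)) 1
        rw [Matrix.mulVec_single_one] at h4
        rw [show B 1 b = B.col b 1 from rfl, h4]
        fin_cases b <;> simp
      rw [Fin.sum_univ_three, h3, h3, h3]
      simp
    rw [h1, h2]
    exact dvd_mul_right _ _
  · exact ⟨A, hA, main hb1 hb3 hf0 hfg hd1 p _ hF' hz hn⟩

end Pool.Agent.Work.MP_157c12_gt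

end

section

set_option autoImplicit false

/-!
# H1: Nullstellensatz
-/

open MvPolynomial

namespace Pool.Agent.Work.MP_157c12_gt

namespace ItemH1

theorem top_ne_zero {F : P3} (hF : F ≠ 0) : top F ≠ 0 := by
  intro h
  have h1 : ∃ d ∈ F.support, F.totalDegree = d.degree := by
    have h2 : F.support.Nonempty := by
      rw [Finset.nonempty_iff_ne_empty]
      intro h3
      exact hF (MvPolynomial.support_eq_empty.1 h3)
    obtain ⟨d, hd, hd'⟩ := Finset.exists_mem_eq_sup F.support h2 (fun s => s.degree)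
    exact ⟨d, hd, hd'⟩
  obtain ⟨d, hd, hd'⟩ := h1
  have h4 : coeff d (top F) = coeff d F := by
    unfold top
    rw [coeff_homogeneousComponent, if_pos hd'.symm]
  rw [h, coeff_zero] at h4
  exact (mem_support_iff.1 hd) h4.symm

theorem irr_quad : Irreducible quad := by
  have h := MvPolynomial.irreducible_mul_X_add (R := ℂ) (n := Fin 3) (X 1) (X 2 ^ 2) 0
    (X_ne_zero 1) (by rw [vars_X]; simp) (by
      intro h
      have h2 := MvPolynomial.vars_pow (X 2 : P3) 2 h
      rw [vars_X] at h2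
      simp at h2) (by
      have hp : Prime (X 1 : P3) := X_prime
      have hnd : ¬ (X 1 : P3) ∣ X 2 ^ 2 := by
        intro hd
        have h3 := hp.dvd_of_dvd_pow hd
        rw [X_dvd_X] at h3
        exact absurd h3 (by decide)
      exact (hp.irreducible.isRelPrime_iff_not_dvd).2 hnd)
  have e : (X 1 * X 0 + X 2 ^ 2 : P3) = quad := by
    unfold quad
    ring
  rw [← e]
  exact h

theorem quad_eval (P : Fin 3 → ℂ) : eval P quad = bn P P := by
  unfold quad bn
  simp
  ring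

end ItemH1

open ItemH1 in
theorem hH1 : SH1 := by
  intro F hd hz
  have hF : F ≠ 0 := by
    rintro rfl
    simp at hd
  have ht := top_ne_zero hF
  have h1 : quad ∈ (Ideal.span {top F}).radical := by
    rw [← vanishingIdeal_zeroLocus_eq_radical (K := ℂ), mem_vanishingIdeal_iff]
    intro x hx
    rw [mem_zeroLocus_iff] at hx
    have h2 : eval x (top F) = 0 := hx (top F) (Ideal.subset_span rfl)
    have h3 := hz x h2
    have h4 := quad_eval x
    rw [h3] at h4
    exact h4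
  obtain ⟨N, hN⟩ := h1
  rw [Ideal.mem_span_singleton] at hN
  have hp : Prime quad := irr_quad.prime
  obtain ⟨i, -, hi⟩ := (dvd_prime_pow hp N).1 hN
  obtain ⟨u, hu⟩ := hi.symm
  obtain ⟨r, hr, hr'⟩ := isUnit_iff_eq_C_of_isReduced.1 u.isUnit
  refine ⟨r, i, hr.ne_zero, ?_, ?_⟩
  · by_contra h0
    have h0' : i = 0 := by omega
    subst h0'
    rw [pow_zero, one_mul, hr'] at hu
    have h5 : (top F).IsHomogeneous F.totalDegree := homogeneousComponent_isHomogeneous _ _
    have h6 : (top F).IsHomogeneous 0 := by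
      rw [← hu]
      exact isHomogeneous_C _ _
    have h7 := h5.inj_right h6 ht
    omega
  · rw [← hu, hr', mul_comm]

end Pool.Agent.Work.MP_157c12_gt

end

section

/-!
# SH3: if the conic frame has no positive exponents, the polynomial is a central quadric
-/

open MvPolynomial

namespace Pool.Agent.Work.MP_157c12_gt

namespace ItemH3

lemma gm_mul (i j i' j' : ℚ) (c c' : ℂ) :
    gm i j c * gm i' j' c' = gm (i + i') (j + j') (c * c') := by
  rw [gm, gm, gm, AddMonoidAlgebra.single_mul_single]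
  rfl

lemma gm_one : gm 0 0 1 = 1 := rfl

/-- `coP` as a homomorphism -/
noncomputable def phi : P3 →ₐ[ℂ] Polynomial Gq :=
  aeval ![Polynomial.C (gm (-1) 0 1) * Polynomial.X - Polynomial.C (gm 1 2 1),
    Polynomial.C (gm 1 0 1), Polynomial.C (gm 1 1 1)]

lemma phi_eq (F : P3) : phi F = coP F := rfl

lemma phi0 : phi (X 0) = Polynomial.C (gm (-1) 0 1) * Polynomial.X - Polynomial.C (gm 1 2 1) := by
  simp [phi]

lemma phi1 : phi (X 1) = Polynomial.C (gm 1 0 1) := by
  simp [phi]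

lemma phi2 : phi (X 2) = Polynomial.C (gm 1 1 1) := by
  simp [phi]

lemma phi_quad : phi quad = Polynomial.X := by
  have h1 : gm (-1) 0 1 * gm 1 0 1 = 1 := by
    rw [gm_mul, ← gm_one]
    norm_num
  have h2 : gm 1 2 1 * gm 1 0 1 = gm 1 1 1 * gm 1 1 1 := by
    rw [gm_mul, gm_mul]
    norm_num
  rw [quad, map_add, map_mul, map_pow, phi0, phi1, phi2, sub_mul, pow_two, ← Polynomial.C_mul,
    ← Polynomial.C_mul, h2, mul_right_comm, ← Polynomial.C_mul, h1, Polynomial.C_1]
  ring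

/-! ### the grading -/

/-- elements of weight `r` in the first exponent -/
def Gr (r : ℚ) (a : Gq) : Prop := ∀ ε, a.coeff ε ≠ 0 → ε.1 = r

lemma Gr_zero (r : ℚ) : Gr r 0 := by
  intro ε h
  exact absurd rfl h

lemma Gr_add {r : ℚ} {a b : Gq} (ha : Gr r a) (hb : Gr r b) : Gr r (a + b) := by
  intro ε h
  rw [AddMonoidAlgebra.coeff_add, Finsupp.add_apply] at h
  by_contra hne
  have h1 : a.coeff ε = 0 := by
    by_contra h1
    exact hne (ha ε h1)
  have h2 : b.coeff ε = 0 := by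
    by_contra h2
    exact hne (hb ε h2)
  exact h (by rw [h1, h2, add_zero])

lemma Gr_neg {r : ℚ} {a : Gq} (ha : Gr r a) : Gr r (-a) := by
  intro ε h
  rw [AddMonoidAlgebra.coeff_neg, Finsupp.neg_apply] at h
  exact ha ε (neg_ne_zero.mp h)

lemma Gr_sum {r : ℚ} {ι : Type} (s : Finset ι) (f : ι → Gq) (h : ∀ i ∈ s, Gr r (f i)) :
    Gr r (∑ i ∈ s, f i) := by
  classical
  induction s using Finset.induction_on with
  | empty => exact Gr_zero r
  | insert i s hi ih =>
    rw [Finset.sum_insert hi]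
    exact Gr_add (h i (Finset.mem_insert_self i s))
      (ih fun j hj => h j (Finset.mem_insert_of_mem hj))

lemma Gr_mul {r s : ℚ} {a b : Gq} (ha : Gr r a) (hb : Gr s b) : Gr (r + s) (a * b) := by
  classical
  intro ε h
  rw [AddMonoidAlgebra.coeff_mul, Finsupp.sum] at h
  obtain ⟨m1, hm1, h1⟩ := Finset.exists_ne_zero_of_sum_ne_zero h
  rw [Finsupp.sum] at h1
  obtain ⟨m2, hm2, h2⟩ := Finset.exists_ne_zero_of_sum_ne_zero h1
  have h3 : m1 + m2 = ε := by
    by_contra h3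
    exact h2 (if_neg h3)
  rw [← h3, Prod.fst_add, ha m1 (Finsupp.mem_support_iff.mp hm1),
    hb m2 (Finsupp.mem_support_iff.mp hm2)]

lemma Gr_gm (i j : ℚ) (c : ℂ) : Gr i (gm i j c) := by
  intro ε h
  rw [gm, AddMonoidAlgebra.coeff_single] at h
  by_contra hne
  apply h
  rw [Finsupp.single_apply, if_neg]
  intro h1
  exact hne (by rw [← h1])

/-- homogeneous elements: the variable has weight 2 -/
def Hm (e : ℚ) (Q : Polynomial Gq) : Prop := ∀ j : ℕ, Gr (e - 2 * j) (Q.coeff j)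

lemma Hm_zero (e : ℚ) : Hm e 0 := by
  intro j
  rw [Polynomial.coeff_zero]
  exact Gr_zero _

lemma Hm_add {e : ℚ} {P Q : Polynomial Gq} (hP : Hm e P) (hQ : Hm e Q) : Hm e (P + Q) := by
  intro j
  rw [Polynomial.coeff_add]
  exact Gr_add (hP j) (hQ j)

lemma Hm_neg {e : ℚ} {P : Polynomial Gq} (hP : Hm e P) : Hm e (-P) := by
  intro j
  rw [Polynomial.coeff_neg]
  exact Gr_neg (hP j)

lemma Hm_sum {e : ℚ} {ι : Type} (s : Finset ι) (f : ι → Polynomial Gq) (h : ∀ i ∈ s, Hm e (f i)) :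
    Hm e (∑ i ∈ s, f i) := by
  classical
  induction s using Finset.induction_on with
  | empty => exact Hm_zero e
  | insert i s hi ih =>
    rw [Finset.sum_insert hi]
    exact Hm_add (h i (Finset.mem_insert_self i s))
      (ih fun j hj => h j (Finset.mem_insert_of_mem hj))

lemma Hm_mul {e f : ℚ} {P Q : Polynomial Gq} (hP : Hm e P) (hQ : Hm f Q) :
    Hm (e + f) (P * Q) := by
  intro j
  rw [Polynomial.coeff_mul]
  apply Gr_sum
  rintro ⟨a, b⟩ hab
  have hab' : a + b = j := Finset.HasAntidiagonal.mem_antidiagonal.mp hab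
  have h1 := Gr_mul (hP a) (hQ b)
  have h2 : (e - 2 * (a : ℚ)) + (f - 2 * (b : ℚ)) = e + f - 2 * (j : ℚ) := by
    rw [← hab']
    push_cast
    ring
  rw [h2] at h1
  exact h1

lemma Hm_C {e : ℚ} {a : Gq} (ha : Gr e a) : Hm e (Polynomial.C a) := by
  intro j
  rw [Polynomial.coeff_C]
  split_ifs with h
  · subst h
    simpa using ha
  · exact Gr_zero _

lemma Hm_X : Hm 2 (Polynomial.X : Polynomial Gq) := by
  intro j
  rw [Polynomial.coeff_X]
  split_ifs with h
  · subst h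
    have h0 : (2 : ℚ) - 2 * ((1 : ℕ) : ℚ) = 0 := by norm_num
    rw [h0, ← gm_one]
    exact Gr_gm 0 0 1
  · exact Gr_zero _

lemma Hm_phiX (i : Fin 3) : Hm 1 (phi (X i)) := by
  fin_cases i
  · show Hm 1 (phi (X 0))
    rw [phi0, sub_eq_add_neg]
    apply Hm_add
    · have h1 := Hm_mul (Hm_C (Gr_gm (-1) 0 1)) Hm_X
      have h2 : (-1 : ℚ) + 2 = 1 := by norm_num
      rw [h2] at h1
      exact h1
    · exact Hm_neg (Hm_C (Gr_gm 1 2 1))
  · show Hm 1 (phi (X 1))
    rw [phi1]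
    exact Hm_C (Gr_gm 1 0 1)
  · show Hm 1 (phi (X 2))
    rw [phi2]
    exact Hm_C (Gr_gm 1 1 1)

lemma Hm_phiC (c : ℂ) : Hm 0 (phi (C c)) := by
  have h1 : phi (C c) = Polynomial.C (gm 0 0 c) := by
    rw [phi, MvPolynomial.aeval_C]
    rfl
  rw [h1]
  exact Hm_C (Gr_gm 0 0 c)

lemma Hm_pow {P : Polynomial Gq} (hP : Hm 1 P) (n : ℕ) : Hm n (P ^ n) := by
  induction n with
  | zero =>
    have h := Hm_C (Gr_gm 0 0 1)
    rw [gm_one, Polynomial.C_1] at h
    simpa using h
  | succ n ih =>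
    rw [pow_succ]
    push_cast
    exact Hm_mul ih hP

lemma Hm_monomial (s : Fin 3 →₀ ℕ) (c : ℂ) : Hm (s.degree : ℕ) (phi (monomial s c)) := by
  have h1 : (monomial s c : P3) = C c * (X 0 ^ s 0 * X 1 ^ s 1 * X 2 ^ s 2) := by
    rw [MvPolynomial.monomial_eq, Finsupp.prod_fintype _ _ (by simp), Fin.prod_univ_three]
  have h2 : (s.degree : ℕ) = s 0 + s 1 + s 2 := by
    rw [Finsupp.degree_eq_sum, Fin.sum_univ_three]
  rw [h1, h2]
  have h3 := Hm_mul (Hm_phiC c) (Hm_mul (Hm_mul (Hm_pow (Hm_phiX 0) (s 0))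
    (Hm_pow (Hm_phiX 1) (s 1))) (Hm_pow (Hm_phiX 2) (s 2)))
  rw [map_mul, map_mul, map_mul, map_pow, map_pow, map_pow]
  push_cast
  rw [zero_add] at h3
  exact h3

lemma Hm_phi {F : P3} {n : ℕ} (hF : F.IsHomogeneous n) : Hm n (phi F) := by
  have h1 : phi F = ∑ s ∈ F.support, phi (monomial s (coeff s F)) := by
    rw [← map_sum, ← MvPolynomial.as_sum]
  rw [h1]
  apply Hm_sum
  intro s hs
  have h2 : s.degree = n := by
    by_contra h
    exact (MvPolynomial.mem_support_iff.mp hs) (hF.coeff_eq_zero h)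
  rw [← h2]
  exact Hm_monomial s _

lemma comp_coeff (F : P3) (hF : ∀ j, ∀ e ∈ ((coP F).coeff j).coeff.support, e.1 ≤ 0) (e j : ℕ)
    (hj : 2 * j < e) : (phi (homogeneousComponent e F)).coeff j = 0 := by
  ext ε
  by_contra hne
  have h0 : ((phi (homogeneousComponent e F)).coeff j).coeff ε ≠ 0 := hne
  have h1 : ε.1 = (e : ℚ) - 2 * j := Hm_phi (homogeneousComponent_isHomogeneous e F) j ε h0
  have h2 : 0 < ε.1 := by
    rw [h1]
    have : (2 * j : ℚ) < e := by exact_mod_cast hj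
    linarith
  -- other components do not contribute
  have h3 : ∀ e' : ℕ, e' ≠ e → ((phi (homogeneousComponent e' F)).coeff j).coeff ε = 0 := by
    intro e' he'
    by_contra h4
    have h5 : ε.1 = (e' : ℚ) - 2 * j := Hm_phi (homogeneousComponent_isHomogeneous e' F) j ε h4
    apply he'
    have h6 : (e' : ℚ) = e := by linarith
    exact_mod_cast h6
  have hmem : e ∈ Finset.range (F.totalDegree + 1) := by
    rw [Finset.mem_range]
    by_contra hlt
    apply h0
    rw [homogeneousComponent_eq_zero _ _ (by omega), map_zero, Polynomial.coeff_zero]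
    rfl
  have h4 : ((phi F).coeff j).coeff ε = ((phi (homogeneousComponent e F)).coeff j).coeff ε := by
    conv_lhs => rw [← sum_homogeneousComponent F]
    rw [map_sum, Polynomial.finsetSum_coeff, AddMonoidAlgebra.coeff_sum, Finsupp.finsetSum_apply]
    exact Finset.sum_eq_single_of_mem e hmem (fun e' _ he' => h3 e' he')
  have h5 : ε ∈ ((coP F).coeff j).coeff.support := by
    rw [Finsupp.mem_support_iff, ← phi_eq, h4]
    exact h0
  exact absurd (hF j ε h5) (not_le.mpr h2)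

/-! ### divisibility by the quadratic form -/

lemma elim (G : P3) : ∃ (N : ℕ) (G1 : P3) (R : MvPolynomial (Fin 2) ℂ),
    X 1 ^ N * G = quad * G1 + rename Fin.succ R := by
  induction G using MvPolynomial.induction_on with
  | C a =>
    refine ⟨0, 0, C a, ?_⟩
    rw [rename_C]
    ring
  | add p q hp hq =>
    obtain ⟨N, G1, R, h1⟩ := hp
    obtain ⟨M, G2, S, h2⟩ := hq
    refine ⟨N + M, X 1 ^ M * G1 + X 1 ^ N * G2, X 0 ^ M * R + X 0 ^ N * S, ?_⟩
    have h3 : rename Fin.succ (X 0 ^ M * R + X 0 ^ N * S) =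
        (X 1 ^ M * rename Fin.succ R + X 1 ^ N * rename Fin.succ S : P3) := by
      rw [map_add, map_mul, map_mul, map_pow, map_pow, rename_X]
      rfl
    rw [h3, pow_add]
    linear_combination X 1 ^ M * h1 + X 1 ^ N * h2
  | mul_X p i hp =>
    obtain ⟨N, G1, R, h1⟩ := hp
    fin_cases i
    · refine ⟨N + 1, G1 * (quad - X 2 ^ 2) + rename Fin.succ R, -(R * X 1 ^ 2), ?_⟩
      have h3 : rename Fin.succ (-(R * X 1 ^ 2)) = (-(rename Fin.succ R * X 2 ^ 2) : P3) := by
        rw [map_neg, map_mul, map_pow, rename_X]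
        rfl
      have h4 : (quad : P3) = X 0 * X 1 + X 2 ^ 2 := rfl
      rw [h3]
      show X 1 ^ (N + 1) * (p * X 0) = _
      linear_combination (X 1 * X 0) * h1 - (quad * G1 + rename Fin.succ R) * h4
    · refine ⟨N, G1 * X 1, R * X 0, ?_⟩
      have h3 : rename Fin.succ (R * X 0) = (rename Fin.succ R * X 1 : P3) := by
        rw [map_mul, rename_X]
        rfl
      rw [h3]
      show X 1 ^ N * (p * X 1) = _
      linear_combination X 1 * h1
    · refine ⟨N, G1 * X 2, R * X 1, ?_⟩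
      have h3 : rename Fin.succ (R * X 1) = (rename Fin.succ R * X 2 : P3) := by
        rw [map_mul, rename_X]
        rfl
      rw [h3]
      show X 1 ^ N * (p * X 2) = _
      linear_combination X 2 * h1

/-- exponent of a monomial -/
def ex (s : Fin 2 →₀ ℕ) : ℚ × ℚ := ((s 0 : ℚ) + s 1, (s 1 : ℚ))

lemma ex_inj : Function.Injective ex := by
  intro s t h
  have h1 : (s 0 : ℚ) + s 1 = t 0 + t 1 := congrArg Prod.fst h
  have h2 : (s 1 : ℚ) = t 1 := congrArg Prod.snd h
  have h3 : (s 0 : ℚ) = t 0 := by linarith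
  ext i
  fin_cases i
  · exact_mod_cast h3
  · exact_mod_cast h2

lemma gm_pow (i j : ℚ) (n : ℕ) : gm i j 1 ^ n = gm (n * i) (n * j) 1 := by
  induction n with
  | zero => simp [← gm_one]
  | succ n ih =>
    rw [pow_succ, ih, gm_mul]
    push_cast
    rw [one_mul, add_mul, add_mul, one_mul, one_mul]

lemma aeval_mono (s : Fin 2 →₀ ℕ) (c : ℂ) :
    aeval ![gm 1 0 1, gm 1 1 1] (monomial s c) = AddMonoidAlgebra.single (ex s) c := by
  rw [MvPolynomial.aeval_monomial, Finsupp.prod_fintype _ _ (by simp), Fin.prod_univ_two]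
  show algebraMap ℂ Gq c * (gm 1 0 1 ^ s 0 * gm 1 1 1 ^ s 1) = _
  have h1 : algebraMap ℂ Gq c = gm 0 0 c := rfl
  rw [h1, gm_pow, gm_pow, gm_mul, gm_mul]
  simp only [mul_one, mul_zero, zero_add]
  rfl

lemma aeval_inj (R : MvPolynomial (Fin 2) ℂ) (h : aeval ![gm 1 0 1, gm 1 1 1] R = 0) : R = 0 := by
  ext t
  rw [coeff_zero]
  have h1 : (aeval ![gm 1 0 1, gm 1 1 1] R).coeff (ex t) = coeff t R := by
    conv_lhs => rw [MvPolynomial.as_sum R]
    rw [map_sum, AddMonoidAlgebra.coeff_sum, Finsupp.finsetSum_apply]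
    simp only [aeval_mono, AddMonoidAlgebra.coeff_single]
    by_cases ht : t ∈ R.support
    · rw [Finset.sum_eq_single_of_mem t ht]
      · rw [Finsupp.single_eq_same]
      · intro s _ hst
        exact Finsupp.single_eq_of_ne (fun h => hst (ex_inj h.symm))
    · rw [MvPolynomial.notMem_support_iff.mp ht]
      apply Finset.sum_eq_zero
      intro s hs
      apply Finsupp.single_eq_of_ne
      intro h
      rw [ex_inj h] at ht
      exact ht hs
  rw [← h1, h]
  rfl

lemma X1_prime : Prime (X 1 : P3) := by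
  apply Irreducible.prime
  apply MvPolynomial.irreducible_of_totalDegree_eq_one (totalDegree_X 1)
  intro x hx
  have h := hx (Finsupp.single 1 1)
  rw [coeff_X] at h
  simp only [if_true] at h
  exact isUnit_of_dvd_one h

lemma X1_not_dvd : ¬ (X 1 : P3) ∣ quad := by
  rintro ⟨G, hG⟩
  have h := congrArg (eval ![0, 0, 1]) hG
  simp [quad] at h

lemma quad_dvd (G : P3) (h : (phi G).coeff 0 = 0) : quad ∣ G := by
  obtain ⟨N, G1, R, h1⟩ := elim G
  have h2 := congrArg (fun K => (phi K).coeff 0) h1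
  simp only [map_mul, map_add, map_pow, phi1, phi_quad, Polynomial.mul_coeff_zero, h, mul_zero,
    Polynomial.coeff_add, Polynomial.coeff_X_zero, zero_mul, zero_add] at h2
  have h3 : (phi (rename Fin.succ R)) = Polynomial.C (aeval ![gm 1 0 1, gm 1 1 1] R) := by
    have h4 : phi.comp (rename Fin.succ) =
        (Polynomial.CAlgHom (R := ℂ) (A := Gq)).comp (aeval ![gm 1 0 1, gm 1 1 1]) := by
      apply MvPolynomial.algHom_ext
      intro i
      fin_cases i
      · simp [phi, Polynomial.CAlgHom]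
      · simp [phi, Polynomial.CAlgHom]
    exact DFunLike.congr_fun h4 R
  rw [h3, Polynomial.coeff_C_zero] at h2
  have h4 : R = 0 := aeval_inj R h2.symm
  rw [h4, map_zero, add_zero] at h1
  have h5 : (X 1 : P3) ^ N ∣ quad * G1 := ⟨G, h1.symm⟩
  obtain ⟨G2, hG2⟩ := X1_prime.pow_dvd_of_dvd_mul_left N X1_not_dvd h5
  refine ⟨G2, ?_⟩
  have h6 : (X 1 : P3) ^ N ≠ 0 := pow_ne_zero _ (X_ne_zero 1)
  apply mul_left_cancel₀ h6
  rw [h1, hG2]
  ring

lemma quad_pow_dvd (k : ℕ) : ∀ G : P3, (∀ j < k, (phi G).coeff j = 0) → quad ^ k ∣ G := by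
  induction k with
  | zero =>
    intro G _
    rw [pow_zero]
    exact one_dvd G
  | succ k ih =>
    intro G hG
    obtain ⟨G', hG'⟩ := quad_dvd G (hG 0 (Nat.succ_pos k))
    have h1 : quad ^ k ∣ G' := by
      apply ih
      intro j hj
      have h2 := hG (j + 1) (by omega)
      rw [hG', map_mul, phi_quad, Polynomial.coeff_X_mul] at h2
      exact h2
    rw [hG', pow_succ']
    exact mul_dvd_mul_left quad h1

lemma quad_ne_zero : (quad : P3) ≠ 0 := by
  intro h
  exact X1_not_dvd (h ▸ dvd_zero _)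

lemma quad_homog : (quad : P3).IsHomogeneous 2 := by
  have h1 : (X 0 * X 1 : P3).IsHomogeneous 2 := (isHomogeneous_X ℂ 0).mul (isHomogeneous_X ℂ 1)
  have h2 : (X 2 ^ 2 : P3).IsHomogeneous 2 := isHomogeneous_X_pow 2 2
  exact h1.add h2

lemma comp_range (F : P3) (hF : ∀ j, ∀ e ∈ ((coP F).coeff j).coeff.support, e.1 ≤ 0) (e : ℕ) :
    homogeneousComponent e F ∈ (Polynomial.aeval (R := ℂ) (quad : P3)).range := by
  by_cases h0 : homogeneousComponent e F = 0
  · rw [h0]
    exact Subalgebra.zero_mem _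
  obtain ⟨G, hG⟩ := quad_pow_dvd ((e + 1) / 2) (homogeneousComponent e F) (by
    intro j hj
    exact comp_coeff F hF e j (by omega))
  have hG0 : G ≠ 0 := by
    rintro rfl
    rw [mul_zero] at hG
    exact h0 hG
  have h1 : (homogeneousComponent e F).totalDegree = e :=
    (homogeneousComponent_isHomogeneous e F).totalDegree h0
  have h2 : (quad ^ ((e + 1) / 2) : P3).totalDegree = 2 * ((e + 1) / 2) :=
    (quad_homog.pow _).totalDegree (pow_ne_zero _ quad_ne_zero)
  have h3 := totalDegree_mul_of_isDomain (pow_ne_zero ((e + 1) / 2) quad_ne_zero) hG0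
  rw [← hG, h1, h2] at h3
  have h4 : G.totalDegree = 0 := by omega
  rw [totalDegree_eq_zero_iff_eq_C] at h4
  refine ⟨Polynomial.C (coeff 0 G) * Polynomial.X ^ ((e + 1) / 2), ?_⟩
  show Polynomial.aeval quad _ = _
  rw [map_mul, map_pow, Polynomial.aeval_X, Polynomial.aeval_C, hG, mul_comm]
  congr 1
  exact h4.symm

lemma main (F : P3) (hF : ∀ j, ∀ e ∈ ((coP F).coeff j).coeff.support, e.1 ≤ 0) :
    ∃ f : Polynomial ℂ, F = Polynomial.aeval quad f := by
  have h : F ∈ (Polynomial.aeval (R := ℂ) (quad : P3)).range := by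
    rw [← sum_homogeneousComponent F]
    exact Subalgebra.sum_mem _ fun e _ => comp_range F hF e
  obtain ⟨f, hf⟩ := h
  exact ⟨f, hf.symm⟩

lemma not_unit (κ : ℂ) : ¬ IsUnit (quad - C κ : P3) := by
  intro h
  have h1 := h.map (eval ![κ, 1, 0])
  simp [quad] at h1

end ItemH3

theorem hH3 : SH3 := by
  intro F hirr hF
  obtain ⟨f, rfl⟩ := ItemH3.main F hF
  have hdeg : f.degree ≠ 0 := by
    intro h
    have h1 := Polynomial.eq_C_of_degree_eq_zero h
    rw [h1, Polynomial.aeval_C] at hirr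
    by_cases h2 : f.coeff 0 = 0
    · rw [h2, map_zero] at hirr
      exact hirr.ne_zero rfl
    · exact hirr.not_isUnit ((isUnit_iff_ne_zero.mpr h2).map _)
  obtain ⟨κ, hκ⟩ := IsAlgClosed.exists_root f hdeg
  obtain ⟨g, hg⟩ := Polynomial.dvd_iff_isRoot.mpr hκ
  have h1 : Polynomial.aeval (quad : P3) f = (quad - C κ) * Polynomial.aeval quad g := by
    rw [hg, map_mul, map_sub, Polynomial.aeval_X, Polynomial.aeval_C]
    rfl
  rw [h1] at hirr ⊢
  have h2 : IsUnit (Polynomial.aeval (quad : P3) g) :=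
    (hirr.isUnit_or_isUnit rfl).resolve_left (ItemH3.not_unit κ)
  obtain ⟨c, hc, hc'⟩ := MvPolynomial.isUnit_iff_eq_C_of_isReduced.mp h2
  refine ⟨c, κ, hc.ne_zero, ?_⟩
  rw [hc', mul_comm]

end Pool.Agent.Work.MP_157c12_gt

end

section

/-!
# Item C3: neutral case
-/

open MvPolynomial

namespace Pool.Agent.Work.MP_157c12_gt

namespace ItemC3

variable {H : Type} [Field H] [Algebra ℂ H] {Γ : Type} [AddCommGroup Γ] [LinearOrder Γ]
  [IsOrderedAddMonoid Γ] (v : AddValuation H (WithTop Γ))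

lemma add_le {δ φ : Γ} {a b : WithTop Γ} (ha : (δ : WithTop Γ) ≤ a) (hb : (φ : WithTop Γ) ≤ b) :
    ((δ + φ : Γ) : WithTop Γ) ≤ a + b := by
  rw [WithTop.coe_add]
  exact add_le_add ha hb

omit [Algebra ℂ H] in
lemma v_inv {d : H} {δ : Γ} (hδ : (δ : WithTop Γ) = v d) : v d⁻¹ = ((-δ : Γ) : WithTop Γ) := by
  have hd0 : d ≠ 0 := (AddValuation.ne_top_iff v).1 (by rw [← hδ]; exact WithTop.coe_ne_top)
  have h4 : v d + v d⁻¹ = 0 := by
    rw [← AddValuation.map_mul, mul_inv_cancel₀ hd0, AddValuation.map_one]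
  rw [← hδ] at h4
  cases h5 : v d⁻¹ with
  | top => rw [h5, WithTop.add_top] at h4; exact absurd h4 (by simp)
  | coe c =>
    rw [h5, ← WithTop.coe_add] at h4
    have h6 : δ + c = 0 := by exact_mod_cast h4
    rw [eq_neg_of_add_eq_zero_right h6]

/-- the Laplace operator, lower bound -/
lemma lap_of_le {D1 D2 : Derivation ℂ H H} (hV : VD v D1 D2) {x : Fin 3 → H} {δ φ : Γ}
    (hδ : (δ : WithTop Γ) = v (detN D1 D2 x)) {f : H}
    (hA : ((δ + φ : Γ) : WithTop Γ) ≤ v (nd D2 D2 x * D1 f - nd D1 D2 x * D2 f))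
    (hB : ((δ + φ : Γ) : WithTop Γ) ≤ v (nd D1 D1 x * D2 f - nd D1 D2 x * D1 f)) :
    (φ : WithTop Γ) ≤ v (lapF D1 D2 x (detN D1 D2 x)⁻¹ f) := by
  have hdi := v_inv v hδ
  have hD1 : ((δ : Γ) : WithTop Γ) ≤ v (D1 (detN D1 D2 x)) := hδ.trans_le (hV.d1 _)
  have hD2 : ((δ : Γ) : WithTop Γ) ≤ v (D2 (detN D1 D2 x)) := hδ.trans_le (hV.d2 _)
  unfold lapF
  rw [sub_eq_add_neg]
  refine AddValuation.map_le_add v ?_ ?_
  · rw [AddValuation.map_mul, hdi]
    have h4 : ((δ + φ : Γ) : WithTop Γ) ≤ v (D1 (nd D2 D2 x * D1 f - nd D1 D2 x * D2 f) +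
        D2 (nd D1 D1 x * D2 f - nd D1 D2 x * D1 f)) :=
      AddValuation.map_le_add v (hA.trans (hV.d1 _)) (hB.trans (hV.d2 _))
    have h5 := add_le (δ := -δ) (φ := δ + φ) le_rfl h4
    rwa [neg_add_cancel_left] at h5
  · rw [AddValuation.map_neg, AddValuation.map_mul, AddValuation.map_mul,
      hV.c _ (by norm_num : (1 / 2 : ℂ) ≠ 0), zero_add, pow_two, AddValuation.map_mul, hdi]
    have h4 : ((δ + (δ + φ) : Γ) : WithTop Γ) ≤ v (D1 (detN D1 D2 x) *
        (nd D2 D2 x * D1 f - nd D1 D2 x * D2 f) + D2 (detN D1 D2 x) *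
        (nd D1 D1 x * D2 f - nd D1 D2 x * D1 f)) := by
      refine AddValuation.map_le_add v ?_ ?_
      · rw [AddValuation.map_mul]
        exact add_le hD1 hA
      · rw [AddValuation.map_mul]
        exact add_le hD2 hB
    have h5 := add_le (δ := -δ + -δ) (φ := δ + (δ + φ)) le_rfl h4
    have h6 : -δ + -δ + (δ + (δ + φ)) = φ := by abel
    rw [h6] at h5
    exact h5

/-- the Laplace operator, strict lower bound -/
lemma lap_of_lt {D1 D2 : Derivation ℂ H H} (hV : VD v D1 D2) {x : Fin 3 → H} {δ φ : Γ}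
    (hδ : (δ : WithTop Γ) = v (detN D1 D2 x)) {f : H}
    (hA : ((δ + φ : Γ) : WithTop Γ) < v (nd D2 D2 x * D1 f - nd D1 D2 x * D2 f))
    (hB : ((δ + φ : Γ) : WithTop Γ) < v (nd D1 D1 x * D2 f - nd D1 D2 x * D1 f)) :
    (φ : WithTop Γ) < v (lapF D1 D2 x (detN D1 D2 x)⁻¹ f) := by
  have hdi := v_inv v hδ
  have hD1 : ((δ : Γ) : WithTop Γ) ≤ v (D1 (detN D1 D2 x)) := hδ.trans_le (hV.d1 _)
  have hD2 : ((δ : Γ) : WithTop Γ) ≤ v (D2 (detN D1 D2 x)) := hδ.trans_le (hV.d2 _)
  unfold lapF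
  rw [sub_eq_add_neg]
  refine AddValuation.map_lt_add v ?_ ?_
  · rw [AddValuation.map_mul, hdi]
    have h4 : ((δ + φ : Γ) : WithTop Γ) < v (D1 (nd D2 D2 x * D1 f - nd D1 D2 x * D2 f) +
        D2 (nd D1 D1 x * D2 f - nd D1 D2 x * D1 f)) :=
      AddValuation.map_lt_add v (hA.trans_le (hV.d1 _)) (hB.trans_le (hV.d2 _))
    have h5 := ItemC1.add_lt' (δ := -δ) (φ := δ + φ) le_rfl h4
    rwa [neg_add_cancel_left] at h5
  · rw [AddValuation.map_neg, AddValuation.map_mul, AddValuation.map_mul,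
      hV.c _ (by norm_num : (1 / 2 : ℂ) ≠ 0), zero_add, pow_two, AddValuation.map_mul, hdi]
    have h4 : ((δ + (δ + φ) : Γ) : WithTop Γ) < v (D1 (detN D1 D2 x) *
        (nd D2 D2 x * D1 f - nd D1 D2 x * D2 f) + D2 (detN D1 D2 x) *
        (nd D1 D1 x * D2 f - nd D1 D2 x * D1 f)) := by
      refine AddValuation.map_lt_add v ?_ ?_
      · rw [AddValuation.map_mul]
        exact ItemC1.add_lt' hD1 hA
      · rw [AddValuation.map_mul]
        exact ItemC1.add_lt' hD2 hB
    have h5 := ItemC1.add_lt' (δ := -δ + -δ) (φ := δ + (δ + φ)) le_rfl h4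
    have h6 : -δ + -δ + (δ + (δ + φ)) = φ := by abel
    rw [h6] at h5
    exact h5

end ItemC3

/-- Item C3. -/
theorem c3 : SC3 := by
  intro p hp H _ _ Γ _ _ _ v D1 D2 hV x a hx hD h1 h2 h3 hFT
  have hdt : v (detN D1 D2 x) ≠ ⊤ := ne_top_of_lt h1
  obtain ⟨δ, hδ⟩ := WithTop.ne_top_iff_exists.1 hdt
  rw [← hδ] at h1 h2 h3
  have hle : ∀ f, v f ≤ v (lapF D1 D2 x (detN D1 D2 x)⁻¹ f) := by
    intro f
    by_cases hf : f = 0
    · have h4 : lapF D1 D2 x (detN D1 D2 x)⁻¹ f = 0 :=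
        hf ▸ (lapL D1 D2 x (detN D1 D2 x)⁻¹).map_zero
      rw [h4, hf]
    obtain ⟨φ, hφ⟩ := WithTop.ne_top_iff_exists.1 ((AddValuation.ne_top_iff v).2 hf)
    rw [← hφ]
    refine ItemC3.lap_of_le v hV hδ ?_ ?_
    · rw [sub_eq_add_neg]
      refine AddValuation.map_le_add v ?_ ?_
      · rw [AddValuation.map_mul]
        exact ItemC3.add_le h3 (hφ.trans_le (hV.d1 f))
      · rw [AddValuation.map_neg, AddValuation.map_mul]
        exact ItemC3.add_le h2.le (hφ.trans_le (hV.d2 f))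
    · rw [sub_eq_add_neg]
      refine AddValuation.map_le_add v ?_ ?_
      · rw [AddValuation.map_mul]
        exact ItemC3.add_le h1.le (hφ.trans_le (hV.d2 f))
      · rw [AddValuation.map_neg, AddValuation.map_mul]
        exact ItemC3.add_le h2.le (hφ.trans_le (hV.d1 f))
  have hlt : v (x a) < v (lapF D1 D2 x (detN D1 D2 x)⁻¹ (x a)) := by
    obtain ⟨φ, hφ⟩ := WithTop.ne_top_iff_exists.1 ((AddValuation.ne_top_iff v).2 hx)
    rw [← hφ]
    refine ItemC3.lap_of_lt v hV hδ ?_ ?_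
    · rw [hD, mul_zero, zero_sub, AddValuation.map_neg, AddValuation.map_mul]
      exact ItemC1.add_lt h2 (hφ.trans_le (hV.d2 _))
    · rw [hD, mul_zero, sub_zero, AddValuation.map_mul]
      exact ItemC1.add_lt h1 (hφ.trans_le (hV.d2 _))
  refine ItemC1.aeval_ne v hp hV.c (lapL D1 D2 x (detN D1 D2 x)⁻¹) hx (fun k => ?_) (hFT a)
  induction k with
  | zero => exact hlt
  | succ k ih =>
    rw [pow_succ', Module.End.mul_apply]
    exact ih.trans_le (hle _)

end Pool.Agent.Work.MP_157c12_gt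

end

section

/-!
# Item F1a: from a pure root to the adapted frame
-/

open MvPolynomial

namespace Pool.Agent.Work.MP_157c12_gt

namespace ItemF1a

section

variable {Γ : Type} [AddCommGroup Γ] [LinearOrder Γ] [IsOrderedAddMonoid Γ]

/-- two elements with a common bound and a better bound for the difference -/
structure Near (A : Γ) (p q : Hn Γ) : Prop where
  l : (A : WithTop Γ) ≤ vv Γ p
  r : (A : WithTop Γ) ≤ vv Γ q
  d : (A : WithTop Γ) < vv Γ (p - q)

theorem add_lt1 {A B : Γ} {x y : WithTop Γ} (h1 : (A : WithTop Γ) < x)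
    (h2 : (B : WithTop Γ) ≤ y) : ((A + B : Γ) : WithTop Γ) < x + y := by
  induction x with
  | top => simp
  | coe x =>
    induction y with
    | top => simp
    | coe y =>
      have h1' : A < x := by exact_mod_cast h1
      have h2' : B ≤ y := by exact_mod_cast h2
      exact_mod_cast add_lt_add_of_lt_of_le h1' h2'

theorem add_le1 {A B : Γ} {x y : WithTop Γ} (h1 : (A : WithTop Γ) ≤ x)
    (h2 : (B : WithTop Γ) ≤ y) : ((A + B : Γ) : WithTop Γ) ≤ x + y := by
  rw [WithTop.coe_add]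
  exact add_le_add h1 h2

theorem Near.refl {A : Γ} {p : Hn Γ} (h : (A : WithTop Γ) ≤ vv Γ p) : Near A p p := by
  refine ⟨h, h, ?_⟩
  rw [sub_self, AddValuation.map_zero]
  exact WithTop.coe_lt_top A

theorem Near.mul {A B : Γ} {p q p' q' : Hn Γ} (h : Near A p q) (h' : Near B p' q') :
    Near (A + B) (p * p') (q * q') := by
  refine ⟨?_, ?_, ?_⟩
  · rw [AddValuation.map_mul]
    exact add_le1 h.l h'.l
  · rw [AddValuation.map_mul]
    exact add_le1 h.r h'.r
  · have e : p * p' - q * q' = (p - q) * p' + q * (p' - q') := by ring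
    rw [e]
    refine AddValuation.map_lt_add _ ?_ ?_
    · rw [AddValuation.map_mul]
      exact add_lt1 h.d h'.l
    · rw [AddValuation.map_mul, add_comm A B, add_comm (vv Γ q)]
      exact add_lt1 h'.d h.r

theorem Near.pow {A : Γ} {p q : Hn Γ} (h : Near A p q) (n : ℕ) :
    Near (n • A) (p ^ n) (q ^ n) := by
  induction n with
  | zero =>
    rw [zero_smul, pow_zero, pow_zero]
    refine Near.refl ?_
    rw [AddValuation.map_one]
    exact le_refl _
  | succ n ih =>
    rw [succ_nsmul, pow_succ, pow_succ]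
    exact ih.mul h

theorem cmp (G : P3) (x x' : Fin 3 → Hn Γ) (al : Fin 3 → Γ) (V : Γ)
    (h : ∀ i, Near (al i) (x i) (x' i))
    (hG : ∀ m ∈ G.support, V ≤ m 0 • al 0 + m 1 • al 1 + m 2 • al 2) :
    (V : WithTop Γ) < vv Γ (aeval x G - aeval x' G) := by
  rw [aeval_def, aeval_def, eval₂_eq', eval₂_eq', ← Finset.sum_sub_distrib]
  refine AddValuation.map_lt_sum _ (WithTop.coe_ne_top) fun m hm => ?_
  have hc : G.coeff m ≠ 0 := mem_support_iff.1 hm
  rw [← mul_sub, AddValuation.map_mul, vv_algebraMap hc, zero_add, Fin.prod_univ_three,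
    Fin.prod_univ_three]
  refine lt_of_le_of_lt ?_ ((((h 0).pow (m 0)).mul ((h 1).pow (m 1))).mul ((h 2).pow (m 2))).d
  exact_mod_cast hG m hm

end

/-- `F(κ + X, η, y)` as a polynomial in three variables -/
noncomputable def shF (κ : ℂ) (F : P3) : P3 :=
  aeval ![(X 0 : P3) + C κ, X 1, X 2] F

theorem aeval_shF {A : Type} [CommRing A] [Algebra ℂ A] (x : Fin 3 → A) (κ : ℂ) (F : P3) :
    aeval x (shF κ F) = aeval ![x 0 + algebraMap ℂ A κ, x 1, x 2] F := by
  unfold shF
  rw [comp_aeval_apply]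
  congr 2
  funext i
  fin_cases i <;> simp

theorem xiP_eq (κ : ℂ) (F : P3) : xiP κ F = aeval ![(Polynomial.X : Polynomial Gq),
    Polynomial.C (gm 1 0 1), Polynomial.C (gm 0 1 1)] (shF κ F) := by
  rw [aeval_shF]
  rfl

theorem gm_pow (i j : ℚ) (n : ℕ) : gm i j 1 ^ n = gm (n * i) (n * j) 1 := by
  unfold gm
  rw [AddMonoidAlgebra.single_pow, one_pow]
  congr 1

theorem gm_mul (i j i' j' : ℚ) (c c' : ℂ) : gm i j c * gm i' j' c' =
    gm (i + i') (j + j') (c * c') := by
  unfold gm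
  rw [AddMonoidAlgebra.single_mul_single]
  rfl

theorem xi_term (m : Fin 3 →₀ ℕ) (c : ℂ) :
    algebraMap ℂ (Polynomial Gq) c * ∏ i, (![(Polynomial.X : Polynomial Gq),
      Polynomial.C (gm 1 0 1), Polynomial.C (gm 0 1 1)] i) ^ m i =
      Polynomial.monomial (m 0) (gm (m 1) (m 2) c) := by
  rw [Fin.prod_univ_three]
  simp only [Matrix.cons_val_zero, Matrix.cons_val_one, Matrix.cons_val]
  rw [← Polynomial.C_pow, ← Polynomial.C_pow, gm_pow, gm_pow]
  have h : algebraMap ℂ (Polynomial Gq) c = Polynomial.C (gm 0 0 c) := rfl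
  rw [h, ← Polynomial.C_mul_X_pow_eq_monomial]
  have h2 : gm (m 1) (m 2) c = gm 0 0 c * (gm ((m 1 : ℚ) * 1) ((m 1 : ℚ) * 0) 1 *
      gm ((m 2 : ℚ) * 0) ((m 2 : ℚ) * 1) 1) := by
    rw [gm_mul, gm_mul]
    congr 1 <;> ring
  rw [h2, Polynomial.C_mul, Polynomial.C_mul]
  ring

theorem xi_coeff (κ : ℂ) (F : P3) (m : Fin 3 →₀ ℕ) :
    ((xiP κ F).coeff (m 0)).coeff ((m 1 : ℚ), (m 2 : ℚ)) = (shF κ F).coeff m := by
  rw [xiP_eq, aeval_def, eval₂_eq', Finset.sum_congr rfl fun d _ => xi_term d _,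
    Polynomial.finsetSum_coeff, AddMonoidAlgebra.coeff_sum, Finsupp.finsetSum_apply]
  rw [Finset.sum_eq_single m]
  · rw [Polynomial.coeff_monomial, if_pos rfl]
    unfold gm
    simp
  · intro d _ hd
    rw [Polynomial.coeff_monomial]
    split_ifs with h
    · unfold gm
      rw [AddMonoidAlgebra.coeff_single, Finsupp.single_apply, if_neg]
      intro h2
      apply hd
      have h3 : (d 1 : ℚ) = m 1 := (Prod.mk.inj h2).1
      have h4 : (d 2 : ℚ) = m 2 := (Prod.mk.inj h2).2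
      ext i
      fin_cases i
      · exact h
      · exact_mod_cast h3
      · exact_mod_cast h4
    · rfl
  · intro hm
    rw [Polynomial.coeff_monomial, if_pos rfl, notMem_support_iff.1 hm]
    unfold gm
    simp

theorem Near.of {Γ : Type} [AddCommGroup Γ] [LinearOrder Γ] [IsOrderedAddMonoid Γ] {A : Γ}
    {p q : Hn Γ} (h : (A : WithTop Γ) ≤ vv Γ p) (hd : (A : WithTop Γ) < vv Γ (p - q)) :
    Near A p q := by
  refine ⟨h, ?_, hd⟩
  have e : q = p - (p - q) := by ring
  rw [e]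
  exact AddValuation.map_le_sub _ h hd.le

theorem lead_sub {Γ : Type} [AddCommGroup Γ] [LinearOrder Γ] [IsOrderedAddMonoid Γ] {γ : Γ}
    {p q : Hn Γ} {c : ℂ} (hp : Lead p γ c) (hq : Lead q γ c) :
    (γ : WithTop Γ) < vv Γ (p - q) := by
  by_cases h0 : p - q = 0
  · rw [h0, AddValuation.map_zero]
    exact WithTop.coe_lt_top _
  · obtain ⟨δ, d, hd⟩ := lead_exists h0
    rw [hd.val]
    by_contra hlt
    rw [not_lt] at hlt
    have hle : δ ≤ γ := by exact_mod_cast hlt
    have h1 := hd.2.1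
    rw [HahnSeries.coeff_sub] at h1
    rcases lt_or_eq_of_le hle with h | h
    · rw [hp.2.2 δ h, hq.2.2 δ h, sub_zero] at h1
      exact hd.1 h1.symm
    · rw [h, hp.2.1, hq.2.1, sub_self] at h1
      exact hd.1 h1.symm

theorem mo_le {Γ : Type} [AddCommGroup Γ] [LinearOrder Γ] [IsOrderedAddMonoid Γ] (s : Expo Γ)
    (i j : ℚ) (c : ℂ) : ((s.io (i, j) : Γ) : WithTop Γ) ≤ vv Γ (mo s i j c) := by
  by_cases h : c = 0
  · subst h
    have : mo s i j 0 = 0 := by
      unfold mo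
      simp
    rw [this, AddValuation.map_zero]
    exact le_top
  · rw [(mo_lead s i j h).val]

theorem eval_pol {H : Type} [Field H] [Algebra ℂ H] (G : P3) (S : Fin 3 → Polynomial H) (t : H) :
    (aeval S G).eval t = aeval (fun i => (S i).eval t) G := by
  induction G using MvPolynomial.induction_on with
  | C a =>
    rw [← MvPolynomial.algebraMap_eq, AlgHom.commutes, AlgHom.commutes]
    have : algebraMap ℂ (Polynomial H) a = Polynomial.C (algebraMap ℂ H a) := rfl
    rw [this, Polynomial.eval_C]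
  | add p q hp hq =>
    rw [map_add, map_add, Polynomial.eval_add, hp, hq]
  | mul_X p i hp =>
    rw [map_mul, map_mul, Polynomial.eval_mul, hp, aeval_X, aeval_X]

theorem eval_xi (he : SE6) {a : ℝ} (ha : Irrational a) (κ : ℂ) (F : P3) (t : Hn RA) :
    (PT (ia a) (xiP κ F)).eval t =
      aeval ![t, mo (exA ha) 1 0 1, mo (exA ha) 0 1 1] (shF κ F) := by
  unfold xiP
  rw [he, aeval_shF, algebraMap_eq_mo (exA ha)]
  congr 2
  funext i
  rw [← exA_io ha]
  fin_cases i
  · simp [ItemF0.PT_add, ItemF0.PT_X, ItemF0.PT_C, ItemF0.Th_gm]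
  · simp [ItemF0.PT_C, ItemF0.Th_gm]
  · simp [ItemF0.PT_C, ItemF0.Th_gm]

theorem eval_ad (he : SE6) {a : ℝ} (ha : Irrational a) (κ c : ℂ) (β : ℚ) (F : P3) (t : Hn RA) :
    (PT (ia a) (adP κ c β F)).eval t =
      aeval ![mo (exA ha) 0 (-β) c - mo (exA ha) 1 (-2 * β - 2) (β ^ 2 * c ^ 2 / 4) + t,
        mo (exA ha) 1 0 1, mo (exA ha) 0 1 1 + mo (exA ha) 1 (-β - 1) (β * c / 2)]
        (shF κ F) := by
  unfold adP
  rw [he, aeval_shF, algebraMap_eq_mo (exA ha)]
  congr 2
  funext i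
  rw [← exA_io ha]
  fin_cases i
  · show (PT (exA ha).io (Polynomial.X + Polynomial.C (gm 0 0 κ + gm 0 (-β) c -
      gm 1 (-2 * β - 2) (β ^ 2 * c ^ 2 / 4)))).eval t = mo (exA ha) 0 (-β) c -
      mo (exA ha) 1 (-2 * β - 2) (β ^ 2 * c ^ 2 / 4) + t + mo (exA ha) 0 0 κ
    rw [ItemF0.PT_add, ItemF0.PT_X, ItemF0.PT_C, Polynomial.eval_add, Polynomial.eval_X,
      Polynomial.eval_C, map_sub, map_add, ItemF0.Th_gm, ItemF0.Th_gm, ItemF0.Th_gm]
    ring
  · simp [ItemF0.PT_C, ItemF0.Th_gm]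
  · show (PT (exA ha).io (Polynomial.C (gm 0 1 1 + gm 1 (-β - 1) (β * c / 2)))).eval t =
      mo (exA ha) 0 1 1 + mo (exA ha) 1 (-β - 1) (β * c / 2)
    rw [ItemF0.PT_C, Polynomial.eval_C, map_add, ItemF0.Th_gm, ItemF0.Th_gm]

end ItemF1a

open ItemF1a in
/-- from a pure root to the adapted frame -/
theorem f1a (h1 : SB1) (h2 : SB2) (h5 : SB5) (h3 : SE3) (he : SE6) : SF1a := by
  intro F κ c β a f ha hc hβ hβ1 hab hx0 ha0 hnd hf hroot hsm
  have hAC : IsAlgClosed (Hn RA) := h1 RA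
  have hio : (exA ha).io = ia a := exA_io ha
  have hβR : (β : ℝ) ≠ 0 := by exact_mod_cast hβ
  set P := xiP κ F with hP
  set G := shF κ F with hGd
  have hV0 : vv RA (Th (ia a) (P.coeff 0)) = ((rA (-wt a (P.coeff 0)) : RA) : WithTop RA) :=
    ItemE3.wt_val h5 ha hx0
  have hne : ∀ m ∈ G.support, P.coeff (m 0) ≠ 0 := by
    intro m hm h0
    have h := xi_coeff κ F m
    rw [← hP, h0] at h
    exact mem_support_iff.1 hm (by rw [hGd, ← h]; rfl)
  have hwt : ∀ m ∈ G.support, (m 1 : ℝ) * a + m 2 ≤ wt a (P.coeff (m 0)) := by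
    intro m hm
    have hmem : ((m 1 : ℚ), (m 2 : ℚ)) ∈ (P.coeff (m 0)).coeff.support := by
      rw [Finsupp.mem_support_iff, hP, xi_coeff]
      exact mem_support_iff.1 hm
    have hns : (P.coeff (m 0)).coeff.support.Nonempty := ⟨_, hmem⟩
    unfold wt
    rw [dif_pos hns]
    have h := Finset.le_sup' (fun e : ℚ × ℚ => (e.1 : ℝ) * a + e.2) hmem
    refine le_trans (le_of_eq ?_) h
    push_cast
    rfl
  have hsm' : ∀ j, 1 ≤ j → P.coeff j ≠ 0 →
      wt a (P.coeff j) ≤ wt a (P.coeff 0) + j * β := by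
    intro j hj hjn
    have hmem : j ∈ P.support.erase 0 := by
      rw [Finset.mem_erase, Polynomial.mem_support_iff]
      exact ⟨by omega, hjn⟩
    unfold sm at hsm
    rw [dif_pos ⟨j, hmem⟩] at hsm
    have h := Finset.inf'_le (fun i : ℕ => (wt a (P.coeff 0) - wt a (P.coeff i)) / i) hmem
    rw [hsm] at h
    have hj' : (0 : ℝ) < j := by exact_mod_cast hj
    rw [le_div_iff₀ hj'] at h
    linarith
  have hb : ∀ m ∈ G.support, (m 1 : ℝ) * a + m 2 ≤ wt a (P.coeff 0) + (m 0 : ℝ) * β := by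
    intro m hm
    have h := hwt m hm
    rcases Nat.eq_zero_or_pos (m 0) with h0 | h0
    · rw [h0] at h ⊢
      simpa using h
    · exact le_trans h (hsm' (m 0) h0 (hne m hm))
  set V : RA := rA (-wt a (P.coeff 0)) with hV
  set al : Fin 3 → RA := ![rA β, rA (-a), rA (-1)] with hal
  have hG : ∀ m ∈ G.support, V ≤ m 0 • al 0 + m 1 • al 1 + m 2 • al 2 := by
    intro m hm
    have h := hb m hm
    have e : m 0 • al 0 + m 1 • al 1 + m 2 • al 2 =
        rA ((m 0 : ℝ) * β + (m 1 : ℝ) * (-a) + (m 2 : ℝ) * (-1)) := by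
      show m 0 • rA β + m 1 • rA (-a) + m 2 • rA (-1) = _
      rw [ItemE3.nsmul_rA, ItemE3.nsmul_rA, ItemE3.nsmul_rA, ← rA_add, ← rA_add]
    rw [e, hV, rA_le]
    linarith
  set et := mo (exA ha) 1 0 1 with het
  set Y := mo (exA ha) 0 1 1 with hY
  set ps := mo (exA ha) 0 (-β) c with hps
  set mu := mo (exA ha) 1 (-2 * β - 2) (β ^ 2 * c ^ 2 / 4) with hmu
  set nu := mo (exA ha) 1 (-β - 1) (β * c / 2) with hnu
  have vet : vv RA et = ((rA (-a) : RA) : WithTop RA) := by
    rw [het, (mo_lead (exA ha) 1 0 one_ne_zero).val, hio, ia_apply]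
    congr 2
    push_cast
    ring
  have vY : vv RA Y = ((rA (-1) : RA) : WithTop RA) := by
    rw [hY, (mo_lead (exA ha) 0 1 one_ne_zero).val, hio, ia_apply]
    congr 2
    push_cast
    ring
  have ebeta : ia a (0, -β) = rA β := by
    rw [ia_apply]
    congr 1
    push_cast
    ring
  have lps : Lead ps (rA β) c := by
    have := mo_lead (exA ha) 0 (-β) hc
    rw [hio, ebeta] at this
    exact this
  rw [ebeta] at hf
  have vmu : ((rA β : RA) : WithTop RA) < vv RA mu := by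
    refine lt_of_lt_of_le ?_ (mo_le (exA ha) _ _ _)
    rw [hio, ia_apply, WithTop.coe_lt_coe, rA_lt]
    push_cast
    linarith
  have vnu : ((rA (-1) : RA) : WithTop RA) < vv RA nu := by
    refine lt_of_lt_of_le ?_ (mo_le (exA ha) _ _ _)
    rw [hio, ia_apply, WithTop.coe_lt_coe, rA_lt]
    push_cast
    linarith
  set z := ps - mu with hz
  have lz : Lead z (rA β) c := by
    rw [hz, sub_eq_add_neg]
    refine lps.add ?_
    rw [AddValuation.map_neg]
    exact vmu
  set Y' := Y + nu with hY'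
  have n1 : Near (rA (-a)) et et := Near.refl vet.ge
  have n2 : Near (rA (-1)) Y Y := Near.refl vY.ge
  have n2' : Near (rA (-1)) Y Y' := by
    refine Near.of vY.ge ?_
    have e : Y - Y' = -nu := by rw [hY']; ring
    rw [e, AddValuation.map_neg]
    exact vnu
  have nf : Near (rA β) f ps := Near.of hf.val.ge (lead_sub hf lps)
  have nz : Near (rA β) ps z := Near.of lps.val.ge (lead_sub lps lz)
  have n0 : Near (rA β) (0 : Hn RA) 0 := by
    refine Near.refl ?_
    rw [AddValuation.map_zero]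
    exact le_top
  have c1 : (V : WithTop RA) < vv RA (aeval ![f, et, Y] G - aeval ![ps, et, Y] G) := by
    refine cmp G _ _ al V (fun i => ?_) hG
    fin_cases i
    · exact nf
    · exact n1
    · exact n2
  have c2 : (V : WithTop RA) < vv RA (aeval ![ps, et, Y] G - aeval ![z, et, Y'] G) := by
    refine cmp G _ _ al V (fun i => ?_) hG
    fin_cases i
    · exact nz
    · exact n1
    · exact n2'
  have c3 : (V : WithTop RA) < vv RA (aeval ![0, et, Y] G - aeval ![0, et, Y'] G) := by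
    refine cmp G _ _ al V (fun i => ?_) hG
    fin_cases i
    · exact n0
    · exact n1
    · exact n2'
  rw [hP, eval_xi he ha] at hroot
  have hroot' : aeval ![f, et, Y] G = 0 := hroot
  set Φ : Polynomial (Hn RA) := aeval ![Polynomial.X, Polynomial.C et, Polynomial.C Y'] G
    with hΦ
  have eΦ : ∀ t, Φ.eval t = aeval ![t, et, Y'] G := by
    intro t
    rw [hΦ, eval_pol]
    congr 2
    funext i
    fin_cases i <;> simp
  have e0 : aeval ![0, et, Y] G = Th (ia a) (P.coeff 0) := by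
    have h := eval_xi he ha κ F 0
    rw [← Polynomial.coeff_zero_eq_eval_zero, PT, Polynomial.coeff_map] at h
    exact h.symm
  have hc0 : vv RA (Φ.coeff 0) ≤ V := by
    by_contra hlt
    rw [not_le, Polynomial.coeff_zero_eq_eval_zero, eΦ] at hlt
    have h := AddValuation.map_lt_add (vv RA) c3 hlt
    rw [sub_add_cancel, e0, hV0] at h
    exact lt_irrefl _ h
  have hzz : (V : WithTop RA) < vv RA (Φ.eval z) := by
    rw [eΦ]
    have h := AddValuation.map_lt_add (vv RA) c1 c2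
    rw [hroot', sub_add_sub_cancel, zero_sub, AddValuation.map_neg] at h
    exact h
  have hΦ0 : Φ ≠ 0 := by
    intro h
    rw [h, Polynomial.coeff_zero, AddValuation.map_zero] at hc0
    exact absurd hc0 (not_le.2 (WithTop.coe_lt_top _))
  obtain ⟨r, hr, hvr⟩ := h2 (Hn RA) RA (vv RA) Φ z 0 lz.ne_zero (by
    rw [pow_zero, mul_one]
    exact lt_of_le_of_lt hc0 hzz) hΦ0
  rw [eΦ] at hr
  have had : (PT (ia a) (adP κ c β F)).eval (r - z) = 0 := by
    rw [eval_ad he ha]
    have e : mo (exA ha) 0 (-β) c - mo (exA ha) 1 (-2 * β - 2) (β ^ 2 * c ^ 2 / 4) + (r - z) = r :=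
      by
      rw [hz]
      ring
    rw [e]
    exact hr
  have hfin := h3 (adP κ c β F) ha0 a ha (r - z) had
  rw [AddValuation.map_sub_swap (vv RA) z r, lz.val] at hvr
  have hlt := lt_of_lt_of_le hvr hfin
  rw [WithTop.coe_lt_coe, rA_lt] at hlt
  linarith

end Pool.Agent.Work.MP_157c12_gt

end

section

/-!
# Item GM4: a compact surface immersed in a sphere is the sphere
-/

open MvPolynomial TopologicalSpace
open scoped Manifold ContDiff

namespace Pool.Agent.Work.MP_157c12_gt.ItemGM4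

variable {M : Type} [TopologicalSpace M] [ChartedSpace (E 2) M]

/-- the differential vanishes at a global maximum -/
lemma mfderiv_eq_zero_of_max (f : M → ℝ) (p0 : M) (h : ∀ p, f p ≤ f p0) (v : E 2) :
    (mfderiv 𝓘(ℝ, E 2) 𝓘(ℝ, ℝ) f p0 : E 2 →L[ℝ] ℝ) v = 0 := by
  have key : (mfderiv 𝓘(ℝ, E 2) 𝓘(ℝ, ℝ) f p0 : E 2 →L[ℝ] ℝ) = 0 := by
    by_cases hd : MDifferentiableAt 𝓘(ℝ, E 2) 𝓘(ℝ, ℝ) f p0
    · have hmax : IsLocalMax (writtenInExtChartAt 𝓘(ℝ, E 2) 𝓘(ℝ, ℝ) p0 f)
          (extChartAt 𝓘(ℝ, E 2) p0 p0) := by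
        refine Filter.Eventually.of_forall fun q => ?_
        simp only [writtenInExtChartAt, Function.comp_apply, extChartAt_model_space_eq_id,
          PartialEquiv.refl_coe, id_eq, extChartAt_to_inv]
        exact h _
      have h2 := hd.hasMFDerivAt.2
      rw [modelWithCornersSelf_coe, Set.range_id] at h2
      exact hmax.hasFDerivAt_eq_zero h2.hasFDerivAt_of_univ
    · exact mfderiv_zero_of_not_mdifferentiableAt hd
  rw [key]
  rfl

lemma not_const (x : M → E 3) (z : E 3) (hM : Nonempty M)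
    (hx : ∀ p, Function.Injective (mfderiv 𝓘(ℝ, E 2) 𝓘(ℝ, E 3) x p)) (hc : ∀ p, x p = z) :
    False := by
  obtain ⟨p⟩ := hM
  have hxz : x = fun _ => z := funext hc
  have h1 : (mfderiv 𝓘(ℝ, E 2) 𝓘(ℝ, E 3) x p : E 2 →L[ℝ] E 3) = 0 := by
    rw [hxz]
    exact mfderiv_const
  have h2 : (mfderiv 𝓘(ℝ, E 2) 𝓘(ℝ, E 3) x p : E 2 →L[ℝ] E 3) (EuclideanSpace.single 0 1) =
      (mfderiv 𝓘(ℝ, E 2) 𝓘(ℝ, E 3) x p : E 2 →L[ℝ] E 3) 0 := by
    rw [h1]
    rfl
  have h3 : (EuclideanSpace.single 0 1 : E 2) = 0 := hx p h2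
  have h4 := congrArg (fun v : E 2 => v 0) h3
  simp at h4

/-- differential of a smooth real function of `x` -/
lemma mfderiv_comp_apply (x : M → E 3) (p : M) (g : E 3 → ℝ)
    (hx : MDifferentiableAt 𝓘(ℝ, E 2) 𝓘(ℝ, E 3) x p) (hg : DifferentiableAt ℝ g (x p)) (v : E 2) :
    (mfderiv 𝓘(ℝ, E 2) 𝓘(ℝ, ℝ) (g ∘ x) p : E 2 →L[ℝ] ℝ) v =
      fderiv ℝ g (x p) ((mfderiv 𝓘(ℝ, E 2) 𝓘(ℝ, E 3) x p : E 2 →L[ℝ] E 3) v) := by
  have h := mfderiv_comp (I := 𝓘(ℝ, E 2)) (I' := 𝓘(ℝ, E 3)) (I'' := 𝓘(ℝ, ℝ)) p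
    hg.mdifferentiableAt hx
  rw [h]
  rw [mfderiv_eq_fderiv]
  rfl

lemma half_norm_sq (a w : E 3) :
    fderiv ℝ (fun w : E 3 => ‖w‖ ^ 2) a w = 0 ↔ inner ℝ a w = 0 := by
  have e4 : fderiv ℝ (fun w : E 3 => ‖w‖ ^ 2) a = 2 • innerSL ℝ a :=
    (hasStrictFDerivAt_norm_sq a).hasFDerivAt.fderiv
  rw [e4, two_smul]
  show inner ℝ a w + inner ℝ a w = 0 ↔ _
  constructor
  · intro h
    linarith
  · intro h
    rw [h, add_zero]

/-- two nonzero vectors orthogonal to a plane in space are proportional -/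
lemma proportional (D : E 2 →L[ℝ] E 3) (hD : Function.Injective D) (a z : E 3) (ha : a ≠ 0)
    (h1 : ∀ v, inner ℝ a (D v) = 0) (h2 : ∀ v, inner ℝ z (D v) = 0) : ∃ c : ℝ, z = c • a := by
  have hr : Module.finrank ℝ (LinearMap.range (D : E 2 →ₗ[ℝ] E 3)) = 2 := by
    rw [LinearMap.finrank_range_of_inj hD]
    simp
  have ho : Module.finrank ℝ (LinearMap.range (D : E 2 →ₗ[ℝ] E 3))ᗮ = 1 := by
    have := (LinearMap.range (D : E 2 →ₗ[ℝ] E 3)).finrank_add_finrank_orthogonal
    rw [hr] at this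
    have h3 : Module.finrank ℝ (E 3) = 3 := by simp
    omega
  have mem : ∀ w : E 3, (∀ v, inner ℝ w (D v) = 0) →
      w ∈ (LinearMap.range (D : E 2 →ₗ[ℝ] E 3))ᗮ := by
    intro w hw
    rw [Submodule.mem_orthogonal']
    rintro u ⟨v, rfl⟩
    exact hw v
  have hne : (⟨a, mem a h1⟩ : (LinearMap.range (D : E 2 →ₗ[ℝ] E 3))ᗮ) ≠ 0 := by
    intro h
    exact ha (congrArg Subtype.val h)
  obtain ⟨c, hc⟩ := (finrank_eq_one_iff_of_nonzero' _ hne).mp ho ⟨z, mem z h2⟩
  exact ⟨c, (congrArg Subtype.val hc).symm⟩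

end Pool.Agent.Work.MP_157c12_gt.ItemGM4

namespace Pool.Agent.Work.MP_157c12_gt

open ItemGM4

/-- a compact surface immersed in a sphere is the sphere -/
theorem gm4 : GM4 := by
  intro M _ _ _ _ _ x hsm hx κ hκ
  have hM : Nonempty M := inferInstance
  have hκ0 : 0 ≤ κ := by
    obtain ⟨p⟩ := hM
    rw [← hκ p]
    positivity
  have hκpos : 0 < κ := by
    rcases hκ0.lt_or_eq with h | h
    · exact h
    · exfalso
      refine not_const x 0 hM hx fun p => ?_
      have := hκ p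
      rw [← h] at this
      have h2 : ‖x p‖ = 0 := by
        exact pow_eq_zero_iff (two_ne_zero) |>.mp this
      exact norm_eq_zero.mp h2
  have hr : 0 < √κ := Real.sqrt_pos.mpr hκpos
  have hn : ∀ p, ‖x p‖ = √κ := by
    intro p
    rw [← hκ p, Real.sqrt_sq (norm_nonneg _)]
  refine ⟨√κ, hr, ?_⟩
  apply Set.Subset.antisymm
  · rintro _ ⟨p, rfl⟩
    rw [mem_sphere_zero_iff_norm]
    exact hn p
  · intro z hz
    rw [mem_sphere_zero_iff_norm] at hz
    by_contra hzr
    have hcont : Continuous fun p => inner ℝ z (x p) := by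
      exact (innerSL ℝ z).continuous.comp hsm.continuous
    obtain ⟨p0, -, hp0⟩ := isCompact_univ.exists_isMaxOn (Set.univ_nonempty (α := M))
      hcont.continuousOn
    have hmax : ∀ p, inner ℝ z (x p) ≤ inner ℝ z (x p0) := fun p => hp0 (Set.mem_univ p)
    have hmd : MDifferentiableAt 𝓘(ℝ, E 2) 𝓘(ℝ, E 3) x p0 :=
      hsm.mdifferentiableAt (by simp)
    obtain ⟨D, hD⟩ : ∃ D : E 2 →L[ℝ] E 3,
        D = (mfderiv 𝓘(ℝ, E 2) 𝓘(ℝ, E 3) x p0 : E 2 →L[ℝ] E 3) := ⟨_, rfl⟩
    have hDi : Function.Injective D := by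
      rw [hD]
      exact hx p0
    have h2 : ∀ v, inner ℝ z (D v) = 0 := by
      intro v
      have e1 := mfderiv_comp_apply x p0 (innerSL ℝ z) hmd (innerSL ℝ z).differentiableAt v
      have e2 := mfderiv_eq_zero_of_max ((innerSL ℝ z) ∘ x) p0 hmax v
      rw [e2, ← hD, ContinuousLinearMap.fderiv] at e1
      exact e1.symm
    have h1 : ∀ v, inner ℝ (x p0) (D v) = 0 := by
      intro v
      have hdn : DifferentiableAt ℝ (fun w : E 3 => ‖w‖ ^ 2) (x p0) :=
        (contDiff_norm_sq ℝ (n := 1)).differentiable one_ne_zero |>.differentiableAt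
      have e1 := mfderiv_comp_apply x p0 (fun w : E 3 => ‖w‖ ^ 2) hmd hdn v
      have e2 : (fun w : E 3 => ‖w‖ ^ 2) ∘ x = fun _ => κ := funext hκ
      rw [e2] at e1
      have e3 := mfderiv_eq_zero_of_max (fun _ : M => κ) p0 (fun _ => le_rfl) v
      rw [e3, ← hD] at e1
      exact (half_norm_sq (x p0) (D v)).mp e1.symm
    have hxne : x p0 ≠ 0 := by
      intro h
      have := hn p0
      rw [h, norm_zero] at this
      exact hr.ne this
    obtain ⟨c, hc⟩ := proportional D hDi (x p0) z hxne h1 h2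
    have habs : |c| = 1 := by
      have e1 : ‖z‖ = |c| * ‖x p0‖ := by rw [hc, norm_smul, Real.norm_eq_abs]
      rw [hz, hn p0] at e1
      have : (|c| - 1) * √κ = 0 := by linarith
      rcases mul_eq_zero.mp this with h | h
      · linarith
      · exact absurd h hr.ne'
    rcases (abs_eq (zero_le_one)).mp habs with h | h
    · rw [h, one_smul] at hc
      exact hzr ⟨p0, hc.symm⟩
    · rw [h, neg_one_smul] at hc
      refine not_const x (-z) hM hx fun p => ?_
      have e1 := hmax p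
      have e2 : inner ℝ z (x p0) = -κ := by
        rw [hc, inner_neg_left, real_inner_self_eq_norm_sq, hκ p0]
      rw [e2] at e1
      have e3 : ‖z + x p‖ ^ 2 ≤ 0 := by
        rw [norm_add_sq_real, hz, hκ p, Real.sq_sqrt hκ0]
        linarith
      have e4 : ‖z + x p‖ = 0 := by
        have : ‖z + x p‖ ^ 2 = 0 := le_antisymm e3 (sq_nonneg _)
        exact pow_eq_zero_iff (two_ne_zero) |>.mp this
      have e5 := norm_eq_zero.mp e4
      exact eq_neg_of_add_eq_zero_right e5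

end Pool.Agent.Work.MP_157c12_gt

end

section

/-!
# The global argument
-/

open MvPolynomial TopologicalSpace
open scoped Manifold ContDiff

namespace Pool.Agent.Work.MP_157c12_gt

namespace ItemGM5

lemma patch_mono {n m : ℕ} {O U : Opens (E n)} {X : E n → E m} (h : Patch O X) (hU : U ≤ O) :
    Patch U X :=
  ⟨fun a => (h.smooth a).mono hU, fun p hp => h.imm p (hU hp)⟩

/-- a continuous real function with values in a finite set is constant -/
lemma const_of_finite {M : Type} [TopologicalSpace M] [PreconnectedSpace M] (f : M → ℝ)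
    (hf : Continuous f) (S : Set ℝ) (hS : S.Finite) (h : ∀ m, f m ∈ S) (a b : M) : f a = f b := by
  have hc : IsPreconnected (Set.range f) := isPreconnected_range hf
  have key : ∀ a b : M, ¬ f a < f b := by
    intro a b hab
    have h1 : Set.Icc (f a) (f b) ⊆ Set.range f := hc.ordConnected.out ⟨a, rfl⟩ ⟨b, rfl⟩
    have h2 : (Set.Icc (f a) (f b)).Finite := hS.subset (h1.trans (by
      rintro _ ⟨m, rfl⟩
      exact h m))
    exact Set.Icc_infinite hab h2
  exact le_antisymm (not_lt.1 (key b a)) (not_lt.1 (key a b))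

end ItemGM5

open ItemGM5

theorem gm5 (g8 : GS8) (g9 : GS9) (g3 : GS3) (m1 : GM1) (m2 : GM2) (m3 : GM3) (m4 : GM4) :
    GM5 := by
  intro M _ _ _ _ _ x hx himm k y l hy hyn hsum hlap P hP hPx
  obtain ⟨n1, n2, n3, n4⟩ := g9
  have hN : nullP P ≠ 0 := n2 P hP
  have hK : {κ : ℂ | (quad - C κ) ∣ nullP P}.Finite := n4 _ hN
  have hp0 : (∏ i, (Polynomial.X - Polynomial.C (l i : ℂ)) : Polynomial ℂ).coeff 0 ≠ 0 := by
    rw [Polynomial.coeff_zero_eq_eval_zero, Polynomial.eval_prod, Finset.prod_ne_zero_iff]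
    intro i _
    rw [Polynomial.eval_sub, Polynomial.eval_X, Polynomial.eval_C, zero_sub, neg_ne_zero]
    intro h0
    have hl : l i = 0 := by exact_mod_cast h0
    obtain ⟨a, b, hab⟩ := hyn i
    apply hab
    ext c
    have h1 := hlap i c
    rw [hl] at h1
    exact m3 2 3 M x hx himm (y i) c (hy i) h1 a b
  have hcont : Continuous fun m : M => ‖x m‖ ^ 2 := (hx.continuous.norm).pow 2
  have hTc : IsClosed {m : M | ((‖x m‖ ^ 2 : ℝ) : ℂ) ∈ {κ : ℂ | (quad - C κ) ∣ nullP P}} :=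
    hK.isClosed.preimage (Complex.continuous_ofReal.comp hcont)
  have hTd : Dense {m : M | ((‖x m‖ ^ 2 : ℝ) : ℂ) ∈ {κ : ℂ | (quad - C κ) ∣ nullP P}} := by
    rw [dense_iff_inter_open]
    intro W hW hWne
    obtain ⟨m, hm⟩ := hWne
    have hφ := chart_mem_atlas (E 2) m
    generalize hφd : chartAt (E 2) m = φ at hφ
    have hO : IsOpen (φ.target ∩ φ.symm ⁻¹' W) := φ.isOpen_inter_preimage_symm hW
    have hms : m ∈ φ.source := hφd ▸ mem_chart_source (E 2) m
    have hOne : (φ.target ∩ φ.symm ⁻¹' W).Nonempty := by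
      refine ⟨φ m, φ.map_source hms, ?_⟩
      show φ.symm (φ m) ∈ W
      rw [φ.left_inv hms]
      exact hm
    have hpatch : Patch ⟨φ.target ∩ φ.symm ⁻¹' W, hO⟩ (fun q => x (φ.symm q)) :=
      patch_mono (m1 2 3 M x hx himm φ hφ) (fun q hq => hq.1)
    have hft := g3 ⟨φ.target ∩ φ.symm ⁻¹' W, hO⟩ (fun q => x (φ.symm q)) hpatch k
      (fun i q => y i (φ.symm q)) l
      (fun i a => (m2 2 3 M (y i) (hy i) φ hφ a).mono (fun q hq => hq.1))
      (fun q _ => hsum _) (fun i a q hq => hlap i a φ hφ q hq.1)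
    obtain ⟨U, hU, ⟨q, hq⟩, κ, hκ, hκ'⟩ := g8 ⟨φ.target ∩ φ.symm ⁻¹' W, hO⟩
      (fun q => x (φ.symm q)) hpatch hOne (nullP P) _ hN (fun q _ => by
        show eval (nv (x (φ.symm q))) (nullP P) = 0
        rw [n1, hPx]
        simp) hp0 hft
    refine ⟨φ.symm q, (hU hq).2, ?_⟩
    have h1 := hκ' q hq
    rw [n3] at h1
    show ((‖x (φ.symm q)‖ ^ 2 : ℝ) : ℂ) ∈ {κ : ℂ | (quad - C κ) ∣ nullP P}
    rw [sub_eq_zero.1 h1]
    exact hκ
  have hT : ∀ m : M, ((‖x m‖ ^ 2 : ℝ) : ℂ) ∈ {κ : ℂ | (quad - C κ) ∣ nullP P} := by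
    have h1 := hTd.closure_eq
    rw [hTc.closure_eq] at h1
    intro m
    have : m ∈ {m : M | ((‖x m‖ ^ 2 : ℝ) : ℂ) ∈ {κ : ℂ | (quad - C κ) ∣ nullP P}} := by
      rw [h1]
      exact Set.mem_univ m
    exact this
  have hS : ((fun r : ℝ => (r : ℂ)) ⁻¹' {κ : ℂ | (quad - C κ) ∣ nullP P}).Finite :=
    hK.preimage (Complex.ofReal_injective.injOn)
  obtain ⟨m0⟩ : Nonempty M := inferInstance
  exact m4 M x hx himm (‖x m0‖ ^ 2) fun p =>
    const_of_finite (fun m : M => ‖x m‖ ^ 2) hcont _ hS (fun m => hT m) p m0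

end Pool.Agent.Work.MP_157c12_gt

end

section

/-!
# Item GS1: null coordinates of a patch
-/

set_option autoImplicit false

open MvPolynomial TopologicalSpace
open scoped Manifold ContDiff

namespace Pool.Agent.Work.MP_157c12_gt.ItemGS1

variable {O : Opens (E 2)} {X : E 2 → E 3}

theorem smC (h : Patch O X) (a : Fin 3) : ContDiffOn ℝ ∞ (fun q => ((X q a : ℝ) : ℂ)) O :=
  Complex.ofRealCLM.contDiff.comp_contDiffOn (h.smooth a)

/-- derivatives of the null coordinates -/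
theorem derivs (h : Patch O X) {x : Fin 3 → RO O} (hx : IsNull X x) {p : E 2} (hp : p ∈ O)
    (i : Fin 2) :
    evO (dO O i (x 0)) p = ((pd i (fun q => X q 0) p : ℝ) : ℂ) +
      Complex.I * ((pd i (fun q => X q 1) p : ℝ) : ℂ) ∧
    evO (dO O i (x 1)) p = ((pd i (fun q => X q 0) p : ℝ) : ℂ) -
      Complex.I * ((pd i (fun q => X q 1) p : ℝ) : ℂ) ∧
    evO (dO O i (x 2)) p = ((pd i (fun q => X q 2) p : ℝ) : ℂ) := by
  have hr : ∀ a, HasFDerivAt (fun q => ((X q a : ℝ) : ℂ))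
      (Complex.ofRealCLM.comp (fderiv ℝ (fun q => X q a) p)) p := by
    intro a
    have h1 : DifferentiableAt ℝ (fun q => X q a) p :=
      ((h.smooth a).contDiffAt (O.isOpen.mem_nhds hp)).differentiableAt (by simp)
    exact Complex.ofRealCLM.hasFDerivAt.comp p h1.hasFDerivAt
  have hev : ∀ a, evO (x a) =ᶠ[nhds p] fun q => nv (X q) a := fun a =>
    Filter.eventually_of_mem (O.isOpen.mem_nhds hp) fun q hq => hx q hq a
  refine ⟨?_, ?_, ?_⟩
  · rw [dO_evO _ _ hp, (hev 0).fderiv_eq]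
    have h2 : HasFDerivAt (fun q => nv (X q) 0) _ p := (hr 0).add ((hr 1).const_mul Complex.I)
    rw [h2.fderiv]
    rfl
  · rw [dO_evO _ _ hp, (hev 1).fderiv_eq]
    have h2 : HasFDerivAt (fun q => nv (X q) 1) _ p := (hr 0).sub ((hr 1).const_mul Complex.I)
    rw [h2.fderiv]
    rfl
  · rw [dO_evO _ _ hp, (hev 2).fderiv_eq]
    have h2 : HasFDerivAt (fun q => nv (X q) 2) _ p := hr 2
    rw [h2.fderiv]
    rfl

theorem nd_ev (h : Patch O X) {x : Fin 3 → RO O} (hx : IsNull X x) {p : E 2} (hp : p ∈ O)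
    (i j : Fin 2) : evO (nd (dO O i) (dO O j) x) p = (gram X p i j : ℂ) := by
  obtain ⟨a0, a1, a2⟩ := derivs h hx hp i
  obtain ⟨b0, b1, b2⟩ := derivs h hx hp j
  unfold nd
  rw [add_evO _ _ hp, mul_evO _ _ hp, add_evO _ _ hp, mul_evO _ _ hp, mul_evO _ _ hp,
    mul_evO _ _ hp, algebraMap_evO _ hp, a0, a1, a2, b0, b1, b2]
  simp only [gram, Matrix.of_apply, Fin.sum_univ_three]
  push_cast
  ring_nf
  rw [Complex.I_sq]
  ring

theorem det_ev (h : Patch O X) {x : Fin 3 → RO O} (hx : IsNull X x) {p : E 2} (hp : p ∈ O) :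
    evO (detN (dO O 0) (dO O 1) x) p = ((gram X p).det : ℂ) := by
  unfold detN
  rw [sub_evO _ _ hp, sq, mul_evO _ _ hp, mul_evO _ _ hp, nd_ev h hx hp, nd_ev h hx hp,
    nd_ev h hx hp, Matrix.det_fin_two]
  have hs : gram X p 1 0 = gram X p 0 1 := by
    simp only [gram, Matrix.of_apply]
    exact Finset.sum_congr rfl fun a _ => mul_comm _ _
  rw [hs]
  push_cast
  ring

end Pool.Agent.Work.MP_157c12_gt.ItemGS1

namespace Pool.Agent.Work.MP_157c12_gt

open ItemGS1

theorem gs1 : GS1 := by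
  intro O X h
  refine ⟨?_, ?_⟩
  · have h0 : ContDiffOn ℝ ∞ (fun q => ((X q 0 : ℝ) : ℂ) + Complex.I * ((X q 1 : ℝ) : ℂ)) O :=
      (smC h 0).add (contDiffOn_const.mul (smC h 1))
    have h1 : ContDiffOn ℝ ∞ (fun q => ((X q 0 : ℝ) : ℂ) - Complex.I * ((X q 1 : ℝ) : ℂ)) O :=
      (smC h 0).sub (contDiffOn_const.mul (smC h 1))
    refine ⟨![mkRO _ h0, mkRO _ h1, mkRO _ (smC h 2)], ?_⟩
    intro p hp a
    fin_cases a
    · exact mkRO_evO _ h0 hp
    · exact mkRO_evO _ h1 hp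
    · exact mkRO_evO _ (smC h 2) hp
  · intro x hx
    refine ⟨fun p hp i j => nd_ev h hx hp i j, fun p hp => det_ev h hx hp, ?_⟩
    have hne : ∀ p ∈ O, evO (detN (dO O 0) (dO O 1) x) p ≠ 0 := by
      intro p hp
      rw [det_ev h hx hp]
      exact_mod_cast (h.imm p hp).ne'
    refine ⟨mkRO (fun q => (evO (detN (dO O 0) (dO O 1) x) q)⁻¹)
      ((smooth_evO _).inv hne), ?_⟩
    apply ext_evO
    intro p hp
    rw [mul_evO _ _ hp, mkRO_evO _ _ hp, one_evO hp]
    exact mul_inv_cancel₀ (hne p hp)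

end Pool.Agent.Work.MP_157c12_gt

end

section

/-!
# Item GS3: finite type patches
-/

open MvPolynomial TopologicalSpace
open scoped Manifold ContDiff

namespace Pool.Agent.Work.MP_157c12_gt

namespace ItemGS3

lemma aeval_eigen {R : Type} [AddCommGroup R] [Module ℂ R] (L : R →ₗ[ℂ] R) (c : ℂ) (v : R)
    (h : L v = c • v) (p : Polynomial ℂ) :
    (Polynomial.aeval L p : R →ₗ[ℂ] R) v = p.eval c • v := by
  have hpow : ∀ n : ℕ, (L ^ n : Module.End ℂ R) v = c ^ n • v := by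
    intro n
    induction n with
    | zero => simp
    | succ n ih =>
      rw [pow_succ', Module.End.mul_apply, ih, map_smul, h, smul_smul, pow_succ]
  induction p using Polynomial.induction_on' with
  | add p q hp hq => rw [map_add, Polynomial.eval_add, add_smul, LinearMap.add_apply, hp, hq]
  | monomial n a =>
    rw [Polynomial.aeval_monomial, Polynomial.eval_monomial, Module.End.mul_apply,
      Module.algebraMap_end_apply, hpow, smul_smul]

lemma sum_evO {O : Opens (E 2)} {ι : Type} (s : Finset ι) (f : ι → RO O) {p : E 2} (hp : p ∈ O) :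
    evO (∑ i ∈ s, f i) p = ∑ i ∈ s, evO (f i) p := by
  rw [← evH_apply hp, map_sum]
  exact Finset.sum_congr rfl fun i _ => evH_apply hp (f i)

lemma smul_evO {O : Opens (E 2)} (c : ℂ) (g : RO O) {q : E 2} (hq : q ∈ O) :
    evO (c • g) q = c * evO g q := by
  rw [Algebra.smul_def, mul_evO _ _ hq, algebraMap_evO c hq]

lemma smooth_ofReal {O : Set (E 2)} {f : E 2 → ℝ} (hf : ContDiffOn ℝ ∞ f O) :
    ContDiffOn ℝ ∞ (fun q => ((f q : ℝ) : ℂ)) O :=
  Complex.ofRealCLM.contDiff.comp_contDiffOn hf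

end ItemGS3

open ItemGS3

theorem gs3 (_h1 : GS1) (h2 : GS2) : GS3 := by
  intro O X hX k y l hy hsum hl U hU x di hnull hdet
  have hUO : (U : Set (E 2)) ⊆ O := hU
  have hXU : Patch U X := ⟨fun a => (hX.smooth a).mono hUO, fun p hp => hX.imm p (hUO hp)⟩
  -- the real coordinates
  let Y : Fin k → Fin 3 → RO U := fun i b =>
    mkRO (fun q => ((y i q b : ℝ) : ℂ)) (smooth_ofReal ((hy i b).mono hUO))
  have hYev : ∀ i b, ∀ p ∈ U, evO (Y i b) p = ((y i p b : ℝ) : ℂ) := fun i b p hp =>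
    mkRO_evO _ _ hp
  have hYlap : ∀ i b, lapL (dO U 0) (dO U 1) x di (Y i b) = (l i : ℂ) • Y i b := by
    intro i b
    apply ext_evO
    intro p hp
    have e1 := h2 U X hXU x di hnull hdet (fun q => y i q b) (Y i b) ((hy i b).mono hUO)
      (hYev i b) p hp
    have e2 : evO (lapL (dO U 0) (dO U 1) x di (Y i b)) p =
      evO (lapF (dO U 0) (dO U 1) x di (Y i b)) p := rfl
    rw [e2, e1, smul_evO _ _ hp, hYev i b p hp, hl i b p (hUO hp), Complex.ofReal_mul]
  have hker : ∀ i b, (Polynomial.aeval (lapL (dO U 0) (dO U 1) x di)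
      (∏ i, (Polynomial.X - Polynomial.C (l i : ℂ))) : RO U →ₗ[ℂ] RO U) (Y i b) = 0 := by
    intro i b
    rw [aeval_eigen _ _ _ (hYlap i b), Polynomial.eval_prod,
      Finset.prod_eq_zero (Finset.mem_univ i) (by simp), zero_smul]
  have hxs : ∀ p ∈ U, ∀ b, X p b = ∑ i, y i p b := by
    intro p hp b
    rw [hsum p (hUO hp)]
    simp
  have hx0 : x 0 = ∑ i, (Y i 0 + Complex.I • Y i 1) := by
    apply ext_evO
    intro p hp
    rw [hnull p hp 0, sum_evO _ _ hp]
    have : ∀ i ∈ (Finset.univ : Finset (Fin k)), evO (Y i 0 + Complex.I • Y i 1) p =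
        ((y i p 0 : ℝ) : ℂ) + Complex.I * ((y i p 1 : ℝ) : ℂ) := by
      intro i _
      rw [add_evO _ _ hp, smul_evO _ _ hp, hYev i 0 p hp, hYev i 1 p hp]
    rw [Finset.sum_congr rfl this, Finset.sum_add_distrib, ← Finset.mul_sum]
    show (X p 0 : ℂ) + Complex.I * (X p 1 : ℂ) = _
    rw [hxs p hp 0, hxs p hp 1, Complex.ofReal_sum, Complex.ofReal_sum]
  have hx1 : x 1 = ∑ i, (Y i 0 - Complex.I • Y i 1) := by
    apply ext_evO
    intro p hp
    rw [hnull p hp 1, sum_evO _ _ hp]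
    have : ∀ i ∈ (Finset.univ : Finset (Fin k)), evO (Y i 0 - Complex.I • Y i 1) p =
        ((y i p 0 : ℝ) : ℂ) - Complex.I * ((y i p 1 : ℝ) : ℂ) := by
      intro i _
      rw [sub_evO _ _ hp, smul_evO _ _ hp, hYev i 0 p hp, hYev i 1 p hp]
    rw [Finset.sum_congr rfl this, Finset.sum_sub_distrib, ← Finset.mul_sum]
    show (X p 0 : ℂ) - Complex.I * (X p 1 : ℂ) = _
    rw [hxs p hp 0, hxs p hp 1, Complex.ofReal_sum, Complex.ofReal_sum]
  have hx2 : x 2 = ∑ i, Y i 2 := by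
    apply ext_evO
    intro p hp
    rw [hnull p hp 2, sum_evO _ _ hp]
    have : ∀ i ∈ (Finset.univ : Finset (Fin k)), evO (Y i 2) p = ((y i p 2 : ℝ) : ℂ) :=
      fun i _ => hYev i 2 p hp
    rw [Finset.sum_congr rfl this]
    show (X p 2 : ℂ) = _
    rw [hxs p hp 2, Complex.ofReal_sum]
  intro a
  fin_cases a
  · show (Polynomial.aeval (lapL (dO U 0) (dO U 1) x di)
      (∏ i, (Polynomial.X - Polynomial.C (l i : ℂ))) : RO U →ₗ[ℂ] RO U) (x 0) = 0
    rw [hx0, map_sum]
    refine Finset.sum_eq_zero fun i _ => ?_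
    rw [map_add, map_smul, hker, hker, smul_zero, add_zero]
  · show (Polynomial.aeval (lapL (dO U 0) (dO U 1) x di)
      (∏ i, (Polynomial.X - Polynomial.C (l i : ℂ))) : RO U →ₗ[ℂ] RO U) (x 1) = 0
    rw [hx1, map_sum]
    refine Finset.sum_eq_zero fun i _ => ?_
    rw [map_sub, map_smul, hker, hker, smul_zero, sub_zero]
  · show (Polynomial.aeval (lapL (dO U 0) (dO U 1) x di)
      (∏ i, (Polynomial.X - Polynomial.C (l i : ℂ))) : RO U →ₗ[ℂ] RO U) (x 2) = 0
    rw [hx2, map_sum]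
    exact Finset.sum_eq_zero fun i _ => hker i 2

end Pool.Agent.Work.MP_157c12_gt

end

section

/-!
# Item GS4: an irreducible polynomial vanishing on a patch divides every polynomial vanishing on it
-/

open MvPolynomial TopologicalSpace
open scoped Manifold ContDiff

namespace Pool.Agent.Work.MP_157c12_gt

namespace ItemGS4

/-- from null coordinates to real coordinates -/
noncomputable def tauH : P3 →ₐ[ℂ] P3 :=
  aeval ![(X 0 : P3) + C Complex.I * X 1, (X 0 : P3) - C Complex.I * X 1, X 2]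

/-- from real coordinates to null coordinates -/
noncomputable def tauI : P3 →ₐ[ℂ] P3 :=
  aeval ![C (1 / 2) * ((X 0 : P3) + X 1), C (-Complex.I / 2) * ((X 0 : P3) - X 1), X 2]

lemma C_half : (C (1 / 2) : P3) * 2 = 1 := by
  have : (2 : P3) = C 2 := (map_ofNat C 2).symm
  rw [this, ← C_mul]
  norm_num

lemma C_I : (C (-Complex.I / 2) : P3) * 2 * C Complex.I = 1 := by
  have : (2 : P3) = C 2 := (map_ofNat C 2).symm
  rw [this, ← C_mul, ← C_mul, ← C_1]
  congr 1
  linear_combination (-1 : ℂ) * Complex.I_mul_I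

lemma C_I' : (C Complex.I : P3) * C (-Complex.I / 2) = C (1 / 2) := by
  rw [← C_mul]
  congr 1
  linear_combination (-1 / 2 : ℂ) * Complex.I_mul_I

lemma H_comp_I : tauH.comp tauI = AlgHom.id ℂ P3 := by
  apply MvPolynomial.algHom_ext
  intro a
  fin_cases a
  · simp only [tauH, tauI, AlgHom.comp_apply, aeval_X, map_mul, map_add, AlgHom.id_apply,
      Fin.zero_eta, Matrix.cons_val_zero, Matrix.cons_val_one, algHom_C, algebraMap_eq]
    linear_combination (X 0 : P3) * C_half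
  · simp only [tauH, tauI, AlgHom.comp_apply, aeval_X, map_mul, map_sub, AlgHom.id_apply,
      Fin.mk_one, Matrix.cons_val_zero, Matrix.cons_val_one, algHom_C, algebraMap_eq]
    linear_combination (X 1 : P3) * C_I
  · simp [tauH, tauI]

lemma I_comp_H : tauI.comp tauH = AlgHom.id ℂ P3 := by
  apply MvPolynomial.algHom_ext
  intro a
  fin_cases a
  · simp only [tauH, tauI, AlgHom.comp_apply, aeval_X, map_mul, map_add, AlgHom.id_apply,
      Fin.zero_eta, Matrix.cons_val_zero, Matrix.cons_val_one, algHom_C, algebraMap_eq]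
    linear_combination (X 0 : P3) * C_half + ((X 0 : P3) - X 1) * C_I'
  · simp only [tauH, tauI, AlgHom.comp_apply, aeval_X, map_mul, map_sub, AlgHom.id_apply,
      Fin.mk_one, Matrix.cons_val_zero, Matrix.cons_val_one, algHom_C, algebraMap_eq]
    linear_combination (X 1 : P3) * C_half - ((X 0 : P3) - X 1) * C_I'
  · simp [tauH, tauI]

/-- real coordinates -/
noncomputable def tau : P3 ≃ₐ[ℂ] P3 := AlgEquiv.ofAlgHom tauH tauI H_comp_I I_comp_H

lemma eval_tau (v : E 3) (G : P3) : eval (fun a => (v a : ℂ)) (tau G) = eval (nv v) G := by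
  have h : (aeval (fun a => (v a : ℂ)) : P3 →ₐ[ℂ] ℂ).comp tauH = aeval (nv v) := by
    apply MvPolynomial.algHom_ext
    intro a
    fin_cases a <;> simp [tauH, nv]
  have h2 := congrArg (fun f => f G) h
  simpa [tau, aeval_eq_eval] using h2

/-- permuted real coordinates -/
noncomputable def tauP (e : Fin 3 ≃ Fin 3) : P3 ≃ₐ[ℂ] P3 := tau.trans (renameEquiv ℂ e)

lemma eval_tauP (e : Fin 3 ≃ Fin 3) (v : E 3) (G : P3) :
    eval (fun a => (v (e.symm a) : ℂ)) (tauP e G) = eval (nv v) G := by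
  rw [← eval_tau]
  simp only [tauP, AlgEquiv.trans_apply, renameEquiv_apply, eval_rename]
  congr 2
  funext a
  simp

lemma exists_perm : ∀ i j : Fin 3, i ≠ j → ∃ e : Fin 3 ≃ Fin 3, e i = 1 ∧ e j = 2 := by
  decide

lemma exists_minor (X : E 2 → E 3) (p : E 2) (h : 0 < (gram X p).det) :
    ∃ i j : Fin 3, i ≠ j ∧ pd 0 (fun q => X q i) p * pd 1 (fun q => X q j) p -
      pd 1 (fun q => X q i) p * pd 0 (fun q => X q j) p ≠ 0 := by
  by_contra hc
  push Not at hc
  have h1 := hc 0 1 (by decide)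
  have h2 := hc 0 2 (by decide)
  have h3 := hc 1 2 (by decide)
  rw [Matrix.det_fin_two] at h
  simp only [gram, Matrix.of_apply, Fin.sum_univ_three] at h
  set a0 := pd 0 (fun q => X q 0) p
  set a1 := pd 1 (fun q => X q 0) p
  set b0 := pd 0 (fun q => X q 1) p
  set b1 := pd 1 (fun q => X q 1) p
  set c0 := pd 0 (fun q => X q 2) p
  set c1 := pd 1 (fun q => X q 2) p
  have : (a0 * a0 + b0 * b0 + c0 * c0) * (a1 * a1 + b1 * b1 + c1 * c1) -
      (a0 * a1 + b0 * b1 + c0 * c1) * (a1 * a0 + b1 * b0 + c1 * c0) =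
      (a0 * b1 - a1 * b0) ^ 2 + (a0 * c1 - a1 * c0) ^ 2 + (b0 * c1 - b1 * c0) ^ 2 := by ring
  rw [this, h1, h2, h3] at h
  norm_num at h

lemma box_in_image (O : Opens (E 2)) (X : E 2 → E 3) (hX : Patch O X) (p : E 2) (hp : p ∈ O)
    (i j : Fin 3) (hij : pd 0 (fun q => X q i) p * pd 1 (fun q => X q j) p -
      pd 1 (fun q => X q i) p * pd 0 (fun q => X q j) p ≠ 0) :
    (fun q => (fun a => X q (![i, j] a) : Fin 2 → ℝ)) '' (O : Set (E 2)) ∈
      nhds (fun a => X p (![i, j] a) : Fin 2 → ℝ) := by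
  set f : E 2 → (Fin 2 → ℝ) := fun q => (fun a => X q (![i, j] a) : Fin 2 → ℝ) with hf
  set f' : E 2 →L[ℝ] (Fin 2 → ℝ) :=
    ContinuousLinearMap.pi fun a => fderiv ℝ (fun q => X q (![i, j] a)) p with hf'
  have hO : (O : Set (E 2)) ∈ nhds p := O.isOpen.mem_nhds hp
  have h1 : HasStrictFDerivAt f f' p := by
    rw [hf, hf', hasStrictFDerivAt_pi]
    intro a
    exact ((hX.smooth _).contDiffAt hO).hasStrictFDerivAt (by simp)
  have h2 : f'.range = ⊤ := by
    rw [eq_top_iff]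
    intro y _
    set m := pd 0 (fun q => X q i) p * pd 1 (fun q => X q j) p -
      pd 1 (fun q => X q i) p * pd 0 (fun q => X q j) p with hm
    refine ⟨((y 0 * pd 1 (fun q => X q j) p - y 1 * pd 1 (fun q => X q i) p) / m) •
      EuclideanSpace.single 0 1 + ((pd 0 (fun q => X q i) p * y 1 -
        pd 0 (fun q => X q j) p * y 0) / m) • EuclideanSpace.single 1 1, ?_⟩
    funext a
    fin_cases a
    · show (fderiv ℝ (fun q => X q i) p) _ = y 0
      rw [map_add, map_smul, map_smul]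
      show _ * pd 0 (fun q => X q i) p + _ * pd 1 (fun q => X q i) p = y 0
      field_simp
      rw [hm]
      ring
    · show (fderiv ℝ (fun q => X q j) p) _ = y 1
      rw [map_add, map_smul, map_smul]
      show _ * pd 0 (fun q => X q j) p + _ * pd 1 (fun q => X q j) p = y 1
      field_simp
      rw [hm]
      ring
  have h3 := h1.map_nhds_eq_of_surj h2
  have h4 := Filter.image_mem_map (m := f) hO
  rw [h3] at h4
  exact h4

lemma box_zero {f : Fin 2 → ℝ} {S : Set (Fin 2 → ℝ)} (hS : S ∈ nhds f)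
    (r : MvPolynomial (Fin 2) ℂ) (hr : ∀ t ∈ S, eval (fun a => (t a : ℂ)) r = 0) : r = 0 := by
  obtain ⟨ε, hε, hb⟩ := Metric.mem_nhds_iff.1 hS
  apply MvPolynomial.funext_set
    (fun a => (fun t : ℝ => (t : ℂ)) '' Set.Ioo (f a - ε) (f a + ε))
  · intro a
    exact (Set.Ioo_infinite (by linarith)).image (Complex.ofReal_injective.injOn)
  · intro x hx
    have h : ∀ a, ∃ t : ℝ, t ∈ Set.Ioo (f a - ε) (f a + ε) ∧ (t : ℂ) = x a := fun a => by
      obtain ⟨t, ht, h⟩ := hx a (Set.mem_univ a)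
      exact ⟨t, ht, h⟩
    choose t ht htx using h
    have hx' : x = fun a => (t a : ℂ) := by
      funext a
      exact (htx a).symm
    rw [hx', map_zero]
    apply hr
    apply hb
    rw [Metric.mem_ball, dist_pi_lt_iff hε]
    intro a
    rw [Real.dist_eq, abs_sub_lt_iff]
    have := ht a
    constructor
    · linarith [this.2]
    · linarith [this.1]

end ItemGS4

open ItemGS4 in
/-- GS4 -/
theorem gs4 (h : SA2) : GS4 := by
  intro O X hX hne F W hF hF0 hW0
  by_contra hdvd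
  obtain ⟨p, hp⟩ := hne
  obtain ⟨i, j, hij, hm⟩ := exists_minor X p (hX.imm p hp)
  obtain ⟨e, he1, he2⟩ := exists_perm i j hij
  have hF' : Irreducible (tauP e F) := (MulEquiv.irreducible_iff (tauP e)).2 hF
  have hd' : ¬ tauP e F ∣ tauP e W := by
    intro hd
    exact hdvd ((map_dvd_iff (tauP e)).1 hd)
  obtain ⟨A, B, r, hr, hAB⟩ := h _ _ hF' hd'
  apply hr
  refine box_zero (box_in_image O X hX p hp i j hm) r ?_
  rintro _ ⟨q, hq, rfl⟩
  have h1 : eval (fun a => (X q (e.symm a) : ℂ)) (rename Fin.succ r) = 0 := by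
    rw [← hAB, map_add, map_mul, map_mul, eval_tauP, eval_tauP, hF0 q hq, hW0 q hq]
    ring
  rw [eval_rename] at h1
  rw [← h1]
  congr 2
  funext a
  fin_cases a
  · show (X q i : ℂ) = (X q (e.symm 1) : ℂ)
    rw [← he1, Equiv.symm_apply_apply]
  · show (X q j : ℂ) = (X q (e.symm 2) : ℂ)
    rw [← he2, Equiv.symm_apply_apply]

end Pool.Agent.Work.MP_157c12_gt

end

section

/-!
# GS5: an irreducible factor vanishes on an open subset
-/

open MvPolynomial TopologicalSpace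
open scoped Manifold ContDiff

namespace Pool.Agent.Work.MP_157c12_gt

namespace ItemGS5

theorem cont {O : Opens (E 2)} {X : E 2 → E 3} (h : ∀ a, ContinuousOn (fun q => X q a) O)
    (G : P3) : ContinuousOn (fun p => eval (nv (X p)) G) O := by
  have hn : ContinuousOn (fun p => nv (X p)) (O : Set (E 2)) := by
    rw [continuousOn_pi]
    have hc : ∀ a, ContinuousOn (fun q => ((X q a : ℝ) : ℂ)) (O : Set (E 2)) := fun a =>
      Complex.continuous_ofReal.comp_continuousOn (h a)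
    intro i
    fin_cases i
    · exact (hc 0).add (continuousOn_const.mul (hc 1))
    · exact (hc 0).sub (continuousOn_const.mul (hc 1))
    · exact hc 2
  exact (MvPolynomial.continuous_eval G).comp_continuousOn hn

theorem main (X : E 2 → E 3) (s : Multiset P3) : ∀ O : Opens (E 2),
    (∀ a, ContinuousOn (fun q => X q a) O) → (O : Set (E 2)).Nonempty →
    (∀ p ∈ O, eval (nv (X p)) s.prod = 0) →
    ∃ U : Opens (E 2), U ≤ O ∧ (U : Set (E 2)).Nonempty ∧ ∃ F ∈ s,
      ∀ p ∈ U, eval (nv (X p)) F = 0 := by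
  induction s using Multiset.induction_on with
  | empty =>
    intro O _ hO h
    obtain ⟨p, hp⟩ := hO
    have := h p hp
    simp at this
  | cons a s ih =>
    intro O hc hO h
    by_cases ha : ∀ p ∈ O, eval (nv (X p)) a = 0
    · exact ⟨O, le_refl _, hO, a, Multiset.mem_cons_self a s, ha⟩
    · push Not at ha
      obtain ⟨p0, hp0, hap0⟩ := ha
      have hopen : IsOpen ((O : Set (E 2)) ∩ (fun p => eval (nv (X p)) a) ⁻¹' {z | z ≠ 0}) :=
        (cont hc a).isOpen_inter_preimage O.isOpen isOpen_ne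
      obtain ⟨U, hU, hUn, F, hF, hUF⟩ := ih ⟨_, hopen⟩
        (fun b => (hc b).mono fun p hp => hp.1) ⟨p0, hp0, hap0⟩ (by
          intro p hp
          have h1 := h p hp.1
          rw [Multiset.prod_cons, map_mul] at h1
          exact (mul_eq_zero.mp h1).resolve_left hp.2)
      refine ⟨U, fun p hp => (hU hp).1, hUn, F, Multiset.mem_cons_of_mem hF, hUF⟩

end ItemGS5

/-- GS5. -/
theorem gs5 : GS5 := by
  intro O X hX hO N hN h
  obtain ⟨s, hs, hsN⟩ := WfDvdMonoid.exists_factors N hN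
  obtain ⟨U, hU, hUn, F, hF, hUF⟩ := ItemGS5.main X s O (fun a => (hX.smooth a).continuousOn) hO (by
    intro p hp
    obtain ⟨u, hu⟩ := hsN
    have h1 := h p hp
    rw [← hu, map_mul] at h1
    refine (mul_eq_zero.mp h1).resolve_right ?_
    exact (u.isUnit.map (eval (nv (X p)))).ne_zero)
  exact ⟨U, hU, hUn, F, hs F hF, (Multiset.dvd_prod hF).trans hsN.dvd, hUF⟩

end Pool.Agent.Work.MP_157c12_gt

end
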