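import Pool.Agent.Work.MP_157c12_gt.Bd.B06

/-! Bundle of small proof modules (one section per former module). -/

section

/-!
# The local theorem and the main theorem for a general centre
-/

open MvPolynomial TopologicalSpace
open scoped Manifold ContDiff

namespace Pool.Agent.Work.MP_157c12_gt

namespace ItemGS8

lemma patch_mono {n m : ℕ} {O U : Opens (E n)} {X : E n → E m} (h : Patch O X) (hU : U ≤ O) :
    Patch U X :=
  ⟨fun a => (h.smooth a).mono hU, fun p hp => h.imm p (hU hp)⟩

lemma fto_mono {p : Polynomial ℂ} {O U : Opens (E 2)} {X : E 2 → E 3} (h : FTO p O X)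
    (hU : U ≤ O) : FTO p U X :=
  fun V hV x di hx hdi => h V (hV.trans hU) x di hx hdi

end ItemGS8

open ItemGS8

theorem gs8 (h5 : GS5) (h7 : GS7) (ha : SAlg) : GS8 := by
  intro O X hX hO N p hN hNX hp hFT
  obtain ⟨U, hU, hUne, F, hF, hFN, hFX⟩ := h5 O X hX hO N hN hNX
  have hgood := h7 U X (patch_mono hX hU) hUne F p hF hFX hp (fto_mono hFT hU)
  obtain ⟨c, κ, hc, hFe⟩ := ha p F hgood
  refine ⟨U, hU, hUne, κ, ?_, ?_⟩
  · refine dvd_trans ?_ hFN
    rw [hFe]
    exact dvd_mul_left _ _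
  · intro q hq
    have := hFX q hq
    rw [hFe, map_mul, eval_C] at this
    exact (mul_eq_zero.mp this).resolve_left hc

end Pool.Agent.Work.MP_157c12_gt

end

section

/-!
# Item GS9: null coordinates of real polynomials
-/

open MvPolynomial TopologicalSpace
open scoped Manifold ContDiff

namespace Pool.Agent.Work.MP_157c12_gt.ItemGS9

lemma eval_nullP (P : MvPolynomial (Fin 3) ℝ) (v : E 3) :
    eval (nv v) (nullP P) = ((eval (fun a => v a) P : ℝ) : ℂ) := by
  have h1 : eval (nv v) (nullP P) = eval₂ (algebraMap ℝ ℂ) (fun a => (v a : ℂ)) P := by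
    rw [nullP, aeval_def, eval₂_map]
    have h2 := MvPolynomial.hom_eval₂ P ((algebraMap ℂ P3).comp (algebraMap ℝ ℂ))
      (eval (nv v)) ![C (1 / 2) * ((X 0 : P3) + X 1), C (-Complex.I / 2) * ((X 0 : P3) - X 1), X 2]
    rw [h2]
    have h3 : (eval (nv v)).comp ((algebraMap ℂ P3).comp (algebraMap ℝ ℂ)) = algebraMap ℝ ℂ := by
      ext r
      simp
    rw [h3]
    congr 1
    funext a
    fin_cases a
    · simp only [Fin.zero_eta, Matrix.cons_val_zero, map_mul, eval_C, map_add,
        eval_X, nv, Matrix.cons_val_one]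
      ring
    · simp only [Fin.mk_one, Matrix.cons_val_one, map_mul, eval_C, map_sub,
        eval_X, nv, Matrix.cons_val_zero]
      linear_combination (-(v 1 : ℂ)) * Complex.I_mul_I
    · simp [nv]
  rw [h1]
  have h4 := MvPolynomial.hom_eval₂ P (RingHom.id ℝ) (algebraMap ℝ ℂ) (fun a => v a)
  rw [RingHom.comp_id] at h4
  exact h4.symm

lemma nullP_ne_zero (P : MvPolynomial (Fin 3) ℝ) (hP : P ≠ 0) : nullP P ≠ 0 := by
  intro h
  apply hP
  apply MvPolynomial.funext
  intro w
  have h1 := eval_nullP P (WithLp.toLp 2 w)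
  rw [h, map_zero] at h1
  have h2 : ((eval w P : ℝ) : ℂ) = 0 := h1.symm
  rw [map_zero]
  exact_mod_cast h2

lemma eval_quad (v : E 3) (κ : ℂ) :
    eval (nv v) (quad - C κ) = ((‖v‖ ^ 2 : ℝ) : ℂ) - κ := by
  rw [EuclideanSpace.norm_sq_eq, Fin.sum_univ_three]
  simp only [quad, map_sub, map_add, map_mul, map_pow, eval_X, eval_C, nv, Matrix.cons_val_zero,
    Matrix.cons_val_one, Matrix.cons_val, Real.norm_eq_abs, sq_abs, Complex.ofReal_add,
    Complex.ofReal_pow]
  linear_combination (-(v 1 : ℂ) ^ 2) * Complex.I_mul_I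

lemma quad_ne_zero : quad ≠ 0 := by
  intro h
  have h1 := congrArg (eval ![(0 : ℂ), 0, 1]) h
  simp [quad] at h1

lemma finite_kappa (N : P3) (hN : N ≠ 0) : {κ : ℂ | (quad - C κ) ∣ N}.Finite := by
  have hne : N * quad ≠ 0 := mul_ne_zero hN quad_ne_zero
  obtain ⟨a, ha⟩ : ∃ a : Fin 3 → ℂ, eval a (N * quad) ≠ 0 := by
    by_contra hcon
    push Not at hcon
    exact hne (MvPolynomial.funext fun x => by rw [hcon x, map_zero])
  rw [map_mul] at ha
  have haN := left_ne_zero_of_mul ha
  have haq := right_ne_zero_of_mul ha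
  let q : Polynomial ℂ := aeval (fun i => Polynomial.C (a i) * Polynomial.X) N
  have hq : ∀ t : ℂ, q.eval t = eval (fun i => a i * t) N := by
    intro t
    have h1 : q.eval t = (Polynomial.evalRingHom t) (aeval (fun i => Polynomial.C (a i) * Polynomial.X) N) := rfl
    rw [h1, aeval_def, MvPolynomial.hom_eval₂]
    have h2 : (Polynomial.evalRingHom t).comp (algebraMap ℂ (Polynomial ℂ)) = RingHom.id ℂ := by
      ext r
      simp
    rw [h2]
    have h3 : (fun i => Polynomial.evalRingHom t (Polynomial.C (a i) * Polynomial.X)) =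
        fun i => a i * t := by
      funext i
      simp
    rw [h3]
    rfl
  have hq0 : q ≠ 0 := by
    intro h
    have h1 := hq 1
    rw [h, Polynomial.eval_zero] at h1
    simp only [mul_one] at h1
    exact haN h1.symm
  refine (((q.rootSet_finite ℂ)).image fun t => t ^ 2 * eval a quad).subset ?_
  intro κ hκ
  obtain ⟨W, hW⟩ := hκ
  obtain ⟨t, ht⟩ := IsAlgClosed.exists_pow_nat_eq (κ / eval a quad) (n := 2) (by norm_num)
  have hκt : t ^ 2 * eval a quad = κ := by
    rw [ht, div_mul_cancel₀ _ haq]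
  refine ⟨t, ?_, hκt⟩
  rw [Polynomial.mem_rootSet]
  refine ⟨hq0, ?_⟩
  have h1 : q.eval t = 0 := by
    rw [hq, hW, map_mul]
    have h2 : eval (fun i => a i * t) (quad - C κ) = 0 := by
      rw [← hκt]
      simp only [quad, map_sub, map_add, map_mul, map_pow, eval_X, eval_C]
      ring
    rw [h2, zero_mul]
  simpa using h1

end Pool.Agent.Work.MP_157c12_gt.ItemGS9

namespace Pool.Agent.Work.MP_157c12_gt

/-- null coordinates of real polynomials -/
theorem gs9 : GS9 :=
  ⟨ItemGS9.eval_nullP, ItemGS9.nullP_ne_zero, ItemGS9.eval_quad, ItemGS9.finite_kappa⟩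

end Pool.Agent.Work.MP_157c12_gt

end
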